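import Pool.Agent.Lib.MP_7629b0_nt.Defs

/-!
# MP_7629b0_nt, module AIN, core part: the analytic input from its ingredients
-/

namespace Pool.Agent.MP7629b0

open Complex

/-- a logarithm of a nonvanishing entire function on a disc, with a prescribed value at a point -/
theorem ain_log (ρ : ℝ) (F : ℂ → ℂ) (hF : Differentiable ℂ F)
    (hne : ∀ w ∈ Metric.ball (0 : ℂ) ρ, F w ≠ 0) (x0 : ℂ) (hx0 : x0 ∈ Metric.ball (0 : ℂ) ρ)
    (l0 : ℂ) (hl0 : Complex.exp l0 = F x0) :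
    ∃ h : ℂ → ℂ, DifferentiableOn ℂ h (Metric.ball 0 ρ) ∧ h x0 = l0 ∧
      ∀ w ∈ Metric.ball (0 : ℂ) ρ, Complex.exp (h w) = F w := by
  have hdF : Differentiable ℂ (deriv F) := by
    have := hF.contDiff (n := 2)
    exact (this.differentiable_deriv_two)
  have hq : DifferentiableOn ℂ (fun w => deriv F w / F w) (Metric.ball 0 ρ) :=
    DifferentiableOn.div hdF.differentiableOn hF.differentiableOn hne
  obtain ⟨g, hg0, hg⟩ := hq.isExactOn_ball.with_val_at x0 l0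
  have hgd : DifferentiableOn ℂ g (Metric.ball 0 ρ) := fun z hz =>
    (hg z hz).differentiableAt.differentiableWithinAt
  refine ⟨g, hgd, hg0, ?_⟩
  have hφ : ∀ w ∈ Metric.ball (0 : ℂ) ρ,
      HasDerivAt (fun z => F z * Complex.exp (-g z)) 0 w := by
    intro w hw
    have h1 := (hF w).hasDerivAt.mul ((hg w hw).neg.cexp)
    refine h1.congr_deriv ?_
    have h3 : F w * (deriv F w / F w) = deriv F w := by
      field_simp [hne w hw]
    linear_combination (-Complex.exp (-g w)) * h3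
  intro w hw
  have hconst : F w * Complex.exp (-g w) = F x0 * Complex.exp (-g x0) := by
    refine IsOpen.is_const_of_deriv_eq_zero Metric.isOpen_ball
      (convex_ball (0 : ℂ) ρ).isPreconnected
      (f := fun z => F z * Complex.exp (-g z))
      (fun z hz => (hφ z hz).differentiableAt.differentiableWithinAt)
      (fun z hz => (hφ z hz).deriv) hw hx0
  rw [hg0, ← hl0, ← Complex.exp_add, add_neg_cancel, Complex.exp_zero] at hconst
  have : Complex.exp (g w) * Complex.exp (-g w) = 1 := by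
    rw [← Complex.exp_add, add_neg_cancel, Complex.exp_zero]
  have h2 : Complex.exp (-g w) ≠ 0 := Complex.exp_ne_zero _
  exact mul_right_cancel₀ h2 (this.trans hconst.symm)

/-- if `exp h` is real on the reals and `h` is real at one point of an interval then it is real on
the interval -/
theorem ain_real (ρ : ℝ) (h : ℂ → ℂ) (hh : DifferentiableOn ℂ h (Metric.ball 0 ρ))
    (hr : ∀ x : ℝ, (x : ℂ) ∈ Metric.ball (0 : ℂ) ρ → (Complex.exp (h x)).im = 0)
    (x0 : ℝ) (hx0 : (x0 : ℂ) ∈ Metric.ball (0 : ℂ) ρ) (h0 : (h x0).im = 0)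
    (x : ℝ) (hx : (x : ℂ) ∈ Metric.ball (0 : ℂ) ρ) : (h x).im = 0 := by
  by_contra hne
  have hseg : ∀ y ∈ Set.uIcc x0 x, (y : ℂ) ∈ Metric.ball (0 : ℂ) ρ := by
    intro y hy
    simp only [Metric.mem_ball, dist_zero_right, Complex.norm_real, Real.norm_eq_abs] at hx hx0 ⊢
    rw [abs_lt] at *
    rcases Set.mem_uIcc.1 hy with h1 | h1 <;> constructor <;> linarith [h1.1, h1.2]
  have hcont : ContinuousOn (fun y : ℝ => (h y).im) (Set.uIcc x0 x) := by
    intro y hy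
    have h1 : ContinuousAt h (y : ℂ) :=
      (hh.differentiableAt (Metric.isOpen_ball.mem_nhds (hseg y hy))).continuousAt
    have h2 : ContinuousAt (fun y : ℝ => h y) y :=
      ContinuousAt.comp (f := fun y : ℝ => (y : ℂ)) h1 Complex.continuous_ofReal.continuousAt
    exact (Complex.continuous_im.continuousAt.comp h2).continuousWithinAt
  have hsin : ∀ y ∈ Set.uIcc x0 x, Real.sin ((h y).im) = 0 := by
    intro y hy
    have h1 := hr y (hseg y hy)
    rw [Complex.exp_im] at h1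
    exact (mul_eq_zero.1 h1).resolve_left (Real.exp_pos _).ne'
  have hivt := intermediate_value_uIcc hcont
  have hpi := Real.pi_pos
  rcases lt_or_gt_of_ne hne with hneg | hpos
  · have hv : max (h x).im (-(Real.pi / 2)) ∈ Set.uIcc ((h x0).im) ((h x).im) := by
      rw [h0, Set.mem_uIcc]
      right
      exact ⟨le_max_left _ _, max_le hneg.le (by linarith)⟩
    obtain ⟨y, hy, hyv⟩ := hivt hv
    have h1 := hsin y hy
    simp only at hyv
    rw [hyv] at h1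
    have h2 : Real.sin (max (h x).im (-(Real.pi / 2))) < 0 := by
      apply Real.sin_neg_of_neg_of_neg_pi_lt
      · exact max_lt hneg (by linarith)
      · exact lt_of_lt_of_le (by linarith) (le_max_right _ _)
    linarith
  · have hv : min (h x).im (Real.pi / 2) ∈ Set.uIcc ((h x0).im) ((h x).im) := by
      rw [h0, Set.mem_uIcc]
      left
      exact ⟨le_min hpos.le (by linarith), min_le_left _ _⟩
    obtain ⟨y, hy, hyv⟩ := hivt hv
    have h1 := hsin y hy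
    simp only at hyv
    rw [hyv] at h1
    have h2 : 0 < Real.sin (min (h x).im (Real.pi / 2)) := by
      apply Real.sin_pos_of_pos_of_lt_pi
      · exact lt_min hpos (by linarith)
      · exact lt_of_le_of_lt (min_le_right _ _) (by linarith)
    linarith

theorem ain_log100 : Real.log 100 ≤ 5 := by
  rw [Real.log_le_iff_le_exp (by norm_num)]
  have h1 := Real.exp_one_gt_d9
  have h2 : Real.exp 5 = Real.exp 1 ^ 5 := by
    rw [← Real.exp_nat_mul]
    norm_num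
  rw [h2]
  calc (100 : ℝ) ≤ (2.7182818283 : ℝ) ^ 5 := by norm_num
    _ ≤ Real.exp 1 ^ 5 := by gcongr

/-- the data at one point of the disc -/
theorem ain_point
    (hsp : ∀ t0 : ℝ, 0 < t0 → t0 ≤ 1 / 1000 → ∀ w : ℂ, ‖w‖ * t0 ^ 3 ≤ 1 / 1000 →
    ∃ τ : ℂ, ‖τ - t0‖ ≤ ‖w‖ * t0 ^ 4 ∧ LC 1 τ = SS 1 t0 + w ∧
      |(LC 0 τ + τ * LC 1 τ).re - (SS 0 t0 + t0 * SS 1 t0) - t0 * w.re| ≤
        100 * ‖w‖ ^ 2 * t0 ^ 4)
    (t1 : ℝ) (hMM : ∀ t0 : ℝ, 0 < t0 → t0 ≤ t1 → ∀ (r : ℕ) (τ : ℂ),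
      ‖τ - t0‖ ≤ t0 / 10 ^ 11 →
      t0 ^ 2 / 100 * Real.exp (LC 0 τ + τ * LC 1 τ).re ≤ ‖MM r t0 (LC 1 τ)‖ ∧
      ‖MM r t0 (LC 1 τ)‖ ≤ t0 ^ 2 * Real.exp (LC 0 τ + τ * LC 1 τ).re)
    (N : ℕ) (t : ℝ) (ht : 0 < t) (htt : t ≤ t1) (ht1 : t ≤ 1 / 1000) (hS : SS 1 t = N)
    (r : ℕ) (w : ℂ) (hw : ‖w‖ * t ^ 3 ≤ 1 / 10 ^ 11) :
    MM r t (N + w) ≠ 0 ∧
    Real.log ‖MM r t (N + w)‖ ≤ SS 0 t + t * N + t * w.re + 2 * Real.log t +
      100 * ‖w‖ ^ 2 * t ^ 4 ∧
    SS 0 t + t * N + t * w.re + 2 * Real.log t - 5 - 100 * ‖w‖ ^ 2 * t ^ 4 ≤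
      Real.log ‖MM r t (N + w)‖ := by
  obtain ⟨τ, hτ1, hτ2, hτ3⟩ := hsp t ht ht1 w (hw.trans (by norm_num))
  have hτ4 : ‖τ - t‖ ≤ t / 10 ^ 11 := by
    refine hτ1.trans ?_
    have : ‖w‖ * t ^ 4 = (‖w‖ * t ^ 3) * t := by ring
    rw [this]
    calc (‖w‖ * t ^ 3) * t ≤ 1 / 10 ^ 11 * t := by gcongr
      _ = t / 10 ^ 11 := by ring
  obtain ⟨h1, h2⟩ := hMM t ht htt r τ hτ4
  have hz : LC 1 τ = N + w := by
    rw [hτ2, hS]
    push_cast
    ring
  rw [hS] at hτ3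
  rw [hz] at h1 h2 hτ3
  set X : ℝ := (LC 0 τ + τ * (N + w)).re with hX
  have hpos : 0 < t ^ 2 / 100 * Real.exp X := by positivity
  have hnorm : 0 < ‖MM r t (N + w)‖ := lt_of_lt_of_le hpos h1
  have hne : MM r t (N + w) ≠ 0 := norm_pos_iff.1 hnorm
  have hl1 : Real.log (t ^ 2 * Real.exp X) = 2 * Real.log t + X := by
    rw [Real.log_mul (by positivity) (Real.exp_pos _).ne', Real.log_exp, Real.log_pow]
    push_cast
    ring
  have hl2 : Real.log (t ^ 2 / 100 * Real.exp X) = 2 * Real.log t - Real.log 100 + X := by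
    rw [Real.log_mul (by positivity) (Real.exp_pos _).ne', Real.log_exp,
      Real.log_div (by positivity) (by norm_num), Real.log_pow]
    push_cast
    ring
  have hu := Real.log_le_log hnorm h2
  have hlo := Real.log_le_log hpos h1
  rw [hl1] at hu
  rw [hl2] at hlo
  rw [abs_le] at hτ3
  have h100 := ain_log100
  refine ⟨hne, ?_, ?_⟩
  · linarith [hτ3.1, hτ3.2]
  · linarith [hτ3.1, hτ3.2]

theorem ain_core
    (hSS0_le : ∀ s : ℝ, 0 < s → SS 0 s ≤ (12022 / 10000) / s ^ 2)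
    (hle_SS0 : ∀ s : ℝ, 0 < s → s ≤ 1 / 100 → (116 / 100) / s ^ 2 ≤ SS 0 s)
    (hSS1_le : ∀ s : ℝ, 0 < s → SS 1 s ≤ (2405 / 1000) / s ^ 3)
    (hle_SS1 : ∀ s : ℝ, 0 < s → s ≤ 1 / 100 → (19 / 10) / s ^ 3 ≤ SS 1 s)
    (hse : ∀ N : ℕ, 10 ^ 9 ≤ N → ∃ t : ℝ, 0 < t ∧ SS 1 t = N)
    (hplMM : ∃ t1 : ℝ, 0 < t1 ∧ ∀ t0 : ℝ, 0 < t0 → t0 ≤ t1 → ∀ r n : ℕ, n % 2 = r % 2 →
      ‖(pl n : ℂ) - MM r t0 n‖ ≤ Real.exp ((312 / 1000) / t0 ^ 2 + n * t0 / 2))
    (hMMs : ∃ t1 : ℝ, 0 < t1 ∧ ∀ t0 : ℝ, 0 < t0 → t0 ≤ t1 → ∀ (r : ℕ) (τ : ℂ),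
      ‖τ - t0‖ ≤ t0 / 10 ^ 11 →
      t0 ^ 2 / 100 * Real.exp (LC 0 τ + τ * LC 1 τ).re ≤ ‖MM r t0 (LC 1 τ)‖ ∧
      ‖MM r t0 (LC 1 τ)‖ ≤ t0 ^ 2 * Real.exp (LC 0 τ + τ * LC 1 τ).re)
    (hsp : ∀ t0 : ℝ, 0 < t0 → t0 ≤ 1 / 1000 → ∀ w : ℂ, ‖w‖ * t0 ^ 3 ≤ 1 / 1000 →
    ∃ τ : ℂ, ‖τ - t0‖ ≤ ‖w‖ * t0 ^ 4 ∧ LC 1 τ = SS 1 t0 + w ∧
      |(LC 0 τ + τ * LC 1 τ).re - (SS 0 t0 + t0 * SS 1 t0) - t0 * w.re| ≤
        100 * ‖w‖ ^ 2 * t0 ^ 4)
    (hMMd : ∀ (r : ℕ) (t0 : ℝ), 0 < t0 → Differentiable ℂ (MM r t0))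
    (hMMr : ∀ (r : ℕ) (t0 : ℝ) (x : ℝ), (MM r t0 x).im = 0) :
    ∃ c C : ℝ, 0 < c ∧ 0 < C ∧ ∀ K : ℝ, 1 ≤ K → ∃ N0 : ℕ, ∀ N : ℕ, N0 ≤ N →
    ∃ t : ℝ, ∀ r : ℕ, r < 2 → ∃ h : ℂ → ℂ, AD c C K N r t h := by
  obtain ⟨t1, ht1, hMM⟩ := hMMs
  obtain ⟨t2, ht2, hpl⟩ := hplMM
  refine ⟨1, 1000, one_pos, by norm_num, fun K hK => ?_⟩
  set t3 : ℝ := min (min t1 t2) (1 / 1000) with ht3
  have ht3pos : 0 < t3 := by positivity
  obtain ⟨N1, hN1⟩ := exists_nat_ge (2405 / 1000 / t3 ^ 3)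
  obtain ⟨N2, hN2⟩ := exists_nat_ge (Real.exp (5 * 10 ^ 11 * K))
  refine ⟨max (max N1 N2) (10 ^ 9), fun N hN => ?_⟩
  have hNN1 : N1 ≤ N := le_trans (le_trans (le_max_left _ _) (le_max_left _ _)) hN
  have hNN2 : N2 ≤ N := le_trans (le_trans (le_max_right _ _) (le_max_left _ _)) hN
  have hNN3 : 10 ^ 9 ≤ N := le_trans (le_max_right _ _) hN
  have hNpos : (0 : ℝ) < N := by
    have : 0 < N := lt_of_lt_of_le (by norm_num) hNN3
    exact_mod_cast this
  have hlog : 5 * 10 ^ 11 * K ≤ Real.log N := by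
    rw [Real.le_log_iff_exp_le hNpos]
    exact hN2.trans (by exact_mod_cast hNN2)
  have hLpos : 0 < Real.log N := lt_of_lt_of_le (by positivity) hlog
  obtain ⟨t, ht, hS⟩ := hse N hNN3
  have hNt : (N : ℝ) * t ^ 3 ≤ 2405 / 1000 := by
    have := hSS1_le t ht
    rw [hS, le_div_iff₀ (by positivity)] at this
    exact this
  have htt3 : t ≤ t3 := by
    by_contra hlt
    push Not at hlt
    have h1 : t3 ^ 3 < t ^ 3 := by gcongr
    have h2 : 2405 / 1000 / t3 ^ 3 ≤ N := hN1.trans (by exact_mod_cast hNN1)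
    rw [div_le_iff₀ (by positivity)] at h2
    have h3 : (N : ℝ) * t3 ^ 3 < N * t ^ 3 := by gcongr
    linarith
  have htt1 : t ≤ t1 := htt3.trans ((min_le_left _ _).trans (min_le_left _ _))
  have htt2 : t ≤ t2 := htt3.trans ((min_le_left _ _).trans (min_le_right _ _))
  have htt0 : t ≤ 1 / 1000 := htt3.trans (min_le_right _ _)
  have hNt' : 19 / 10 ≤ (N : ℝ) * t ^ 3 := by
    have := hle_SS1 t ht (htt0.trans (by norm_num))
    rw [hS, div_le_iff₀ (by positivity)] at this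
    exact this
  have hS0u := hSS0_le t ht
  have hS0l := hle_SS0 t ht (htt0.trans (by norm_num))
  refine ⟨t, fun r hr => ?_⟩
  -- notation
  set R : ℝ := K * N / Real.log N with hRdef
  have hRpos : 0 < R := by positivity
  have hR1 : 1 ≤ R := by
    rw [hRdef, le_div_iff₀ hLpos, one_mul]
    have h1 := Real.log_le_self hNpos.le
    nlinarith
  set u : ℝ := 1 / t ^ 2 with hu
  have hupos : 0 < u := by positivity
  have htu : u * t ^ 2 = 1 := by
    rw [hu]; field_simp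
  have hubig : 10 ^ 6 ≤ u := by
    rw [hu, le_div_iff₀ (by positivity)]
    have : t ^ 2 ≤ (1 / 1000) ^ 2 := by gcongr
    nlinarith
  have hRt : 2 * R * t ^ 3 ≤ 1 / 10 ^ 11 := by
    have h1 : 2 * R * t ^ 3 = 2 * K * (N * t ^ 3) / Real.log N := by
      rw [hRdef]; ring
    rw [h1, div_le_iff₀ hLpos]
    have h2 : 2 * K * (N * t ^ 3) ≤ 2 * K * (2405 / 1000) := by gcongr
    have h3 : 1 / 10 ^ 11 * (5 * 10 ^ 11 * K) ≤ 1 / 10 ^ 11 * Real.log N := by gcongr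
    have h4 : 1 / 10 ^ 11 * (5 * 10 ^ 11 * K) = 5 * K := by ring
    linarith
  have hpt : ∀ w : ℂ, ‖w‖ ≤ 2 * R → MM r t (N + w) ≠ 0 ∧
      Real.log ‖MM r t (N + w)‖ ≤ SS 0 t + t * N + t * w.re + 2 * Real.log t +
        100 * ‖w‖ ^ 2 * t ^ 4 ∧
      SS 0 t + t * N + t * w.re + 2 * Real.log t - 5 - 100 * ‖w‖ ^ 2 * t ^ 4 ≤
        Real.log ‖MM r t (N + w)‖ := by
    intro w hw
    refine ain_point hsp t1 hMM N t ht htt1 htt0 hS r w ?_
    calc ‖w‖ * t ^ 3 ≤ 2 * R * t ^ 3 := by gcongr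
      _ ≤ _ := hRt
  -- size of log t
  have hlogt : -Real.log t ≤ u / 1000 := by
    have h1 : -Real.log t = Real.log (1 / t) := by
      rw [one_div, Real.log_inv]
    have h2 : Real.log (1 / t) ≤ 1 / t := Real.log_le_self (by positivity)
    have h3 : 1 / t = u * t := by
      rw [hu]; field_simp
    have h4 : u * t ≤ u * (1 / 1000) := by gcongr
    linarith
  have hlogt0 : Real.log t ≤ 0 := Real.log_nonpos ht.le (htt0.trans (by norm_num))
  have hNtu : t * N ≤ 2405 / 1000 * u := by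
    have h1 : t * N = u * (N * t ^ 3) := by
      have : u * (N * t ^ 3) = (u * t ^ 2) * (t * N) := by ring
      rw [this, htu, one_mul]
    rw [h1]
    nlinarith
  have hNtpos : 0 ≤ t * N := by positivity
  have hS0u' : SS 0 t ≤ 12022 / 10000 * u := by
    rw [hu]; rw [mul_one_div]; exact hS0u
  have hS0l' : 116 / 100 * u ≤ SS 0 t := by
    rw [hu]; rw [mul_one_div]; exact hS0l
  -- values at 0
  have h0 := hpt 0 (by simp; positivity)
  simp only [Complex.zero_re, mul_zero, norm_zero, add_zero] at h0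
  have e0 : (0 : ℝ) ^ 2 = 0 := by norm_num
  rw [e0] at h0
  simp only [mul_zero, zero_mul, add_zero, sub_zero] at h0
  obtain ⟨h0ne, h0u, h0l⟩ := h0
  -- the key inequality
  have hkey : ∀ x : ℕ, (x : ℝ) ≤ R → (312 / 1000) / t ^ 2 + ((N + x : ℕ) : ℝ) * t / 2 ≤
      -(57 / 100) * Real.log ‖MM r t N‖ + Real.log ‖MM r t (N + (x : ℂ))‖ := by
    intro x hx
    have hxn : ‖(x : ℂ)‖ = x := by simp
    obtain ⟨-, -, h3⟩ := hpt (x : ℂ) (by rw [hxn]; linarith)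
    rw [hxn, Complex.natCast_re] at h3
    have hxt : (x : ℝ) * t ^ 3 ≤ 1 / 10 ^ 11 := by
      have h41 : (x : ℝ) * t ^ 3 ≤ R * t ^ 3 := by gcongr
      have h42 : 0 ≤ R * t ^ 3 := by positivity
      linarith
    have h4 : 100 * (x : ℝ) ^ 2 * t ^ 4 ≤ u / 10 ^ 6 := by
      have h5 : 100 * (x : ℝ) ^ 2 * t ^ 4 = 100 * (x * t ^ 3) ^ 2 * u := by
        have : 100 * ((x : ℝ) * t ^ 3) ^ 2 * u = 100 * (x : ℝ) ^ 2 * t ^ 4 * (u * t ^ 2) := by ring
        rw [this, htu, mul_one]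
      rw [h5]
      have h6 : ((x : ℝ) * t ^ 3) ^ 2 ≤ (1 / 10 ^ 11) ^ 2 := by
        have h61 : 0 ≤ (x : ℝ) * t ^ 3 := by positivity
        exact pow_le_pow_left₀ h61 hxt 2
      calc 100 * ((x : ℝ) * t ^ 3) ^ 2 * u ≤ 100 * (1 / 10 ^ 11) ^ 2 * u := by gcongr
        _ ≤ (1 / 10 ^ 6) * u := by gcongr; norm_num
        _ = u / 10 ^ 6 := by ring
    have h7 : (312 / 1000) / t ^ 2 = 312 / 1000 * u := by
      rw [hu]; ring
    rw [h7]
    push_cast
    have h8 : 0 ≤ (x : ℝ) * t := by positivity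
    have h9 : (5 : ℝ) ≤ u * (5 / 10 ^ 6) := by linarith
    linarith
  -- reality
  have hMr : ∀ x : ℝ, (MM r t (N + (x : ℂ))).im = 0 := by
    intro x
    have := hMMr r t (N + x)
    push_cast at this
    exact this
  -- the first point
  obtain ⟨x0, hx0, hx0r⟩ : ∃ x0 : ℕ, x0 ≤ 1 ∧ (N + x0) % 2 = r := by
    rcases Nat.lt_or_ge (N % 2) (r + 1) with h | h
    · rcases Nat.eq_or_lt_of_le (Nat.lt_succ_iff.1 h) with h | h
      · exact ⟨0, by norm_num, by simpa using h⟩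
      · exact ⟨1, le_refl _, by omega⟩
    · exact ⟨1, le_refl _, by omega⟩
  have hx0R : (x0 : ℝ) ≤ R := by
    have : (x0 : ℝ) ≤ 1 := by exact_mod_cast hx0
    linarith
  have hlogpos : 0 < Real.log ‖MM r t N‖ := by
    have h9 : (5 : ℝ) ≤ u * (5 / 10 ^ 6) := by linarith
    linarith
  have hbound : ∀ x : ℕ, (x : ℝ) ≤ R → (N + x) % 2 = r →
      ‖(pl (N + x) : ℂ) - MM r t (N + (x : ℂ))‖ ≤
        Real.exp (-(57 / 100) * Real.log ‖MM r t N‖) * ‖MM r t (N + (x : ℂ))‖ := by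
    intro x hx hxr
    have h1 := hpl t ht htt2 r (N + x) (by rw [hxr, Nat.mod_eq_of_lt hr])
    have h2 := hkey x hx
    have h3 : 0 < ‖MM r t (N + (x : ℂ))‖ := by
      rw [norm_pos_iff]
      exact (hpt (x : ℂ) (by simp; linarith)).1
    have h4 : Real.exp (-(57 / 100) * Real.log ‖MM r t N‖) * ‖MM r t (N + (x : ℂ))‖ =
        Real.exp (-(57 / 100) * Real.log ‖MM r t N‖ + Real.log ‖MM r t (N + (x : ℂ))‖) := by
      rw [Real.exp_add, Real.exp_log h3]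
    rw [h4]
    have h5 : ((N + x : ℕ) : ℂ) = N + (x : ℂ) := by push_cast; ring
    rw [h5] at h1
    exact h1.trans (Real.exp_le_exp.2 h2)
  have hpos : ∀ x : ℕ, (x : ℝ) ≤ R → (N + x) % 2 = r → 0 < (MM r t (N + (x : ℂ))).re := by
    intro x hx hxr
    have h1 := hbound x hx hxr
    have h3 : 0 < ‖MM r t (N + (x : ℂ))‖ := by
      rw [norm_pos_iff]
      exact (hpt (x : ℂ) (by simp; linarith)).1
    have h4 : Real.exp (-(57 / 100) * Real.log ‖MM r t N‖) < 1 := by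
      rw [Real.exp_lt_one_iff]
      linarith
    have h5 : ‖(pl (N + x) : ℂ) - MM r t (N + (x : ℂ))‖ < ‖MM r t (N + (x : ℂ))‖ := by
      nlinarith
    have him : (MM r t (N + (x : ℂ))).im = 0 := by
      have := hMr x
      simpa using this
    have h6 : MM r t (N + (x : ℂ)) = (((MM r t (N + (x : ℂ))).re : ℝ) : ℂ) := by
      apply Complex.ext <;> simp [him]
    rw [h6] at h5
    have h7 : ((pl (N + x) : ℕ) : ℂ) - (((MM r t (N + (x : ℂ))).re : ℝ) : ℂ) =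
        ((((pl (N + x) : ℕ) : ℝ) - (MM r t (N + (x : ℂ))).re : ℝ) : ℂ) := by
      push_cast; ring
    rw [h7, Complex.norm_real, Complex.norm_real, Real.norm_eq_abs, Real.norm_eq_abs] at h5
    have h8 : (0 : ℝ) ≤ ((pl (N + x) : ℕ) : ℝ) := Nat.cast_nonneg _
    by_contra hle
    push Not at hle
    rw [abs_of_nonneg (by linarith), abs_of_nonpos hle] at h5
    linarith
  -- the logarithm
  have hF : Differentiable ℂ (fun w => MM r t (N + w)) :=
    (hMMd r t ht).comp (by fun_prop)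
  have hball : ∀ w ∈ Metric.ball (0 : ℂ) (2 * R), ‖w‖ ≤ 2 * R := by
    intro w hw
    rw [Metric.mem_ball, dist_zero_right] at hw
    exact hw.le
  have hx0b : ((x0 : ℝ) : ℂ) ∈ Metric.ball (0 : ℂ) (2 * R) := by
    simp
    linarith
  obtain ⟨h, hh1, hh2, hh3⟩ := ain_log (2 * R) (fun w => MM r t (N + w)) hF
    (fun w hw => (hpt w (hball w hw)).1) ((x0 : ℝ) : ℂ) hx0b
    ((Real.log (MM r t (N + (x0 : ℂ))).re : ℝ) : ℂ) (by
      rw [← Complex.ofReal_exp, Real.exp_log (hpos x0 hx0R hx0r)]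
      have him : (MM r t (N + (x0 : ℂ))).im = 0 := by
        have := hMr x0
        simpa using this
      apply Complex.ext <;> simp [him])
  have hre : ∀ w ∈ Metric.ball (0 : ℂ) (2 * R), (h w).re = Real.log ‖MM r t (N + w)‖ := by
    intro w hw
    rw [← hh3 w hw, Complex.norm_exp, Real.log_exp]
  have hmem : ∀ w : ℂ, ‖w‖ ≤ R → w ∈ Metric.ball (0 : ℂ) (2 * R) := by
    intro w hw
    rw [Metric.mem_ball, dist_zero_right]
    linarith
  have hh0 : (h 0).re = Real.log ‖MM r t N‖ := by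
    rw [hre 0 (hmem 0 (by simp; positivity)), add_zero]
  refine ⟨h, ?_⟩
  refine AD.mk ht (by linarith) (by linarith) ?_ ?_ ?_ ?_ ?_ ?_
  · intro w hw
    have hw' : ‖w‖ ≤ R := by
      rw [Metric.mem_closedBall, dist_zero_right] at hw
      exact hw
    exact hh1.analyticAt (Metric.isOpen_ball.mem_nhds (hmem w hw'))
  · intro x hx0' hxR
    refine ain_real (2 * R) h hh1 ?_ x0 hx0b ?_ x (hmem x ?_)
    · intro y hy
      rw [hh3 y hy]
      exact hMr y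
    · rw [hh2]
      simp
    · rw [Complex.norm_real, Real.norm_eq_abs, abs_of_nonneg hx0']
      exact hxR
  · rw [hh0, ← hu]
    have h9 : (5 : ℝ) ≤ u * (5 / 10 ^ 6) := by linarith
    linarith
  · rw [hh0, div_eq_mul_one_div, ← hu]
    linarith
  · intro w hw
    rw [hre w (hmem w hw), hh0]
    obtain ⟨-, h3, h4⟩ := hpt w (by linarith)
    have h5 : 0 ≤ ‖w‖ ^ 2 * t ^ 4 := by positivity
    rw [abs_le]
    constructor <;> nlinarith
  · intro x hx hxr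
    have h1 := hbound x hx hxr
    have h2 := hpos x hx hxr
    have him : (MM r t (N + (x : ℂ))).im = 0 := by
      have := hMr x
      simpa using this
    have h6 : MM r t (N + (x : ℂ)) = (((MM r t (N + (x : ℂ))).re : ℝ) : ℂ) := by
      apply Complex.ext <;> simp [him]
    have h3 : ‖MM r t (N + (x : ℂ))‖ = (MM r t (N + (x : ℂ))).re := by
      rw [h6, Complex.norm_real, Real.norm_eq_abs, Complex.ofReal_re, abs_of_pos h2]
    have h4 : Real.exp (h x).re = (MM r t (N + (x : ℂ))).re := by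
      rw [hre x (hmem x (by simpa using hx)), Real.exp_log (by rw [h3]; exact h2), h3]
    rw [h4, hh0]
    rw [← h3]
    refine le_trans (le_of_eq ?_) h1
    rw [h3]
    have h7 : ((pl (N + x) : ℕ) : ℂ) - MM r t (N + (x : ℂ)) =
        ((((pl (N + x) : ℕ) : ℝ) - (MM r t (N + (x : ℂ))).re : ℝ) : ℂ) := by
      rw [h6]
      push_cast
      simp
    rw [h7, Complex.norm_real, Real.norm_eq_abs]

end Pool.Agent.MP7629b0
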