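import Pool.Agent.Lib.MP_7629b0_nt.Defs

/-!
# MP_7629b0_nt, module LCA: elementary properties of the Dirichlet series `L` and its derivatives.
-/

namespace Pool.Agent.MP7629b0

open Complex

theorem cc_nonneg (n : ℕ) : 0 ≤ cc n :=
  div_nonneg (Finset.sum_nonneg fun _ _ => sq_nonneg _) (Nat.cast_nonneg n)

theorem le_cc (n : ℕ) : (n : ℝ) ≤ cc n := by
  rcases Nat.eq_zero_or_pos n with rfl | hn
  · simp [cc]
  · have hn' : (0 : ℝ) < n := by exact_mod_cast hn
    rw [cc, le_div_iff₀ hn']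
    have h : ((n : ℕ) : ℝ) ^ 2 ≤ ∑ d ∈ n.divisors, (d : ℝ) ^ 2 :=
      Finset.single_le_sum (f := fun d : ℕ => (d : ℝ) ^ 2) (fun d _ => sq_nonneg _)
        (Nat.mem_divisors.mpr ⟨dvd_rfl, hn.ne'⟩)
    nlinarith [h]

theorem LCA_sum_inv_sq (n : ℕ) (hn : 1 ≤ n) :
    ∑ d ∈ Finset.Icc 1 n, (1 : ℝ) / (d : ℝ) ^ 2 ≤ 2 - 1 / n := by
  induction n, hn using Nat.le_induction with
  | base => norm_num
  | succ n hn ih =>
    rw [Finset.sum_Icc_succ_top (by omega)]
    have hn' : (0 : ℝ) < n := by exact_mod_cast hn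
    have h : (1 : ℝ) / ((n + 1 : ℕ) : ℝ) ^ 2 ≤ 1 / n - 1 / ((n + 1 : ℕ) : ℝ) := by
      push_cast
      rw [div_sub_div _ _ hn'.ne' (by positivity), div_le_div_iff₀ (by positivity) (by positivity)]
      nlinarith
    linarith

theorem cc_le (n : ℕ) : cc n ≤ 2 * n := by
  rcases Nat.eq_zero_or_pos n with rfl | hn
  · simp [cc]
  · have hn' : (0 : ℝ) < n := by exact_mod_cast hn
    rw [cc, div_le_iff₀ hn']
    have h1 : ∑ d ∈ n.divisors, (d : ℝ) ^ 2 =
        ∑ d ∈ n.divisors, ((n / d : ℕ) : ℝ) ^ 2 :=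
      (Nat.sum_div_divisors n (fun d => (d : ℝ) ^ 2)).symm
    have h2 : ∑ d ∈ n.divisors, ((n / d : ℕ) : ℝ) ^ 2 =
        (n : ℝ) ^ 2 * ∑ d ∈ n.divisors, (1 : ℝ) / (d : ℝ) ^ 2 := by
      rw [Finset.mul_sum]
      refine Finset.sum_congr rfl fun d hd => ?_
      have hd' := Nat.mem_divisors.mp hd
      have hd0 : (d : ℝ) ≠ 0 := by
        have : d ≠ 0 := fun h => hd'.2 (by rw [h] at hd'; exact Nat.eq_zero_of_zero_dvd hd'.1)
        exact_mod_cast this
      rw [Nat.cast_div hd'.1 hd0]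
      field_simp
    have h3 : ∑ d ∈ n.divisors, (1 : ℝ) / (d : ℝ) ^ 2 ≤
        ∑ d ∈ Finset.Icc 1 n, (1 : ℝ) / (d : ℝ) ^ 2 := by
      refine Finset.sum_le_sum_of_subset_of_nonneg ?_ fun d _ _ => by positivity
      intro d hd
      have hd' := Nat.mem_divisors.mp hd
      exact Finset.mem_Icc.mpr ⟨Nat.pos_of_mem_divisors hd, Nat.le_of_dvd hn hd'.1⟩
    have h4 := LCA_sum_inv_sq n hn
    have h5 : (0 : ℝ) ≤ 1 / n := by positivity
    have h6 : ∑ d ∈ n.divisors, (1 : ℝ) / (d : ℝ) ^ 2 ≤ 2 := by linarith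
    rw [h1, h2]
    nlinarith [sq_nonneg (n : ℝ)]

theorem SS_summable (j : ℕ) (s : ℝ) (hs : 0 < s) :
    Summable fun n : ℕ => cc n * (n : ℝ) ^ j * Real.exp (-(n * s)) := by
  have h := (Real.summable_pow_mul_exp_neg_nat_mul (j + 1) hs).mul_left 2
  refine Summable.of_nonneg_of_le (fun n => ?_) (fun n => ?_) h
  · have := cc_nonneg n
    positivity
  · have h1 := cc_le n
    have h2 : (0 : ℝ) ≤ (n : ℝ) ^ j * Real.exp (-(n * s)) := by positivity
    calc cc n * (n : ℝ) ^ j * Real.exp (-(n * s))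
        = cc n * ((n : ℝ) ^ j * Real.exp (-(n * s))) := by ring
      _ ≤ (2 * n) * ((n : ℝ) ^ j * Real.exp (-(n * s))) := mul_le_mul_of_nonneg_right h1 h2
      _ = 2 * ((n : ℝ) ^ (j + 1) * Real.exp (-s * n)) := by
          rw [pow_succ]
          have : -(n * s) = -s * n := by ring
          rw [this]
          ring

theorem LCA_norm_term (j n : ℕ) (t : ℂ) :
    ‖(cc n : ℂ) * (n : ℂ) ^ j * Complex.exp (-(n * t))‖ =
      cc n * (n : ℝ) ^ j * Real.exp (-(n * t.re)) := by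
  rw [norm_mul, norm_mul, norm_pow, Complex.norm_natCast, Complex.norm_exp, Complex.norm_real,
    Real.norm_of_nonneg (cc_nonneg n)]
  congr 2
  simp

theorem LC_summable (j : ℕ) (t : ℂ) (ht : 0 < t.re) :
    Summable fun n : ℕ => (cc n : ℂ) * (n : ℂ) ^ j * Complex.exp (-(n * t)) := by
  refine Summable.of_norm ?_
  simp only [LCA_norm_term]
  exact SS_summable j t.re ht

theorem LC_norm_le (j : ℕ) (t : ℂ) (ht : 0 < t.re) : ‖LC j t‖ ≤ SS j t.re := by
  have h : Summable fun n : ℕ => ‖(cc n : ℂ) * (n : ℂ) ^ j * Complex.exp (-(n * t))‖ := by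
    simp only [LCA_norm_term]
    exact SS_summable j t.re ht
  refine (norm_tsum_le_tsum_norm h).trans ?_
  simp only [LCA_norm_term]
  exact le_rfl

theorem LC_ofReal (j : ℕ) (s : ℝ) : LC j s = (SS j s : ℂ) := by
  rw [LC, SS, Complex.ofReal_tsum]
  refine tsum_congr fun n => ?_
  push_cast
  rfl

theorem LC_conj (j : ℕ) (t : ℂ) : LC j (starRingEnd ℂ t) = starRingEnd ℂ (LC j t) := by
  rw [LC, LC, Complex.conj_tsum]
  refine tsum_congr fun n => ?_
  rw [map_mul, map_mul, map_pow, Complex.conj_ofReal, ← Complex.exp_conj, map_neg, map_mul,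
    Complex.conj_natCast]

theorem LC_hasDerivAt (j : ℕ) (t : ℂ) (ht : 0 < t.re) : HasDerivAt (LC j) (-LC (j + 1) t) t := by
  have hlt : t.re / 2 < t.re := by linarith
  have h := hasDerivAt_tsum_of_isPreconnected
    (g := fun (n : ℕ) (z : ℂ) => (cc n : ℂ) * (n : ℂ) ^ j * Complex.exp (-(n * z)))
    (g' := fun (n : ℕ) (z : ℂ) => -((cc n : ℂ) * (n : ℂ) ^ (j + 1) * Complex.exp (-(n * z))))
    (t := {z : ℂ | t.re / 2 < z.re}) (y₀ := t) (y := t)
    (SS_summable (j + 1) (t.re / 2) (by linarith))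
    (isOpen_lt continuous_const Complex.continuous_re)
    (convex_halfSpace_re_gt (t.re / 2)).isPreconnected
    (fun n z _ => by
      have h1 : HasDerivAt (fun z : ℂ => -((n : ℂ) * z)) (-((n : ℂ) * 1)) z :=
        ((hasDerivAt_id z).const_mul (n : ℂ)).neg
      have h2 := (h1.cexp).const_mul ((cc n : ℂ) * (n : ℂ) ^ j)
      have e : (cc n : ℂ) * (n : ℂ) ^ j * (Complex.exp (-((n : ℂ) * z)) * (-((n : ℂ) * 1))) =
          -((cc n : ℂ) * (n : ℂ) ^ (j + 1) * Complex.exp (-(n * z))) := by ring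
      rw [e] at h2
      exact h2)
    (fun n z hz => by
      rw [norm_neg, LCA_norm_term]
      have hz' : t.re / 2 ≤ z.re := le_of_lt hz
      have := cc_nonneg n
      refine mul_le_mul_of_nonneg_left ?_ (by positivity)
      rw [Real.exp_le_exp]
      have : (n : ℝ) * (t.re / 2) ≤ n * z.re := mul_le_mul_of_nonneg_left hz' (Nat.cast_nonneg n)
      linarith)
    hlt (LC_summable j t ht) hlt
  have e : ∑' n : ℕ, -((cc n : ℂ) * (n : ℂ) ^ (j + 1) * Complex.exp (-(n * t))) =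
      -LC (j + 1) t := by
    rw [tsum_neg]
    rfl
  rw [e] at h
  exact h

theorem SS_hasDerivAt (j : ℕ) (s : ℝ) (hs : 0 < s) : HasDerivAt (SS j) (-SS (j + 1) s) s := by
  have h := (LC_hasDerivAt j (s : ℂ) (by simpa using hs)).real_of_complex
  have e1 : (fun x : ℝ => (LC j (x : ℂ)).re) = SS j := by
    funext x
    rw [LC_ofReal, Complex.ofReal_re]
  rw [e1, LC_ofReal, ← Complex.ofReal_neg, Complex.ofReal_re] at h
  exact h

theorem SS_anti (j : ℕ) (s s' : ℝ) (hs : 0 < s) (h : s ≤ s') : SS j s' ≤ SS j s := by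
  refine Summable.tsum_le_tsum (fun n => ?_) (SS_summable j s' (hs.trans_le h))
    (SS_summable j s hs)
  have := cc_nonneg n
  refine mul_le_mul_of_nonneg_left ?_ (by positivity)
  rw [Real.exp_le_exp]
  have : (n : ℝ) * s ≤ n * s' := mul_le_mul_of_nonneg_left h (Nat.cast_nonneg n)
  linarith

end Pool.Agent.MP7629b0
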