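import Pool.Agent.Lib.MP_7629b0_nt.Defs

/-!
# MP_7629b0_nt, module LM: expansion over `m` of the Dirichlet series `LC 0` and `SS 1`.
-/

namespace Pool.Agent.MP7629b0

open Complex

/-- `∑_k k² y^k = y (1 + y) / (1 - y)³`. -/
theorem LM_hasSum_sq {𝕜 : Type*} [RCLike 𝕜] (y : 𝕜) (hy : ‖y‖ < 1) :
    HasSum (fun k : ℕ => (k : 𝕜) ^ 2 * y ^ k) (y * (1 + y) / (1 - y) ^ 3) := by
  have h1 : (1 - y) ≠ 0 := by
    intro h
    have : y = 1 := (sub_eq_zero.mp h).symm
    rw [this] at hy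
    simp at hy
  have ha := hasSum_choose_mul_geometric_of_norm_lt_one 2 hy
  have hb := hasSum_coe_mul_geometric_of_norm_lt_one hy
  have hc := hasSum_geometric_of_norm_lt_one hy
  have h := ((ha.mul_left 2).sub (hb.mul_left 3)).sub (hc.mul_left 2)
  have e1 : (fun k : ℕ => (k : 𝕜) ^ 2 * y ^ k) =
      fun b : ℕ => 2 * (((b + 2).choose 2 : ℕ) * y ^ b) - 3 * ((b : 𝕜) * y ^ b) - 2 * y ^ b := by
    funext k
    have : ((k + 2).choose 2 : ℕ) * 2 = (k + 2) * (k + 1) := by
      have := Nat.triangle_succ (k + 1)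
      rw [Nat.choose_two_right]
      have h2 : 2 ∣ (k + 2) * (k + 2 - 1) := by
        have : Even ((k + 1) * (k + 1 + 1)) := Nat.even_mul_succ_self (k + 1)
        have h3 : (k + 2) * (k + 2 - 1) = (k + 1) * (k + 1 + 1) := by
          have : k + 2 - 1 = k + 1 := by omega
          rw [this]; ring
        rw [h3]
        exact this.two_dvd
      rw [Nat.div_mul_cancel h2]
      have : k + 2 - 1 = k + 1 := by omega
      rw [this]
    have hC : (((k + 2).choose 2 : ℕ) : 𝕜) * 2 = (k + 2) * (k + 1) := by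
      exact_mod_cast this
    linear_combination (-y ^ k) * hC
  have e2 : y * (1 + y) / (1 - y) ^ 3 =
      2 * (1 / (1 - y) ^ (2 + 1)) - 3 * (y / (1 - y) ^ 2) - 2 * (1 - y)⁻¹ := by
    field_simp
    ring
  rw [e1, e2]
  exact h

/-- the same over `ℕ+` -/
theorem LM_hasSum_pnat {𝕜 : Type*} [RCLike 𝕜] (j : ℕ) (y a : 𝕜)
    (h : HasSum (fun k : ℕ => (k : 𝕜) ^ (j + 1) * y ^ k) a) :
    HasSum (fun k : ℕ+ => ((k : ℕ) : 𝕜) ^ (j + 1) * y ^ (k : ℕ)) a := by
  have h2 := (hasSum_nat_add_iff' (f := fun k : ℕ => (k : 𝕜) ^ (j + 1) * y ^ k) (g := a) 1).mpr h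
  simp only [Finset.sum_range_one, Nat.cast_zero, ne_eq, Nat.add_eq_zero_iff, one_ne_zero,
    and_false, not_false_eq_true, zero_pow, zero_mul, sub_zero] at h2
  exact Equiv.pnatEquivNat.symm.hasSum_iff.mp h2

/-- Double sum over `n = k m`, coefficients `k² / m^i` (`i = 0, 1`). -/
theorem LM_main {𝕜 : Type*} [RCLike 𝕜] (f : ℕ → ℕ → 𝕜) (x : 𝕜) (hx : ‖x‖ < 1)
    (hf : ∀ k m : ℕ, 1 ≤ m → ‖f k m‖ ≤ (k : ℝ) ^ 2) (C : ℕ → 𝕜) (hC0 : C 0 = 0)
    (hC : ∀ n : ℕ, 1 ≤ n → C n = ∑ d ∈ n.divisors, f d (n / d))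
    (G : ℕ → 𝕜) (hG : ∀ m : ℕ, HasSum (fun k : ℕ+ => f k (m + 1) * x ^ ((k : ℕ) * (m + 1)))
      (G m)) :
    HasSum G (∑' n : ℕ, C n * x ^ n) := by
  have hx0 : 0 ≤ ‖x‖ := norm_nonneg x
  have hs : Summable (fun c : ℕ+ × ℕ+ => f c.2 c.1 * x ^ ((c.2 : ℕ) * (c.1 : ℕ))) := by
    have h0 : Summable (fun c : ℕ+ × ℕ+ => ((c.2 : ℕ) : ℝ) ^ 2 * (‖x‖ ^ ((c.1 : ℕ) * (c.2 : ℕ)))) :=
      summable_prod_mul_pow (𝕜 := ℝ) 2 (by simpa using hx)
    refine Summable.of_norm_bounded h0 ?_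
    rintro ⟨m, k⟩
    rw [norm_mul, norm_pow]
    have h1 := hf k m m.pos
    have h2 : (k : ℕ) * (m : ℕ) = (m : ℕ) * (k : ℕ) := Nat.mul_comm _ _
    simp only [h2]
    exact mul_le_mul_of_nonneg_right h1 (by positivity)
  have hT := hs.hasSum
  -- fibre over m
  have h1 : HasSum (fun m : ℕ+ => G (m.natPred))
      (∑' c : ℕ+ × ℕ+, f c.2 c.1 * x ^ ((c.2 : ℕ) * (c.1 : ℕ))) := by
    refine hT.prod_fiberwise ?_
    intro m
    have := hG m.natPred
    rw [PNat.natPred_add_one] at this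
    exact this
  -- the sigma form
  have h2 : (∑' c : ℕ+ × ℕ+, f c.2 c.1 * x ^ ((c.2 : ℕ) * (c.1 : ℕ))) =
      ∑' n : ℕ, C n * x ^ n := by
    have hs' := sigmaAntidiagonalEquivProd.summable_iff.mpr hs
    rw [← sigmaAntidiagonalEquivProd.tsum_eq]
    have h3 := Summable.tsum_sigma hs'
    have h4 : (∑' (c : (n : ℕ+) × {x // x ∈ (n : ℕ).divisorsAntidiagonal}),
        f (sigmaAntidiagonalEquivProd c).2 (sigmaAntidiagonalEquivProd c).1 *
          x ^ (((sigmaAntidiagonalEquivProd c).2 : ℕ) * ((sigmaAntidiagonalEquivProd c).1 : ℕ))) =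
        ∑' n : ℕ+, C n * x ^ (n : ℕ) := by
      rw [show (∑' (c : (n : ℕ+) × {x // x ∈ (n : ℕ).divisorsAntidiagonal}),
        f (sigmaAntidiagonalEquivProd c).2 (sigmaAntidiagonalEquivProd c).1 *
          x ^ (((sigmaAntidiagonalEquivProd c).2 : ℕ) * ((sigmaAntidiagonalEquivProd c).1 : ℕ))) =
          _ from h3]
      refine tsum_congr fun n => ?_
      simp only [Function.comp_apply, tsum_fintype, Finset.univ_eq_attach,
        sigmaAntidiagonalEquivProd, divisorsAntidiagonalFactors, Equiv.coe_fn_mk, PNat.mk_coe]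
      rw [(n : ℕ).divisorsAntidiagonal.sum_attach (fun z : ℕ × ℕ => f z.2 z.1 * x ^ (z.2 * z.1)),
        hC n n.pos, Finset.sum_mul]
      rw [Nat.sum_divisorsAntidiagonal' (n := (n : ℕ)) (fun a b => f b a * x ^ (b * a))]
      refine Finset.sum_congr rfl fun i hi => ?_
      rw [Nat.mul_div_cancel' (Nat.dvd_of_mem_divisors hi)]
    have h5 := tsum_pnat_eq_tsum_of_eq_zero (f := fun n : ℕ => C n * x ^ n) (by simp [hC0])
    rw [← h5, ← h4]
  rw [← h2]
  rw [← Equiv.pnatEquivNat.hasSum_iff]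
  exact h1

theorem LM_pow (x : ℝ) (k : ℕ) (m : ℕ) :
    Real.exp (-x) ^ (k * (m + 1)) = Real.exp (-((m + 1) * x)) ^ k := by
  rw [← Real.exp_nat_mul, ← Real.exp_nat_mul]
  congr 1
  push_cast
  ring

theorem LM_cpow (x : ℂ) (k : ℕ) (m : ℕ) :
    Complex.exp (-x) ^ (k * (m + 1)) = Complex.exp (-((m + 1) * x)) ^ k := by
  rw [← Complex.exp_nat_mul, ← Complex.exp_nat_mul]
  congr 1
  push_cast
  ring

/-- The expansion of `LC 0` over `m`. -/
theorem LC0_eq (t : ℂ) (ht : 0 < t.re) :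
    HasSum (fun m : ℕ => (1 / ((m : ℂ) + 1)) *
      (Complex.exp (-((m + 1) * t)) / (1 - Complex.exp (-((m + 1) * t))) ^ 2)) (LC 0 t) := by
  have hx : ‖Complex.exp (-t)‖ < 1 := by
    rw [Complex.norm_exp, Complex.neg_re]
    exact Real.exp_lt_one_iff.mpr (by linarith)
  have key := LM_main (𝕜 := ℂ) (fun k m => (k : ℂ) / (m : ℂ)) (Complex.exp (-t)) hx
    (by
      intro k m hm
      rw [norm_div, Complex.norm_natCast, Complex.norm_natCast]
      have hm1 : (1 : ℝ) ≤ m := by exact_mod_cast hm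
      have h1 : (k : ℝ) / m ≤ k := div_le_self (Nat.cast_nonneg k) hm1
      have h2 : (k : ℝ) ≤ (k : ℝ) ^ 2 := by
        rcases Nat.eq_zero_or_pos k with h | h
        · simp [h]
        · have : (1 : ℝ) ≤ k := by exact_mod_cast h
          nlinarith
      exact h1.trans h2)
    (fun n => (cc n : ℂ)) (by simp [cc])
    (by
      intro n hn
      have hn0 : (n : ℂ) ≠ 0 := by
        have : n ≠ 0 := by omega
        exact_mod_cast this
      simp only [cc]
      push_cast
      rw [Finset.sum_div]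
      refine Finset.sum_congr rfl fun d hd => ?_
      obtain ⟨e, he⟩ := Nat.dvd_of_mem_divisors hd
      have hd0 : d ≠ 0 := by
        rintro rfl
        simp at he
        omega
      have he0 : e ≠ 0 := by
        rintro rfl
        simp at he
        omega
      have hq : n / d = e := by
        rw [he]
        exact Nat.mul_div_cancel_left e (Nat.pos_of_ne_zero hd0)
      rw [hq, he]
      have hd1 : (d : ℂ) ≠ 0 := by exact_mod_cast hd0
      have he1 : (e : ℂ) ≠ 0 := by exact_mod_cast he0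
      push_cast
      field_simp)
    (fun m : ℕ => (1 / ((m : ℂ) + 1)) *
      (Complex.exp (-((m + 1) * t)) / (1 - Complex.exp (-((m + 1) * t))) ^ 2))
    (by
      intro m
      have hy : ‖Complex.exp (-((m + 1) * t))‖ < 1 := by
        rw [Complex.norm_exp]
        apply Real.exp_lt_one_iff.mpr
        have : (-(((m : ℂ) + 1) * t)).re = -((m + 1) * t.re) := by
          simp [Complex.mul_re]
        rw [this]
        have : 0 < ((m : ℝ) + 1) * t.re := by positivity
        linarith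
      have h1 := hasSum_coe_mul_geometric_of_norm_lt_one hy
      have h2 := LM_hasSum_pnat (𝕜 := ℂ) 0 (Complex.exp (-((m + 1) * t))) _
        (by simpa using h1)
      have h3 := h2.mul_left (1 / ((m : ℂ) + 1))
      refine h3.congr_fun ?_
      intro k
      rw [LM_cpow]
      push_cast
      ring)
  have e : LC 0 t = ∑' n : ℕ, (cc n : ℂ) * Complex.exp (-t) ^ n := by
    unfold LC
    refine tsum_congr fun n => ?_
    rw [← Complex.exp_nat_mul, pow_zero, mul_one]
    congr 2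
    ring
  rw [e]
  exact key

/-- The expansion of `SS 1` over `m`. -/
theorem SS1_eq (s : ℝ) (hs : 0 < s) :
    HasSum (fun m : ℕ => Real.exp (-((m + 1) * s)) * (1 + Real.exp (-((m + 1) * s))) /
      (1 - Real.exp (-((m + 1) * s))) ^ 3) (SS 1 s) := by
  have hx : ‖Real.exp (-s)‖ < 1 := by
    rw [Real.norm_eq_abs, abs_of_pos (Real.exp_pos _)]
    exact Real.exp_lt_one_iff.mpr (by linarith)
  have key := LM_main (𝕜 := ℝ) (fun k _ => (k : ℝ) ^ 2) (Real.exp (-s)) hx
    (by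
      intro k m hm
      rw [Real.norm_eq_abs, abs_of_nonneg (by positivity)])
    (fun n => cc n * n) (by simp)
    (by
      intro n hn
      have hn0 : (n : ℝ) ≠ 0 := by
        have : n ≠ 0 := by omega
        exact_mod_cast this
      simp only [cc]
      rw [div_mul_cancel₀ _ hn0])
    (fun m : ℕ => Real.exp (-((m + 1) * s)) * (1 + Real.exp (-((m + 1) * s))) /
      (1 - Real.exp (-((m + 1) * s))) ^ 3)
    (by
      intro m
      have hy : ‖Real.exp (-((m + 1) * s))‖ < 1 := by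
        rw [Real.norm_eq_abs, abs_of_pos (Real.exp_pos _)]
        apply Real.exp_lt_one_iff.mpr
        have : 0 < ((m : ℝ) + 1) * s := by positivity
        linarith
      have h1 := LM_hasSum_sq (𝕜 := ℝ) _ hy
      have h2 := LM_hasSum_pnat (𝕜 := ℝ) 1 (Real.exp (-((m + 1) * s))) _ h1
      refine h2.congr_fun ?_
      intro k
      rw [LM_pow])
  have e : SS 1 s = ∑' n : ℕ, cc n * n * Real.exp (-s) ^ n := by
    unfold SS
    refine tsum_congr fun n => ?_
    rw [← Real.exp_nat_mul, pow_one]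
    congr 2
    ring
  rw [e]
  exact key

end Pool.Agent.MP7629b0
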