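import Pool.Agent.Lib.MP_7629b0_nt.Defs
import Pool.Agent.Lib.MP_7629b0_nt.LCA
import Pool.Agent.Lib.MP_7629b0_nt.LM

/-! # MP_7629b0_nt, module ARC: minor arc bounds -/

namespace Pool.Agent.MP7629b0

open Complex

/-- the norm of `e^(-u) / (1 - e^(-u))^2` -/
theorem ARC_norm (a b : ℝ) (u : ℂ) (hu : u = a + b * I) :
    ‖Complex.exp (-u) / (1 - Complex.exp (-u)) ^ 2‖ =
      1 / (4 * (Real.sinh (a / 2) ^ 2 + Real.sin (b / 2) ^ 2)) := by
  have h1 : ‖Complex.exp (-u)‖ = Real.exp (-a) := by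
    rw [Complex.norm_exp, hu]
    simp
  have hre : (Complex.exp (-u)).re = Real.exp (-a) * Real.cos b := by
    rw [Complex.exp_re, hu]
    simp
  have him : (Complex.exp (-u)).im = -(Real.exp (-a) * Real.sin b) := by
    rw [Complex.exp_im, hu]
    simp
  have h2 : ‖1 - Complex.exp (-u)‖ ^ 2 =
      Real.exp (-a) * (4 * (Real.sinh (a / 2) ^ 2 + Real.sin (b / 2) ^ 2)) := by
    rw [← Complex.normSq_eq_norm_sq, Complex.normSq_apply]
    simp only [Complex.sub_re, Complex.one_re, Complex.sub_im, Complex.one_im, hre, him]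
    have e2 : Real.exp (-a) = Real.exp (-(a / 2)) * Real.exp (-(a / 2)) := by
      rw [← Real.exp_add]
      ring_nf
    have e3 : Real.exp (a / 2) * Real.exp (-(a / 2)) = 1 := by
      rw [← Real.exp_add]
      ring_nf
      exact Real.exp_zero
    have hc : Real.cos b = 1 - 2 * Real.sin (b / 2) ^ 2 := by
      have c1 := Real.cos_two_mul (b / 2)
      have c2 := Real.sin_sq_add_cos_sq (b / 2)
      rw [mul_div_cancel₀ b (two_ne_zero)] at c1
      linarith
    have hs := Real.sin_sq_add_cos_sq b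
    rw [Real.sinh_eq]
    set p := Real.exp (-(a / 2)) with hp
    set q := Real.exp (a / 2) with hq
    rw [e2]
    linear_combination p ^ 4 * hs + (-(1 + p * q) + 2 * p ^ 2) * e3 - 2 * p ^ 2 * hc
  rw [norm_div, norm_pow, h2, h1]
  rw [div_mul_eq_div_div, div_self (Real.exp_pos _).ne']

/-- partial sums of the series of inverse cubes -/
theorem ARC_cubes (n : ℕ) (hn : 6 ≤ n) :
    ∑ m ∈ Finset.Ico 2 n, 1 / ((m : ℝ) + 1) ^ 3 ≤
      773 / 10000 - 1 / (2 * (n : ℝ) * (n + 1)) := by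
  induction n, hn using Nat.le_induction with
  | base =>
    norm_num [Finset.sum_Ico_succ_top]
  | succ n hn ih =>
    rw [Finset.sum_Ico_succ_top (by omega)]
    have h0 : (6 : ℝ) ≤ n := by exact_mod_cast hn
    have h1 : 1 / ((n : ℝ) + 1) ^ 3 ≤ 1 / (2 * n * (n + 1)) - 1 / (2 * (n + 1) * (n + 2)) := by
      have e : 1 / (2 * (n : ℝ) * (n + 1)) - 1 / (2 * (n + 1) * (n + 2)) =
          1 / (n * (n + 1) * (n + 2)) := by
        field_simp
        ring
      rw [e]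
      apply one_div_le_one_div_of_le (by positivity)
      nlinarith
    push_cast
    have e2 : (2 : ℝ) * (n + 1) * (n + 1 + 1) = 2 * (n + 1) * (n + 2) := by ring
    rw [e2]
    linarith

theorem LL_arc (s y κ : ℝ) (hs : 0 < s) (hκ : 0 < κ) (h1 : κ ≤ |Real.sin (y / 2)|)
    (h2 : κ ≤ |Real.sin y|) :
    (LC 0 (s + y * I)).re ≤ 1 / (4 * κ ^ 2) + 1 / (8 * κ ^ 2) + (773 / 10000) / s ^ 2 := by
  have ht : 0 < ((s : ℂ) + y * I).re := by simpa using hs
  have hsum := Complex.hasSum_re (LC0_eq _ ht)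
  have hk1 : κ ^ 2 ≤ Real.sin (y / 2) ^ 2 := by
    rw [← sq_abs (Real.sin (y / 2))]
    exact pow_le_pow_left₀ hκ.le h1 2
  have hk2 : κ ^ 2 ≤ Real.sin y ^ 2 := by
    rw [← sq_abs (Real.sin y)]
    exact pow_le_pow_left₀ hκ.le h2 2
  -- the norm of a term
  have hterm : ∀ m : ℕ, ((1 / ((m : ℂ) + 1)) *
      (Complex.exp (-((m + 1) * ((s : ℂ) + y * I))) /
        (1 - Complex.exp (-((m + 1) * ((s : ℂ) + y * I)))) ^ 2)).re ≤
      1 / ((m : ℝ) + 1) * (1 / (4 * (Real.sinh ((m + 1) * s / 2) ^ 2 +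
        Real.sin ((m + 1) * y / 2) ^ 2))) := by
    intro m
    refine (Complex.re_le_norm _).trans (le_of_eq ?_)
    rw [norm_mul, ARC_norm ((m + 1) * s) ((m + 1) * y) _ (by push_cast; ring)]
    congr 1
    rw [norm_div, norm_one]
    congr 1
    have : ((m : ℂ) + 1) = ((m + 1 : ℕ) : ℂ) := by push_cast; ring
    rw [this, Complex.norm_natCast]
    push_cast
    ring
  have hb0 : ∀ m : ℕ, 1 / ((m : ℝ) + 1) * (1 / (4 * (Real.sinh ((m + 1) * s / 2) ^ 2 +
        Real.sin ((m + 1) * y / 2) ^ 2))) ≤ 1 / ((m : ℝ) + 1) ^ 3 / s ^ 2 := by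
    intro m
    have hm : (0 : ℝ) < (m : ℝ) + 1 := by positivity
    have h3 : ((m : ℝ) + 1) * s / 2 ≤ Real.sinh ((m + 1) * s / 2) :=
      Real.self_le_sinh_iff.2 (by positivity)
    have h4 : (((m : ℝ) + 1) * s / 2) ^ 2 ≤ Real.sinh ((m + 1) * s / 2) ^ 2 :=
      pow_le_pow_left₀ (by positivity) h3 2
    have h5 : ((m : ℝ) + 1) ^ 2 * s ^ 2 ≤ 4 * (Real.sinh ((m + 1) * s / 2) ^ 2 +
        Real.sin ((m + 1) * y / 2) ^ 2) := by
      nlinarith [sq_nonneg (Real.sin ((m + 1) * y / 2))]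
    calc 1 / ((m : ℝ) + 1) * (1 / (4 * (Real.sinh ((m + 1) * s / 2) ^ 2 +
          Real.sin ((m + 1) * y / 2) ^ 2)))
        ≤ 1 / ((m : ℝ) + 1) * (1 / (((m : ℝ) + 1) ^ 2 * s ^ 2)) := by
          apply mul_le_mul_of_nonneg_left _ (by positivity)
          exact one_div_le_one_div_of_le (by positivity) h5
      _ = 1 / ((m : ℝ) + 1) ^ 3 / s ^ 2 := by
          field_simp
  have hb1 : 1 / ((0 : ℕ) + 1 : ℝ) * (1 / (4 * (Real.sinh (((0 : ℕ) + 1) * s / 2) ^ 2 +
        Real.sin (((0 : ℕ) + 1) * y / 2) ^ 2))) ≤ 1 / (4 * κ ^ 2) := by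
    simp only [Nat.cast_zero, zero_add, one_mul, div_one]
    apply one_div_le_one_div_of_le (by positivity)
    nlinarith [sq_nonneg (Real.sinh (s / 2))]
  have hb2 : 1 / ((1 : ℕ) + 1 : ℝ) * (1 / (4 * (Real.sinh (((1 : ℕ) + 1) * s / 2) ^ 2 +
        Real.sin (((1 : ℕ) + 1) * y / 2) ^ 2))) ≤ 1 / (8 * κ ^ 2) := by
    have e1 : ((1 : ℕ) + 1 : ℝ) * y / 2 = y := by push_cast; ring
    rw [e1]
    have e2 : 1 / (8 * κ ^ 2) = 1 / ((1 : ℕ) + 1 : ℝ) * (1 / (4 * κ ^ 2)) := by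
      push_cast
      field_simp
      ring
    rw [e2]
    apply mul_le_mul_of_nonneg_left _ (by positivity)
    apply one_div_le_one_div_of_le (by positivity)
    nlinarith [sq_nonneg (Real.sinh (((1 : ℕ) + 1 : ℝ) * s / 2))]
  refine le_of_tendsto hsum.tendsto_sum_nat ?_
  filter_upwards [Filter.eventually_ge_atTop 6] with n hn
  rw [← Finset.sum_range_add_sum_Ico _ (by omega : 2 ≤ n), Finset.sum_range_succ,
    Finset.sum_range_succ, Finset.sum_range_zero, zero_add]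
  refine add_le_add (add_le_add ((hterm 0).trans hb1) ((hterm 1).trans hb2)) ?_
  refine (Finset.sum_le_sum fun m _ => (hterm m).trans (hb0 m)).trans ?_
  rw [← Finset.sum_div]
  apply div_le_div_of_nonneg_right _ (by positivity)
  have h6 := ARC_cubes n hn
  have h7 : (0 : ℝ) ≤ 1 / (2 * (n : ℝ) * (n + 1)) := by positivity
  linarith

theorem LL_near (s y : ℝ) (hs : 0 < s) :
    (LC 0 (s + y * I)).re ≤ SS 0 s - (1 / (4 * Real.sinh (s / 2) ^ 2) -
      1 / (4 * (Real.sinh (s / 2) ^ 2 + Real.sin (y / 2) ^ 2))) := by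
  have ht : 0 < ((s : ℂ) + y * I).re := by simpa using hs
  have hS : HasSum (fun n : ℕ => cc n * (n : ℝ) ^ 0 * Real.exp (-(n * s))) (SS 0 s) :=
    (SS_summable 0 s hs).hasSum
  have hL : HasSum (fun n : ℕ => ((cc n : ℂ) * (n : ℂ) ^ 0 *
      Complex.exp (-(n * ((s : ℂ) + y * I)))).re) (LC 0 (s + y * I)).re :=
    Complex.hasSum_re (LC_summable 0 _ ht).hasSum
  have hre : ∀ n : ℕ, (Complex.exp (-(n * ((s : ℂ) + y * I)))).re =
      Real.exp (-(n * s)) * Real.cos (n * y) := by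
    intro n
    rw [Complex.exp_re]
    simp
  -- the comparison series
  have hx : ‖Complex.exp (-((s : ℂ) + y * I))‖ < 1 := by
    rw [Complex.norm_exp]
    simpa using hs
  have hx' : ‖Real.exp (-s)‖ < 1 := by
    rw [Real.norm_eq_abs, abs_of_pos (Real.exp_pos _), Real.exp_lt_one_iff]
    linarith
  have hA := hasSum_coe_mul_geometric_of_norm_lt_one hx'
  have hB := Complex.hasSum_re (hasSum_coe_mul_geometric_of_norm_lt_one hx)
  have hC := hasSum_le (fun n => ?_) (hA.sub hB) (hS.sub hL)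
  rotate_left
  · have e1 : Real.exp (-s) ^ n = Real.exp (-(n * s)) := by
      rw [← Real.exp_nat_mul]
      ring_nf
    have e2 : Complex.exp (-((s : ℂ) + y * I)) ^ n = Complex.exp (-(n * ((s : ℂ) + y * I))) := by
      rw [← Complex.exp_nat_mul]
      ring_nf
    have e3 : ((n : ℂ) * Complex.exp (-(n * ((s : ℂ) + y * I)))).re =
        n * (Real.exp (-(n * s)) * Real.cos (n * y)) := by
      rw [← hre n]
      simp
    have e4 : ((cc n : ℂ) * (n : ℂ) ^ 0 * Complex.exp (-(n * ((s : ℂ) + y * I)))).re =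
        cc n * (Real.exp (-(n * s)) * Real.cos (n * y)) := by
      rw [← hre n]
      simp
    rw [e1, e2, e3, e4]
    have h1 : 0 ≤ Real.exp (-(n * s)) * (1 - Real.cos (n * y)) :=
      mul_nonneg (Real.exp_pos _).le (by have := Real.cos_le_one (n * y); linarith)
    have h2 := mul_le_mul_of_nonneg_right (le_cc n) h1
    rw [pow_zero, mul_one]
    linarith
  have h3 := ARC_norm s y ((s : ℂ) + y * I) rfl
  have h4 : (Complex.exp (-((s : ℂ) + y * I)) / (1 - Complex.exp (-((s : ℂ) + y * I))) ^ 2).re ≤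
      1 / (4 * (Real.sinh (s / 2) ^ 2 + Real.sin (y / 2) ^ 2)) := by
    rw [← h3]
    exact Complex.re_le_norm _
  have h5 : Real.exp (-s) / (1 - Real.exp (-s)) ^ 2 = 1 / (4 * Real.sinh (s / 2) ^ 2) := by
    have h6 := ARC_norm s 0 (s : ℂ) (by simp)
    have h7 : ‖Complex.exp (-(s : ℂ)) / (1 - Complex.exp (-(s : ℂ))) ^ 2‖ =
        Real.exp (-s) / (1 - Real.exp (-s)) ^ 2 := by
      have e : Complex.exp (-(s : ℂ)) / (1 - Complex.exp (-(s : ℂ))) ^ 2 =
          ((Real.exp (-s) / (1 - Real.exp (-s)) ^ 2 : ℝ) : ℂ) := by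
        push_cast
        rfl
      rw [e, Complex.norm_real, Real.norm_eq_abs, abs_of_nonneg (by positivity)]
    rw [h7] at h6
    rw [h6]
    simp
  rw [h5] at hC
  linarith

end Pool.Agent.MP7629b0
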