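import Pool.Agent.Lib.MP_7629b0_nt.Defs

/-!
# MP_7629b0_nt, module PLC: coefficients of the MacMahon product
-/

namespace Pool.Agent.MP7629b0

open Complex

/-- `(1 - X^k)⁻¹ = 1 + X^k (1 - X^k)⁻¹` -/
theorem PLC_geo (k : ℕ) (hk : 1 ≤ k) : geo k = 1 + geo k * PowerSeries.X ^ k := by
  ext m
  rw [map_add, PowerSeries.coeff_mul_X_pow', PowerSeries.coeff_one]
  unfold geo
  rw [PowerSeries.coeff_mk, PowerSeries.coeff_mk]
  rcases Nat.eq_zero_or_pos m with rfl | hm
  · rw [if_pos (dvd_zero k), if_pos rfl, if_neg (by omega), add_zero]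
  · rw [if_neg (show m ≠ 0 by omega), zero_add]
    rcases Nat.lt_or_ge m k with h | h
    · rw [if_neg (show ¬ k ≤ m by omega), if_neg (fun hd => by have := Nat.le_of_dvd hm hd; omega)]
    · rw [if_pos h]
      have : k ∣ m ↔ k ∣ m - k := by
        rw [Nat.dvd_sub_self_right]
        constructor
        · exact fun h1 => Or.inl h1
        · rintro (h1 | h1)
          · exact h1
          · have h2 : m = k := le_antisymm h1 h
            rw [h2]
      simp only [this]

/-- the powers of `geo k` are `1 + X^k f` -/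
theorem PLC_geo_pow (k : ℕ) (hk : 1 ≤ k) (j : ℕ) :
    ∃ f : PowerSeries ℕ, geo k ^ j = 1 + f * PowerSeries.X ^ k := by
  induction j with
  | zero => exact ⟨0, by rw [pow_zero, zero_mul, add_zero]⟩
  | succ j ih =>
    obtain ⟨f, hf⟩ := ih
    refine ⟨f + geo k + f * geo k * PowerSeries.X ^ k, ?_⟩
    have h1 : geo k ^ (j + 1) = (1 + f * PowerSeries.X ^ k) * (1 + geo k * PowerSeries.X ^ k) := by
      rw [pow_succ, hf, ← PLC_geo k hk]
    rw [h1]
    ring

theorem PLC_coeff_mul_ge (f g : PowerSeries ℕ) (i j : ℕ) :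
    PowerSeries.coeff i f * PowerSeries.coeff j g ≤ PowerSeries.coeff (i + j) (f * g) := by
  rw [PowerSeries.coeff_mul]
  exact Finset.single_le_sum (f := fun p : ℕ × ℕ => PowerSeries.coeff p.1 f * PowerSeries.coeff p.2 g)
    (fun _ _ => Nat.zero_le _) (Finset.HasAntidiagonal.mem_antidiagonal.2 (rfl : ((i, j) : ℕ × ℕ).1 + (i, j).2 = i + j))

theorem PLC_const_geo (k : ℕ) : PowerSeries.constantCoeff (geo k) = 1 := by
  unfold geo
  rw [← PowerSeries.coeff_zero_eq_constantCoeff_apply, PowerSeries.coeff_mk, if_pos (dvd_zero k)]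

theorem pl_stable (n K : ℕ) (h : n ≤ K) :
    PowerSeries.coeff n (∏ k ∈ Finset.Icc 1 K, geo k ^ k) = pl n := by
  induction K, h using Nat.le_induction with
  | base => rfl
  | succ K hK ih =>
    rw [Finset.prod_Icc_succ_top (by omega : 1 ≤ K + 1)]
    obtain ⟨f, hf⟩ := PLC_geo_pow (K + 1) (by omega) (K + 1)
    rw [hf, mul_add, mul_one, map_add, ← mul_assoc, PowerSeries.coeff_mul_X_pow',
      if_neg (by omega), add_zero, ih]

theorem pl_strict (n : ℕ) (hn : 1 ≤ n) : pl n < pl (n + 1) := by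
  set G : PowerSeries ℕ := ∏ k ∈ Finset.Icc 1 (n + 1), geo k ^ k with hG
  set G' : PowerSeries ℕ := ∏ k ∈ Finset.Icc 2 (n + 1), geo k ^ k with hG'
  have h1 : G = geo 1 * G' := by
    rw [hG, hG', ← Finset.mul_prod_Ioc_eq_prod_Icc (by omega : 1 ≤ n + 1), pow_one]
    rfl
  have h2 : G = G' + G * PowerSeries.X ^ 1 := by
    conv_lhs => rw [h1, PLC_geo 1 le_rfl]
    rw [add_mul, one_mul, h1]
    ring
  have h3 : PowerSeries.coeff (n + 1) G = PowerSeries.coeff (n + 1) G' + pl n := by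
    conv_lhs => rw [h2]
    rw [map_add, PowerSeries.coeff_mul_X_pow', if_pos (by omega), Nat.add_sub_cancel, hG,
      pl_stable n (n + 1) (Nat.le_succ n)]
  have h4 : 1 ≤ PowerSeries.coeff (n + 1) G' := by
    have h5 : G' = (∏ k ∈ Finset.Icc 2 n, geo k ^ k) * geo (n + 1) ^ (n + 1) := by
      rw [hG', Finset.prod_Icc_succ_top (by omega : 2 ≤ n + 1)]
    have h6 := PLC_coeff_mul_ge (∏ k ∈ Finset.Icc 2 n, geo k ^ k) (geo (n + 1) ^ (n + 1)) 0 (n + 1)
    have h7 := PLC_coeff_mul_ge (geo (n + 1) ^ n) (geo (n + 1)) 0 (n + 1)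
    rw [zero_add, ← pow_succ, PowerSeries.coeff_zero_eq_constantCoeff_apply, map_pow,
      PLC_const_geo, one_pow, one_mul] at h7
    have h8 : PowerSeries.coeff (n + 1) (geo (n + 1)) = 1 := by
      unfold geo
      rw [PowerSeries.coeff_mk, if_pos dvd_rfl]
    rw [zero_add, PowerSeries.coeff_zero_eq_constantCoeff_apply, map_prod,
      Finset.prod_eq_one (fun k _ => by rw [map_pow, PLC_const_geo, one_pow]), one_mul, ← h5] at h6
    omega
  have h9 : PowerSeries.coeff (n + 1) G = pl (n + 1) := pl_stable (n + 1) (n + 1) le_rfl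
  omega

end Pool.Agent.MP7629b0
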