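import Pool.Agent.Lib.MP_7629b0_nt.Defs
import Pool.Agent.Lib.MP_7629b0_nt.LCA
import Pool.Agent.Lib.MP_7629b0_nt.PLC

/-! PPP (MP_7629b0_nt), module GF: the generating function of plane partitions is `exp (LC 0 t)`. -/

namespace Pool.Agent.MP7629b0

open Complex

/-- the power series `f` converges absolutely at `q`, with value `v` -/
structure GFEv (q : ℂ) (f : PowerSeries ℕ) (v : ℂ) : Prop where
  sum : Summable fun n : ℕ => ‖((PowerSeries.coeff n f : ℕ) : ℂ) * q ^ n‖
  val : ∑' n : ℕ, ((PowerSeries.coeff n f : ℕ) : ℂ) * q ^ n = v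

theorem GFEv.mul {q : ℂ} {f g : PowerSeries ℕ} {v w : ℂ} (hf : GFEv q f v) (hg : GFEv q g w) :
    GFEv q (f * g) (v * w) := by
  have h1 : (fun n : ℕ => ((PowerSeries.coeff n (f * g) : ℕ) : ℂ) * q ^ n) = fun n =>
      ∑ kl ∈ Finset.HasAntidiagonal.antidiagonal n, (((PowerSeries.coeff kl.1 f : ℕ) : ℂ) * q ^ kl.1) *
        (((PowerSeries.coeff kl.2 g : ℕ) : ℂ) * q ^ kl.2) := by
    funext n
    rw [PowerSeries.coeff_mul]
    push_cast
    rw [Finset.sum_mul]
    refine Finset.sum_congr rfl fun kl hkl => ?_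
    rw [← Finset.HasAntidiagonal.mem_antidiagonal.1 hkl, pow_add]
    ring
  refine ⟨?_, ?_⟩
  · have := summable_norm_sum_mul_antidiagonal_of_summable_norm hf.sum hg.sum
    simpa only [← congrFun h1] using this
  · rw [h1, ← tsum_mul_tsum_eq_tsum_sum_antidiagonal_of_summable_norm hf.sum hg.sum, hf.val, hg.val]

theorem GFEv.one (q : ℂ) : GFEv q 1 1 := by
  have h1 : (fun n : ℕ => ((PowerSeries.coeff n (1 : PowerSeries ℕ) : ℕ) : ℂ) * q ^ n) =
      fun n => if n = 0 then 1 else 0 := by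
    funext n
    rw [PowerSeries.coeff_one]
    split_ifs with h
    · simp [h]
    · simp
  refine ⟨?_, ?_⟩
  · have h2 : Summable (fun n : ℕ => ‖(if n = 0 then (1 : ℂ) else 0)‖) := by
      refine summable_of_ne_finset_zero (s := {0}) fun n hn => ?_
      have : n ≠ 0 := by simpa using hn
      simp [this]
    simpa only [← congrFun h1] using h2
  · rw [h1, tsum_ite_eq]

theorem GFEv.pow {q : ℂ} {f : PowerSeries ℕ} {v : ℂ} (hf : GFEv q f v) (m : ℕ) :
    GFEv q (f ^ m) (v ^ m) := by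
  induction m with
  | zero => simpa using GFEv.one q
  | succ m ih => rw [pow_succ, pow_succ]; exact ih.mul hf

theorem GFEv.prod {q : ℂ} {ι : Type} (s : Finset ι) (f : ι → PowerSeries ℕ) (v : ι → ℂ)
    (h : ∀ i ∈ s, GFEv q (f i) (v i)) : GFEv q (∏ i ∈ s, f i) (∏ i ∈ s, v i) := by
  classical
  induction s using Finset.induction_on with
  | empty => simpa using GFEv.one q
  | insert a s ha ih =>
    rw [Finset.prod_insert ha, Finset.prod_insert ha]
    exact (h a (Finset.mem_insert_self a s)).mul (ih fun i hi => h i (Finset.mem_insert_of_mem hi))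

theorem GFEv.geo {q : ℂ} (hq : ‖q‖ < 1) (k : ℕ) (hk : 1 ≤ k) :
    GFEv q (geo k) (1 - q ^ k)⁻¹ := by
  have hinj : Function.Injective (fun j : ℕ => k * j) := fun a b h =>
    Nat.eq_of_mul_eq_mul_left hk h
  have hqk : ‖q ^ k‖ < 1 := by
    rw [norm_pow]
    exact pow_lt_one₀ (norm_nonneg q) hq (by omega)
  have hz : ∀ n : ℕ, n ∉ Set.range (fun j : ℕ => k * j) →
      ((PowerSeries.coeff n (MP7629b0.geo k) : ℕ) : ℂ) * q ^ n = 0 := by
    intro n hn
    have : ¬ k ∣ n := fun ⟨j, hj⟩ => hn ⟨j, hj.symm⟩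
    simp [MP7629b0.geo, this]
  have hcomp : (fun n : ℕ => ((PowerSeries.coeff n (MP7629b0.geo k) : ℕ) : ℂ) * q ^ n) ∘
      (fun j : ℕ => k * j) = fun j => (q ^ k) ^ j := by
    funext j
    simp [MP7629b0.geo, pow_mul]
  refine ⟨?_, ?_⟩
  · rw [← hinj.summable_iff (fun n hn => by rw [hz n hn, norm_zero])]
    have : (fun n : ℕ => ‖((PowerSeries.coeff n (MP7629b0.geo k) : ℕ) : ℂ) * q ^ n‖) ∘
      (fun j : ℕ => k * j) = fun j => ‖q ^ k‖ ^ j := by
      funext j
      have := congrFun hcomp j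
      simp only [Function.comp_apply] at this ⊢
      rw [this, norm_pow]
    rw [this]
    exact summable_geometric_of_lt_one (norm_nonneg _) hqk
  · rw [← hinj.tsum_eq (fun n hn => by
      by_contra h
      exact hn (hz n h))]
    have := tsum_geometric_of_norm_lt_one hqk
    rw [← this]
    exact tsum_congr fun j => congrFun hcomp j

/-! ## comparison of coefficients -/

theorem gf_coeff_le_mul (n : ℕ) (f g : PowerSeries ℕ) (hg : PowerSeries.coeff 0 g = 1) :
    PowerSeries.coeff n f ≤ PowerSeries.coeff n (f * g) := by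
  rw [PowerSeries.coeff_mul]
  have h : (n, 0) ∈ Finset.HasAntidiagonal.antidiagonal n := by
    simp
  have := Finset.single_le_sum (f := fun kl : ℕ × ℕ => PowerSeries.coeff kl.1 f *
    PowerSeries.coeff kl.2 g) (fun i _ => Nat.zero_le _) h
  simpa [hg] using this

theorem gf_coeff_zero (k m : ℕ) : PowerSeries.coeff 0 (geo k ^ m) = 1 := by
  rw [PowerSeries.coeff_zero_eq_constantCoeff_apply, map_pow,
    ← PowerSeries.coeff_zero_eq_constantCoeff_apply]
  simp [geo]

/-- the product of the first `K` factors -/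
noncomputable def gfG (K : ℕ) : PowerSeries ℕ := ∏ k ∈ Finset.Icc 1 K, geo k ^ k

theorem gfG_succ (K : ℕ) : gfG (K + 1) = gfG K * geo (K + 1) ^ (K + 1) := by
  rw [gfG, gfG, Finset.prod_Icc_succ_top (by omega)]

theorem gfG_mono (n K : ℕ) : PowerSeries.coeff n (gfG K) ≤ PowerSeries.coeff n (gfG (K + 1)) := by
  rw [gfG_succ]
  exact gf_coeff_le_mul n _ _ (gf_coeff_zero _ _)

theorem gfG_le_pl (n K : ℕ) : PowerSeries.coeff n (gfG K) ≤ pl n := by
  rcases le_total n K with h | h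
  · exact (pl_stable n K h).le
  · have h1 : Monotone (fun K => PowerSeries.coeff n (gfG K)) := monotone_nat_of_le_succ (gfG_mono n)
    exact (h1 h).trans (pl_stable n n le_rfl).le

theorem gfG_eq_pl (n K : ℕ) (h : n ≤ K) : PowerSeries.coeff n (gfG K) = pl n := pl_stable n K h

/-- the value of the finite product -/
noncomputable def gfV (q : ℂ) (K : ℕ) : ℂ := ∏ k ∈ Finset.Icc 1 K, ((1 - q ^ k)⁻¹) ^ k

theorem gfG_ev {q : ℂ} (hq : ‖q‖ < 1) (K : ℕ) : GFEv q (gfG K) (gfV q K) :=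
  GFEv.prod _ _ _ fun k hk => (GFEv.geo hq k (Finset.mem_Icc.1 hk).1).pow k

/-! ## the logarithm -/

theorem gf_double {q : ℂ} (hq : ‖q‖ < 1) {L : ℂ}
    (hs : Summable fun n : ℕ => cc n * ‖q‖ ^ n)
    (hL : HasSum (fun n : ℕ => (cc n : ℂ) * q ^ n) L) :
    HasSum (fun k : ℕ => ((k : ℂ) + 1) * (-Complex.log (1 - q ^ (k + 1)))) L := by
  -- the function on pairs
  set F : ℕ+ × ℕ+ → ℂ := fun p => (p.1 : ℂ) * (q ^ ((p.1 : ℕ) * (p.2 : ℕ)) / (p.2 : ℂ)) with hF
  have hcc0 : cc 0 = 0 := by simp [cc]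
  -- inner sums over divisors
  have hin : ∀ (n : ℕ+) (z : ℂ), ∑ x ∈ ((n : ℕ).divisorsAntidiagonal),
      ((x.1 : ℂ) * (z / (x.2 : ℂ))) = (cc n : ℂ) * z := by
    intro n z
    have hn : ((n : ℕ) : ℂ) ≠ 0 := by exact_mod_cast n.ne_zero
    rw [cc]
    push_cast
    rw [← Nat.map_div_right_divisors, Finset.sum_map]
    rw [Finset.sum_div, Finset.sum_mul]
    refine Finset.sum_congr rfl fun d hd => ?_
    simp only [Function.Embedding.coeFn_mk]
    have hd1 : d ∣ (n : ℕ) := Nat.dvd_of_mem_divisors hd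
    have hd0 : (d : ℂ) ≠ 0 := by
      have := Nat.pos_of_mem_divisors hd
      exact_mod_cast this.ne'
    rw [Nat.cast_div hd1 hd0]
    field_simp
  have hsumF : Summable F := by
    rw [← sigmaAntidiagonalEquivProd.summable_iff]
    apply Summable.of_norm
    rw [summable_sigma_of_nonneg (fun _ => norm_nonneg _)]
    refine ⟨fun n => (hasSum_fintype _).summable, ?_⟩
    have h1 : ∀ n : ℕ+, ∑' y : (n : ℕ).divisorsAntidiagonal,
        ‖(F ∘ sigmaAntidiagonalEquivProd) ⟨n, y⟩‖ = cc n * ‖q‖ ^ (n : ℕ) := by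
      intro n
      rw [tsum_fintype]
      have h2 : ∀ y : (n : ℕ).divisorsAntidiagonal, ‖(F ∘ sigmaAntidiagonalEquivProd) ⟨n, y⟩‖ =
          (fun x : ℕ × ℕ => (x.1 : ℝ) * (‖q‖ ^ (n : ℕ) / (x.2 : ℝ))) y.1 := by
        intro y
        have hy := (Nat.mem_divisorsAntidiagonal.1 y.2).1
        simp only [hF, Function.comp_apply, sigmaAntidiagonalEquivProd, Equiv.coe_fn_mk,
          divisorsAntidiagonalFactors, PNat.mk_coe, norm_mul, norm_div, norm_pow,
          Complex.norm_natCast]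
        rw [hy]
      rw [Finset.sum_congr rfl (fun y _ => h2 y)]
      rw [Finset.sum_coe_sort ((n : ℕ).divisorsAntidiagonal)
        (fun x : ℕ × ℕ => (x.1 : ℝ) * (‖q‖ ^ (n : ℕ) / (x.2 : ℝ)))]
      have h3 := hin n ((‖q‖ ^ (n : ℕ) : ℝ) : ℂ)
      exact_mod_cast h3
    simp only [h1]
    exact hs.comp_injective PNat.coe_injective
  have hFL : HasSum F L := by
    rw [← sigmaAntidiagonalEquivProd.hasSum_iff]
    have h1 : HasSum (fun n : ℕ+ => (cc n : ℂ) * q ^ (n : ℕ)) L := by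
      have h2 : Function.Injective (fun n : ℕ+ => (n : ℕ)) := PNat.coe_injective
      refine (h2.hasSum_iff (f := fun n : ℕ => (cc n : ℂ) * q ^ n) ?_).2 hL
      intro n hn
      have : n = 0 := by
        by_contra h0
        exact hn ⟨⟨n, Nat.pos_of_ne_zero h0⟩, rfl⟩
      rw [this, hcc0]
      simp
    have h3 : Summable (F ∘ sigmaAntidiagonalEquivProd) :=
      sigmaAntidiagonalEquivProd.summable_iff.2 hsumF
    have h4 : ∀ n : ℕ+, HasSum (fun y : (n : ℕ).divisorsAntidiagonal =>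
        (F ∘ sigmaAntidiagonalEquivProd) ⟨n, y⟩) ((cc n : ℂ) * q ^ (n : ℕ)) := by
      intro n
      have h5 := hasSum_fintype (fun y : (n : ℕ).divisorsAntidiagonal =>
        (F ∘ sigmaAntidiagonalEquivProd) ⟨n, y⟩)
      have h2 : ∀ y : (n : ℕ).divisorsAntidiagonal, (F ∘ sigmaAntidiagonalEquivProd) ⟨n, y⟩ =
          (fun x : ℕ × ℕ => (x.1 : ℂ) * (q ^ (n : ℕ) / (x.2 : ℂ))) y.1 := by
        intro y
        have hy := (Nat.mem_divisorsAntidiagonal.1 y.2).1
        simp only [hF, Function.comp_apply, sigmaAntidiagonalEquivProd, Equiv.coe_fn_mk,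
          divisorsAntidiagonalFactors, PNat.mk_coe]
        rw [hy]
      rw [Finset.sum_congr rfl (fun y _ => h2 y)] at h5
      rw [Finset.sum_coe_sort ((n : ℕ).divisorsAntidiagonal)
        (fun x : ℕ × ℕ => (x.1 : ℂ) * (q ^ (n : ℕ) / (x.2 : ℂ))), hin n] at h5
      exact h5
    have h6 := h3.hasSum.sigma h4
    rw [← h6.unique h1]
    exact h3.hasSum
  -- fibrewise sums
  have hfib : ∀ k : ℕ+, HasSum (fun m : ℕ+ => F (k, m)) ((k : ℂ) * (-Complex.log (1 - q ^ (k : ℕ)))) := by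
    intro k
    have hqk : ‖q ^ (k : ℕ)‖ < 1 := by
      rw [norm_pow]
      exact pow_lt_one₀ (norm_nonneg q) hq k.ne_zero
    have h1 := (Complex.hasSum_taylorSeries_neg_log hqk).mul_left (k : ℂ)
    have h2 : Function.Injective (fun n : ℕ+ => (n : ℕ)) := PNat.coe_injective
    have h3 := (h2.hasSum_iff (f := fun n : ℕ => (k : ℂ) * ((q ^ (k : ℕ)) ^ n / n)) ?_).2 h1
    · refine h3.congr_fun ?_ |> fun h => h
      intro m
      simp [hF, pow_mul]
    · intro n hn
      have : n = 0 := by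
        by_contra h0
        exact hn ⟨⟨n, Nat.pos_of_ne_zero h0⟩, rfl⟩
      rw [this]
      simp
  have h7 : HasSum (fun k : ℕ+ => (k : ℂ) * (-Complex.log (1 - q ^ (k : ℕ)))) L :=
    hFL.prod_fiberwise hfib
  rw [← Equiv.pnatEquivNat.symm.hasSum_iff] at h7
  refine h7.congr_fun ?_ |> fun h => h
  intro k
  simp

theorem gfV_eq_exp {q : ℂ} (hq : ‖q‖ < 1) (K : ℕ) : gfV q K =
    Complex.exp (∑ k ∈ Finset.range K, ((k : ℂ) + 1) * (-Complex.log (1 - q ^ (k + 1)))) := by
  induction K with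
  | zero => simp [gfV]
  | succ K ih =>
    have h1 : gfV q (K + 1) = gfV q K * ((1 - q ^ (K + 1))⁻¹) ^ (K + 1) := by
      rw [gfV, gfV, Finset.prod_Icc_succ_top (by omega)]
    have hz : 1 - q ^ (K + 1) ≠ 0 := by
      intro h
      have h2 : ‖q ^ (K + 1)‖ < 1 := by
        rw [norm_pow]
        exact pow_lt_one₀ (norm_nonneg q) hq (by omega)
      rw [← sub_eq_zero.1 h, norm_one] at h2
      exact lt_irrefl _ h2
    rw [h1, ih, Finset.sum_range_succ, Complex.exp_add]
    congr 1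
    have h3 := Complex.exp_nat_mul (-Complex.log (1 - q ^ (K + 1))) (K + 1)
    rw [Complex.exp_neg, Complex.exp_log hz] at h3
    rw [← h3]
    push_cast
    ring_nf

theorem gfV_tendsto {q : ℂ} (hq : ‖q‖ < 1) {L : ℂ}
    (hs : Summable fun n : ℕ => cc n * ‖q‖ ^ n)
    (hL : HasSum (fun n : ℕ => (cc n : ℂ) * q ^ n) L) :
    Filter.Tendsto (gfV q) Filter.atTop (nhds (Complex.exp L)) := by
  have h1 := (gf_double hq hs hL).tendsto_sum_nat
  have h2 := (Complex.continuous_exp.tendsto L).comp h1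
  refine h2.congr fun K => ?_
  rw [gfV_eq_exp hq]
  rfl

theorem gf (t : ℂ) (ht : 0 < t.re) :
    HasSum (fun n : ℕ => (pl n : ℂ) * Complex.exp (-(n * t))) (Complex.exp (LC 0 t)) := by
  set q : ℂ := Complex.exp (-t) with hqdef
  have hexp : ∀ n : ℕ, Complex.exp (-(n * t)) = q ^ n := by
    intro n
    rw [hqdef, ← Complex.exp_nat_mul]
    ring_nf
  have hqn : ‖q‖ = Real.exp (-t.re) := by
    rw [hqdef, Complex.norm_exp, Complex.neg_re]
  have hq : ‖q‖ < 1 := by
    rw [hqn]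
    have := Real.exp_lt_exp.2 (show -t.re < 0 by linarith)
    rwa [Real.exp_zero] at this
  have hexpr : ∀ n : ℕ, Real.exp (-(n * t.re)) = ‖q‖ ^ n := by
    intro n
    rw [hqn, ← Real.exp_nat_mul]
    ring_nf
  have hs : Summable fun n : ℕ => cc n * ‖q‖ ^ n := by
    have := SS_summable 0 t.re ht
    simpa [hexpr] using this
  have hL : HasSum (fun n : ℕ => (cc n : ℂ) * q ^ n) (LC 0 t) := by
    have h : HasSum (fun n : ℕ => (cc n : ℂ) * (n : ℂ) ^ 0 * Complex.exp (-(n * t))) (LC 0 t) :=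
      (LC_summable 0 t ht).hasSum
    simpa only [pow_zero, mul_one, hexp] using h
  -- the real point
  set r : ℂ := ((‖q‖ : ℝ) : ℂ) with hr
  have hrn : ‖r‖ = ‖q‖ := by
    rw [hr, Complex.norm_real, Real.norm_of_nonneg (norm_nonneg q)]
  have hr1 : ‖r‖ < 1 := by rw [hrn]; exact hq
  have hLr : HasSum (fun n : ℕ => (cc n : ℂ) * r ^ n) ((∑' n : ℕ, cc n * ‖q‖ ^ n : ℝ) : ℂ) := by
    have h1 := Complex.hasSum_ofReal.2 hs.hasSum
    simpa [hr] using h1
  have htr := gfV_tendsto hr1 (by rw [hrn]; exact hs) hLr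
  obtain ⟨B, hB⟩ : ∃ B : ℝ, ∀ K, ‖gfV r K‖ ≤ B := by
    obtain ⟨B, hB⟩ := (htr.norm).bddAbove_range
    exact ⟨B, fun K => hB ⟨K, rfl⟩⟩
  have hVr : ∀ K, ∑' n : ℕ, ((PowerSeries.coeff n (gfG K) : ℕ) : ℝ) * ‖q‖ ^ n ≤ B ∧
      Summable fun n : ℕ => ((PowerSeries.coeff n (gfG K) : ℕ) : ℝ) * ‖q‖ ^ n := by
    intro K
    have h1 := gfG_ev hr1 K
    have h3 : Summable fun n : ℕ => ((PowerSeries.coeff n (gfG K) : ℕ) : ℝ) * ‖q‖ ^ n := by
      have h4 := h1.sum
      refine h4.congr fun n => ?_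
      rw [norm_mul, norm_pow, hrn, Complex.norm_natCast]
    have h2 : gfV r K = ((∑' n : ℕ, ((PowerSeries.coeff n (gfG K) : ℕ) : ℝ) * ‖q‖ ^ n : ℝ) : ℂ) := by
      rw [← h1.val, Complex.ofReal_tsum]
      refine tsum_congr fun n => ?_
      rw [hr]
      push_cast
      rfl
    have h5 := hB K
    rw [h2, Complex.norm_real, Real.norm_of_nonneg (tsum_nonneg fun n => by positivity)] at h5
    exact ⟨h5, h3⟩
  have hpl : Summable fun n : ℕ => (pl n : ℝ) * ‖q‖ ^ n := by
    refine summable_of_sum_range_le (c := B) (fun n => by positivity) fun N => ?_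
    calc ∑ n ∈ Finset.range N, (pl n : ℝ) * ‖q‖ ^ n
        = ∑ n ∈ Finset.range N, ((PowerSeries.coeff n (gfG N) : ℕ) : ℝ) * ‖q‖ ^ n := by
          refine Finset.sum_congr rfl fun n hn => ?_
          rw [gfG_eq_pl n N (Finset.mem_range.1 hn).le]
      _ ≤ ∑' n : ℕ, ((PowerSeries.coeff n (gfG N) : ℕ) : ℝ) * ‖q‖ ^ n :=
          (hVr N).2.sum_le_tsum _ (fun n _ => by positivity)
      _ ≤ B := (hVr N).1
  -- dominated convergence at q
  have hdom : Filter.Tendsto (fun K : ℕ => ∑' n : ℕ, ((PowerSeries.coeff n (gfG K) : ℕ) : ℂ) * q ^ n)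
      Filter.atTop (nhds (∑' n : ℕ, (pl n : ℂ) * q ^ n)) := by
    refine tendsto_tsum_of_dominated_convergence hpl (fun n => ?_) (Filter.Eventually.of_forall
      fun K n => ?_)
    · refine tendsto_const_nhds.congr' ?_
      filter_upwards [Filter.eventually_ge_atTop n] with K hK
      rw [gfG_eq_pl n K hK]
    · rw [norm_mul, norm_pow, Complex.norm_natCast]
      exact mul_le_mul_of_nonneg_right (by exact_mod_cast gfG_le_pl n K) (by positivity)
  have hlim : ∑' n : ℕ, (pl n : ℂ) * q ^ n = Complex.exp (LC 0 t) := by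
    refine tendsto_nhds_unique hdom ?_
    refine (gfV_tendsto hq hs hL).congr fun K => ?_
    exact (gfG_ev hq K).val.symm
  have hsq : Summable fun n : ℕ => (pl n : ℂ) * q ^ n := by
    apply Summable.of_norm
    refine hpl.congr fun n => ?_
    rw [norm_mul, norm_pow, Complex.norm_natCast]
  rw [← hlim]
  simp only [hexp]
  exact hsq.hasSum

end Pool.Agent.MP7629b0
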