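import Pool.Agent.Lib.MP_7629b0_nt.Defs
import Pool.Agent.Lib.MP_7629b0_nt.LCA
import Pool.Agent.Lib.MP_7629b0_nt.GF

/-!
# MP_7629b0_nt, module CIF: coefficient integral
-/

namespace Pool.Agent.MP7629b0

open Complex

/-! ### Module CIF -/

theorem CIF_exp_int (j : ℤ) : ∫ v in (-Real.pi)..Real.pi, Complex.exp (j * (v * I)) =
    if j = 0 then (2 * Real.pi : ℂ) else 0 := by
  by_cases hj : j = 0
  · subst hj
    simp
    ring
  · rw [if_neg hj]
    have hc : (j : ℂ) * I ≠ 0 := mul_ne_zero (Int.cast_ne_zero.mpr hj) I_ne_zero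
    have h1 : ∀ v : ℝ, Complex.exp (j * (v * I)) = Complex.exp ((j : ℂ) * I * v) := by
      intro v
      congr 1
      ring
    simp only [h1]
    rw [integral_exp_mul_complex hc]
    have h2 : Complex.exp ((j : ℂ) * I * Real.pi) = Complex.exp ((j : ℂ) * I * (-Real.pi : ℝ)) := by
      rw [Complex.exp_eq_exp_iff_exists_int]
      refine ⟨j, ?_⟩
      push_cast
      ring
    rw [h2, sub_self, zero_div]

theorem CIF_LC_periodic (t : ℂ) : LC 0 (t + 2 * Real.pi * I) = LC 0 t := by
  unfold LC
  refine tsum_congr fun n => ?_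
  congr 1
  rw [Complex.exp_eq_exp_iff_exists_int]
  refine ⟨-n, ?_⟩
  push_cast
  ring

theorem CIF_full (n : ℕ) (s : ℝ) (hs : 0 < s) :
    ∫ v in (-Real.pi)..Real.pi, Complex.exp (LC 0 (s + v * I)) * Complex.exp (n * (s + v * I)) =
      2 * Real.pi * pl n := by
  have hre : ∀ v : ℝ, ((s : ℂ) + v * I).re = s := by
    intro v
    simp
  have hsum : ∀ v : ℝ, HasSum (fun k : ℕ => (pl k : ℂ) * Complex.exp (-(k * (s + v * I))) *
      Complex.exp (n * (s + v * I)))
      (Complex.exp (LC 0 (s + v * I)) * Complex.exp (n * (s + v * I))) := by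
    intro v
    exact (gf ((s : ℂ) + v * I) (by rw [hre]; exact hs)).mul_right _
  have hb : Summable fun k : ℕ => ‖(pl k : ℂ) * Complex.exp (-(k * (s : ℂ)))‖ * Real.exp (n * s) :=
    ((gf (s : ℂ) (by simpa using hs)).summable.norm).mul_right _
  have hnorm : ∀ (k : ℕ) (v : ℝ), ‖(pl k : ℂ) * Complex.exp (-(k * (s + v * I))) *
      Complex.exp (n * (s + v * I))‖ =
      ‖(pl k : ℂ) * Complex.exp (-(k * (s : ℂ)))‖ * Real.exp (n * s) := by
    intro k v
    rw [norm_mul, norm_mul, norm_mul, Complex.norm_exp, Complex.norm_exp, Complex.norm_exp]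
    have h1 : (-((k : ℂ) * (s + v * I))).re = (-((k : ℂ) * (s : ℂ))).re := by simp
    have h2 : ((n : ℂ) * (s + v * I)).re = n * s := by simp
    rw [h1, h2]
  have hcont : ∀ k : ℕ, Continuous fun v : ℝ => (pl k : ℂ) * Complex.exp (-(k * (s + v * I))) *
      Complex.exp (n * (s + v * I)) := by
    intro k
    fun_prop
  have key := intervalIntegral.hasSum_integral_of_dominated_convergence (μ := MeasureTheory.volume)
    (a := -Real.pi) (b := Real.pi)
    (F := fun (k : ℕ) (v : ℝ) => (pl k : ℂ) * Complex.exp (-(k * (s + v * I))) *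
      Complex.exp (n * (s + v * I)))
    (f := fun v : ℝ => Complex.exp (LC 0 (s + v * I)) * Complex.exp (n * (s + v * I)))
    (fun k _ => ‖(pl k : ℂ) * Complex.exp (-(k * (s : ℂ)))‖ * Real.exp (n * s))
    (fun k => (hcont k).aestronglyMeasurable)
    (fun k => Filter.Eventually.of_forall fun v _ => (hnorm k v).le)
    (Filter.Eventually.of_forall fun v _ => hb)
    (by exact intervalIntegrable_const)
    (Filter.Eventually.of_forall fun v _ => hsum v)
  have hterm : ∀ k : ℕ, ∫ v in (-Real.pi)..Real.pi, (pl k : ℂ) *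
      Complex.exp (-(k * (s + v * I))) * Complex.exp (n * (s + v * I)) =
      if k = n then 2 * Real.pi * (pl n : ℂ) else 0 := by
    intro k
    have h1 : ∀ v : ℝ, (pl k : ℂ) * Complex.exp (-(k * (s + v * I))) *
        Complex.exp (n * (s + v * I)) =
        ((pl k : ℂ) * Complex.exp (((n : ℂ) - k) * s)) *
          Complex.exp ((((n : ℤ) - (k : ℤ) : ℤ) : ℂ) * (v * I)) := by
      intro v
      rw [mul_assoc, mul_assoc, ← Complex.exp_add, ← Complex.exp_add]
      congr 2
      push_cast
      ring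
    simp only [h1]
    rw [intervalIntegral.integral_const_mul, CIF_exp_int]
    by_cases hk : k = n
    · subst hk
      simp
      ring
    · rw [if_neg hk, if_neg (by omega), mul_zero]
  simp only [hterm] at key
  have h3 := key.unique (hasSum_ite_eq n (2 * Real.pi * (pl n : ℂ)))
  exact h3

theorem CIF_cont (n : ℕ) (s : ℝ) (hs : 0 < s) : Continuous fun v : ℝ =>
    Complex.exp (LC 0 (s + v * I)) * Complex.exp (n * (s + v * I)) := by
  have h1 : Continuous fun v : ℝ => LC 0 (s + v * I) := by
    rw [continuous_iff_continuousAt]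
    intro v
    have h2 : ContinuousAt (LC 0) ((s : ℂ) + v * I) :=
      (LC_hasDerivAt 0 ((s : ℂ) + v * I) (by simpa using hs)).continuousAt
    have h3 : ContinuousAt (fun v : ℝ => (s : ℂ) + v * I) v := by fun_prop
    exact ContinuousAt.comp (f := fun v : ℝ => (s : ℂ) + v * I) h2 h3
  exact (Complex.continuous_exp.comp h1).mul (by fun_prop)

theorem pl_integral (r n : ℕ) (h : n % 2 = r % 2) (s : ℝ) (hs : 0 < s) :
    (pl n : ℂ) = (1 / (2 * Real.pi)) * ∫ v in (-(Real.pi / 2))..(Real.pi / 2),
      Fr r (s + v * I) * Complex.exp (n * (s + v * I)) := by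
  set G : ℝ → ℂ := fun v => Complex.exp (LC 0 (s + v * I)) * Complex.exp (n * (s + v * I)) with hG
  have hcont : Continuous G := CIF_cont n s hs
  have hper : Function.Periodic G (2 * Real.pi) := by
    intro v
    simp only [hG]
    have e1 : (s : ℂ) + ((v + 2 * Real.pi : ℝ) : ℂ) * I = (s + v * I) + 2 * Real.pi * I := by
      push_cast
      ring
    rw [e1, CIF_LC_periodic]
    congr 1
    rw [Complex.exp_eq_exp_iff_exists_int]
    refine ⟨n, ?_⟩
    push_cast
    ring
  have h1 : ∫ v in (-Real.pi)..Real.pi, G v = 2 * Real.pi * pl n := CIF_full n s hs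
  have h2 : ∫ v in (-Real.pi)..Real.pi, G v =
      ∫ v in (-(Real.pi / 2))..(-(Real.pi / 2) + 2 * Real.pi), G v := by
    rw [← hper.intervalIntegral_add_eq (-Real.pi) (-(Real.pi / 2))]
    congr 1
    ring
  have h3 : ∫ v in (-(Real.pi / 2))..(-(Real.pi / 2) + 2 * Real.pi), G v =
      (∫ v in (-(Real.pi / 2))..(Real.pi / 2), G v) +
        ∫ v in (Real.pi / 2)..(-(Real.pi / 2) + 2 * Real.pi), G v :=
    (intervalIntegral.integral_add_adjacent_intervals (hcont.intervalIntegrable _ _)
      (hcont.intervalIntegrable _ _)).symm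
  have h4 : ∫ v in (Real.pi / 2)..(-(Real.pi / 2) + 2 * Real.pi), G v =
      ∫ v in (-(Real.pi / 2))..(Real.pi / 2), G (v + Real.pi) := by
    rw [intervalIntegral.integral_comp_add_right]
    congr 1 <;> ring
  have h5 : (-1 : ℂ) ^ n = (-1) ^ r := by
    rw [neg_one_pow_eq_pow_mod_two, h, ← neg_one_pow_eq_pow_mod_two]
  have h6 : ∀ v : ℝ, G (v + Real.pi) =
      (-1) ^ r * Complex.exp (LC 0 ((s + v * I) + Real.pi * I)) *
        Complex.exp (n * (s + v * I)) := by
    intro v
    simp only [hG]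
    have e1 : (s : ℂ) + ((v + Real.pi : ℝ) : ℂ) * I = (s + v * I) + Real.pi * I := by
      push_cast
      ring
    rw [e1]
    have e2 : Complex.exp (n * ((s + v * I) + Real.pi * I)) =
        (-1) ^ r * Complex.exp (n * (s + v * I)) := by
      rw [mul_add, Complex.exp_add, ← h5, ← Complex.exp_pi_mul_I, ← Complex.exp_nat_mul]
      ring
    rw [e2]
    ring
  have h7 : ∫ v in (-(Real.pi / 2))..(Real.pi / 2),
      Fr r (s + v * I) * Complex.exp (n * (s + v * I)) =
      (∫ v in (-(Real.pi / 2))..(Real.pi / 2), G v) +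
        ∫ v in (-(Real.pi / 2))..(Real.pi / 2), G (v + Real.pi) := by
    have h8 : Continuous fun v : ℝ => G (v + Real.pi) := hcont.comp (continuous_add_const Real.pi)
    rw [← intervalIntegral.integral_add (hcont.intervalIntegrable _ _)
      (h8.intervalIntegrable _ _)]
    refine intervalIntegral.integral_congr fun v _ => ?_
    simp only [h6]
    simp only [hG, Fr]
    ring
  rw [h7, ← h4, ← h3, ← h2, h1]
  have hpi : (Real.pi : ℂ) ≠ 0 := by exact_mod_cast Real.pi_ne_zero
  field_simp

end Pool.Agent.MP7629b0
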