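import Pool.Agent.Lib.MP_7629b0_nt.LCA
import Pool.Agent.Lib.MP_7629b0_nt.ARC
import Pool.Agent.Lib.MP_7629b0_nt.CIF

/-!
# Module ERR: the difference of `pl n` and the central arc (MP_7629b0_nt)
-/

set_option autoImplicit false

namespace Pool.Agent.MP7629b0

open Complex

theorem ERR_two_div_pi_mul_le (x : ℝ) (hx : |x| ≤ Real.pi / 2) : 2 / Real.pi * |x| ≤ |Real.sin x| := by
  have h := Real.mul_le_sin (abs_nonneg x) hx
  rcases abs_cases x with ⟨h1, _⟩ | ⟨h1, _⟩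
  · rw [h1] at h ⊢
    exact le_trans h (le_abs_self _)
  · rw [h1] at h ⊢
    rw [Real.sin_neg] at h
    exact le_trans h (neg_le_abs _)

theorem ERR_re (t0 v : ℝ) (ht0 : 0 < t0) (ht1 : t0 ≤ 1 / 1000) (hv1 : 100 * t0 ≤ |v|)
    (hv2 : |v| ≤ Real.pi / 2) :
    (LC 0 (((t0 / 2 : ℝ) : ℂ) + v * I)).re ≤ (3097 / 10000) / t0 ^ 2 ∧
      (LC 0 (((t0 / 2 : ℝ) : ℂ) + v * I + Real.pi * I)).re ≤ (3097 / 10000) / t0 ^ 2 := by
  have hpi3 := Real.pi_gt_three
  have hpi4 := Real.pi_lt_d2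
  have hs : (0 : ℝ) < t0 / 2 := by linarith
  have hk : (0 : ℝ) < 30 * t0 := by linarith
  have hpos : 0 < Real.pi := Real.pi_pos
  have hfrac : (60 / 100 : ℝ) ≤ 2 / Real.pi := by
    rw [div_le_div_iff₀ (by norm_num) hpos]
    linarith
  have h1 : 30 * t0 ≤ |Real.sin (v / 2)| := by
    have h2 : |v / 2| = |v| / 2 := by
      rw [abs_div]
      norm_num
    have h3 := ERR_two_div_pi_mul_le (v / 2) (by rw [h2]; linarith [abs_nonneg v])
    rw [h2] at h3
    have h4 : (60 / 100 : ℝ) * (|v| / 2) ≤ 2 / Real.pi * (|v| / 2) :=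
      mul_le_mul_of_nonneg_right hfrac (by linarith [abs_nonneg v])
    linarith
  have h2 : 30 * t0 ≤ |Real.sin v| := by
    have h3 := ERR_two_div_pi_mul_le v hv2
    have h4 : (60 / 100 : ℝ) * |v| ≤ 2 / Real.pi * |v| :=
      mul_le_mul_of_nonneg_right hfrac (abs_nonneg v)
    linarith
  have hcos : 30 * t0 ≤ |Real.sin ((v + Real.pi) / 2)| := by
    have h3 : Real.sin ((v + Real.pi) / 2) = Real.cos (v / 2) := by
      rw [add_div, Real.sin_add_pi_div_two]
    rw [h3]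
    have h4 : Real.cos (v / 2) = Real.cos (|v| / 2) := by
      rcases abs_cases v with ⟨h5, _⟩ | ⟨h5, _⟩
      · rw [h5]
      · rw [h5, neg_div, Real.cos_neg]
    have h5 : Real.cos (Real.pi / 4) ≤ Real.cos (|v| / 2) :=
      Real.cos_le_cos_of_nonneg_of_le_pi (by linarith [abs_nonneg v]) (by linarith) (by linarith)
    rw [Real.cos_pi_div_four] at h5
    have h6 : (1 : ℝ) ≤ Real.sqrt 2 := by
      rw [Real.one_le_sqrt]
      norm_num
    rw [h4]
    refine le_trans ?_ (le_abs_self _)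
    linarith
  have hsin : 30 * t0 ≤ |Real.sin (v + Real.pi)| := by
    rw [Real.sin_add_pi, abs_neg]
    exact h2
  have hnum : 1 / (4 * (30 * t0) ^ 2) + 1 / (8 * (30 * t0) ^ 2) + (773 / 10000) / (t0 / 2) ^ 2 ≤
      (3097 / 10000) / t0 ^ 2 := by
    have h3 : 1 / (4 * (30 * t0) ^ 2) + 1 / (8 * (30 * t0) ^ 2) + (773 / 10000) / (t0 / 2) ^ 2 =
        (1 / 3600 + 1 / 7200 + 3092 / 10000) / t0 ^ 2 := by
      field_simp
      ring
    rw [h3]
    exact div_le_div_of_nonneg_right (by norm_num) (by positivity)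
  refine ⟨le_trans (LL_arc (t0 / 2) v (30 * t0) hs hk h1 h2) hnum, ?_⟩
  have h4 : ((t0 / 2 : ℝ) : ℂ) + v * I + Real.pi * I = ((t0 / 2 : ℝ) : ℂ) + ((v + Real.pi : ℝ) : ℂ) * I := by
    push_cast
    ring
  rw [h4]
  exact le_trans (LL_arc (t0 / 2) (v + Real.pi) (30 * t0) hs hk hcos hsin) hnum

theorem ERR_continuous (r n : ℕ) (s : ℝ) (hs : 0 < s) :
    Continuous fun v : ℝ => Fr r ((s : ℂ) + v * I) * Complex.exp (n * ((s : ℂ) + v * I)) := by
  refine Continuous.mul ?_ (by fun_prop)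
  unfold Fr
  have h1 : Continuous fun v : ℝ => LC 0 ((s : ℂ) + v * I) := by
    rw [continuous_iff_continuousAt]
    intro v
    have h2 : ContinuousAt (LC 0) ((s : ℂ) + v * I) :=
      (LC_hasDerivAt 0 _ (by simpa using hs)).continuousAt
    exact ContinuousAt.comp (f := fun v : ℝ => (s : ℂ) + v * I) h2 (by fun_prop)
  have h3 : Continuous fun v : ℝ => LC 0 ((s : ℂ) + v * I + Real.pi * I) := by
    rw [continuous_iff_continuousAt]
    intro v
    have h2 : ContinuousAt (LC 0) ((s : ℂ) + v * I + Real.pi * I) :=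
      (LC_hasDerivAt 0 _ (by simpa using hs)).continuousAt
    exact ContinuousAt.comp (f := fun v : ℝ => (s : ℂ) + v * I + Real.pi * I) h2 (by fun_prop)
  fun_prop

theorem ERR_norm (r n : ℕ) (t0 v : ℝ) (ht0 : 0 < t0) (ht1 : t0 ≤ 1 / 1000) (hv1 : 100 * t0 ≤ |v|)
    (hv2 : |v| ≤ Real.pi / 2) :
    ‖Fr r (((t0 / 2 : ℝ) : ℂ) + v * I) * Complex.exp (n * (((t0 / 2 : ℝ) : ℂ) + v * I))‖ ≤
      2 * Real.exp ((3097 / 10000) / t0 ^ 2 + n * t0 / 2) := by
  obtain ⟨h1, h2⟩ := ERR_re t0 v ht0 ht1 hv1 hv2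
  have h3 : ‖Fr r (((t0 / 2 : ℝ) : ℂ) + v * I)‖ ≤ 2 * Real.exp ((3097 / 10000) / t0 ^ 2) := by
    unfold Fr
    refine le_trans (norm_add_le _ _) ?_
    rw [norm_mul, norm_pow, norm_neg, norm_one, one_pow, one_mul, Complex.norm_exp,
      Complex.norm_exp]
    have h4 := Real.exp_le_exp.2 h1
    have h5 := Real.exp_le_exp.2 h2
    linarith
  have h6 : ‖Complex.exp (n * (((t0 / 2 : ℝ) : ℂ) + v * I))‖ = Real.exp (n * t0 / 2) := by
    rw [Complex.norm_exp]
    congr 1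
    simp
    ring
  rw [norm_mul, h6, Real.exp_add, ← mul_assoc]
  exact mul_le_mul_of_nonneg_right h3 (Real.exp_pos _).le

theorem pl_MM : ∃ t1 : ℝ, 0 < t1 ∧ ∀ t0 : ℝ, 0 < t0 → t0 ≤ t1 → ∀ r n : ℕ, n % 2 = r % 2 →
    ‖(pl n : ℂ) - MM r t0 n‖ ≤ Real.exp ((312 / 1000) / t0 ^ 2 + n * t0 / 2) := by
  refine ⟨1 / 1000, by norm_num, fun t0 ht0 ht1 r n hn => ?_⟩
  have hpi3 := Real.pi_gt_three
  have hpos : 0 < Real.pi := Real.pi_pos
  have hs : (0 : ℝ) < t0 / 2 := by linarith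
  set g : ℝ → ℂ := fun v => Fr r (((t0 / 2 : ℝ) : ℂ) + v * I) *
    Complex.exp (n * (((t0 / 2 : ℝ) : ℂ) + v * I)) with hg
  have hcont : Continuous g := ERR_continuous r n (t0 / 2) hs
  have hint : ∀ a b : ℝ, IntervalIntegrable g MeasureTheory.volume a b := fun a b =>
    hcont.intervalIntegrable a b
  have h1 : (pl n : ℂ) = (1 / (2 * Real.pi)) * ∫ v in (-(Real.pi / 2))..(Real.pi / 2), g v :=
    pl_integral r n hn (t0 / 2) hs
  have h2 : MM r t0 n = (1 / (2 * Real.pi)) * ∫ v in (-(100 * t0))..(100 * t0), g v := rfl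
  have h3 : (∫ v in (-(Real.pi / 2))..(Real.pi / 2), g v) -
      ∫ v in (-(100 * t0))..(100 * t0), g v =
      (∫ v in (-(Real.pi / 2))..(-(100 * t0)), g v) + ∫ v in (100 * t0)..(Real.pi / 2), g v := by
    rw [← intervalIntegral.integral_add_adjacent_intervals (hint (-(Real.pi / 2)) (-(100 * t0)))
      (hint (-(100 * t0)) (Real.pi / 2)),
      ← intervalIntegral.integral_add_adjacent_intervals (hint (-(100 * t0)) (100 * t0))
      (hint (100 * t0) (Real.pi / 2))]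
    ring
  set M : ℝ := 2 * Real.exp ((3097 / 10000) / t0 ^ 2 + n * t0 / 2) with hM
  have hM0 : 0 ≤ M := by positivity
  have h4 : ‖∫ v in (-(Real.pi / 2))..(-(100 * t0)), g v‖ ≤ M * (Real.pi / 2) := by
    refine le_trans (intervalIntegral.norm_integral_le_of_norm_le_const (C := M) fun v hv => ?_) ?_
    · rw [Set.uIoc_of_le (by linarith)] at hv
      have h5 : |v| = -v := abs_of_nonpos (by linarith [hv.2])
      exact ERR_norm r n t0 v ht0 ht1 (by rw [h5]; linarith [hv.2]) (by rw [h5]; linarith [hv.1])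
    · refine mul_le_mul_of_nonneg_left ?_ hM0
      rw [abs_of_nonneg (by linarith)]
      linarith
  have h5 : ‖∫ v in (100 * t0)..(Real.pi / 2), g v‖ ≤ M * (Real.pi / 2) := by
    refine le_trans (intervalIntegral.norm_integral_le_of_norm_le_const (C := M) fun v hv => ?_) ?_
    · rw [Set.uIoc_of_le (by linarith)] at hv
      have h5 : |v| = v := abs_of_nonneg (by linarith [hv.1])
      exact ERR_norm r n t0 v ht0 ht1 (by rw [h5]; linarith [hv.1]) (by rw [h5]; linarith [hv.2])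
    · refine mul_le_mul_of_nonneg_left ?_ hM0
      rw [abs_of_nonneg (by linarith)]
      linarith
  have h6 : ‖(1 / (2 * Real.pi) : ℂ)‖ = 1 / (2 * Real.pi) := by
    have h7 : (1 / (2 * Real.pi) : ℂ) = ((1 / (2 * Real.pi) : ℝ) : ℂ) := by
      push_cast
      ring
    rw [h7, Complex.norm_real, Real.norm_of_nonneg (by positivity)]
  rw [h1, h2, ← mul_sub, h3, norm_mul, h6]
  have h7 := norm_add_le (∫ v in (-(Real.pi / 2))..(-(100 * t0)), g v)
    (∫ v in (100 * t0)..(Real.pi / 2), g v)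
  have h8 : 1 / (2 * Real.pi) * ‖(∫ v in (-(Real.pi / 2))..(-(100 * t0)), g v) +
      ∫ v in (100 * t0)..(Real.pi / 2), g v‖ ≤ 1 / (2 * Real.pi) * (M * Real.pi) :=
    mul_le_mul_of_nonneg_left (by linarith) (by positivity)
  have h9 : 1 / (2 * Real.pi) * (M * Real.pi) =
      Real.exp ((3097 / 10000) / t0 ^ 2 + n * t0 / 2) := by
    rw [hM]
    field_simp
  rw [h9] at h8
  refine le_trans h8 (Real.exp_le_exp.2 ?_)
  have h10 : (3097 / 10000) / t0 ^ 2 ≤ (312 / 1000) / t0 ^ 2 :=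
    div_le_div_of_nonneg_right (by norm_num) (by positivity)
  linarith

end Pool.Agent.MP7629b0
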