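import Mathlib

/-!
An abstract form of the Laplace method (project PPP, MP_7629b0_nt).
-/

namespace Pool.Agent.MP7629b0
open Complex

theorem LAPL_exp_sub_one (z : ℂ) : ‖Complex.exp z - 1‖ ≤ ‖z‖ * Real.exp ‖z‖ := by
  have h := Complex.norm_exp_sub_sum_le_norm_mul_exp z 1
  simpa using h

theorem LAPL_exp_ge (y : ℝ) (hy : 0 ≤ y) : 27 / 10 * y ≤ Real.exp y := by
  have h1 : y ≤ Real.exp (y - 1) := by
    have := Real.add_one_le_exp (y - 1)
    linarith
  have h2 : Real.exp y = Real.exp 1 * Real.exp (y - 1) := by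
    rw [← Real.exp_add]
    congr 1
    ring
  have h3 : (27 / 10 : ℝ) ≤ Real.exp 1 := by
    have := Real.exp_one_gt_d9
    linarith
  rw [h2]
  exact mul_le_mul h3 h1 hy (Real.exp_pos 1).le

theorem LAPL_norm (A B v0 : ℝ) (α : ℂ) (K : ℝ → ℂ) (hA : 0 < A) (hB : 0 ≤ B)
    (hα : ‖α - A‖ ≤ A / 100)
    (hK2 : ∀ v : ℝ, |v| ≤ v0 → ‖K v + α * v ^ 2 / 2‖ ≤ B * |v| ^ 3)
    (hB0 : B * v0 ≤ A / 100) (v : ℝ) (hv : |v| ≤ v0) :
    ‖K v + (A : ℂ) * v ^ 2 / 2‖ ≤ 3 / 200 * (A * v ^ 2) := by
  have h1 : K v + (A : ℂ) * v ^ 2 / 2 = (K v + α * v ^ 2 / 2) + -((α - A) * v ^ 2 / 2) := by ring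
  have h2 : ‖-((α - A) * (v : ℂ) ^ 2 / 2)‖ ≤ A / 100 * v ^ 2 / 2 := by
    rw [norm_neg, norm_div, norm_mul, norm_pow, Complex.norm_real, Real.norm_eq_abs, sq_abs]
    have h3 : ‖(2 : ℂ)‖ = 2 := by simp
    rw [h3]
    have h4 := mul_le_mul_of_nonneg_right hα (sq_nonneg v)
    linarith
  have h5 : B * |v| ^ 3 ≤ A / 100 * v ^ 2 := by
    have h6 : B * |v| ≤ A / 100 := (mul_le_mul_of_nonneg_left hv hB).trans hB0
    have h7 : B * |v| ^ 3 = B * |v| * v ^ 2 := by
      rw [← sq_abs v]
      ring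
    rw [h7]
    exact mul_le_mul_of_nonneg_right h6 (sq_nonneg v)
  rw [h1]
  refine (norm_add_le _ _).trans ?_
  have h8 := hK2 v hv
  have h9 : 0 ≤ A * v ^ 2 := mul_nonneg hA.le (sq_nonneg v)
  linarith

theorem LAPL_le_gauss (c a v0 : ℝ) (ha : 0 < a) (hc : 0 ≤ c) (hv : 0 < v0) :
    ∫ v in (-v0)..v0, c * Real.exp (-a * v ^ 2) ≤ c * Real.sqrt (Real.pi / a) := by
  rw [intervalIntegral.integral_const_mul]
  refine mul_le_mul_of_nonneg_left ?_ hc
  rw [intervalIntegral.integral_of_le (by linarith), ← integral_gaussian a]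
  exact MeasureTheory.setIntegral_le_integral (integrable_exp_neg_mul_sq ha)
    (Filter.Eventually.of_forall fun v => (Real.exp_pos _).le)

theorem laplace (A B v0 : ℝ) (α : ℂ) (K : ℝ → ℂ) (hA : 0 < A) (hB : 0 ≤ B) (hv : 0 < v0)
    (hK : ContinuousOn K (Set.Icc (-v0) v0)) (hα : ‖α - A‖ ≤ A / 100)
    (hK2 : ∀ v : ℝ, |v| ≤ v0 → ‖K v + α * v ^ 2 / 2‖ ≤ B * |v| ^ 3)
    (hB0 : B * v0 ≤ A / 100) (hB1 : (1000 * B) ^ 2 ≤ A ^ 3) (hv2 : 100 ≤ A * v0 ^ 2) :
    1 / Real.sqrt A ≤ ‖∫ v in (-v0)..v0, Complex.exp (K v)‖ ∧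
    ‖∫ v in (-v0)..v0, Complex.exp (K v)‖ ≤ 4 / Real.sqrt A := by
  have hs : 0 < Real.sqrt A := Real.sqrt_pos.2 hA
  have hsq : Real.sqrt A * Real.sqrt A = A := Real.mul_self_sqrt hA.le
  have hle : -v0 ≤ v0 := by linarith
  have habs : ∀ v ∈ Set.Icc (-v0) v0, |v| ≤ v0 := fun v hv => abs_le.2 hv
  have hz := LAPL_norm A B v0 α K hA hB hα hK2 hB0
  have hint : IntervalIntegrable (fun v => Complex.exp (K v)) MeasureTheory.volume (-v0) v0 := by
    refine ContinuousOn.intervalIntegrable ?_
    rw [Set.uIcc_of_le hle]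
    exact hK.cexp
  have hg : ∀ c a : ℝ, IntervalIntegrable (fun v : ℝ => c * Real.exp (-a * v ^ 2))
      MeasureTheory.volume (-v0) v0 := fun c a => by
    refine Continuous.intervalIntegrable ?_ _ _
    fun_prop
  -- bound of a square root
  have hsqrt : ∀ a c : ℝ, 0 < a → 0 < c → Real.pi ≤ c ^ 2 * a →
      Real.sqrt (Real.pi / (a * A)) ≤ c / Real.sqrt A := by
    intro a c ha hc h
    rw [Real.sqrt_le_left (by positivity), div_pow, Real.sq_sqrt hA.le,
      div_le_div_iff₀ (by positivity) hA]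
    nlinarith [mul_le_mul_of_nonneg_right h hA.le]
  have hpi := Real.pi_lt_d2
  constructor
  · -- lower bound
    set M : ℝ → ℝ := fun v => 1 * Real.exp (-(A / 2) * v ^ 2) with hM
    have hMint : IntervalIntegrable M MeasureTheory.volume (-v0) v0 := hg 1 (A / 2)
    have hMc : IntervalIntegrable (fun v => (M v : ℂ)) MeasureTheory.volume (-v0) v0 := by
      refine Continuous.intervalIntegrable ?_ _ _
      simp only [hM]
      fun_prop
    have hdiff : ∀ v ∈ Set.Icc (-v0) v0, ‖Complex.exp (K v) - (M v : ℂ)‖ ≤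
        3 / 125 * Real.exp (-(1 / 4 * A) * v ^ 2) := by
      intro v hv1
      have h1 := hz v (habs v hv1)
      set z := K v + (A : ℂ) * v ^ 2 / 2 with hzdef
      have h2 : Complex.exp (K v) - (M v : ℂ) = (M v : ℂ) * (Complex.exp z - 1) := by
        have h3 : (M v : ℂ) = Complex.exp (-(A / 2) * v ^ 2) := by
          simp only [hM, one_mul]
          push_cast
          rfl
        rw [h3, mul_sub, ← Complex.exp_add, mul_one]
        congr 2
        rw [hzdef]
        ring
      rw [h2, norm_mul, Complex.norm_real, Real.norm_eq_abs, abs_of_pos (by positivity)]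
      have h4 : ‖Complex.exp z - 1‖ ≤ ‖z‖ * Real.exp ‖z‖ := LAPL_exp_sub_one z
      have hx : 0 ≤ A * v ^ 2 := mul_nonneg hA.le (sq_nonneg v)
      have h5 : ‖z‖ * Real.exp ‖z‖ ≤ 3 / 200 * (A * v ^ 2) * Real.exp (3 / 200 * (A * v ^ 2)) :=
        mul_le_mul h1 (Real.exp_le_exp.2 h1) (Real.exp_pos _).le (by positivity)
      have h6 : 3 / 200 * (A * v ^ 2) ≤ 3 / 125 * Real.exp (47 / 200 * (A * v ^ 2)) := by
        have := LAPL_exp_ge (47 / 200 * (A * v ^ 2)) (by positivity)
        linarith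
      have h7 : M v * (3 / 125 * Real.exp (47 / 200 * (A * v ^ 2)) *
          Real.exp (3 / 200 * (A * v ^ 2))) = 3 / 125 * Real.exp (-(1 / 4 * A) * v ^ 2) := by
        have h8 : Real.exp (-(1 / 4 * A) * v ^ 2) = Real.exp (-(A / 2) * v ^ 2) *
            Real.exp (47 / 200 * (A * v ^ 2)) * Real.exp (3 / 200 * (A * v ^ 2)) := by
          rw [← Real.exp_add, ← Real.exp_add]
          congr 1
          ring
        rw [h8]
        simp only [hM]
        ring
      have hMp : 0 ≤ M v := by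
        simp only [hM]
        positivity
      calc M v * ‖Complex.exp z - 1‖ ≤ M v * (3 / 200 * (A * v ^ 2) *
            Real.exp (3 / 200 * (A * v ^ 2))) := mul_le_mul_of_nonneg_left (h4.trans h5) hMp
        _ ≤ M v * (3 / 125 * Real.exp (47 / 200 * (A * v ^ 2)) *
            Real.exp (3 / 200 * (A * v ^ 2))) :=
          mul_le_mul_of_nonneg_left (mul_le_mul_of_nonneg_right h6 (Real.exp_pos _).le) hMp
        _ = _ := h7
    have herr : ‖∫ v in (-v0)..v0, (Complex.exp (K v) - (M v : ℂ))‖ ≤ 1 / 5 / Real.sqrt A := by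
      calc ‖∫ v in (-v0)..v0, (Complex.exp (K v) - (M v : ℂ))‖ ≤
            ∫ v in (-v0)..v0, 3 / 125 * Real.exp (-(1 / 4 * A) * v ^ 2) := by
            refine intervalIntegral.norm_integral_le_of_norm_le hle ?_ (hg _ _)
            exact Filter.Eventually.of_forall fun v hv1 =>
              hdiff v (Set.Ioc_subset_Icc_self hv1)
        _ ≤ 3 / 125 * Real.sqrt (Real.pi / (1 / 4 * A)) :=
            LAPL_le_gauss _ _ v0 (by positivity) (by norm_num) hv
        _ ≤ 3 / 125 * (4 / Real.sqrt A) := by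
            refine mul_le_mul_of_nonneg_left (hsqrt _ _ (by norm_num) (by norm_num) ?_)
              (by norm_num)
            linarith
        _ ≤ 1 / 5 / Real.sqrt A := by
            rw [← mul_div_assoc]
            exact div_le_div_of_nonneg_right (by norm_num) hs.le
    have hmain : 6 / 5 / Real.sqrt A ≤ ∫ v in (-v0)..v0, M v := by
      have h10 : 1 / Real.sqrt A ≤ v0 := by
        rw [div_le_iff₀ hs]
        by_contra hcon
        push Not at hcon
        have h11 : 0 ≤ v0 * Real.sqrt A := by positivity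
        have h12 : (v0 * Real.sqrt A) ^ 2 < 1 := by nlinarith
        have h13 : (v0 * Real.sqrt A) ^ 2 = A * v0 ^ 2 := by
          rw [mul_pow, Real.sq_sqrt hA.le]
          ring
        linarith
      have hsub : ∫ v in (-(1 / Real.sqrt A))..(1 / Real.sqrt A), M v ≤ ∫ v in (-v0)..v0, M v := by
        refine intervalIntegral.integral_mono_interval (by linarith) ?_ h10 ?_ hMint
        · have : 0 < 1 / Real.sqrt A := by positivity
          linarith
        · exact Filter.Eventually.of_forall fun v => by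
            simp only [hM, Pi.zero_apply]
            positivity
      refine le_trans ?_ hsub
      have hlow : ∫ v in (-(1 / Real.sqrt A))..(1 / Real.sqrt A), (3 / 5 : ℝ) ≤
          ∫ v in (-(1 / Real.sqrt A))..(1 / Real.sqrt A), M v := by
        have h14 : 0 < 1 / Real.sqrt A := by positivity
        refine intervalIntegral.integral_mono_on (by linarith) (by simp)
          (by
            refine Continuous.intervalIntegrable ?_ _ _
            simp only [hM]
            fun_prop) ?_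
        intro v hv1
        have h15 : A * v ^ 2 ≤ 1 := by
          have h16 : v ^ 2 ≤ (1 / Real.sqrt A) ^ 2 := sq_le_sq' hv1.1 hv1.2
          rw [div_pow, Real.sq_sqrt hA.le, one_pow] at h16
          calc A * v ^ 2 ≤ A * (1 / A) := mul_le_mul_of_nonneg_left h16 hA.le
            _ = 1 := by field_simp
        have h17 : -(1 / 2 : ℝ) ≤ -(A / 2) * v ^ 2 := by linarith
        have h18 : (3 / 5 : ℝ) ≤ Real.exp (-(1 / 2)) := by
          have h19 : Real.exp (-(1 / 2)) * Real.exp (-(1 / 2)) = Real.exp (-1) := by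
            rw [← Real.exp_add]
            norm_num
          have h20 : (9 / 25 : ℝ) ≤ Real.exp (-1) := by
            have := Real.exp_neg_one_gt_d9
            linarith
          have h21 := Real.exp_pos (-(1 / 2))
          nlinarith
        simp only [hM, one_mul]
        exact h18.trans (Real.exp_le_exp.2 h17)
      rw [intervalIntegral.integral_const, smul_eq_mul] at hlow
      refine le_trans (le_of_eq ?_) hlow
      ring
    have hsplit : ∫ v in (-v0)..v0, Complex.exp (K v) =
        (∫ v in (-v0)..v0, (Complex.exp (K v) - (M v : ℂ))) + ((∫ v in (-v0)..v0, M v : ℝ) : ℂ) := by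
      rw [intervalIntegral.integral_sub hint hMc, intervalIntegral.integral_ofReal]
      ring
    have hM0 : ‖((∫ v in (-v0)..v0, M v : ℝ) : ℂ)‖ = ∫ v in (-v0)..v0, M v := by
      rw [Complex.norm_real, Real.norm_eq_abs, abs_of_nonneg]
      exact le_trans (by positivity) hmain
    have htri : ‖((∫ v in (-v0)..v0, M v : ℝ) : ℂ)‖ ≤
        ‖∫ v in (-v0)..v0, Complex.exp (K v)‖ +
          ‖∫ v in (-v0)..v0, (Complex.exp (K v) - (M v : ℂ))‖ := by
      have h30 : ((∫ v in (-v0)..v0, M v : ℝ) : ℂ) = (∫ v in (-v0)..v0, Complex.exp (K v)) -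
          ∫ v in (-v0)..v0, (Complex.exp (K v) - (M v : ℂ)) := by
        rw [hsplit]
        ring
      rw [h30]
      exact norm_sub_le _ _
    rw [hM0] at htri
    have h40 : 6 / 5 / Real.sqrt A = 1 / Real.sqrt A + 1 / 5 / Real.sqrt A := by
      field_simp
      norm_num
    linarith
  · -- upper bound
    have hup : ∀ v ∈ Set.Icc (-v0) v0, ‖Complex.exp (K v)‖ ≤
        1 * Real.exp (-(97 / 200 * A) * v ^ 2) := by
      intro v hv1
      have h1 := hz v (habs v hv1)
      rw [Complex.norm_exp, one_mul]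
      refine Real.exp_le_exp.2 ?_
      have h2 := (Complex.abs_re_le_norm (K v + (A : ℂ) * v ^ 2 / 2)).trans h1
      have h3 : (K v + (A : ℂ) * v ^ 2 / 2).re = (K v).re + A * v ^ 2 / 2 := by
        rw [Complex.add_re]
        congr 1
        have h4 : (A : ℂ) * v ^ 2 / 2 = ((A * v ^ 2 / 2 : ℝ) : ℂ) := by
          push_cast
          ring
        rw [h4, Complex.ofReal_re]
      rw [h3] at h2
      have h5 := (abs_le.1 h2).2
      linarith
    calc ‖∫ v in (-v0)..v0, Complex.exp (K v)‖ ≤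
          ∫ v in (-v0)..v0, 1 * Real.exp (-(97 / 200 * A) * v ^ 2) := by
          refine intervalIntegral.norm_integral_le_of_norm_le hle ?_ (hg _ _)
          exact Filter.Eventually.of_forall fun v hv1 => hup v (Set.Ioc_subset_Icc_self hv1)
      _ ≤ 1 * Real.sqrt (Real.pi / (97 / 200 * A)) :=
          LAPL_le_gauss _ _ v0 (by positivity) (by norm_num) hv
      _ ≤ 4 / Real.sqrt A := by
          rw [one_mul]
          refine hsqrt _ _ (by norm_num) (by norm_num) ?_
          linarith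

end Pool.Agent.MP7629b0
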