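import Pool.Agent.Lib.MP_7629b0_nt.Defs
import Pool.Agent.Lib.MP_7629b0_nt.LCA
import Pool.Agent.Lib.MP_7629b0_nt.ARC

/-!
# Shift of the contour
-/

namespace Pool.Agent.MP7629b0

open Complex

theorem SHIFT_sin_aux (t : ℝ) (ht : 0 < t) (ht1 : t ≤ 1 / 1000) :
    30 * t ≤ Real.sin (50 * t) ∧ 30 * t ≤ Real.sin (100 * t) ∧ 30 * t ≤ Real.cos (50 * t) := by
  have h1 := Real.sin_gt_sub_cube (x := 50 * t) (by positivity)
  have h2 := Real.sin_gt_sub_cube (x := 100 * t) (by positivity)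
  have h3 := Real.one_sub_sq_div_two_le_cos (x := 50 * t)
  have ht2 : t ^ 2 ≤ 1 / 1000 * t := by nlinarith
  have ht3 : t ^ 3 ≤ 1 / 1000000 * t := by
    have : t ^ 3 = t ^ 2 * t := by ring
    rw [this]
    nlinarith
  refine ⟨?_, ?_, ?_⟩
  · nlinarith
  · nlinarith
  · nlinarith

theorem SHIFT_sin (t y : ℝ) (ht : 0 < t) (ht1 : t ≤ 1 / 1000) (hy : |y| = 100 * t) :
    (30 * t ≤ |Real.sin (y / 2)| ∧ 30 * t ≤ |Real.sin y|) ∧
      30 * t ≤ |Real.sin ((y + Real.pi) / 2)| ∧ 30 * t ≤ |Real.sin (y + Real.pi)| := by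
  obtain ⟨h1, h2, h3⟩ := SHIFT_sin_aux t ht ht1
  have e1 : Real.sin ((y + Real.pi) / 2) = Real.cos (y / 2) := by
    rw [add_div, Real.sin_add_pi_div_two]
  have e2 : Real.sin (y + Real.pi) = - Real.sin y := Real.sin_add_pi y
  rw [e1, e2, abs_neg]
  rcases (abs_eq (by positivity)).1 hy with h | h
  · have e3 : y / 2 = 50 * t := by rw [h]; ring
    rw [e3, h]
    exact ⟨⟨h1.trans (le_abs_self _), h2.trans (le_abs_self _)⟩, h3.trans (le_abs_self _),
      h2.trans (le_abs_self _)⟩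
  · have e3 : y / 2 = -(50 * t) := by rw [h]; ring
    rw [e3, h, Real.sin_neg, Real.sin_neg, Real.cos_neg, abs_neg, abs_neg]
    exact ⟨⟨h1.trans (le_abs_self _), h2.trans (le_abs_self _)⟩, h3.trans (le_abs_self _),
      h2.trans (le_abs_self _)⟩

theorem SHIFT_num (t x : ℝ) (ht : 0 < t) (hx : t / 2 ≤ x) :
    1 / (4 * (30 * t) ^ 2) + 1 / (8 * (30 * t) ^ 2) + (773 / 10000) / x ^ 2 ≤
      (312 / 1000) / t ^ 2 := by
  have h1 : (773 / 10000 : ℝ) / x ^ 2 ≤ (773 / 10000) / (t / 2) ^ 2 := by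
    gcongr
  have h2 : 1 / (4 * (30 * t) ^ 2) + 1 / (8 * (30 * t) ^ 2) + (773 / 10000) / (t / 2) ^ 2 =
      (1 / 3600 + 1 / 7200 + 4 * 773 / 10000) / t ^ 2 := by
    field_simp
    ring
  calc _ ≤ 1 / (4 * (30 * t) ^ 2) + 1 / (8 * (30 * t) ^ 2) + (773 / 10000) / (t / 2) ^ 2 := by
        linarith
    _ = _ := h2
    _ ≤ _ := by
      gcongr
      norm_num

theorem SHIFT_Fr (t x y : ℝ) (r : ℕ) (ht : 0 < t) (ht1 : t ≤ 1 / 1000) (hy : |y| = 100 * t)
    (hx : t / 2 ≤ x) : ‖Fr r (x + y * I)‖ ≤ 2 * Real.exp ((312 / 1000) / t ^ 2) := by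
  have hx0 : 0 < x := by linarith
  obtain ⟨⟨h1, h2⟩, h3, h4⟩ := SHIFT_sin t y ht ht1 hy
  have a1 := (LL_arc x y (30 * t) hx0 (by positivity) h1 h2).trans (SHIFT_num t x ht hx)
  have a2 := (LL_arc x (y + Real.pi) (30 * t) hx0 (by positivity) h3 h4).trans
    (SHIFT_num t x ht hx)
  have e : ((x : ℂ) + y * I + Real.pi * I) = (x : ℂ) + ((y + Real.pi : ℝ) : ℂ) * I := by
    push_cast
    ring
  unfold Fr
  rw [e]
  refine (norm_add_le _ _).trans ?_
  rw [norm_mul, norm_pow, norm_neg, norm_one, one_pow, one_mul, Complex.norm_exp,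
    Complex.norm_exp, two_mul]
  exact add_le_add (Real.exp_le_exp.2 a1) (Real.exp_le_exp.2 a2)

theorem SHIFT_exp (s x y : ℝ) (z : ℂ) (hx : x ≤ s) (hz : 0 ≤ z.re) :
    ‖Complex.exp (z * (x + y * I))‖ ≤ Real.exp (s * z.re + |y| * |z.im|) := by
  rw [Complex.norm_exp]
  refine Real.exp_le_exp.2 ?_
  have e : (z * (x + y * I)).re = z.re * x - z.im * y := by
    simp
  rw [e]
  have h1 : z.re * x ≤ s * z.re := by nlinarith
  have h2 : -(z.im * y) ≤ |y| * |z.im| := by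
    rw [← abs_mul, mul_comm y]
    exact neg_le_abs _
  linarith

theorem SHIFT_diff (r : ℕ) (z t : ℂ) (ht : 0 < t.re) :
    DifferentiableAt ℂ (fun t => Fr r t * Complex.exp (z * t)) t := by
  have h1 : DifferentiableAt ℂ (LC 0) t := (LC_hasDerivAt 0 t ht).differentiableAt
  have h2 : DifferentiableAt ℂ (fun t : ℂ => LC 0 (t + Real.pi * I)) t := by
    have h3 : DifferentiableAt ℂ (LC 0) (t + Real.pi * I) := by
      refine (LC_hasDerivAt 0 (t + Real.pi * I) ?_).differentiableAt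
      simpa using ht
    exact DifferentiableAt.comp t h3 (differentiableAt_id.add_const _)
  unfold Fr
  fun_prop

theorem SHIFT_side (t s y : ℝ) (r : ℕ) (z : ℂ) (ht : 0 < t) (ht1 : t ≤ 1 / 1000)
    (hs : t / 2 ≤ s) (hs2 : s ≤ 2 * t) (hz : 0 ≤ z.re) (hy : |y| = 100 * t) :
    ‖∫ x in (t / 2)..s, Fr r (x + y * I) * Complex.exp (z * (x + y * I))‖ ≤
      2 * Real.exp ((312 / 1000) / t ^ 2 + s * z.re + 100 * t * |z.im|) * (3 / 2 * t) := by
  have h := intervalIntegral.norm_integral_le_of_norm_le_const (a := t / 2) (b := s)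
    (f := fun x : ℝ => Fr r (x + y * I) * Complex.exp (z * (x + y * I)))
    (C := 2 * Real.exp ((312 / 1000) / t ^ 2 + s * z.re + 100 * t * |z.im|)) (by
      intro x hx
      rw [Set.uIoc_of_le hs] at hx
      rw [norm_mul]
      have h1 := SHIFT_Fr t x y r ht ht1 hy hx.1.le
      have h2 := SHIFT_exp s x y z hx.2 hz
      rw [hy] at h2
      calc _ ≤ (2 * Real.exp ((312 / 1000) / t ^ 2)) *
            Real.exp (s * z.re + 100 * t * |z.im|) := by gcongr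
        _ = _ := by
          rw [mul_assoc, ← Real.exp_add]
          ring_nf)
  refine h.trans ?_
  have h3 : |s - t / 2| ≤ 3 / 2 * t := by
    rw [abs_of_nonneg (by linarith)]
    linarith
  gcongr

theorem MM_shift : ∃ t1 : ℝ, 0 < t1 ∧ ∀ t0 : ℝ, 0 < t0 → t0 ≤ t1 → ∀ (r : ℕ) (s : ℝ) (z : ℂ),
    t0 / 2 ≤ s → s ≤ 2 * t0 → 0 ≤ z.re →
    ‖MM r t0 z - (1 / (2 * Real.pi)) * ∫ v in (-(100 * t0))..(100 * t0),
      Fr r (s + v * I) * Complex.exp (z * (s + v * I))‖ ≤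
      Real.exp ((312 / 1000) / t0 ^ 2 + s * z.re + 100 * t0 * |z.im|) := by
  refine ⟨1 / 1000, by norm_num, ?_⟩
  intro t0 ht ht1 r s z hs hs2 hz
  have hrect := Complex.integral_boundary_rect_eq_zero_of_differentiableOn
    (fun t => Fr r t * Complex.exp (z * t)) ((t0 / 2 : ℝ) + (-(100 * t0) : ℝ) * I)
    ((s : ℝ) + (100 * t0 : ℝ) * I) (by
      intro t htm
      refine (SHIFT_diff r z t ?_).differentiableWithinAt
      have h1 := htm.1
      simp only [Set.mem_preimage] at h1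
      have e1 : (((t0 / 2 : ℝ) : ℂ) + ((-(100 * t0) : ℝ) : ℂ) * I).re = t0 / 2 := by simp
      have e2 : (((s : ℝ) : ℂ) + ((100 * t0 : ℝ) : ℂ) * I).re = s := by simp
      rw [e1, e2, Set.uIcc_of_le hs] at h1
      linarith [h1.1])
  have e1 : (((t0 / 2 : ℝ) : ℂ) + ((-(100 * t0) : ℝ) : ℂ) * I).re = t0 / 2 := by simp
  have e2 : (((s : ℝ) : ℂ) + ((100 * t0 : ℝ) : ℂ) * I).re = s := by simp
  have e3 : (((t0 / 2 : ℝ) : ℂ) + ((-(100 * t0) : ℝ) : ℂ) * I).im = -(100 * t0) := by simp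
  have e4 : (((s : ℝ) : ℂ) + ((100 * t0 : ℝ) : ℂ) * I).im = 100 * t0 := by simp
  rw [e1, e2, e3, e4] at hrect
  set A := ∫ x in (t0 / 2)..s, Fr r ((x : ℂ) + ((-(100 * t0) : ℝ) : ℂ) * I) *
    Complex.exp (z * ((x : ℂ) + ((-(100 * t0) : ℝ) : ℂ) * I)) with hA
  set B := ∫ x in (t0 / 2)..s, Fr r ((x : ℂ) + ((100 * t0 : ℝ) : ℂ) * I) *
    Complex.exp (z * ((x : ℂ) + ((100 * t0 : ℝ) : ℂ) * I)) with hB
  set V := ∫ v in (-(100 * t0))..(100 * t0),
      Fr r (s + v * I) * Complex.exp (z * (s + v * I)) with hV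
  have hMM : MM r t0 z = (1 / (2 * Real.pi)) * ∫ v in (-(100 * t0))..(100 * t0),
    Fr r (((t0 / 2 : ℝ) : ℂ) + v * I) * Complex.exp (z * (((t0 / 2 : ℝ) : ℂ) + v * I)) := rfl
  set V0 := ∫ v in (-(100 * t0))..(100 * t0),
    Fr r (((t0 / 2 : ℝ) : ℂ) + v * I) * Complex.exp (z * (((t0 / 2 : ℝ) : ℂ) + v * I)) with hV0
  have key : I * (V0 - V) = A - B := by
    have : A - B + I * V - I * V0 = 0 := hrect
    linear_combination -this
  have hnA := SHIFT_side t0 s (-(100 * t0)) r z ht ht1 hs hs2 hz (by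
    rw [abs_neg, abs_of_nonneg (by positivity)])
  have hnB := SHIFT_side t0 s (100 * t0) r z ht ht1 hs hs2 hz (by
    rw [abs_of_nonneg (by positivity)])
  rw [← hA] at hnA
  rw [← hB] at hnB
  have hnorm : ‖V0 - V‖ ≤ ‖A‖ + ‖B‖ := by
    have h1 : ‖I * (V0 - V)‖ = ‖V0 - V‖ := by rw [norm_mul, Complex.norm_I, one_mul]
    rw [← h1, key]
    exact norm_sub_le _ _
  rw [hMM, ← mul_sub, norm_mul]
  have hpi : ‖(1 / (2 * (Real.pi : ℂ)))‖ ≤ 1 / 6 := by
    rw [norm_div, norm_one, norm_mul, Complex.norm_real, Complex.norm_ofNat,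
      Real.norm_of_nonneg Real.pi_pos.le]
    have := Real.pi_gt_three
    rw [div_le_div_iff₀ (by positivity) (by norm_num)]
    linarith
  set X := Real.exp ((312 / 1000) / t0 ^ 2 + s * z.re + 100 * t0 * |z.im|) with hX
  have hXpos : 0 < X := Real.exp_pos _
  calc _ ≤ 1 / 6 * (2 * X * (3 / 2 * t0) + 2 * X * (3 / 2 * t0)) := by
        refine mul_le_mul hpi (hnorm.trans (add_le_add hnA hnB)) (norm_nonneg _) (by norm_num)
    _ = X * t0 := by ring
    _ ≤ X * 1 := by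
        gcongr
        linarith
    _ = X := mul_one X

end Pool.Agent.MP7629b0
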