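import Pool.Agent.Lib.MP_7629b0_nt.LCA
import Pool.Agent.Lib.MP_7629b0_nt.LM

/-!
# MP_7629b0_nt: two-sided bounds for the sums `SS j s`.
-/

namespace Pool.Agent.MP7629b0

open Complex

/-! hyperbolic inequalities -/

theorem SSB_cosh_ge {v : ℝ} (hv : 0 ≤ v) : 1 + v ^ 2 / 2 ≤ Real.cosh v := by
  have key : MonotoneOn (fun x : ℝ => Real.cosh x - (1 + x ^ 2 / 2)) (Set.Ici 0) := by
    apply monotoneOn_of_deriv_nonneg (convex_Ici 0)
    · fun_prop
    · exact Differentiable.differentiableOn (by fun_prop)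
    · intro x hx
      rw [interior_Ici, Set.mem_Ioi] at hx
      have h1 : HasDerivAt (fun x : ℝ => Real.cosh x - (1 + x ^ 2 / 2)) (Real.sinh x - x) x := by
        refine ((Real.hasDerivAt_cosh x).fun_sub
          (((hasDerivAt_pow 2 x).div_const 2).const_add 1)).congr_deriv ?_
        norm_num
      rw [h1.deriv]
      have := Real.self_le_sinh_iff.mpr hx.le
      linarith
  have := key (Set.mem_Ici.mpr le_rfl) (Set.mem_Ici.mpr hv) hv
  simp at this
  linarith

theorem SSB_sinh_ge {v : ℝ} (hv : 0 ≤ v) : v + v ^ 3 / 6 ≤ Real.sinh v := by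
  have key : MonotoneOn (fun x : ℝ => Real.sinh x - (x + x ^ 3 / 6)) (Set.Ici 0) := by
    apply monotoneOn_of_deriv_nonneg (convex_Ici 0)
    · fun_prop
    · exact Differentiable.differentiableOn (by fun_prop)
    · intro x hx
      rw [interior_Ici, Set.mem_Ioi] at hx
      have h1 : HasDerivAt (fun x : ℝ => Real.sinh x - (x + x ^ 3 / 6))
          (Real.cosh x - (1 + x ^ 2 / 2)) x := by
        refine ((Real.hasDerivAt_sinh x).fun_sub
          ((hasDerivAt_id' x).fun_add ((hasDerivAt_pow 3 x).div_const 6))).congr_deriv ?_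
        norm_num
        ring
      rw [h1.deriv]
      have := SSB_cosh_ge hx.le
      linarith
  have := key (Set.mem_Ici.mpr le_rfl) (Set.mem_Ici.mpr hv) hv
  simp at this
  linarith

theorem SSB_sinh_le {v : ℝ} (hv : 0 ≤ v) : Real.sinh v ≤ v * Real.cosh v := by
  have key : MonotoneOn (fun x : ℝ => x * Real.cosh x - Real.sinh x) (Set.Ici 0) := by
    apply monotoneOn_of_deriv_nonneg (convex_Ici 0)
    · fun_prop
    · exact Differentiable.differentiableOn (by fun_prop)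
    · intro x hx
      rw [interior_Ici, Set.mem_Ioi] at hx
      have h1 : HasDerivAt (fun x : ℝ => x * Real.cosh x - Real.sinh x)
          (x * Real.sinh x) x := by
        refine (((hasDerivAt_id' x).fun_mul (Real.hasDerivAt_cosh x)).fun_sub
          (Real.hasDerivAt_sinh x)).congr_deriv ?_
        ring
      rw [h1.deriv]
      have := Real.self_le_sinh_iff.mpr hx.le
      exact mul_nonneg hx.le (hx.le.trans this)
  have := key (Set.mem_Ici.mpr le_rfl) (Set.mem_Ici.mpr hv) hv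
  simp at this
  linarith

/-- Lazarevic's inequality -/
theorem SSB_laz {v : ℝ} (hv : 0 ≤ v) : v ^ 3 * Real.cosh v ≤ Real.sinh v ^ 3 := by
  have key : MonotoneOn (fun x : ℝ => Real.sinh x ^ 3 - x ^ 3 * Real.cosh x) (Set.Ici 0) := by
    apply monotoneOn_of_deriv_nonneg (convex_Ici 0)
    · fun_prop
    · exact Differentiable.differentiableOn (by fun_prop)
    · intro x hx
      rw [interior_Ici, Set.mem_Ioi] at hx
      have h1 : HasDerivAt (fun x : ℝ => Real.sinh x ^ 3 - x ^ 3 * Real.cosh x)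
          (3 * Real.sinh x ^ 2 * Real.cosh x - (3 * x ^ 2 * Real.cosh x + x ^ 3 * Real.sinh x)) x := by
        refine (((Real.hasDerivAt_sinh x).fun_pow 3).fun_sub
          ((hasDerivAt_pow 3 x).fun_mul (Real.hasDerivAt_cosh x))).congr_deriv ?_
        norm_num
      rw [h1.deriv]
      have h2 := SSB_sinh_ge hx.le
      have h3 := SSB_sinh_le hx.le
      have h4 := Real.one_le_cosh x
      have h5 : x ^ 2 + x ^ 4 / 3 ≤ Real.sinh x ^ 2 := by
        have h6 : (x + x ^ 3 / 6) ^ 2 ≤ Real.sinh x ^ 2 := by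
          apply pow_le_pow_left₀ (by positivity) h2
        have h7 : 0 ≤ x ^ 6 / 36 := by positivity
        nlinarith
      have h8 : x ^ 3 * Real.sinh x ≤ x ^ 4 * Real.cosh x := by
        have : 0 ≤ x ^ 3 := by positivity
        nlinarith [mul_le_mul_of_nonneg_left h3 this]
      have h9 : (x ^ 2 + x ^ 4 / 3) * Real.cosh x ≤ Real.sinh x ^ 2 * Real.cosh x :=
        mul_le_mul_of_nonneg_right h5 (by linarith)
      nlinarith
  have := key (Set.mem_Ici.mpr le_rfl) (Set.mem_Ici.mpr hv) hv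
  simp at this
  linarith

/-- `x / (1-x)^2` as a hyperbolic function -/
theorem SSB_phi (u : ℝ) : Real.exp (-u) / (1 - Real.exp (-u)) ^ 2 =
    1 / (4 * Real.sinh (u / 2) ^ 2) := by
  have h1 : Real.exp (-u) = Real.exp (-(u / 2)) ^ 2 := by
    rw [← Real.exp_nat_mul]
    congr 1
    push_cast
    ring
  have h2 : Real.exp (u / 2) * Real.exp (-(u / 2)) = 1 := by
    rw [← Real.exp_add]
    simp
  rw [Real.sinh_eq, h1]
  set a := Real.exp (u / 2) with ha
  set b := Real.exp (-(u / 2)) with hb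
  have h3 : 1 - b ^ 2 = b * (a - b) := by linear_combination -h2
  have h4 : b ≠ 0 := (Real.exp_pos _).ne'
  rw [h3]
  by_cases h5 : a - b = 0
  · rw [h5]
    simp
  · field_simp
    norm_num

theorem SSB_psi (u : ℝ) : Real.exp (-u) * (1 + Real.exp (-u)) / (1 - Real.exp (-u)) ^ 3 =
    Real.cosh (u / 2) / (4 * Real.sinh (u / 2) ^ 3) := by
  have h1 : Real.exp (-u) = Real.exp (-(u / 2)) ^ 2 := by
    rw [← Real.exp_nat_mul]
    congr 1
    push_cast
    ring
  have h2 : Real.exp (u / 2) * Real.exp (-(u / 2)) = 1 := by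
    rw [← Real.exp_add]
    simp
  rw [Real.sinh_eq, Real.cosh_eq, h1]
  set a := Real.exp (u / 2) with ha
  set b := Real.exp (-(u / 2)) with hb
  have h3 : 1 - b ^ 2 = b * (a - b) := by linear_combination -h2
  have h3' : 1 + b ^ 2 = b * (a + b) := by linear_combination -h2
  have h4 : b ≠ 0 := (Real.exp_pos _).ne'
  rw [h3, h3']
  by_cases h5 : a - b = 0
  · rw [h5]
    simp
  · field_simp
    norm_num

theorem SSB_phi_le {u : ℝ} (hu : 0 < u) :
    Real.exp (-u) / (1 - Real.exp (-u)) ^ 2 ≤ 1 / u ^ 2 := by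
  rw [SSB_phi]
  have h1 : u / 2 ≤ Real.sinh (u / 2) := Real.self_le_sinh_iff.mpr (by linarith)
  apply one_div_le_one_div_of_le (by positivity)
  nlinarith

theorem SSB_le_phi {u : ℝ} (hu : 0 < u) :
    1 / u ^ 2 - 1 / 4 ≤ Real.exp (-u) / (1 - Real.exp (-u)) ^ 2 := by
  rw [SSB_phi]
  have hv : 0 < u / 2 := by linarith
  have h1 := SSB_sinh_le hv.le
  have h2 := Real.cosh_le_exp_half_sq (u / 2)
  have h3 : 0 < Real.sinh (u / 2) := Real.sinh_pos_iff.mpr hv
  have h4 : Real.sinh (u / 2) ^ 2 ≤ (u / 2) ^ 2 * Real.exp ((u / 2) ^ 2) := by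
    have h5 : Real.sinh (u / 2) ≤ (u / 2) * Real.exp ((u / 2) ^ 2 / 2) :=
      h1.trans (mul_le_mul_of_nonneg_left h2 hv.le)
    calc Real.sinh (u / 2) ^ 2 ≤ ((u / 2) * Real.exp ((u / 2) ^ 2 / 2)) ^ 2 :=
          pow_le_pow_left₀ h3.le h5 2
      _ = _ := by
          rw [mul_pow, ← Real.exp_nat_mul]
          congr 2
          push_cast
          ring
  have h6 : 1 - (u / 2) ^ 2 ≤ Real.exp (-(u / 2) ^ 2) := by
    have := Real.add_one_le_exp (-(u / 2) ^ 2)
    linarith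
  have h7 : 1 / u ^ 2 - 1 / 4 = (1 - (u / 2) ^ 2) / u ^ 2 := by
    field_simp
    ring
  rw [h7]
  calc (1 - (u / 2) ^ 2) / u ^ 2 ≤ Real.exp (-(u / 2) ^ 2) / u ^ 2 := by gcongr
    _ = 1 / (4 * ((u / 2) ^ 2 * Real.exp ((u / 2) ^ 2))) := by
        rw [neg_eq_neg_one_mul] 
        rw [show -1 * (u / 2) ^ 2 = -((u / 2) ^ 2) by ring, Real.exp_neg]
        field_simp
        norm_num
    _ ≤ _ := by
        apply one_div_le_one_div_of_le (by positivity)
        linarith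

theorem SSB_psi_le {u : ℝ} (hu : 0 < u) :
    Real.exp (-u) * (1 + Real.exp (-u)) / (1 - Real.exp (-u)) ^ 3 ≤ 2 / u ^ 3 := by
  rw [SSB_psi]
  have hv : 0 < u / 2 := by linarith
  have h1 := SSB_laz hv.le
  have h3 : 0 < Real.sinh (u / 2) := Real.sinh_pos_iff.mpr hv
  rw [div_le_div_iff₀ (by positivity) (by positivity)]
  nlinarith

/-- `∑ 1/(m+1)^3` -/
theorem SSB_zeta (n : ℕ) : ∑ m ∈ Finset.range n, 1 / ((m : ℝ) + 1) ^ 3 ≤ 12022 / 10000 := by
  have key : ∀ n : ℕ, ∑ m ∈ Finset.range (n + 7), 1 / ((m : ℝ) + 1) ^ 3 +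
      1 / (2 * ((n : ℝ) + 7) * (n + 8)) ≤ 12022 / 10000 := by
    intro n
    induction n with
    | zero =>
      simp only [Finset.sum_range_succ, Finset.sum_range_zero]
      norm_num
    | succ n ih =>
      refine le_trans ?_ ih
      rw [show n + 1 + 7 = (n + 7) + 1 by ring, Finset.sum_range_succ]
      push_cast
      have h : 1 / ((n : ℝ) + 7 + 1) ^ 3 + 1 / (2 * ((n : ℝ) + 1 + 7) * (n + 1 + 8)) ≤
          1 / (2 * ((n : ℝ) + 7) * (n + 8)) := by
        have hn : (0 : ℝ) ≤ n := Nat.cast_nonneg n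
        rw [div_add_div _ _ (by positivity) (by positivity),
          div_le_div_iff₀ (by positivity) (by positivity)]
        have : 0 ≤ (n : ℝ) ^ 2 := by positivity
        have : 0 ≤ (n : ℝ) ^ 3 := by positivity
        have : 0 ≤ (n : ℝ) ^ 4 := by positivity
        have : 0 ≤ (n : ℝ) ^ 5 := by positivity
        nlinarith
      linarith
  have h1 := key n
  have h2 : ∑ m ∈ Finset.range n, 1 / ((m : ℝ) + 1) ^ 3 ≤
      ∑ m ∈ Finset.range (n + 7), 1 / ((m : ℝ) + 1) ^ 3 := by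
    apply Finset.sum_le_sum_of_subset_of_nonneg
    · exact Finset.range_mono (by omega)
    · intro i _ _
      positivity
  have h3 : 0 ≤ 1 / (2 * ((n : ℝ) + 7) * (n + 8)) := by positivity
  linarith


theorem SSB_hasSum0 (s : ℝ) (hs : 0 < s) :
    HasSum (fun m : ℕ => (1 / ((m : ℝ) + 1)) *
      (Real.exp (-((m + 1) * s)) / (1 - Real.exp (-((m + 1) * s))) ^ 2)) (SS 0 s) := by
  have h := LC0_eq (s : ℂ) (by simpa using hs)
  rw [LC_ofReal] at h
  rw [← Complex.hasSum_ofReal]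
  have e : (fun m : ℕ => (((1 / ((m : ℝ) + 1)) *
      (Real.exp (-((m + 1) * s)) / (1 - Real.exp (-((m + 1) * s))) ^ 2) : ℝ) : ℂ)) =
      fun m : ℕ => (1 / ((m : ℂ) + 1)) *
      (Complex.exp (-((m + 1) * s)) / (1 - Complex.exp (-((m + 1) * s))) ^ 2) := by
    funext m
    push_cast
    rfl
  rw [e]
  exact h

theorem SS0_le (s : ℝ) (hs : 0 < s) : SS 0 s ≤ (12022 / 10000) / s ^ 2 := by
  refine le_of_tendsto (SSB_hasSum0 s hs).tendsto_sum_nat (Filter.Eventually.of_forall fun n => ?_)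
  have h1 : ∀ m ∈ Finset.range n, (1 / ((m : ℝ) + 1)) *
      (Real.exp (-((m + 1) * s)) / (1 - Real.exp (-((m + 1) * s))) ^ 2) ≤
      (1 / ((m : ℝ) + 1) ^ 3) / s ^ 2 := by
    intro m _
    have h2 := SSB_phi_le (u := ((m : ℝ) + 1) * s) (by positivity)
    calc _ ≤ (1 / ((m : ℝ) + 1)) * (1 / (((m : ℝ) + 1) * s) ^ 2) := by gcongr
      _ = _ := by field_simp
  refine (Finset.sum_le_sum h1).trans ?_
  rw [← Finset.sum_div]
  gcongr
  exact SSB_zeta n

theorem le_SS0 (s : ℝ) (hs : 0 < s) (hs' : s ≤ 1 / 100) : (116 / 100) / s ^ 2 ≤ SS 0 s := by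
  have h1 := sum_le_hasSum (Finset.range 3) (fun m _ => by positivity) (SSB_hasSum0 s hs)
  refine le_trans ?_ h1
  have h2 : ∀ m ∈ Finset.range 3, (1 / ((m : ℝ) + 1)) * (1 / (((m : ℝ) + 1) * s) ^ 2 - 1 / 4) ≤
      (1 / ((m : ℝ) + 1)) *
      (Real.exp (-((m + 1) * s)) / (1 - Real.exp (-((m + 1) * s))) ^ 2) := by
    intro m _
    have := SSB_le_phi (u := ((m : ℝ) + 1) * s) (by positivity)
    gcongr
  refine le_trans ?_ (Finset.sum_le_sum h2)
  simp only [Finset.sum_range_succ, Finset.sum_range_zero]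
  have h3 : 10000 ≤ 1 / s ^ 2 := by
    rw [le_div_iff₀ (by positivity)]
    nlinarith
  have h4 : ∀ a : ℝ, 1 / (a * s) ^ 2 = (1 / a ^ 2) * (1 / s ^ 2) := by
    intro a
    rw [mul_pow, one_div_mul_one_div]
  rw [h4, h4, h4, show (116 / 100) / s ^ 2 = (116 / 100) * (1 / s ^ 2) by ring]
  push_cast
  nlinarith

theorem SS1_le (s : ℝ) (hs : 0 < s) : SS 1 s ≤ (2405 / 1000) / s ^ 3 := by
  refine le_of_tendsto (SS1_eq s hs).tendsto_sum_nat (Filter.Eventually.of_forall fun n => ?_)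
  have h1 : ∀ m ∈ Finset.range n, Real.exp (-((m + 1) * s)) * (1 + Real.exp (-((m + 1) * s))) /
      (1 - Real.exp (-((m + 1) * s))) ^ 3 ≤ (1 / ((m : ℝ) + 1) ^ 3) * (2 / s ^ 3) := by
    intro m _
    have h2 := SSB_psi_le (u := ((m : ℝ) + 1) * s) (by positivity)
    refine h2.trans_eq ?_
    field_simp
  refine (Finset.sum_le_sum h1).trans ?_
  rw [← Finset.sum_mul]
  calc _ ≤ (12022 / 10000) * (2 / s ^ 3) := by
        gcongr
        exact SSB_zeta n
    _ ≤ _ := by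
        rw [← mul_div_assoc]
        gcongr
        norm_num

/-- bounds for `x = exp (-s)` -/
theorem SSB_exp {s : ℝ} (hs : 0 < s) (hs' : s ≤ 1 / 100) :
    99 / 100 ≤ Real.exp (-s) ∧ Real.exp (-s) < 1 ∧ 1 - Real.exp (-s) ≤ s ∧
      s * (100 / 101) ≤ 1 - Real.exp (-s) := by
  have h1 := Real.add_one_le_exp (-s)
  have h2 : Real.exp (-s) < 1 := by
    rw [Real.exp_lt_one_iff]
    linarith
  refine ⟨by linarith, h2, by linarith, ?_⟩
  have h3 := Real.add_one_le_exp s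
  have h4 : Real.exp (-s) ≤ 1 / (1 + s) := by
    rw [Real.exp_neg, ← one_div]
    exact one_div_le_one_div_of_le (by linarith) (by linarith)
  have h5 : 1 / (1 + s) ≤ 1 - s * (100 / 101) := by
    rw [div_le_iff₀ (by linarith)]
    nlinarith
  linarith

theorem le_SS1 (s : ℝ) (hs : 0 < s) (hs' : s ≤ 1 / 100) : (19 / 10) / s ^ 3 ≤ SS 1 s := by
  have h0 : ∀ m : ℕ, 0 ≤ Real.exp (-((m + 1) * s)) * (1 + Real.exp (-((m + 1) * s))) /
      (1 - Real.exp (-((m + 1) * s))) ^ 3 := by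
    intro m
    have : Real.exp (-((m + 1) * s)) ≤ 1 := by
      rw [Real.exp_le_one_iff]
      have : (0 : ℝ) ≤ (m + 1) * s := by positivity
      linarith
    have h2 : 0 ≤ 1 - Real.exp (-((m + 1) * s)) := by linarith
    positivity
  have h1 := sum_le_hasSum (Finset.range 1) (fun m _ => h0 m) (SS1_eq s hs)
  refine le_trans ?_ h1
  simp only [Finset.sum_range_succ, Finset.sum_range_zero]
  push_cast
  rw [zero_add, zero_add, one_mul]
  obtain ⟨a1, a2, a3, a4⟩ := SSB_exp hs hs'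
  set x := Real.exp (-s)
  have h2 : 0 < 1 - x := by linarith
  calc (19 / 10) / s ^ 3 ≤ (x * (1 + x)) / s ^ 3 := by
        gcongr
        nlinarith
    _ ≤ _ := by
        gcongr

/-- upper bound for power sums -/
theorem SSB_up (k : ℕ) (s : ℝ) (hs : 0 < s) : SS k s ≤
    2 * ((k + 1).factorial / (1 - Real.exp (-s)) ^ (k + 2)) := by
  have hx : ‖Real.exp (-s)‖ < 1 := by
    rw [Real.norm_of_nonneg (Real.exp_pos _).le, Real.exp_lt_one_iff]
    linarith
  have h1 := (hasSum_choose_mul_geometric_of_norm_lt_one (k + 1) hx).mul_left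
    (2 * ((k + 1).factorial : ℝ))
  have h2 : 2 * ((k + 1).factorial / (1 - Real.exp (-s)) ^ (k + 2)) =
      2 * ((k + 1).factorial : ℝ) * (1 / (1 - Real.exp (-s)) ^ (k + 1 + 1)) := by ring
  rw [h2]
  refine hasSum_le ?_ (SS_summable k s hs).hasSum h1
  intro n
  have h3 : Real.exp (-(n * s)) = Real.exp (-s) ^ n := by
    rw [← Real.exp_nat_mul]
    congr 1
    ring
  rw [h3]
  have h4 : ((n : ℝ)) ^ (k + 1) ≤ ((k + 1).factorial : ℝ) * ((n + (k + 1)).choose (k + 1) : ℕ) := by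
    have h5 : n ^ (k + 1) ≤ (k + 1).factorial * (n + (k + 1)).choose (k + 1) := by
      rw [← Nat.descFactorial_eq_factorial_mul_choose]
      have := Nat.pow_sub_le_descFactorial (n + (k + 1)) (k + 1)
      refine le_trans ?_ this
      apply Nat.pow_le_pow_left
      omega
    exact_mod_cast h5
  have h6 := cc_le n
  have h7 : cc n * (n : ℝ) ^ k ≤ 2 * ((k + 1).factorial : ℝ) * ((n + (k + 1)).choose (k + 1) : ℕ) := by
    calc cc n * (n : ℝ) ^ k ≤ (2 * n) * (n : ℝ) ^ k := by gcongr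
      _ = 2 * (n : ℝ) ^ (k + 1) := by ring
      _ ≤ _ := by linarith
  rw [← mul_assoc]
  exact mul_le_mul_of_nonneg_right h7 (by positivity)

theorem SS2_le (s : ℝ) (hs : 0 < s) (hs' : s ≤ 1 / 100) : SS 2 s ≤ 13 / s ^ 4 := by
  refine (SSB_up 2 s hs).trans ?_
  obtain ⟨a1, a2, a3, a4⟩ := SSB_exp hs hs'
  set x := Real.exp (-s)
  have h2 : 0 < 1 - x := by linarith
  have h3 : (s * (100 / 101)) ^ 4 ≤ (1 - x) ^ 4 := pow_le_pow_left₀ (by positivity) a4 4
  rw [← mul_div_assoc, div_le_div_iff₀ (by positivity) (by positivity)]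
  have h4 : (Nat.factorial (2 + 1) : ℝ) = 6 := by norm_num [Nat.factorial]
  rw [h4]
  have h5 : 0 < s ^ 4 := by positivity
  have h6 : 2 * 6 * s ^ 4 ≤ 13 * (s * (100 / 101)) ^ 4 := by
    rw [mul_pow]
    norm_num
    linarith
  exact h6.trans (mul_le_mul_of_nonneg_left h3 (by norm_num))

theorem SS3_le (s : ℝ) (hs : 0 < s) (hs' : s ≤ 1 / 100) : SS 3 s ≤ 60 / s ^ 5 := by
  refine (SSB_up 3 s hs).trans ?_
  obtain ⟨a1, a2, a3, a4⟩ := SSB_exp hs hs'
  set x := Real.exp (-s)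
  have h2 : 0 < 1 - x := by linarith
  have h3 : (s * (100 / 101)) ^ 5 ≤ (1 - x) ^ 5 := pow_le_pow_left₀ (by positivity) a4 5
  rw [← mul_div_assoc, div_le_div_iff₀ (by positivity) (by positivity)]
  have h4 : (Nat.factorial (3 + 1) : ℝ) = 24 := by norm_num [Nat.factorial]
  rw [h4]
  have h5 : 0 < s ^ 5 := by positivity
  have h6 : 2 * 24 * s ^ 5 ≤ 60 * (s * (100 / 101)) ^ 5 := by
    rw [mul_pow]
    norm_num
    linarith
  exact h6.trans (mul_le_mul_of_nonneg_left h3 (by norm_num))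

theorem le_SS2 (s : ℝ) (hs : 0 < s) (hs' : s ≤ 1 / 100) : 5 / s ^ 4 ≤ SS 2 s := by
  obtain ⟨a1, a2, a3, a4⟩ := SSB_exp hs hs'
  have hx0 := Real.exp_pos (-s)
  have hx : ‖Real.exp (-s)‖ < 1 := by
    rw [Real.norm_of_nonneg hx0.le]
    exact a2
  have h1 := ((hasSum_choose_mul_geometric_of_norm_lt_one 3 hx).mul_left 6).mul_right
    (Real.exp (-s) ^ 3)
  have h2 := (SS_summable 2 s hs)
  have h3 := h2.sum_add_tsum_nat_add 3
  have h4 : 6 * (1 / (1 - Real.exp (-s)) ^ (3 + 1)) * Real.exp (-s) ^ 3 ≤ SS 2 s := by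
    rw [← h1.tsum_eq]
    have h5 : SS 2 s = ∑' n : ℕ, cc n * (n : ℝ) ^ 2 * Real.exp (-(n * s)) := rfl
    rw [h5, ← h3]
    have h6 : 0 ≤ ∑ n ∈ Finset.range 3, cc n * (n : ℝ) ^ 2 * Real.exp (-(n * s)) :=
      Finset.sum_nonneg fun n _ => mul_nonneg (mul_nonneg (cc_nonneg n) (by positivity))
        (Real.exp_pos _).le
    have h7 : ∑' n : ℕ, 6 * (((n + 3).choose 3 : ℕ) * Real.exp (-s) ^ n) * Real.exp (-s) ^ 3 ≤
        ∑' n : ℕ, cc (n + 3) * ((n + 3 : ℕ) : ℝ) ^ 2 * Real.exp (-((n + 3 : ℕ) * s)) := by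
      refine h1.summable.tsum_le_tsum ?_ ((summable_nat_add_iff 3).mpr h2)
      intro n
      have h8 : Real.exp (-((n + 3 : ℕ) * s)) = Real.exp (-s) ^ n * Real.exp (-s) ^ 3 := by
        rw [← pow_add, ← Real.exp_nat_mul]
        congr 1
        ring
      rw [h8]
      have h9 : (6 : ℝ) * ((n + 3).choose 3 : ℕ) ≤ ((n + 3 : ℕ) : ℝ) ^ 3 := by
        have h10 : 6 * (n + 3).choose 3 ≤ (n + 3) ^ 3 := by
          have := Nat.descFactorial_le_pow (n + 3) 3
          rw [Nat.descFactorial_eq_factorial_mul_choose] at this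
          exact this
        exact_mod_cast h10
      have h11 : ((n + 3 : ℕ) : ℝ) ^ 3 ≤ cc (n + 3) * ((n + 3 : ℕ) : ℝ) ^ 2 := by
        have := le_cc (n + 3)
        calc ((n + 3 : ℕ) : ℝ) ^ 3 = ((n + 3 : ℕ) : ℝ) * ((n + 3 : ℕ) : ℝ) ^ 2 := by ring
          _ ≤ _ := by gcongr
      calc 6 * (((n + 3).choose 3 : ℕ) * Real.exp (-s) ^ n) * Real.exp (-s) ^ 3 =
          (6 * ((n + 3).choose 3 : ℕ)) * (Real.exp (-s) ^ n * Real.exp (-s) ^ 3) := by ring
        _ ≤ _ := mul_le_mul_of_nonneg_right (h9.trans h11) (by positivity)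
    linarith
  refine le_trans ?_ h4
  set x := Real.exp (-s)
  have h5 : 0 < 1 - x := by linarith
  have h6 : (1 - x) ^ (3 + 1) ≤ s ^ 4 := pow_le_pow_left₀ h5.le a3 4
  have h7 : (97 / 100 : ℝ) ≤ x ^ 3 := by
    calc (97 / 100 : ℝ) ≤ (99 / 100) ^ 3 := by norm_num
      _ ≤ x ^ 3 := pow_le_pow_left₀ (by norm_num) a1 3
  calc 5 / s ^ 4 ≤ 6 * (97 / 100) / s ^ 4 := by
        gcongr
        norm_num
    _ ≤ 6 * x ^ 3 / s ^ 4 := by gcongr
    _ ≤ 6 * x ^ 3 / (1 - x) ^ (3 + 1) := by gcongr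
    _ = _ := by ring

theorem saddle_exists (N : ℕ) (hN : 10 ^ 9 ≤ N) : ∃ t : ℝ, 0 < t ∧ SS 1 t = N := by
  have hN' : (10 : ℝ) ^ 9 ≤ N := by exact_mod_cast hN
  have hN0 : (0 : ℝ) < N := by linarith
  set a : ℝ := 1 / N with ha
  have ha0 : 0 < a := by positivity
  have ha1 : a ≤ 1 / 100 := by
    rw [ha]
    apply one_div_le_one_div_of_le (by norm_num)
    linarith
  have hc : ContinuousOn (SS 1) (Set.Icc a (1 / 100)) := by
    intro t ht
    exact (SS_hasDerivAt 1 t (ha0.trans_le ht.1)).continuousAt.continuousWithinAt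
  have h1 := intermediate_value_Icc' ha1 hc
  have h2 : SS 1 (1 / 100) ≤ N := by
    refine (SS1_le (1 / 100) (by norm_num)).trans ?_
    refine le_trans ?_ hN'
    norm_num
  have h3 : (N : ℝ) ≤ SS 1 a := by
    refine le_trans ?_ (le_SS1 a ha0 ha1)
    rw [ha, div_pow, one_pow, div_div_eq_mul_div, div_one]
    have : (1 : ℝ) ≤ (N : ℝ) ^ 2 := by nlinarith
    nlinarith
  obtain ⟨t, ht, h4⟩ := h1 ⟨h2, h3⟩
  exact ⟨t, ha0.trans_le ht.1, h4⟩

end Pool.Agent.MP7629b0
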