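import Pool.Agent.Lib.MP_7629b0_nt.Defs
import Pool.Agent.Lib.MP_7629b0_nt.LCA
import Pool.Agent.Lib.MP_7629b0_nt.SSB
import Pool.Agent.Lib.MP_7629b0_nt.ARC
import Pool.Agent.Lib.MP_7629b0_nt.SHIFT
import Pool.Agent.Lib.MP_7629b0_nt.LAPL

namespace Pool.Agent.MP7629b0

open Complex

/-! ### Module LAP: the size of `MM` at a complex saddle point -/

theorem LAP_step_pos (f f' : ℝ → ℂ) (hf : ∀ x, HasDerivAt f (f' x) x) (h0 : f 0 = 0) (C : ℝ)
    (n : ℕ) (hb : ∀ x, ‖f' x‖ ≤ C * |x| ^ n) (x : ℝ) (hx : 0 ≤ x) :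
    ‖f x‖ ≤ C * |x| ^ (n + 1) / (n + 1) := by
  have h := image_norm_le_of_norm_deriv_right_le_deriv_boundary (f := f) (f' := f') (a := 0)
    (b := x) (B := fun x => C * x ^ (n + 1) / (n + 1)) (B' := fun x => C * x ^ n)
    (fun y _ => (hf y).continuousAt.continuousWithinAt)
    (fun y _ => (hf y).hasDerivWithinAt) (by simp [h0])
    (fun y => by
      have h1 := ((hasDerivAt_pow (n + 1) y).const_mul C).div_const ((n : ℝ) + 1)
      refine h1.congr_deriv ?_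
      have : (n : ℝ) + 1 ≠ 0 := by positivity
      rw [Nat.add_sub_cancel]
      push_cast
      field_simp)
    (fun y hy => by
      have := hb y
      rwa [abs_of_nonneg hy.1] at this)
  have := h ⟨hx, le_rfl⟩
  rwa [abs_of_nonneg hx]

theorem LAP_step (f f' : ℝ → ℂ) (hf : ∀ x, HasDerivAt f (f' x) x) (h0 : f 0 = 0) (C : ℝ)
    (n : ℕ) (hb : ∀ x, ‖f' x‖ ≤ C * |x| ^ n) (x : ℝ) :
    ‖f x‖ ≤ C * |x| ^ (n + 1) / (n + 1) := by
  rcases le_total 0 x with hx | hx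
  · exact LAP_step_pos f f' hf h0 C n hb x hx
  · have h := LAP_step_pos (fun x => f (-x)) (fun x => -f' (-x)) (fun y => by
      have h1 := (hf (-y)).scomp y (hasDerivAt_neg y)
      simpa [Function.comp_def] using h1) (by simpa using h0) C n
      (fun y => by simpa using hb (-y)) (-x) (by linarith)
    simpa using h

theorem LAP_line (j : ℕ) (τ : ℂ) (hτ : 0 < τ.re) (x : ℝ) :
    HasDerivAt (fun x : ℝ => LC j (τ + x * I)) (-(I * LC (j + 1) (τ + x * I))) x := by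
  have h1 : HasDerivAt (fun x : ℝ => τ + (x : ℂ) * I) I x := by
    have := (((hasDerivAt_id (x : ℂ)).mul_const I).const_add τ).comp_ofReal
    simpa using this
  have h2 := LC_hasDerivAt j (τ + x * I) (by simpa using hτ)
  have h3 := h2.comp x h1
  exact h3.congr_deriv (by ring)

theorem LAP_norm (j : ℕ) (τ : ℂ) (hτ : 0 < τ.re) (x : ℝ) :
    ‖LC j (τ + x * I)‖ ≤ SS j τ.re := by
  have := LC_norm_le j (τ + x * I) (by simpa using hτ)
  simpa using this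

theorem LAP_T1 (j : ℕ) (τ : ℂ) (hτ : 0 < τ.re) (x : ℝ) :
    ‖LC j (τ + x * I) - LC j τ‖ ≤ SS (j + 1) τ.re * |x| := by
  have h := LAP_step (fun x => LC j (τ + x * I) - LC j τ) (fun x => -(I * LC (j + 1) (τ + x * I)))
    (fun x => (LAP_line j τ hτ x).sub_const _) (by simp) (SS (j + 1) τ.re) 0
    (fun x => by
      rw [norm_neg, norm_mul, norm_I, one_mul, pow_zero, mul_one]
      exact LAP_norm (j + 1) τ hτ x) x
  simpa using h

theorem LAP_T2 (τ : ℂ) (hτ : 0 < τ.re) (x : ℝ) :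
    ‖LC 0 (τ + x * I) - LC 0 τ + I * LC 1 τ * x‖ ≤ SS 2 τ.re * |x| ^ 2 / 2 := by
  have h := LAP_step (fun x => LC 0 (τ + x * I) - LC 0 τ + I * LC 1 τ * x)
    (fun x => -(I * LC 1 (τ + x * I)) + I * LC 1 τ)
    (fun x => by
      have h1 := (LAP_line 0 τ hτ x).sub_const (LC 0 τ)
      have h2 : HasDerivAt (fun x : ℝ => I * LC 1 τ * (x : ℂ)) (I * LC 1 τ) x := by
        have := ((hasDerivAt_id (x : ℂ)).const_mul (I * LC 1 τ)).comp_ofReal
        simpa using this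
      exact h1.add h2) (by simp) (SS 2 τ.re) 1
    (fun x => by
      have e : -(I * LC 1 (τ + x * I)) + I * LC 1 τ = -(I * (LC 1 (τ + x * I) - LC 1 τ)) := by
        ring
      rw [e, norm_neg, norm_mul, norm_I, one_mul, pow_one]
      exact LAP_T1 1 τ hτ x) x
  norm_num at h
  rw [sq_abs]
  exact h

theorem LAP_T3 (τ : ℂ) (hτ : 0 < τ.re) (x : ℝ) :
    ‖LC 0 (τ + x * I) - LC 0 τ + I * LC 1 τ * x + LC 2 τ * x ^ 2 / 2‖ ≤
      SS 3 τ.re / 6 * |x| ^ 3 := by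
  have hlin : ∀ (c : ℂ) (x : ℝ), HasDerivAt (fun x : ℝ => c * (x : ℂ)) c x := by
    intro c x
    have := ((hasDerivAt_id (x : ℂ)).const_mul c).comp_ofReal
    simpa using this
  have h1 : ∀ x : ℝ, ‖-(I * LC 1 (τ + x * I)) + I * LC 1 τ + LC 2 τ * x‖ ≤
      SS 3 τ.re / 2 * |x| ^ 2 := by
    intro x
    have h := LAP_step (fun x => -(I * LC 1 (τ + x * I)) + I * LC 1 τ + LC 2 τ * x)
      (fun x => -(LC 2 (τ + x * I) - LC 2 τ))
      (fun x => by
        have h1 := ((((LAP_line 1 τ hτ x).const_mul I).neg).add_const (I * LC 1 τ)).add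
          (hlin (LC 2 τ) x)
        refine h1.congr_deriv ?_
        linear_combination (LC 2 (τ + x * I)) * I_mul_I)
      (by simp) (SS 3 τ.re) 1
      (fun x => by
        rw [norm_neg, pow_one]
        exact LAP_T1 2 τ hτ x) x
    norm_num at h
    rw [sq_abs]
    convert h using 1
    ring
  have h := LAP_step (fun x => LC 0 (τ + x * I) - LC 0 τ + I * LC 1 τ * x + LC 2 τ * x ^ 2 / 2)
    (fun x => -(I * LC 1 (τ + x * I)) + I * LC 1 τ + LC 2 τ * x)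
    (fun x => by
      have h3 : HasDerivAt (fun x : ℝ => LC 2 τ * (x : ℂ) ^ 2 / 2) (LC 2 τ * x) x := by
        have := (((hasDerivAt_pow 2 (x : ℂ)).const_mul (LC 2 τ)).div_const 2).comp_ofReal
        convert this using 1
        push_cast
        ring
      exact (((LAP_line 0 τ hτ x).sub_const (LC 0 τ)).add (hlin (I * LC 1 τ) x)).add h3)
    (by simp) (SS 3 τ.re / 2) 2 h1 x
  norm_num at h
  convert h using 1
  ring

theorem LAP_sinh (x : ℝ) (hx : 0 ≤ x) (hx1 : x ≤ 1) : Real.sinh x ≤ x * (1 + x ^ 2) := by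
  have h1 := Real.exp_bound (x := x) (by rwa [abs_of_nonneg hx]) (n := 3) (by norm_num)
  have h2 := Real.exp_bound (x := -x) (by rwa [abs_neg, abs_of_nonneg hx]) (n := 3) (by norm_num)
  rw [abs_neg] at h2
  rw [abs_of_nonneg hx] at h1 h2
  simp only [Finset.sum_range_succ, Finset.sum_range_zero, Nat.factorial] at h1 h2
  rw [abs_le] at h1 h2
  rw [Real.sinh_eq]
  norm_num at h1 h2
  have h3 : 0 ≤ x ^ 3 := by positivity
  nlinarith [h1.2, h2.1]

theorem LAP_near (t0 s y : ℝ) (ht0 : 0 < t0) (ht1 : t0 ≤ 1 / 1000)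
    (hs1 : (1 - 1 / 10 ^ 6) * t0 ≤ s) (hs2 : s ≤ (1 + 1 / 10 ^ 6) * t0)
    (hy : (166 / 100000) * t0 ≤ |Real.sin (y / 2)|) :
    (LC 0 (s + y * I)).re ≤ SS 0 s - (11 / 10 ^ 6) / t0 ^ 2 := by
  have hs0 : 0 < s := by nlinarith
  refine (LL_near s y hs0).trans ?_
  have hsh : 0 < Real.sinh (s / 2) := Real.sinh_pos_iff.mpr (by linarith)
  set S := Real.sinh (s / 2) ^ 2 with hS
  set q := Real.sin (y / 2) ^ 2 with hq
  have hS0 : 0 < S := by positivity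
  have hS1 : S ≤ (25001 / 100000) * t0 ^ 2 := by
    have h1 := LAP_sinh (s / 2) (by linarith) (by linarith)
    have h2 : Real.sinh (s / 2) ≤ (500002 / 10 ^ 6) * t0 := by
      refine h1.trans ?_
      have h3 : s / 2 ≤ (500001 / 10 ^ 6) * t0 := by linarith
      have h4 : (s / 2) ^ 2 ≤ 1 / 10 ^ 6 := by
        have : s / 2 ≤ 1 / 1000 := by linarith
        calc (s / 2) ^ 2 ≤ (1 / 1000) ^ 2 := by gcongr
          _ = 1 / 10 ^ 6 := by norm_num
      calc s / 2 * (1 + (s / 2) ^ 2) ≤ ((500001 / 10 ^ 6) * t0) * (1 + 1 / 10 ^ 6) := by gcongr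
        _ ≤ (500002 / 10 ^ 6) * t0 := by nlinarith
    calc S ≤ ((500002 / 10 ^ 6) * t0) ^ 2 := by
          rw [hS]; gcongr
      _ ≤ (25001 / 100000) * t0 ^ 2 := by nlinarith [sq_nonneg t0]
  have hq0 : ((166 / 100000) * t0) ^ 2 ≤ q := by
    rw [hq, ← sq_abs (Real.sin (y / 2))]
    gcongr
  set q0 := ((166 / 100000) * t0) ^ 2 with hq0'
  have hq00 : 0 < q0 := by positivity
  have h1 : 1 / (4 * (S + q)) ≤ 1 / (4 * (S + q0)) := by
    apply one_div_le_one_div_of_le (by positivity)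
    linarith
  have h2 : (11 / 10 ^ 6) / t0 ^ 2 ≤ 1 / (4 * S) - 1 / (4 * (S + q0)) := by
    have e : 1 / (4 * S) - 1 / (4 * (S + q0)) = q0 / (4 * S * (S + q0)) := by
      field_simp
      ring
    rw [e, div_le_div_iff₀ (by positivity) (by positivity)]
    have h3 : 4 * S * (S + q0) ≤ 4 * ((25001 / 100000) * t0 ^ 2) *
        ((25001 / 100000) * t0 ^ 2 + q0) := by gcongr
    have h4 : 0 < t0 ^ 4 := by positivity
    have h5 : (11 / 10 ^ 6 : ℝ) * (4 * ((25001 / 100000) * t0 ^ 2) *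
        ((25001 / 100000) * t0 ^ 2 + q0)) ≤ q0 * t0 ^ 2 := by
      rw [hq0']
      nlinarith
    calc (11 / 10 ^ 6 : ℝ) * (4 * S * (S + q0)) ≤ (11 / 10 ^ 6 : ℝ) *
        (4 * ((25001 / 100000) * t0 ^ 2) * ((25001 / 100000) * t0 ^ 2 + q0)) := by gcongr
      _ ≤ q0 * t0 ^ 2 := h5
  linarith

/-- the bounds for the real part of the saddle and the values there -/
theorem LAP_loc (t0 : ℝ) (ht0 : 0 < t0) (τ : ℂ) (hτ : ‖τ - t0‖ ≤ t0 / 10 ^ 11) :
    (1 - 1 / 10 ^ 6) * t0 ≤ τ.re ∧ τ.re ≤ (1 + 1 / 10 ^ 6) * t0 ∧ |τ.im| ≤ t0 / 10 ^ 11 := by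
  have h1 := (abs_re_le_norm (τ - t0)).trans hτ
  have h2 := (abs_im_le_norm (τ - t0)).trans hτ
  simp only [sub_re, ofReal_re, sub_im, ofReal_im, sub_zero] at h1 h2
  rw [abs_le] at h1
  refine ⟨?_, ?_, h2⟩
  · have : t0 / 10 ^ 11 ≤ t0 / 10 ^ 6 := by gcongr <;> norm_num
    linarith [h1.1]
  · have : t0 / 10 ^ 11 ≤ t0 / 10 ^ 6 := by gcongr <;> norm_num
    linarith [h1.2]

/-- numerical bounds at the saddle -/
theorem LAP_vals (t0 : ℝ) (ht0 : 0 < t0) (ht1 : t0 ≤ 1 / 1000) (τ : ℂ)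
    (hτ : ‖τ - t0‖ ≤ t0 / 10 ^ 11) :
    |(LC 1 τ).im| ≤ (14 / 10 ^ 11) / t0 ^ 3 ∧ 0 ≤ (LC 1 τ).re ∧
      SS 0 τ.re - 1 / (10 ^ 10 * t0 ^ 2) ≤ (LC 0 τ).re ∧
      ‖LC 2 τ - SS 2 τ.re‖ ≤ SS 2 τ.re / 100 := by
  obtain ⟨hs1, hs2, hy⟩ := LAP_loc t0 ht0 τ hτ
  set s := τ.re with hs
  set y := τ.im with hy'
  have hs0 : 0 < s := by nlinarith
  have hs3 : s ≤ 1 / 100 := by nlinarith
  have hre : 0 < ((s : ℝ) : ℂ).re := by simpa using hs0
  have eτ : τ = (s : ℂ) + y * I := (re_add_im τ).symm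
  have hA1 := SS2_le s hs0 hs3
  have hA2 := le_SS2 s hs0 hs3
  have hB1 := SS3_le s hs0 hs3
  have hlow : ∀ n : ℕ, ((1 - 1 / 10 ^ 6) * t0) ^ n ≤ s ^ n := fun n => by gcongr
  have hA3 : SS 2 s ≤ (131 / 10) / t0 ^ 4 := by
    refine hA1.trans ?_
    rw [div_le_div_iff₀ (by positivity) (by positivity)]
    have := hlow 4
    nlinarith [show 0 < t0 ^ 4 by positivity]
  have hB2 : SS 3 s * t0 ≤ 61 * SS 2 s := by
    have h1 : SS 3 s * t0 ≤ 60 / s ^ 5 * t0 := by gcongr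
    have h2 : 60 / s ^ 5 * t0 ≤ 61 * (5 / s ^ 4) := by
      have : 60 / s ^ 5 * t0 = (60 * t0 / s) / s ^ 4 := by
        field_simp
      rw [this, ← mul_div_assoc]
      gcongr
      rw [div_le_iff₀ hs0]
      nlinarith
    nlinarith
  have hT1 := LAP_T1 1 (s : ℂ) hre y
  have hT2 := LAP_T2 (s : ℂ) hre y
  have hT3 := LAP_T1 2 (s : ℂ) hre y
  rw [← eτ] at hT1 hT2 hT3
  simp only [ofReal_re] at hT1 hT2 hT3
  rw [LC_ofReal] at hT1
  rw [LC_ofReal] at hT3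
  have h1 : SS 2 s * |y| ≤ (14 / 10 ^ 11) / t0 ^ 3 := by
    calc SS 2 s * |y| ≤ (131 / 10) / t0 ^ 4 * (t0 / 10 ^ 11) := by
          gcongr
      _ = (131 / 10) / (10 ^ 11 * t0 ^ 3) := by field_simp
      _ ≤ (14 / 10 ^ 11) / t0 ^ 3 := by
        rw [div_le_div_iff₀ (by positivity) (by positivity)]
        have : 0 < t0 ^ 3 := by positivity
        nlinarith
  refine ⟨?_, ?_, ?_, ?_⟩
  · have := (abs_im_le_norm (LC 1 τ - (SS 1 s : ℂ))).trans hT1
    simp only [sub_im, ofReal_im, sub_zero] at this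
    exact this.trans h1
  · have := (abs_re_le_norm (LC 1 τ - (SS 1 s : ℂ))).trans hT1
    simp only [sub_re, ofReal_re] at this
    have h2 := (abs_le.mp this).1
    have h3 := le_SS1 s hs0 hs3
    have h4 : (14 / 10 ^ 11) / t0 ^ 3 ≤ (19 / 10) / s ^ 3 := by
      rw [div_le_div_iff₀ (by positivity) (by positivity)]
      have h5 : s ^ 3 ≤ ((1 + 1 / 10 ^ 6) * t0) ^ 3 := by gcongr
      nlinarith [show 0 < t0 ^ 3 by positivity]
    linarith
  · have h5 := (abs_re_le_norm _).trans hT2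
    have e1 : (LC 0 τ - LC 0 (s : ℂ) + I * LC 1 (s : ℂ) * y).re = (LC 0 τ).re - SS 0 s := by
      rw [LC_ofReal, LC_ofReal]
      simp
    rw [e1] at h5
    have h6 := (abs_le.mp h5).1
    have h7 : SS 2 s * |y| ^ 2 / 2 ≤ 1 / (10 ^ 10 * t0 ^ 2) := by
      have h8 : |y| ^ 2 ≤ (t0 / 10 ^ 11) ^ 2 := by gcongr
      calc SS 2 s * |y| ^ 2 / 2 ≤ (131 / 10) / t0 ^ 4 * (t0 / 10 ^ 11) ^ 2 / 2 := by
            gcongr
        _ = (131 / 20) / 10 ^ 22 / t0 ^ 2 := by field_simp; norm_num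
        _ ≤ 1 / (10 ^ 10 * t0 ^ 2) := by
          rw [div_le_div_iff₀ (by positivity) (by positivity)]
          have : 0 < t0 ^ 2 := by positivity
          nlinarith
    linarith
  · refine hT3.trans ?_
    have h9 : SS 3 s * |y| ≤ SS 3 s * (t0 / 10 ^ 11) := by
      have : 0 ≤ SS 3 s := by
        have := LC_norm_le 3 (s : ℂ) hre
        simp only [ofReal_re] at this
        exact (norm_nonneg _).trans this
      gcongr
    have h10 : SS (2 + 1) s = SS 3 s := rfl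
    rw [h10]
    refine h9.trans ?_
    have : SS 3 s * (t0 / 10 ^ 11) = (SS 3 s * t0) / 10 ^ 11 := by ring
    rw [this]
    have h11 : 0 < 5 / s ^ 4 := by positivity
    have h12 : 0 < SS 2 s := by linarith
    rw [div_le_iff₀ (by positivity)]
    nlinarith

theorem LAP_main (t0 : ℝ) (ht0 : 0 < t0) (ht1 : t0 ≤ 1 / 10 ^ 6) (τ : ℂ)
    (hτ : ‖τ - t0‖ ≤ t0 / 10 ^ 11) :
    (27 / 100) * t0 ^ 2 * Real.exp (LC 0 τ + τ * LC 1 τ).re ≤
      ‖∫ v in (τ.im - t0 / 300)..(τ.im + t0 / 300), Complex.exp (LC 0 (τ.re + v * I)) *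
        Complex.exp (LC 1 τ * (τ.re + v * I))‖ ∧
    ‖∫ v in (τ.im - t0 / 300)..(τ.im + t0 / 300), Complex.exp (LC 0 (τ.re + v * I)) *
        Complex.exp (LC 1 τ * (τ.re + v * I))‖ ≤
      2 * t0 ^ 2 * Real.exp (LC 0 τ + τ * LC 1 τ).re := by
  obtain ⟨hs1, hs2, hy⟩ := LAP_loc t0 ht0 τ hτ
  obtain ⟨-, -, -, hα⟩ := LAP_vals t0 ht0 (by linarith) τ hτ
  set s := τ.re with hs
  set y := τ.im with hy'
  have hs0 : 0 < s := by nlinarith
  have hs3 : s ≤ 1 / 100 := by nlinarith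
  have eτ : τ = (s : ℂ) + y * I := (re_add_im τ).symm
  have hA1 := SS2_le s hs0 hs3
  have hA2 := le_SS2 s hs0 hs3
  have hB1 := SS3_le s hs0 hs3
  have hA0 : 0 < SS 2 s := lt_of_lt_of_le (by positivity) hA2
  have hB0 : 0 ≤ SS 3 s := (norm_nonneg _).trans (LC_norm_le 3 τ hs0)
  have hlap := laplace (SS 2 s) (SS 3 s / 6) (t0 / 300) (LC 2 τ)
    (fun x => LC 0 (τ + x * I) - LC 0 τ + I * LC 1 τ * x) hA0 (by positivity) (by positivity)
    (by
      refine Continuous.continuousOn ?_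
      refine (Continuous.sub ?_ continuous_const).add (by fun_prop)
      exact continuous_iff_continuousAt.mpr fun x => (LAP_line 0 τ hs0 x).continuousAt)
    hα (fun v _ => LAP_T3 τ hs0 v)
    (by
      have h1 : SS 3 s / 6 * (t0 / 300) ≤ 60 / s ^ 5 / 6 * (t0 / 300) := by gcongr
      have h2 : 60 / s ^ 5 / 6 * (t0 / 300) ≤ (5 / s ^ 4) / 100 := by
        have e : 60 / s ^ 5 / 6 * (t0 / 300) = (t0 / (30 * s)) / s ^ 4 := by
          field_simp; norm_num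
        have e2 : (5 / s ^ 4) / 100 = (1 / 20) / s ^ 4 := by ring
        rw [e, e2]
        apply div_le_div_of_nonneg_right _ (by positivity)
        rw [div_le_iff₀ (by positivity)]
        nlinarith
      have h3 : (5 / s ^ 4) / 100 ≤ SS 2 s / 100 := by gcongr
      linarith)
    (by
      have h1 : (1000 * (SS 3 s / 6)) ^ 2 ≤ (1000 * (60 / s ^ 5 / 6)) ^ 2 := by gcongr
      have h2 : (1000 * (60 / s ^ 5 / 6)) ^ 2 ≤ (5 / s ^ 4) ^ 3 := by
        have e : (1000 * (60 / s ^ 5 / 6)) ^ 2 = 10 ^ 8 / s ^ 10 := by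
          field_simp; norm_num
        have e2 : (5 / s ^ 4) ^ 3 = 125 / s ^ 12 := by
          field_simp; norm_num
        rw [e, e2, div_le_div_iff₀ (by positivity) (by positivity)]
        have h3 : s ^ 2 ≤ (1 / 10 ^ 5) ^ 2 := by
          have : s ≤ 1 / 10 ^ 5 := by nlinarith
          gcongr
        have h4 : s ^ 12 = s ^ 2 * s ^ 10 := by ring
        rw [h4]
        have h5 : 0 < s ^ 10 := by positivity
        nlinarith
      have h3 : (5 / s ^ 4) ^ 3 ≤ SS 2 s ^ 3 := by gcongr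
      linarith)
    (by
      have h1 : 5 / s ^ 4 * (t0 / 300) ^ 2 ≤ SS 2 s * (t0 / 300) ^ 2 := by gcongr
      refine le_trans ?_ h1
      have h2 : s ^ 4 ≤ ((1 + 1 / 10 ^ 6) * t0) ^ 4 := by gcongr
      rw [div_mul_eq_mul_div, le_div_iff₀ (by positivity)]
      have h3 : t0 ^ 2 ≤ (1 / 10 ^ 6) ^ 2 := by gcongr
      have h4 : 0 < t0 ^ 2 := by positivity
      nlinarith [mul_le_mul_of_nonneg_left h3 h4.le])
  -- the substitution
  have hsub : ∫ v in (y - t0 / 300)..(y + t0 / 300), Complex.exp (LC 0 (s + v * I)) *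
        Complex.exp (LC 1 τ * (s + v * I)) = Complex.exp (LC 0 τ + τ * LC 1 τ) *
        ∫ x in (-(t0 / 300))..(t0 / 300),
          Complex.exp (LC 0 (τ + x * I) - LC 0 τ + I * LC 1 τ * x) := by
    have h1 := intervalIntegral.integral_comp_add_left (a := -(t0 / 300)) (b := t0 / 300)
      (fun v : ℝ => Complex.exp (LC 0 (s + v * I)) * Complex.exp (LC 1 τ * (s + v * I))) y
    rw [← sub_eq_add_neg] at h1
    rw [← h1, ← intervalIntegral.integral_const_mul]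
    congr 1
    funext x
    have e1 : (s : ℂ) + ((y + x : ℝ) : ℂ) * I = τ + x * I := by
      rw [eτ]; push_cast; ring
    rw [e1, ← Complex.exp_add, ← Complex.exp_add]
    congr 1
    ring
  rw [hsub, norm_mul, Complex.norm_exp]
  set E0 := Real.exp (LC 0 τ + τ * LC 1 τ).re with hE0
  have hE00 : 0 < E0 := Real.exp_pos _
  have hsq1 : Real.sqrt (SS 2 s) ≤ (361 / 100) / s ^ 2 := by
    rw [Real.sqrt_le_left (by positivity)]
    refine hA1.trans ?_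
    rw [div_pow, ← pow_mul]
    gcongr
    norm_num
  have hsq2 : (223 / 100) / s ^ 2 ≤ Real.sqrt (SS 2 s) := by
    apply Real.le_sqrt_of_sq_le
    refine le_trans ?_ hA2
    rw [div_pow, ← pow_mul]
    gcongr
    norm_num
  have hsq0 : 0 < Real.sqrt (SS 2 s) := Real.sqrt_pos.mpr hA0
  have ht2 : 0 < t0 ^ 2 := by positivity
  constructor
  · have h1 : (27 / 100) * t0 ^ 2 ≤ 1 / Real.sqrt (SS 2 s) := by
      rw [le_div_iff₀ hsq0]
      calc (27 / 100) * t0 ^ 2 * Real.sqrt (SS 2 s) ≤ (27 / 100) * t0 ^ 2 *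
            ((361 / 100) / s ^ 2) := by gcongr
        _ = ((27 / 100) * (361 / 100) * t0 ^ 2) / s ^ 2 := by ring
        _ ≤ 1 := by
          rw [div_le_one (by positivity)]
          have : ((1 - 1 / 10 ^ 6) * t0) ^ 2 ≤ s ^ 2 := by gcongr
          nlinarith
    calc (27 / 100) * t0 ^ 2 * E0 ≤ 1 / Real.sqrt (SS 2 s) * E0 := by gcongr
      _ = E0 * (1 / Real.sqrt (SS 2 s)) := by ring
      _ ≤ _ := by gcongr; exact hlap.1
  · have h1 : 4 / Real.sqrt (SS 2 s) ≤ 2 * t0 ^ 2 := by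
      rw [div_le_iff₀ hsq0]
      have h3 : s ^ 2 ≤ ((1 + 1 / 10 ^ 6) * t0) ^ 2 := by gcongr
      calc (4 : ℝ) ≤ 2 * t0 ^ 2 * ((223 / 100) / s ^ 2) := by
            rw [← mul_div_assoc, le_div_iff₀ (by positivity)]
            nlinarith
        _ ≤ 2 * t0 ^ 2 * Real.sqrt (SS 2 s) := by gcongr
    calc _ ≤ E0 * (4 / Real.sqrt (SS 2 s)) := by gcongr; exact hlap.2
      _ ≤ E0 * (2 * t0 ^ 2) := by gcongr
      _ = 2 * t0 ^ 2 * E0 := by ring

theorem LAP_sin (t0 v : ℝ) (ht0 : 0 < t0) (ht1 : t0 ≤ 1 / 10 ^ 6) (h1 : (333 / 100000) * t0 ≤ |v|)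
    (h2 : |v| ≤ 100 * t0) : (166 / 100000) * t0 ≤ |Real.sin (v / 2)| := by
  have h3 : |Real.sin (v / 2)| = |Real.sin (|v| / 2)| := by
    rcases abs_cases v with h | h
    · rw [h.1]
    · rw [h.1, neg_div, Real.sin_neg, abs_neg]
  rw [h3]
  have hx0 : 0 < |v| / 2 := by
    have : 0 < |v| := lt_of_lt_of_le (by positivity) h1
    positivity
  have h4 := Real.sin_gt_sub_cube hx0
  have h5 : (|v| / 2) ^ 2 ≤ 1 / 10 ^ 6 := by
    have : |v| / 2 ≤ 1 / 10 ^ 3 := by nlinarith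
    calc (|v| / 2) ^ 2 ≤ (1 / 10 ^ 3) ^ 2 := by gcongr
      _ = 1 / 10 ^ 6 := by norm_num
  refine le_trans ?_ (le_abs_self _)
  have h6 : (|v| / 2) ^ 3 = (|v| / 2) ^ 2 * (|v| / 2) := by ring
  nlinarith

theorem LAP_tail (t0 : ℝ) (ht0 : 0 < t0) (ht1 : t0 ≤ 1 / 10 ^ 6) (τ : ℂ)
    (hτ : ‖τ - t0‖ ≤ t0 / 10 ^ 11) (v y : ℝ) (hv : |v| ≤ 100 * t0)
    (hy : (166 / 100000) * t0 ≤ |Real.sin (y / 2)|) :
    ‖Complex.exp (LC 0 (τ.re + y * I)) * Complex.exp (LC 1 τ * (τ.re + v * I))‖ ≤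
      Real.exp (-((1 / 10 ^ 5) / t0 ^ 2)) * Real.exp (LC 0 τ + τ * LC 1 τ).re := by
  obtain ⟨hs1, hs2, hy0⟩ := LAP_loc t0 ht0 τ hτ
  obtain ⟨hz, -, hL, -⟩ := LAP_vals t0 ht0 (by linarith) τ hτ
  have hn := LAP_near t0 τ.re y ht0 (by linarith) hs1 hs2 hy
  rw [norm_mul, Complex.norm_exp, Complex.norm_exp, ← Real.exp_add, ← Real.exp_add]
  apply Real.exp_le_exp.mpr
  have e1 : (LC 1 τ * (τ.re + v * I)).re = τ.re * (LC 1 τ).re - v * (LC 1 τ).im := by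
    simp [mul_comm]
  have e2 : (LC 0 τ + τ * LC 1 τ).re = (LC 0 τ).re + (τ.re * (LC 1 τ).re - τ.im * (LC 1 τ).im) := by
    simp
  rw [e1, e2]
  set Z := (LC 1 τ).im with hZ
  have h1 : |(v - τ.im) * Z| ≤ (101 * t0) * ((14 / 10 ^ 11) / t0 ^ 3) := by
    rw [abs_mul]
    have : |v - τ.im| ≤ 101 * t0 := by
      refine (abs_sub _ _).trans ?_
      have : t0 / 10 ^ 11 ≤ t0 := div_le_self ht0.le (by norm_num)
      linarith
    gcongr
  have h2 : (101 * t0) * ((14 / 10 ^ 11) / t0 ^ 3) = (1414 / 10 ^ 11) / t0 ^ 2 := by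
    field_simp; norm_num
  rw [h2] at h1
  have h3 := (abs_le.mp h1).1
  have h4 : (1 : ℝ) / (10 ^ 10 * t0 ^ 2) = (1 / 10 ^ 10) / t0 ^ 2 := by
    field_simp
  rw [h4] at hL
  have h5 : (11 / 10 ^ 6) / t0 ^ 2 = (1 / 10 ^ 5) / t0 ^ 2 + (1 / 10 ^ 6) / t0 ^ 2 := by
    rw [← add_div]; norm_num
  have h6 : (1 / 10 ^ 10 : ℝ) / t0 ^ 2 + (1414 / 10 ^ 11) / t0 ^ 2 ≤ (1 / 10 ^ 6) / t0 ^ 2 := by
    rw [← add_div]
    gcongr
    norm_num
  have h7 : (v - τ.im) * Z = v * Z - τ.im * Z := by ring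
  rw [h7] at h3
  linarith

theorem LAP_cont (s : ℝ) (hs : 0 < s) : Continuous fun v : ℝ => LC 0 (s + v * I) :=
  continuous_iff_continuousAt.mpr fun x => (LAP_line 0 (s : ℂ) (by simpa using hs) x).continuousAt

/-- the error of the contour shift -/
theorem LAP_err (t0 : ℝ) (ht0 : 0 < t0) (ht1 : t0 ≤ 1 / 10 ^ 6) (τ : ℂ)
    (hτ : ‖τ - t0‖ ≤ t0 / 10 ^ 11) :
    Real.exp ((312 / 1000) / t0 ^ 2 + τ.re * (LC 1 τ).re + 100 * t0 * |(LC 1 τ).im|) ≤
      Real.exp (-((1 / 10 ^ 5) / t0 ^ 2)) * Real.exp (LC 0 τ + τ * LC 1 τ).re := by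
  obtain ⟨hs1, hs2, hy⟩ := LAP_loc t0 ht0 τ hτ
  obtain ⟨hz, -, hL, -⟩ := LAP_vals t0 ht0 (by linarith) τ hτ
  rw [← Real.exp_add]
  apply Real.exp_le_exp.mpr
  have e2 : (LC 0 τ + τ * LC 1 τ).re = (LC 0 τ).re + (τ.re * (LC 1 τ).re - τ.im * (LC 1 τ).im) := by
    simp
  rw [e2]
  generalize (LC 1 τ).im = Z at *
  generalize τ.im = y at *
  generalize (LC 1 τ).re = X at *
  generalize (LC 0 τ).re = L at *
  have hs0 : 0 < τ.re := by nlinarith
  have hs3 : τ.re ≤ 1 / 100 := by nlinarith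
  have h1 := le_SS0 τ.re hs0 hs3
  generalize τ.re = s at *
  have h2 : (115 / 100) / t0 ^ 2 ≤ (116 / 100) / s ^ 2 := by
    rw [div_le_div_iff₀ (by positivity) (by positivity)]
    have : s ^ 2 ≤ ((1 + 1 / 10 ^ 6) * t0) ^ 2 := by gcongr
    nlinarith [show 0 < t0 ^ 2 by positivity]
  have h3 : 100 * t0 * |Z| + y * Z ≤ (101 * t0) * ((14 / 10 ^ 11) / t0 ^ 3) := by
    have h4 : y * Z ≤ t0 * |Z| := by
      calc y * Z ≤ |y * Z| := le_abs_self _
        _ = |y| * |Z| := abs_mul _ _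
        _ ≤ t0 * |Z| := by
          gcongr
          exact hy.trans (div_le_self ht0.le (by norm_num))
    have h5 : t0 * |Z| ≤ t0 * ((14 / 10 ^ 11) / t0 ^ 3) := by gcongr
    linarith
  have h4 : (101 * t0) * ((14 / 10 ^ 11) / t0 ^ 3) = (1414 / 10 ^ 11) / t0 ^ 2 := by
    field_simp; norm_num
  rw [h4] at h3
  have h5 : (1 : ℝ) / (10 ^ 10 * t0 ^ 2) = (1 / 10 ^ 10) / t0 ^ 2 := by
    field_simp
  rw [h5] at hL
  have h6 : (312 / 1000) / t0 ^ 2 + (1414 / 10 ^ 11) / t0 ^ 2 + (1 / 10 ^ 10) / t0 ^ 2 +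
      (1 / 10 ^ 5) / t0 ^ 2 ≤ (115 / 100) / t0 ^ 2 := by
    rw [← add_div, ← add_div, ← add_div]
    gcongr
    norm_num
  linarith

theorem LAP_small (t0 : ℝ) (ht0 : 0 < t0) (ht1 : t0 ≤ 1 / 10 ^ 8) :
    2 * Real.exp (-((1 / 10 ^ 5) / t0 ^ 2)) ≤ t0 ^ 2 / 1000 := by
  set x := (1 / 10 ^ 5) / t0 ^ 2 with hx
  have hx0 : 0 < x := by positivity
  have h1 := Real.quadratic_le_exp_of_nonneg hx0.le
  have h2 : x ^ 2 / 2 ≤ Real.exp x := by linarith
  have h3 : Real.exp (-x) ≤ 2 / x ^ 2 := by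
    rw [Real.exp_neg, ← one_div]
    have h4 : (2 : ℝ) / x ^ 2 = 1 / (x ^ 2 / 2) := by field_simp
    rw [h4]
    exact one_div_le_one_div_of_le (by positivity) h2
  have h4 : 2 / x ^ 2 = 2 * 10 ^ 10 * t0 ^ 4 := by
    rw [hx]
    field_simp
  rw [h4] at h3
  have h5 : t0 ^ 4 ≤ t0 ^ 2 * (1 / 10 ^ 8) ^ 2 := by
    have : t0 ^ 2 ≤ (1 / 10 ^ 8) ^ 2 := by gcongr
    calc t0 ^ 4 = t0 ^ 2 * t0 ^ 2 := by ring
      _ ≤ t0 ^ 2 * (1 / 10 ^ 8) ^ 2 := by gcongr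
  nlinarith [show 0 < t0 ^ 2 by positivity]

/-- integral over a set where the integrand is small -/
theorem LAP_piece (G : ℝ → ℂ) (a b M c : ℝ) (hab : a ≤ b) (hM : 0 ≤ M) (hc : b - a ≤ c)
    (h : ∀ v, a < v → v ≤ b → ‖G v‖ ≤ M) : ‖∫ v in a..b, G v‖ ≤ M * c := by
  refine (intervalIntegral.norm_integral_le_of_norm_le_const (C := M) fun v hv => ?_).trans ?_
  · rw [Set.uIoc_of_le hab] at hv
    exact h v hv.1 hv.2
  · rw [abs_of_nonneg (by linarith)]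
    gcongr

theorem LAP_split (t0 : ℝ) (ht0 : 0 < t0) (ht1 : t0 ≤ 1 / 10 ^ 6) (r : ℕ) (τ : ℂ)
    (hτ : ‖τ - t0‖ ≤ t0 / 10 ^ 11) :
    ‖(∫ v in (-(100 * t0))..(100 * t0), Fr r (τ.re + v * I) *
        Complex.exp (LC 1 τ * (τ.re + v * I))) -
      ∫ v in (τ.im - t0 / 300)..(τ.im + t0 / 300), Complex.exp (LC 0 (τ.re + v * I)) *
        Complex.exp (LC 1 τ * (τ.re + v * I))‖ ≤
      (Real.exp (-((1 / 10 ^ 5) / t0 ^ 2)) * Real.exp (LC 0 τ + τ * LC 1 τ).re) * (402 * t0) := by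
  obtain ⟨hs1, hs2, hy⟩ := LAP_loc t0 ht0 τ hτ
  have htail := LAP_tail t0 ht0 ht1 τ hτ
  have hs0 : 0 < τ.re := by nlinarith
  have hM0 : 0 ≤ Real.exp (-((1 / 10 ^ 5) / t0 ^ 2)) * Real.exp (LC 0 τ + τ * LC 1 τ).re := by
    positivity
  generalize Real.exp (-((1 / 10 ^ 5) / t0 ^ 2)) * Real.exp (LC 0 τ + τ * LC 1 τ).re = M at *
  generalize τ.re = s at *
  generalize τ.im = y at *
  generalize LC 1 τ = z at *
  set G1 : ℝ → ℂ := fun v => Complex.exp (LC 0 (s + v * I)) * Complex.exp (z * (s + v * I))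
    with hG1
  set G2 : ℝ → ℂ := fun v => (-1) ^ r * (Complex.exp (LC 0 (s + (v + Real.pi : ℝ) * I)) *
    Complex.exp (z * (s + v * I))) with hG2
  have hc1 : Continuous G1 := by
    have := LAP_cont s hs0
    rw [hG1]
    fun_prop
  have hc2 : Continuous G2 := by
    have := (LAP_cont s hs0).comp (continuous_add_const Real.pi)
    simp only [Function.comp_def] at this
    rw [hG2]
    fun_prop
  have hsum : (∫ v in (-(100 * t0))..(100 * t0), Fr r (s + v * I) *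
      Complex.exp (z * (s + v * I))) =
      (∫ v in (-(100 * t0))..(y - t0 / 300), G1 v) + (∫ v in (y - t0 / 300)..(y + t0 / 300), G1 v) +
        (∫ v in (y + t0 / 300)..(100 * t0), G1 v) + ∫ v in (-(100 * t0))..(100 * t0), G2 v := by
    rw [intervalIntegral.integral_add_adjacent_intervals (hc1.intervalIntegrable _ _)
      (hc1.intervalIntegrable _ _), intervalIntegral.integral_add_adjacent_intervals
      (hc1.intervalIntegrable _ _) (hc1.intervalIntegrable _ _),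
      ← intervalIntegral.integral_add (hc1.intervalIntegrable _ _) (hc2.intervalIntegrable _ _)]
    congr 1
    funext v
    have e : (s : ℂ) + v * I + Real.pi * I = s + ((v + Real.pi : ℝ) : ℂ) * I := by
      push_cast; ring
    rw [Fr, e, hG1, hG2]
    ring
  have hyt : |y| ≤ t0 / 10 ^ 6 := hy.trans (by gcongr <;> norm_num)
  have hyt' := abs_le.mp hyt
  have hb1 : ‖∫ v in (-(100 * t0))..(y - t0 / 300), G1 v‖ ≤ M * (101 * t0) := by
    refine LAP_piece _ _ _ _ _ (by linarith) hM0 (by linarith) fun v hv1 hv2 => ?_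
    have hv3 : |v| ≤ 100 * t0 := abs_le.mpr ⟨hv1.le, by linarith⟩
    refine htail v v hv3 (LAP_sin t0 v ht0 ht1 ?_ hv3)
    rw [abs_of_nonpos (by linarith)]
    linarith
  have hb2 : ‖∫ v in (y + t0 / 300)..(100 * t0), G1 v‖ ≤ M * (101 * t0) := by
    refine LAP_piece _ _ _ _ _ (by linarith) hM0 (by linarith) fun v hv1 hv2 => ?_
    have hv3 : |v| ≤ 100 * t0 := abs_le.mpr ⟨by linarith, hv2⟩
    refine htail v v hv3 (LAP_sin t0 v ht0 ht1 ?_ hv3)
    rw [abs_of_nonneg (by linarith)]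
    linarith
  have hb3 : ‖∫ v in (-(100 * t0))..(100 * t0), G2 v‖ ≤ M * (200 * t0) := by
    refine LAP_piece _ _ _ _ _ (by linarith) hM0 (by linarith) fun v hv1 hv2 => ?_
    have hv3 : |v| ≤ 100 * t0 := abs_le.mpr ⟨hv1.le, hv2⟩
    have hG2n : ‖G2 v‖ = ‖Complex.exp (LC 0 (s + (v + Real.pi : ℝ) * I)) *
        Complex.exp (z * (s + v * I))‖ := by
      change ‖(-1) ^ r * (Complex.exp (LC 0 (s + (v + Real.pi : ℝ) * I)) *
        Complex.exp (z * (s + v * I)))‖ = _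
      rw [norm_mul ((-1) ^ r), norm_pow, norm_neg, norm_one, one_pow, one_mul]
    rw [hG2n]
    refine htail v (v + Real.pi) hv3 ?_
    have e : (v + Real.pi) / 2 = v / 2 + Real.pi / 2 := by ring
    rw [e, Real.sin_add_pi_div_two]
    refine le_trans ?_ (le_abs_self _)
    have h1 := Real.one_sub_sq_div_two_le_cos (x := v / 2)
    have h2 : (v / 2) ^ 2 ≤ 1 := by
      rw [← sq_abs]
      have : |v / 2| ≤ 1 := by
        rw [abs_div, abs_two]
        nlinarith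
      nlinarith [abs_nonneg (v / 2)]
    nlinarith
  rw [hsum]
  have e : (∫ v in (-(100 * t0))..(y - t0 / 300), G1 v) +
      (∫ v in (y - t0 / 300)..(y + t0 / 300), G1 v) +
        (∫ v in (y + t0 / 300)..(100 * t0), G1 v) + (∫ v in (-(100 * t0))..(100 * t0), G2 v) -
        (∫ v in (y - t0 / 300)..(y + t0 / 300), G1 v) =
      (∫ v in (-(100 * t0))..(y - t0 / 300), G1 v) +
        (∫ v in (y + t0 / 300)..(100 * t0), G1 v) + ∫ v in (-(100 * t0))..(100 * t0), G2 v := by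
    ring
  rw [e]
  refine norm_add₃_le.trans ?_
  linarith

theorem MM_saddle : ∃ t1 : ℝ, 0 < t1 ∧ ∀ t0 : ℝ, 0 < t0 → t0 ≤ t1 → ∀ (r : ℕ) (τ : ℂ),
    ‖τ - t0‖ ≤ t0 / 10 ^ 11 →
    t0 ^ 2 / 100 * Real.exp (LC 0 τ + τ * LC 1 τ).re ≤ ‖MM r t0 (LC 1 τ)‖ ∧
    ‖MM r t0 (LC 1 τ)‖ ≤ t0 ^ 2 * Real.exp (LC 0 τ + τ * LC 1 τ).re := by
  obtain ⟨t1, ht1, hsh⟩ := MM_shift
  refine ⟨min t1 (1 / 10 ^ 8), by positivity, ?_⟩
  intro t0 ht0 ht r τ hτ
  have hta : t0 ≤ t1 := ht.trans (min_le_left _ _)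
  have htb : t0 ≤ 1 / 10 ^ 8 := ht.trans (min_le_right _ _)
  have htc : t0 ≤ 1 / 10 ^ 6 := htb.trans (by norm_num)
  obtain ⟨hs1, hs2, -⟩ := LAP_loc t0 ht0 τ hτ
  obtain ⟨-, hz0, -, -⟩ := LAP_vals t0 ht0 (by linarith) τ hτ
  have hmain := LAP_main t0 ht0 htc τ hτ
  have hsplit := LAP_split t0 ht0 htc r τ hτ
  have hshift := hsh t0 ht0 hta r τ.re (LC 1 τ) (by nlinarith) (by nlinarith) hz0
  have herr := LAP_err t0 ht0 htc τ hτ
  have hsmall := LAP_small t0 ht0 htb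
  have hshift2 := hshift.trans herr
  have hE00 : 0 < Real.exp (LC 0 τ + τ * LC 1 τ).re := Real.exp_pos _
  have hε0 : 0 < Real.exp (-((1 / 10 ^ 5) / t0 ^ 2)) := Real.exp_pos _
  clear hshift herr hsh
  generalize Real.exp (-((1 / 10 ^ 5) / t0 ^ 2)) = ε at *
  generalize Real.exp (LC 0 τ + τ * LC 1 τ).re = E0 at *
  generalize (∫ v in (τ.im - t0 / 300)..(τ.im + t0 / 300), Complex.exp (LC 0 (τ.re + v * I)) *
        Complex.exp (LC 1 τ * (τ.re + v * I))) = M1 at *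
  generalize (∫ v in (-(100 * t0))..(100 * t0), Fr r (τ.re + v * I) *
        Complex.exp (LC 1 τ * (τ.re + v * I))) = M2 at *
  generalize MM r t0 (LC 1 τ) = M0 at *
  have hnc : ‖(1 / (2 * (Real.pi : ℂ)))‖ = 1 / (2 * Real.pi) := by
    rw [norm_div, norm_one, norm_mul, Complex.norm_real, Real.norm_eq_abs,
      abs_of_pos Real.pi_pos]
    simp
  have hpi1 := Real.pi_gt_d2
  have hpi2 := Real.pi_lt_d2
  have hpi3 : 1 / (2 * Real.pi) ≤ 1 / 6 := one_div_le_one_div_of_le (by norm_num) (by linarith)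
  have hpi4 : 1 / (63 / 10) ≤ 1 / (2 * Real.pi) := one_div_le_one_div_of_le (by positivity)
    (by linarith)
  have hpi0 : 0 < 1 / (2 * Real.pi) := by positivity
  generalize (1 / (2 * (Real.pi : ℂ))) = C at *
  generalize 1 / (2 * Real.pi) = c at *
  have htot : ‖M0 - C * M1‖ ≤ t0 ^ 2 / 1000 * E0 := by
    have e : M0 - C * M1 = (M0 - C * M2) + C * (M2 - M1) := by ring
    rw [e]
    refine (norm_add_le _ _).trans ?_
    rw [norm_mul, hnc]
    have h2 : c * ‖M2 - M1‖ ≤ 1 / 6 * ((ε * E0) * (402 * t0)) := by gcongr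
    have h3 : 1 / 6 * ((ε * E0) * (402 * t0)) ≤ ε * E0 := by
      have : 0 < ε * E0 := by positivity
      nlinarith
    have h4 : (2 * ε) * E0 ≤ t0 ^ 2 / 1000 * E0 := by gcongr
    linarith
  have hM : ‖C * M1‖ = c * ‖M1‖ := by rw [norm_mul, hnc]
  have ht2 : 0 < t0 ^ 2 * E0 := by positivity
  constructor
  · have h2 : 1 / (63 / 10) * ((27 / 100) * t0 ^ 2 * E0) ≤ c * ‖M1‖ := by
      gcongr
      exact hmain.1
    have h3 : ‖C * M1‖ - ‖M0 - C * M1‖ ≤ ‖M0‖ := by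
      have := norm_sub_norm_le (C * M1) (C * M1 - M0)
      rw [sub_sub_cancel] at this
      rwa [norm_sub_rev M0]
    rw [hM] at h3
    nlinarith
  · have h1 := norm_add_le (M0 - C * M1) (C * M1)
    rw [sub_add_cancel, hM] at h1
    have h2 : c * ‖M1‖ ≤ 1 / 6 * (2 * t0 ^ 2 * E0) := by
      gcongr
      exact hmain.2
    nlinarith

end Pool.Agent.MP7629b0
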