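import Pool.Agent.Lib.MP_7629b0_nt.Defs
import Pool.Agent.Lib.MP_7629b0_nt.LCA

/-!
# MP_7629b0_nt, module MMA: the interpolating function is entire and real on the real axis
-/

namespace Pool.Agent.MP7629b0

open Complex

/-- period `2 pi i` -/
theorem MMA_period (j : ℕ) (t : ℂ) : LC j (t + 2 * Real.pi * I) = LC j t := by
  unfold LC
  refine tsum_congr fun n => ?_
  congr 1
  have h : -((n : ℂ) * (t + 2 * Real.pi * I)) = -(n * t) + ((-(n : ℤ) : ℤ) : ℂ) * (2 * Real.pi * I) := by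
    push_cast
    ring
  rw [h, Complex.exp_add, Complex.exp_int_mul_two_pi_mul_I, mul_one]

theorem MMA_Fr_conj (r : ℕ) (t : ℂ) : Fr r (starRingEnd ℂ t) = starRingEnd ℂ (Fr r t) := by
  have h1 : starRingEnd ℂ t + Real.pi * I = starRingEnd ℂ (t + Real.pi * I) + 2 * Real.pi * I := by
    rw [map_add, map_mul, Complex.conj_ofReal, Complex.conj_I]
    ring
  unfold Fr
  rw [h1, MMA_period, LC_conj, LC_conj, map_add, map_mul, map_pow, map_neg, map_one,
    Complex.exp_conj, Complex.exp_conj]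

theorem MM_real (r : ℕ) (t0 : ℝ) (x : ℝ) : (MM r t0 x).im = 0 := by
  rw [← Complex.conj_eq_iff_im]
  unfold MM
  rw [map_mul, ← intervalIntegral.intervalIntegral_conj]
  congr 1
  · rw [map_div₀, map_one, map_mul, Complex.conj_ofReal, map_ofNat]
  · have h : ∀ v : ℝ, starRingEnd ℂ (Fr r ((t0 / 2 : ℝ) + v * I) *
        Complex.exp (x * ((t0 / 2 : ℝ) + v * I))) =
        (fun u : ℝ => Fr r ((t0 / 2 : ℝ) + u * I) * Complex.exp (x * ((t0 / 2 : ℝ) + u * I))) (-v) := by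
      intro v
      have h2 : starRingEnd ℂ (((t0 / 2 : ℝ) : ℂ) + v * I) = ((t0 / 2 : ℝ) : ℂ) + ((-v : ℝ) : ℂ) * I := by
        rw [map_add, map_mul, Complex.conj_ofReal, Complex.conj_ofReal, Complex.conj_I]
        push_cast
        ring
      rw [map_mul, ← MMA_Fr_conj, ← Complex.exp_conj, map_mul, Complex.conj_ofReal, h2]
    refine (intervalIntegral.integral_congr (fun v _ => h v)).trans ?_
    have h3 := intervalIntegral.integral_comp_neg (a := -(100 * t0)) (b := 100 * t0)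
      (fun u : ℝ => Fr r ((t0 / 2 : ℝ) + u * I) * Complex.exp (x * ((t0 / 2 : ℝ) + u * I)))
    rw [neg_neg] at h3
    exact h3

theorem MMA_cont (r : ℕ) (s : ℝ) (hs : 0 < s) :
    Continuous fun v : ℝ => Fr r ((s : ℂ) + v * I) := by
  have h1 : Continuous fun v : ℝ => LC 0 ((s : ℂ) + v * I) := by
    rw [continuous_iff_continuousAt]
    intro v
    have hre : 0 < ((s : ℂ) + v * I).re := by simpa using hs
    exact ContinuousAt.comp (f := fun v : ℝ => (s : ℂ) + v * I)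
      (LC_hasDerivAt 0 _ hre).continuousAt (by fun_prop)
  have h2 : Continuous fun v : ℝ => LC 0 ((s : ℂ) + v * I + Real.pi * I) := by
    rw [continuous_iff_continuousAt]
    intro v
    have hre : 0 < ((s : ℂ) + v * I + Real.pi * I).re := by simpa using hs
    exact ContinuousAt.comp (f := fun v : ℝ => (s : ℂ) + v * I + Real.pi * I)
      (LC_hasDerivAt 0 _ hre).continuousAt (by fun_prop)
  unfold Fr
  fun_prop

theorem MM_diff (r : ℕ) (t0 : ℝ) (ht : 0 < t0) : Differentiable ℂ (MM r t0) := by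
  have hg : Continuous fun v : ℝ => Fr r (((t0 / 2 : ℝ) : ℂ) + v * I) :=
    MMA_cont r (t0 / 2) (by positivity)
  have hc : Continuous fun v : ℝ => ((t0 / 2 : ℝ) : ℂ) + v * I := by fun_prop
  intro z
  unfold MM
  refine DifferentiableAt.const_mul ?_ _
  let F : ℂ → ℝ → ℂ := fun z v => Fr r ((t0 / 2 : ℝ) + v * I) *
    Complex.exp (z * ((t0 / 2 : ℝ) + v * I))
  let F' : ℂ → ℝ → ℂ := fun z v => Fr r ((t0 / 2 : ℝ) + v * I) *
    (Complex.exp (z * ((t0 / 2 : ℝ) + v * I)) * ((t0 / 2 : ℝ) + v * I))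
  let bd : ℝ → ℝ := fun v => ‖Fr r ((t0 / 2 : ℝ) + v * I)‖ *
    (Real.exp ((‖z‖ + 1) * ‖((t0 / 2 : ℝ) : ℂ) + v * I‖) * ‖((t0 / 2 : ℝ) : ℂ) + v * I‖)
  have hF : ∀ z, Continuous (F z) := fun z => by
    change Continuous fun v : ℝ => Fr r ((t0 / 2 : ℝ) + v * I) *
      Complex.exp (z * ((t0 / 2 : ℝ) + v * I))
    exact hg.mul (by fun_prop)
  have hF' : ∀ z, Continuous (F' z) := fun z => by
    change Continuous fun v : ℝ => Fr r ((t0 / 2 : ℝ) + v * I) *
      (Complex.exp (z * ((t0 / 2 : ℝ) + v * I)) * ((t0 / 2 : ℝ) + v * I))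
    exact hg.mul (by fun_prop)
  have hbd : Continuous bd := by
    change Continuous fun v : ℝ => ‖Fr r ((t0 / 2 : ℝ) + v * I)‖ *
      (Real.exp ((‖z‖ + 1) * ‖((t0 / 2 : ℝ) : ℂ) + v * I‖) * ‖((t0 / 2 : ℝ) : ℂ) + v * I‖)
    exact hg.norm.mul (by fun_prop)
  have key := intervalIntegral.hasDerivAt_integral_of_dominated_loc_of_deriv_le
    (μ := MeasureTheory.volume) (a := -(100 * t0)) (b := 100 * t0) (F := F) (F' := F') (x₀ := z)
    (s := Metric.ball z 1) (bound := bd) (Metric.ball_mem_nhds z one_pos)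
    (Filter.Eventually.of_forall fun z => (hF z).aestronglyMeasurable)
    ((hF z).intervalIntegrable _ _) (hF' z).aestronglyMeasurable
    (Filter.Eventually.of_forall fun v _ z' hz' => ?_) (hbd.intervalIntegrable _ _)
    (Filter.Eventually.of_forall fun v _ z' _ => ?_)
  · exact key.2.differentiableAt
  · change ‖Fr r ((t0 / 2 : ℝ) + v * I) *
      (Complex.exp (z' * ((t0 / 2 : ℝ) + v * I)) * ((t0 / 2 : ℝ) + v * I))‖ ≤
      ‖Fr r ((t0 / 2 : ℝ) + v * I)‖ *
        (Real.exp ((‖z‖ + 1) * ‖((t0 / 2 : ℝ) : ℂ) + v * I‖) * ‖((t0 / 2 : ℝ) : ℂ) + v * I‖)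
    rw [norm_mul, norm_mul]
    have h1 : ‖Complex.exp (z' * ((t0 / 2 : ℝ) + v * I))‖ ≤
        Real.exp ((‖z‖ + 1) * ‖((t0 / 2 : ℝ) : ℂ) + v * I‖) := by
      refine (Complex.norm_exp_le_exp_norm _).trans (Real.exp_le_exp.2 ?_)
      rw [norm_mul]
      refine mul_le_mul_of_nonneg_right ?_ (norm_nonneg _)
      have h2 : ‖z' - z‖ < 1 := by rwa [← dist_eq_norm]
      have h3 : ‖z'‖ ≤ ‖z' - z‖ + ‖z‖ := by simpa using norm_add_le (z' - z) z
      linarith
    gcongr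
  · have h1 : HasDerivAt (fun x : ℂ => x * (((t0 / 2 : ℝ) : ℂ) + v * I))
        (((t0 / 2 : ℝ) : ℂ) + v * I) z' := by
      simpa using (hasDerivAt_id z').mul_const (((t0 / 2 : ℝ) : ℂ) + v * I)
    exact (h1.cexp).const_mul (Fr r ((t0 / 2 : ℝ) + v * I))

end Pool.Agent.MP7629b0
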