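import Pool.Agent.Lib.MP_7629b0_nt.Defs
import Pool.Agent.Lib.MP_7629b0_nt.LCA
import Pool.Agent.Lib.MP_7629b0_nt.SSB

namespace Pool.Agent.MP7629b0

open Complex

/-! ### Saddle parametrisation -/

/-- bounds on the closed ball around `t0` -/
theorem SAD_re {t0 ρ : ℝ} (hρ : ρ ≤ t0 / 1000) {z : ℂ}
    (hz : z ∈ Metric.closedBall (t0 : ℂ) ρ) : 999 / 1000 * t0 ≤ z.re := by
  have h1 : |(z - t0).re| ≤ ρ :=
    (Complex.abs_re_le_norm _).trans (by simpa [dist_eq_norm] using Metric.mem_closedBall.mp hz)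
  have h2 := (abs_le.mp h1).1
  simp only [Complex.sub_re, Complex.ofReal_re] at h2
  linarith

theorem SAD_LC2 {t0 ρ : ℝ} (ht : 0 < t0) (ht' : t0 ≤ 1 / 1000) (hρ : ρ ≤ t0 / 1000) {z : ℂ}
    (hz : z ∈ Metric.closedBall (t0 : ℂ) ρ) : ‖LC 2 z‖ ≤ 14 / t0 ^ 4 := by
  have hre := SAD_re hρ hz
  have hpos : 0 < 999 / 1000 * t0 := by positivity
  refine (LC_norm_le 2 z (hpos.trans_le hre)).trans ((SS_anti 2 _ _ hpos hre).trans
    ((SS2_le _ hpos (by linarith)).trans ?_))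
  rw [div_le_div_iff₀ (by positivity) (by positivity)]
  have : 0 < t0 ^ 4 := by positivity
  nlinarith

theorem SAD_LC3 {t0 ρ : ℝ} (ht : 0 < t0) (ht' : t0 ≤ 1 / 1000) (hρ : ρ ≤ t0 / 1000) {z : ℂ}
    (hz : z ∈ Metric.closedBall (t0 : ℂ) ρ) : ‖LC 3 z‖ ≤ 100 / t0 ^ 5 := by
  have hre := SAD_re hρ hz
  have hpos : 0 < 999 / 1000 * t0 := by positivity
  refine (LC_norm_le 3 z (hpos.trans_le hre)).trans ((SS_anti 3 _ _ hpos hre).trans
    ((SS3_le _ hpos (by linarith)).trans ?_))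
  rw [div_le_div_iff₀ (by positivity) (by positivity)]
  have : 0 < t0 ^ 5 := by positivity
  nlinarith

theorem SAD_deriv {t0 ρ : ℝ} (ht : 0 < t0) (hρ : ρ ≤ t0 / 1000) (j : ℕ) {z : ℂ}
    (hz : z ∈ Metric.closedBall (t0 : ℂ) ρ) : HasDerivAt (LC j) (-LC (j + 1) z) z :=
  LC_hasDerivAt j z (lt_of_lt_of_le (by positivity) (SAD_re hρ hz))

/-- the second derivative hardly changes on the ball -/
theorem SAD_LC2_sub {t0 ρ : ℝ} (ht : 0 < t0) (ht' : t0 ≤ 1 / 1000) (hρ0 : 0 ≤ ρ)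
    (hρ : ρ ≤ t0 / 1000) {z : ℂ} (hz : z ∈ Metric.closedBall (t0 : ℂ) ρ) :
    ‖LC 2 z - LC 2 t0‖ ≤ 1 / t0 ^ 4 := by
  have h := (convex_closedBall (t0 : ℂ) ρ).norm_image_sub_le_of_norm_hasDerivWithin_le
    (f := LC 2) (f' := fun z => -LC 3 z) (C := 100 / t0 ^ 5)
    (fun u hu => (SAD_deriv ht hρ 2 hu).hasDerivWithinAt)
    (fun u hu => by rw [norm_neg]; exact SAD_LC3 ht ht' hρ hu)
    (Metric.mem_closedBall_self hρ0) hz
  refine h.trans ?_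
  have hz' : ‖z - t0‖ ≤ t0 / 1000 := by
    have := Metric.mem_closedBall.mp hz
    rw [dist_eq_norm] at this
    exact this.trans hρ
  calc 100 / t0 ^ 5 * ‖z - t0‖ ≤ 100 / t0 ^ 5 * (t0 / 1000) :=
        mul_le_mul_of_nonneg_left hz' (by positivity)
    _ = (1 / 10) * (1 / t0 ^ 4) := by field_simp; norm_num
    _ ≤ 1 / t0 ^ 4 := by
        have : 0 < 1 / t0 ^ 4 := by positivity
        linarith

theorem SAD_lower {t0 ρ : ℝ} (ht : 0 < t0) (ht' : t0 ≤ 1 / 1000) (hρ0 : 0 ≤ ρ)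
    (hρ : ρ ≤ t0 / 1000) {z : ℂ} (hz : z ∈ Metric.closedBall (t0 : ℂ) ρ) :
    4 / t0 ^ 4 * ‖z - t0‖ ≤ ‖LC 1 z - LC 1 t0‖ := by
  have h := (convex_closedBall (t0 : ℂ) ρ).norm_image_sub_le_of_norm_hasDerivWithin_le
    (f := fun u => LC 1 u + LC 2 t0 * u) (f' := fun u => -LC 2 u + LC 2 t0 * 1)
    (C := 1 / t0 ^ 4)
    (fun u hu => ((SAD_deriv ht hρ 1 hu).add ((hasDerivAt_id u).const_mul _)).hasDerivWithinAt)
    (fun u hu => by
      rw [mul_one, neg_add_eq_sub, norm_sub_rev]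
      exact SAD_LC2_sub ht ht' hρ0 hρ hu)
    (Metric.mem_closedBall_self hρ0) hz
  have h2 : 5 / t0 ^ 4 ≤ ‖LC 2 t0‖ := by
    rw [LC_ofReal, Complex.norm_real]
    exact (le_SS2 t0 ht (by linarith)).trans (le_abs_self _)
  have h3 : LC 2 t0 * (z - t0) = ((LC 1 z + LC 2 t0 * z) - (LC 1 t0 + LC 2 t0 * t0)) -
      (LC 1 z - LC 1 t0) := by ring
  have h4 : ‖LC 2 t0‖ * ‖z - t0‖ ≤ 1 / t0 ^ 4 * ‖z - t0‖ + ‖LC 1 z - LC 1 t0‖ := by
    rw [← norm_mul, h3]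
    exact (norm_sub_le _ _).trans (add_le_add_left h _)
  have h5 : 5 / t0 ^ 4 * ‖z - t0‖ ≤ ‖LC 2 t0‖ * ‖z - t0‖ :=
    mul_le_mul_of_nonneg_right h2 (norm_nonneg _)
  have h6 : 5 / t0 ^ 4 * ‖z - t0‖ = 4 / t0 ^ 4 * ‖z - t0‖ + 1 / t0 ^ 4 * ‖z - t0‖ := by ring
  linarith

theorem SAD_lip {t0 ρ : ℝ} (ht : 0 < t0) (ht' : t0 ≤ 1 / 1000)
    (hρ : ρ ≤ t0 / 1000) {z z' : ℂ} (hz : z ∈ Metric.closedBall (t0 : ℂ) ρ)
    (hz' : z' ∈ Metric.closedBall (t0 : ℂ) ρ) :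
    ‖LC 1 z' - LC 1 z‖ ≤ 14 / t0 ^ 4 * ‖z' - z‖ :=
  (convex_closedBall (t0 : ℂ) ρ).norm_image_sub_le_of_norm_hasDerivWithin_le
    (f := LC 1) (f' := fun z => -LC 2 z) (C := 14 / t0 ^ 4)
    (fun u hu => (SAD_deriv ht hρ 1 hu).hasDerivWithinAt)
    (fun u hu => by rw [norm_neg]; exact SAD_LC2 ht ht' hρ hu) hz hz'

theorem saddle_param (t0 : ℝ) (ht : 0 < t0) (ht' : t0 ≤ 1 / 1000) (w : ℂ)
    (hw : ‖w‖ * t0 ^ 3 ≤ 1 / 1000) :
    ∃ τ : ℂ, ‖τ - t0‖ ≤ ‖w‖ * t0 ^ 4 ∧ LC 1 τ = SS 1 t0 + w ∧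
      |(LC 0 τ + τ * LC 1 τ).re - (SS 0 t0 + t0 * SS 1 t0) - t0 * w.re| ≤
        100 * ‖w‖ ^ 2 * t0 ^ 4 := by
  have hf0 : LC 1 t0 = (SS 1 t0 : ℂ) := LC_ofReal 1 t0
  have hL0 : LC 0 t0 = (SS 0 t0 : ℂ) := LC_ofReal 0 t0
  set ρ : ℝ := ‖w‖ * t0 ^ 4 with hρdef
  have hρ0 : 0 ≤ ρ := by positivity
  have hρ : ρ ≤ t0 / 1000 := by
    calc ρ = (‖w‖ * t0 ^ 3) * t0 := by rw [hρdef]; ring
      _ ≤ 1 / 1000 * t0 := mul_le_mul_of_nonneg_right hw ht.le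
      _ = t0 / 1000 := by ring
  -- the point
  obtain ⟨τ, hτ, hfτ⟩ : ∃ τ ∈ Metric.closedBall (t0 : ℂ) ρ, LC 1 τ = SS 1 t0 + w := by
    rcases eq_or_ne w 0 with rfl | hw0
    · exact ⟨t0, Metric.mem_closedBall_self hρ0, by rw [hf0, add_zero]⟩
    · have hwpos : 0 < ‖w‖ := norm_pos_iff.mpr hw0
      have hρpos : 0 < ρ := by positivity
      have hdiff : DiffContOnCl ℂ (LC 1) (Metric.ball (t0 : ℂ) ρ) := by
        apply DifferentiableOn.diffContOnCl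
        rw [closure_ball _ hρpos.ne']
        exact fun u hu => (SAD_deriv ht hρ 1 hu).differentiableAt.differentiableWithinAt
      have hsub := hdiff.ball_subset_image_closedBall (ε := 4 * ‖w‖) hρpos
        (fun z hz => by
          have h := SAD_lower ht ht' hρ0 hρ (Metric.sphere_subset_closedBall hz)
          have hz' : ‖z - t0‖ = ρ := by simpa [dist_eq_norm] using Metric.mem_sphere.mp hz
          rw [hz'] at h
          refine le_trans (le_of_eq ?_) h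
          rw [hρdef]
          field_simp)
        (by
          have hev : ∀ᶠ z in nhdsWithin (t0 : ℂ) {(t0 : ℂ)}ᶜ, LC 1 z ≠ LC 1 t0 := by
            filter_upwards [self_mem_nhdsWithin,
              nhdsWithin_le_nhds (Metric.closedBall_mem_nhds (t0 : ℂ) hρpos)] with z hz hz'
            intro heq
            have h := SAD_lower ht ht' hρ0 hρ hz'
            rw [heq, sub_self, norm_zero] at h
            have hz0 : 0 < ‖z - t0‖ := norm_pos_iff.mpr (sub_ne_zero.mpr hz)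
            have : 0 < 4 / t0 ^ 4 * ‖z - t0‖ := by positivity
            linarith
          exact hev.frequently.filter_mono nhdsWithin_le_nhds)
      have hmem : (SS 1 t0 + w : ℂ) ∈ Metric.ball (LC 1 (t0 : ℂ)) (4 * ‖w‖ / 2) := by
        rw [Metric.mem_ball, dist_eq_norm, hf0, add_sub_cancel_left]
        linarith
      obtain ⟨τ, h1, h2⟩ := hsub hmem
      exact ⟨τ, h1, h2⟩
  have hτ' : ‖τ - t0‖ ≤ ρ := by simpa [dist_eq_norm] using Metric.mem_closedBall.mp hτ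
  refine ⟨τ, hτ', hfτ, ?_⟩
  -- the error
  have h := (convex_closedBall (t0 : ℂ) ρ).norm_image_sub_le_of_norm_hasDerivWithin_le
    (f := fun u => LC 0 u + LC 1 τ * u) (f' := fun u => -LC 1 u + LC 1 τ * 1)
    (C := 14 / t0 ^ 4 * (2 * ρ))
    (fun u hu => ((SAD_deriv ht hρ 0 hu).add ((hasDerivAt_id u).const_mul _)).hasDerivWithinAt)
    (fun u hu => by
      rw [mul_one, neg_add_eq_sub]
      refine (SAD_lip ht ht' hρ hu hτ).trans (mul_le_mul_of_nonneg_left ?_ (by positivity))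
      have hu' : ‖u - t0‖ ≤ ρ := by simpa [dist_eq_norm] using Metric.mem_closedBall.mp hu
      calc ‖τ - u‖ = ‖(τ - t0) - (u - t0)‖ := by rw [sub_sub_sub_cancel_right]
        _ ≤ ‖τ - t0‖ + ‖u - t0‖ := norm_sub_le _ _
        _ ≤ 2 * ρ := by linarith)
    (Metric.mem_closedBall_self hρ0) hτ
  have heq : (LC 0 τ + τ * LC 1 τ).re - (SS 0 t0 + t0 * SS 1 t0) - t0 * w.re =
      ((LC 0 τ + LC 1 τ * τ) - (LC 0 t0 + LC 1 τ * t0)).re := by
    rw [hL0, hfτ]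
    simp only [Complex.sub_re, Complex.add_re, Complex.mul_re, Complex.ofReal_re,
      Complex.add_im, Complex.ofReal_im]
    ring
  rw [heq]
  refine (Complex.abs_re_le_norm _).trans (h.trans ?_)
  calc 14 / t0 ^ 4 * (2 * ρ) * ‖τ - t0‖ ≤ 14 / t0 ^ 4 * (2 * ρ) * ρ :=
        mul_le_mul_of_nonneg_left hτ' (by positivity)
    _ = 28 * ‖w‖ ^ 2 * t0 ^ 4 := by rw [hρdef]; field_simp; ring
    _ ≤ 100 * ‖w‖ ^ 2 * t0 ^ 4 := by
        have : 0 ≤ ‖w‖ ^ 2 * t0 ^ 4 := by positivity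
        nlinarith

end Pool.Agent.MP7629b0
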