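import Pool.Agent.Lib.MP_7629b0_nt.Defs
import Pool.Agent.Lib.MP_7629b0_nt.SSB
import Pool.Agent.Lib.MP_7629b0_nt.ERR
import Pool.Agent.Lib.MP_7629b0_nt.LAP
import Pool.Agent.Lib.MP_7629b0_nt.SAD
import Pool.Agent.Lib.MP_7629b0_nt.MMA
import Pool.Agent.Lib.MP_7629b0_nt.AINcore

/-!
# MP_7629b0_nt, module AIN: the analytic input (assembly)
-/

namespace Pool.Agent.MP7629b0

open Complex

theorem analytic_input : ∃ c C : ℝ, 0 < c ∧ 0 < C ∧ ∀ K : ℝ, 1 ≤ K → ∃ N0 : ℕ, ∀ N : ℕ, N0 ≤ N →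
    ∃ t : ℝ, ∀ r : ℕ, r < 2 → ∃ h : ℂ → ℂ, AD c C K N r t h :=
  ain_core SS0_le le_SS0 SS1_le le_SS1 saddle_exists pl_MM MM_saddle saddle_param MM_diff MM_real

end Pool.Agent.MP7629b0
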