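import Pool.Agent.Lib.MP_7629b0_nt.Defs

/-!
# MP_7629b0_nt, module BP: integer valued polynomials
-/

namespace Pool.Agent.MP7629b0

open Complex

theorem BP_eval {J : ℕ} (q : Fin J → ℤ) (w : ℂ) :
    (binPoly q).eval w = ∑ j : Fin J, (((q j : ℤ) : ℂ) / (Nat.factorial (j : ℕ) : ℂ)) *
      (descPochhammer ℂ (j : ℕ)).eval w := by
  unfold binPoly
  rw [Polynomial.eval_finsetSum]
  simp only [Polynomial.eval_mul, Polynomial.eval_C]

theorem BP_choose (x j : ℕ) :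
    (descPochhammer ℂ j).eval (x : ℂ) = (Nat.factorial j : ℂ) * ((x.choose j : ℕ) : ℂ) := by
  rw [descPochhammer_eval_eq_descFactorial, Nat.descFactorial_eq_factorial_mul_choose]
  push_cast
  rfl

theorem binPoly_eval_nat {J : ℕ} (q : Fin J → ℤ) (x : ℕ) :
    (binPoly q).eval (x : ℂ) =
      ((∑ j : Fin J, q j * ((x.choose (j : ℕ) : ℕ) : ℤ) : ℤ) : ℂ) := by
  rw [BP_eval]
  push_cast
  refine Finset.sum_congr rfl fun j _ => ?_
  rw [BP_choose]
  have h : (Nat.factorial (j : ℕ) : ℂ) ≠ 0 := by exact_mod_cast Nat.factorial_ne_zero _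
  field_simp

theorem binPoly_degree {J : ℕ} (q : Fin J → ℤ) : (binPoly q).degree < (J : WithBot ℕ) := by
  rw [← Polynomial.mem_degreeLT]
  unfold binPoly
  refine Submodule.sum_mem _ fun j _ => ?_
  rw [Polynomial.C_mul']
  refine Submodule.smul_mem _ _ ?_
  rw [Polynomial.mem_degreeLT]
  refine lt_of_le_of_lt Polynomial.degree_le_natDegree ?_
  rw [descPochhammer_natDegree]
  exact_mod_cast j.2

theorem BP_desc {ρ : ℝ} {J : ℕ} (hρ : (J : ℝ) ≤ ρ) {w : ℂ} (hw : ‖w‖ ≤ ρ) (j : ℕ)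
    (hj : j ≤ J) : ‖(descPochhammer ℂ j).eval w‖ ≤ (2 * ρ) ^ j := by
  have hρ0 : 0 ≤ ρ := (norm_nonneg w).trans hw
  induction j with
  | zero => simp
  | succ j ih =>
    rw [descPochhammer_succ_eval, norm_mul, pow_succ]
    apply mul_le_mul (ih (by omega)) _ (norm_nonneg _) (by positivity)
    have h1 : (j : ℝ) ≤ ρ := le_trans (by exact_mod_cast (by omega : j ≤ J)) hρ
    calc ‖w - (j : ℂ)‖ ≤ ‖w‖ + ‖(j : ℂ)‖ := norm_sub_le _ _
      _ = ‖w‖ + j := by rw [Complex.norm_natCast]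
      _ ≤ 2 * ρ := by linarith

theorem binPoly_norm {J : ℕ} (q : Fin J → ℤ) (X : ℝ) (hX : ∀ j, |((q j : ℤ) : ℝ)| ≤ X) (ρ : ℝ)
    (hρ : (J : ℝ) ≤ ρ) (h1 : 1 ≤ ρ) (w : ℂ) (hw : ‖w‖ ≤ ρ) :
    ‖(binPoly q).eval w‖ ≤ J * X * (2 * ρ) ^ J := by
  rw [BP_eval]
  refine (norm_sum_le _ _).trans ?_
  have hterm : ∀ j ∈ (Finset.univ : Finset (Fin J)),
      ‖(((q j : ℤ) : ℂ) / (Nat.factorial (j : ℕ) : ℂ)) * (descPochhammer ℂ (j : ℕ)).eval w‖ ≤
        X * (2 * ρ) ^ J := by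
    intro j _
    have hX0 : 0 ≤ X := (abs_nonneg _).trans (hX j)
    rw [norm_mul, norm_div]
    have h2 : ‖((q j : ℤ) : ℂ)‖ ≤ X := by
      rw [Complex.norm_intCast]; exact hX j
    have h3 : (1 : ℝ) ≤ ‖(Nat.factorial (j : ℕ) : ℂ)‖ := by
      rw [Complex.norm_natCast]; exact_mod_cast Nat.factorial_pos _
    have h4 : ‖((q j : ℤ) : ℂ)‖ / ‖(Nat.factorial (j : ℕ) : ℂ)‖ ≤ X :=
      (div_le_self (norm_nonneg _) h3).trans h2
    have h5 : ‖(descPochhammer ℂ (j : ℕ)).eval w‖ ≤ (2 * ρ) ^ J :=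
      (BP_desc hρ hw j j.2.le).trans (pow_le_pow_right₀ (by linarith) j.2.le)
    exact mul_le_mul h4 h5 (norm_nonneg _) hX0
  refine (Finset.sum_le_card_nsmul _ _ _ hterm).trans ?_
  rw [Finset.card_univ, Fintype.card_fin, nsmul_eq_mul, mul_assoc]

theorem binPoly_one {J : ℕ} (q : Fin J → ℤ) (hq : q ≠ 0) :
    ∃ x : ℕ, x < J ∧ 1 ≤ ‖(binPoly q).eval (x : ℂ)‖ := by
  by_contra hcon
  push Not at hcon
  apply hq
  have hz : ∀ x : ℕ, x < J → ∑ j : Fin J, q j * ((x.choose (j : ℕ) : ℕ) : ℤ) = 0 := by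
    intro x hx
    have h1 := hcon x hx
    rw [binPoly_eval_nat, Complex.norm_intCast] at h1
    have h2 : |∑ j : Fin J, q j * ((x.choose (j : ℕ) : ℕ) : ℤ)| < 1 := by exact_mod_cast h1
    exact Int.abs_lt_one_iff.1 h2
  have key : ∀ x : ℕ, ∀ hx : x < J, q ⟨x, hx⟩ = 0 := by
    intro x
    induction x using Nat.strong_induction_on with
    | _ x ih =>
      intro hx
      have h1 := hz x hx
      rw [Finset.sum_eq_single (⟨x, hx⟩ : Fin J)] at h1
      · simpa using h1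
      · intro j _ hj
        rcases lt_trichotomy (j : ℕ) x with h | h | h
        · rw [show q j = 0 from ih j h j.2, zero_mul]
        · exact absurd (Fin.ext h) hj
        · rw [Nat.choose_eq_zero_of_lt h]; simp
      · intro h; exact absurd (Finset.mem_univ _) h
  funext j
  exact key j j.2

end Pool.Agent.MP7629b0
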