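import Pool.Agent.Lib.MP_7629b0_nt.Defs

/-!
# Growth of polynomials off a disc (Bernstein-Walsh)
-/

namespace Pool.Agent.MP7629b0

open Complex

theorem bw_iteratedDeriv (p : Polynomial ℂ) (k : ℕ) :
    iteratedDeriv k (fun w : ℂ => p.eval w) =
      fun w : ℂ => ((Polynomial.derivative^[k]) p).eval w := by
  induction k with
  | zero => simp
  | succ k ih =>
    rw [iteratedDeriv_succ, ih]
    funext w
    rw [Polynomial.deriv, Function.iterate_succ_apply']

theorem bw_coeff (p : Polynomial ℂ) (c : ℂ) (ε B : ℝ) (hε : 0 < ε)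
    (hB : ∀ w : ℂ, ‖w - c‖ ≤ ε → ‖p.eval w‖ ≤ B) (k : ℕ) :
    ‖(Polynomial.taylor c p).coeff k‖ ≤ B / ε ^ k := by
  have h1 : ‖iteratedDeriv k (fun w : ℂ => p.eval w) c‖ ≤ k.factorial * B / ε ^ k := by
    refine Complex.norm_iteratedDeriv_le_of_forall_mem_sphere_norm_le k hε ?_ ?_
    · exact (Polynomial.differentiable p).diffContOnCl
    · intro z hz
      exact hB z (by rw [mem_sphere_iff_norm.mp hz])
  rw [bw_iteratedDeriv] at h1
  have h2 : ((Polynomial.derivative^[k]) p).eval c =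
      (k.factorial : ℂ) * (Polynomial.taylor c p).coeff k := by
    rw [Polynomial.taylor_coeff, ← Polynomial.factorial_smul_hasseDeriv]
    simp
  simp only [h2, norm_mul, Complex.norm_natCast] at h1
  have hk : (0 : ℝ) < k.factorial := by exact_mod_cast k.factorial_pos
  rw [mul_div_assoc] at h1
  exact le_of_mul_le_mul_left h1 hk

theorem bw (J : ℕ) (p : Polynomial ℂ) (hp : p.degree < (J : WithBot ℕ)) (c : ℂ) (ε B : ℝ)
    (hε : 0 < ε) (hB : ∀ w : ℂ, ‖w - c‖ ≤ ε → ‖p.eval w‖ ≤ B) (w : ℂ) (hw : ε ≤ ‖w - c‖) :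
    ‖p.eval w‖ ≤ J * (‖w - c‖ / ε) ^ J * B := by
  have hB0 : 0 ≤ B := (norm_nonneg _).trans (hB c (by simpa using hε.le))
  by_cases hp0 : p = 0
  · subst hp0
    simp only [Polynomial.eval_zero, norm_zero]
    positivity
  have hnat : p.natDegree < J := (Polynomial.natDegree_lt_iff_degree_lt hp0).mpr hp
  have hnat' : (Polynomial.taylor c p).natDegree < J := by
    rwa [Polynomial.natDegree_taylor]
  have h1 : p.eval w = ∑ i ∈ Finset.range J, (Polynomial.taylor c p).coeff i * (w - c) ^ i := by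
    rw [← Polynomial.eval_eq_sum_range' hnat', Polynomial.taylor_eval, sub_add_cancel]
  have hq : 1 ≤ ‖w - c‖ / ε := by rwa [one_le_div hε]
  rw [h1]
  calc ‖∑ i ∈ Finset.range J, (Polynomial.taylor c p).coeff i * (w - c) ^ i‖
      ≤ ∑ i ∈ Finset.range J, ‖(Polynomial.taylor c p).coeff i * (w - c) ^ i‖ :=
        norm_sum_le _ _
    _ ≤ ∑ _i ∈ Finset.range J, (‖w - c‖ / ε) ^ J * B := by
        refine Finset.sum_le_sum fun i hi => ?_
        rw [norm_mul, norm_pow]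
        calc ‖(Polynomial.taylor c p).coeff i‖ * ‖w - c‖ ^ i
            ≤ B / ε ^ i * ‖w - c‖ ^ i :=
              mul_le_mul_of_nonneg_right (bw_coeff p c ε B hε hB i) (by positivity)
          _ = (‖w - c‖ / ε) ^ i * B := by rw [div_pow]; ring
          _ ≤ (‖w - c‖ / ε) ^ J * B := by
              refine mul_le_mul_of_nonneg_right ?_ hB0
              exact pow_le_pow_right₀ hq (Finset.mem_range.mp hi).le
    _ = J * (‖w - c‖ / ε) ^ J * B := by
        rw [Finset.sum_const, Finset.card_range, nsmul_eq_mul]; ring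

theorem bw_exists (J : ℕ) (p : Polynomial ℂ) (hp : p.degree < (J : WithBot ℕ)) (c : ℂ) (ε : ℝ)
    (hε : 0 < ε) : ∃ v : ℂ, ‖v - c‖ ≤ ε ∧ (∀ w : ℂ, ‖w - c‖ ≤ ε → ‖p.eval w‖ ≤ ‖p.eval v‖) ∧
      ∀ w : ℂ, ε ≤ ‖w - c‖ → ‖p.eval w‖ ≤ J * (‖w - c‖ / ε) ^ J * ‖p.eval v‖ := by
  obtain ⟨v, hv, hmax⟩ := (isCompact_closedBall c ε).exists_isMaxOn
    (Metric.nonempty_closedBall.mpr hε.le)
    (f := fun w : ℂ => ‖p.eval w‖) (p.continuous.norm.continuousOn)
  have hm : ∀ w : ℂ, ‖w - c‖ ≤ ε → ‖p.eval w‖ ≤ ‖p.eval v‖ := fun w hw =>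
    hmax (mem_closedBall_iff_norm.mpr hw)
  exact ⟨v, mem_closedBall_iff_norm.mp hv, hm, fun w hw => bw J p hp c ε _ hε hm w hw⟩

end Pool.Agent.MP7629b0
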