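import Pool.Agent.Lib.MP_7629b0_nt.Defs
import Pool.Agent.Lib.MP_7629b0_nt.BW

/-!
# Dominance of one exponential
-/

namespace Pool.Agent.MP7629b0

open Complex

/-- Selection of the index `s` at which the exponentials are separated. -/
theorem DOM_select (p : Fin 12 → ℝ) (hp : ∀ j, 0 ≤ p j) (y V : ℝ) (hV : 0 < V) :
    ∃ s : Fin 67, ∃ k : Fin 12,
      (∀ j : Fin 12, p j * Real.exp ((j : ℕ) * (y + V * (s : ℕ) / 132)) ≤
        p k * Real.exp ((k : ℕ) * (y + V * (s : ℕ) / 132))) ∧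
      ∀ j : Fin 12, j ≠ k → p j * Real.exp ((j : ℕ) * (y + V * (s : ℕ) / 132)) ≤
        p k * Real.exp ((k : ℕ) * (y + V * (s : ℕ) / 132)) * Real.exp (-(V / 264)) := by
  set T : Fin 67 → Fin 12 → ℝ := fun s j => p j * Real.exp ((j : ℕ) * (y + V * (s : ℕ) / 132))
    with hT
  have hT0 : ∀ s j, 0 ≤ T s j := fun s j => mul_nonneg (hp j) (Real.exp_pos _).le
  have he1 : Real.exp (-(V / 264)) < 1 := by
    rw [Real.exp_lt_one_iff]
    linarith
  have he0 : 0 < Real.exp (-(V / 264)) := Real.exp_pos _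
  -- a good index
  have hgood : ∃ s : Fin 67, ∀ j k : Fin 12, j < k →
      T s j ≤ T s k * Real.exp (-(V / 264)) ∨ T s k ≤ T s j * Real.exp (-(V / 264)) := by
    by_contra hcon
    push Not at hcon
    choose a b hab h1 h2 using hcon
    let U : Finset (Fin 12 × Fin 12) := Finset.univ.filter fun q => q.1 < q.2
    have hU : U.card = 66 := by decide
    obtain ⟨s, -, t, -, hst, hf⟩ := Finset.exists_ne_map_eq_of_card_lt_of_maps_to
      (s := (Finset.univ : Finset (Fin 67))) (t := U) (by rw [hU]; simp)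
      (f := fun s => (a s, b s)) (fun s _ => by simp [U, hab s])
    simp only [Prod.mk.injEq] at hf
    obtain ⟨ha, hb⟩ := hf
    -- wlog s < t
    have key : ∀ s t : Fin 67, s < t → a s = a t → b s = b t → False := by
      intro s t hst ha hb
      have hjk := hab s
      have hA1 := h1 s
      have hB2 := h2 t
      have hA2 := h2 s
      rw [← ha, ← hb] at hB2
      set j := a s
      set k := b s
      -- T s j > T s k e, T t k > T t j e ... contradiction from T s k > T s j e and T t j > T t k e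
      have hB1 := h1 t
      rw [← ha, ← hb] at hB1
      have hst' : ((s : ℕ) : ℝ) + 1 ≤ ((t : ℕ) : ℝ) := by
        have : (s : ℕ) + 1 ≤ (t : ℕ) := hst
        exact_mod_cast this
      have hjk' : ((j : ℕ) : ℝ) + 1 ≤ ((k : ℕ) : ℝ) := by
        have : (j : ℕ) + 1 ≤ (k : ℕ) := hjk
        exact_mod_cast this
      have hpj : 0 < T t j := lt_of_le_of_lt (mul_nonneg (hT0 _ _) he0.le) hB1
      have hpk : 0 < T s k := lt_of_le_of_lt (mul_nonneg (hT0 _ _) he0.le) hA2
      -- T t k * T s j = T t j * T s k * exp((k - j) (V (t - s)/132))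
      have hid : T t k * T s j = T t j * T s k *
          Real.exp (((k : ℕ) - (j : ℕ) : ℝ) * (V * ((t : ℕ) - (s : ℕ)) / 132)) := by
        simp only [hT]
        have e1 : p k * Real.exp ((k : ℕ) * (y + V * (t : ℕ) / 132)) *
            (p j * Real.exp ((j : ℕ) * (y + V * (s : ℕ) / 132))) = p k * p j *
            Real.exp ((k : ℕ) * (y + V * (t : ℕ) / 132) + (j : ℕ) * (y + V * (s : ℕ) / 132)) := by
          rw [Real.exp_add]; ring
        have e2 : p j * Real.exp ((j : ℕ) * (y + V * (t : ℕ) / 132)) *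
            (p k * Real.exp ((k : ℕ) * (y + V * (s : ℕ) / 132))) *
            Real.exp (((k : ℕ) - (j : ℕ) : ℝ) * (V * ((t : ℕ) - (s : ℕ)) / 132)) = p k * p j *
            Real.exp ((j : ℕ) * (y + V * (t : ℕ) / 132) + (k : ℕ) * (y + V * (s : ℕ) / 132) +
              ((k : ℕ) - (j : ℕ) : ℝ) * (V * ((t : ℕ) - (s : ℕ)) / 132)) := by
          rw [Real.exp_add, Real.exp_add]; ring
        rw [e1, e2]
        congr 2
        ring
      have hexp : Real.exp (V / 132) ≤
          Real.exp (((k : ℕ) - (j : ℕ) : ℝ) * (V * ((t : ℕ) - (s : ℕ)) / 132)) := by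
        apply Real.exp_le_exp.mpr
        have h3 : (1 : ℝ) ≤ ((k : ℕ) - (j : ℕ) : ℝ) * (((t : ℕ) : ℝ) - (s : ℕ)) := by
          nlinarith
        have : ((k : ℕ) - (j : ℕ) : ℝ) * (V * ((t : ℕ) - (s : ℕ)) / 132) =
            (((k : ℕ) - (j : ℕ) : ℝ) * (((t : ℕ) : ℝ) - (s : ℕ))) * (V / 132) := by ring
        rw [this]
        nlinarith [hV]
      -- T t k e < T t j and T s j e < T s k
      have h5 : T t k * T s j * (Real.exp (-(V / 264)) * Real.exp (-(V / 264))) <
          T t j * T s k := by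
        have := mul_lt_mul'' hB1 hA2 (mul_nonneg (hT0 _ _) he0.le) (mul_nonneg (hT0 _ _) he0.le)
        calc T t k * T s j * (Real.exp (-(V / 264)) * Real.exp (-(V / 264)))
            = T t k * Real.exp (-(V / 264)) * (T s j * Real.exp (-(V / 264))) := by ring
          _ < T t j * T s k := this
      rw [hid] at h5
      have h6 : 1 ≤ Real.exp (((k : ℕ) - (j : ℕ) : ℝ) * (V * ((t : ℕ) - (s : ℕ)) / 132)) *
          (Real.exp (-(V / 264)) * Real.exp (-(V / 264))) := by
        rw [← Real.exp_add]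
        have : Real.exp (V / 132) * Real.exp (-(V / 264) + -(V / 264)) = 1 := by
          rw [← Real.exp_add]
          convert Real.exp_zero using 2
          ring
        rw [← this]
        exact mul_le_mul_of_nonneg_right hexp (Real.exp_pos _).le
      have h7 : T t j * T s k * 1 ≤ T t j * T s k *
          (Real.exp (((k : ℕ) - (j : ℕ) : ℝ) * (V * ((t : ℕ) - (s : ℕ)) / 132)) *
          (Real.exp (-(V / 264)) * Real.exp (-(V / 264)))) :=
        mul_le_mul_of_nonneg_left h6 (mul_nonneg hpj.le hpk.le)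
      nlinarith
    rcases lt_or_gt_of_ne hst with h | h
    · exact key s t h ha hb
    · exact key t s h ha.symm hb.symm
  obtain ⟨s, hs⟩ := hgood
  obtain ⟨k, hk⟩ := Finite.exists_max (T s)
  refine ⟨s, k, hk, ?_⟩
  intro j hj
  have hmain : T s j ≤ T s k * Real.exp (-(V / 264)) ∨ T s k ≤ T s j * Real.exp (-(V / 264)) := by
    rcases lt_or_gt_of_ne hj with h | h
    · exact hs j k h
    · exact (hs k j h).symm
  rcases hmain with h | h
  · exact h
  · have h1 : T s j ≤ T s j * Real.exp (-(V / 264)) := (hk j).trans h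
    have h2 : T s j ≤ 0 := by
      by_contra hc
      push Not at hc
      nlinarith
    exact h2.trans (mul_nonneg (hT0 _ _) he0.le)

/-- Numerical comparison. -/
theorem DOM_num (m : ℕ) (V δ : ℝ) (hV : 10 ^ 4 * ((m : ℝ) + 1) ≤ V)
    (hδV : δ ≤ V / 12000 + V / 10 ^ 5) :
    22 * ((m : ℝ) * 24000 ^ m) * Real.exp (22 * δ - V / 264) ≤ 1 := by
  have hm0 : (0 : ℝ) ≤ m := Nat.cast_nonneg m
  have h1 : 22 * δ - V / 264 ≤ -(17 * (m + 1)) := by
    have : 22 * δ ≤ 22 * (V / 12000 + V / 10 ^ 5) := by linarith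
    have h17 : (17 : ℝ) / 10 ^ 4 * V ≤ V / 264 - 22 * (V / 12000 + V / 10 ^ 5) := by
      nlinarith
    nlinarith
  have h2 : Real.exp (22 * δ - V / 264) ≤ Real.exp (-(17 * (m + 1))) := Real.exp_le_exp.mpr h1
  have h3 : 22 * ((m : ℝ) * 24000 ^ m) ≤ Real.exp (17 * (m + 1)) := by
    have e1 : Real.exp (17 * ((m : ℝ) + 1)) = Real.exp 17 ^ (m + 1) := by
      rw [← Real.exp_nat_mul]; congr 1; push_cast; ring
    have e2 : (2 : ℝ) ^ 17 ≤ Real.exp 17 := by
      have : Real.exp 17 = Real.exp 1 ^ 17 := by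
        rw [← Real.exp_nat_mul]; congr 1; norm_num
      rw [this]
      apply pow_le_pow_left₀ (by norm_num)
      have := Real.add_one_le_exp (1 : ℝ)
      linarith
    rw [e1]
    refine le_trans ?_ (pow_le_pow_left₀ (by norm_num) e2 _)
    have e3 : (m : ℝ) ≤ 2 ^ m := by exact_mod_cast Nat.lt_two_pow_self.le
    calc 22 * ((m : ℝ) * 24000 ^ m) ≤ 22 * (2 ^ m * 24000 ^ m) := by
          apply mul_le_mul_of_nonneg_left _ (by norm_num)
          exact mul_le_mul_of_nonneg_right e3 (by positivity)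
      _ = 22 * 48000 ^ m := by rw [← mul_pow]; norm_num
      _ ≤ 2 ^ 17 * (2 ^ 17) ^ m := by
          apply mul_le_mul (by norm_num) _ (by positivity) (by positivity)
          exact pow_le_pow_left₀ (by norm_num) (by norm_num) _
      _ = (2 ^ 17) ^ (m + 1) := by rw [pow_succ]; ring
  calc 22 * ((m : ℝ) * 24000 ^ m) * Real.exp (22 * δ - V / 264)
      ≤ Real.exp (17 * (m + 1)) * Real.exp (-(17 * (m + 1))) :=
        mul_le_mul h3 h2 (Real.exp_pos _).le (Real.exp_pos _).le
    _ = 1 := by rw [← Real.exp_add]; simp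

theorem DOM_half (T A δ V : ℝ) (hT0 : 0 ≤ T) (hA0 : 0 < A)
    (hnum : 22 * A * Real.exp (22 * δ - V / 264) ≤ 1) :
    11 * (T * Real.exp (-(V / 264)) * Real.exp (11 * δ)) ≤
      T / A * Real.exp (-(11 * δ)) / 2 := by
  have e3 : Real.exp (-(11 * δ)) * Real.exp (11 * δ) = 1 := by
    rw [← Real.exp_add]; simp
  have e2 : Real.exp (22 * δ - V / 264) =
      Real.exp (-(V / 264)) * Real.exp (11 * δ) * Real.exp (11 * δ) := by
    rw [← Real.exp_add, ← Real.exp_add]; congr 1; ring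
  have hA : T / A * A = T := by field_simp
  have e1 : 11 * (T * Real.exp (-(V / 264)) * Real.exp (11 * δ)) =
      T / A * Real.exp (-(11 * δ)) / 2 * (22 * A * Real.exp (22 * δ - V / 264)) := by
    rw [e2]
    calc 11 * (T * Real.exp (-(V / 264)) * Real.exp (11 * δ))
        = 11 * ((T / A * A) * Real.exp (-(V / 264)) * Real.exp (11 * δ)) * 1 := by
          rw [hA]; ring
      _ = 11 * ((T / A * A) * Real.exp (-(V / 264)) * Real.exp (11 * δ)) *
          (Real.exp (-(11 * δ)) * Real.exp (11 * δ)) := by rw [e3]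
      _ = _ := by ring
  rw [e1]
  exact mul_le_of_le_one_right (by positivity) hnum

theorem dom (R lam kap y : ℝ) (m : ℕ) (hm : 1 ≤ m) (g : ℂ → ℂ) (hR : 0 < R) (hlam : 0 < lam)
    (hkap : 0 ≤ kap)
    (hup : ∀ w : ℂ, ‖w‖ ≤ R → ‖g w‖ ≤ Real.exp (y + lam * w.re + kap))
    (hlo : ∀ w : ℂ, ‖w‖ ≤ R → Real.exp (y + lam * w.re - kap) ≤ ‖g w‖)
    (hk : kap ≤ lam * R / 10 ^ 7) (hV : 10 ^ 4 * ((m : ℝ) + 1) ≤ lam * (R / 100))
    (P : Fin 12 → Polynomial ℂ) (hP : ∀ j, (P j).degree < (m : WithBot ℕ)) :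
    ∃ w : ℂ, ‖w‖ ≤ R / 100 ∧ ∀ j : Fin 12, ∀ w' : ℂ, ‖w'‖ ≤ R / 100 →
      (1 / (2 * m)) * (1 / 24000) ^ m * Real.exp (-(lam * R)) * ‖(P j).eval w'‖ *
        Real.exp ((j : ℕ) * y) ≤ ‖∑ j : Fin 12, (P j).eval w * g w ^ (j : ℕ)‖ := by
  have hm1 : (1 : ℝ) ≤ m := by exact_mod_cast hm
  set r : ℝ := R / 100 with hr
  have hr0 : 0 < r := by positivity
  have hRr : R = 100 * r := by rw [hr]; ring
  set V : ℝ := lam * r with hVdef
  have hV0 : 0 < V := by positivity
  set ε : ℝ := r / 12000 with hε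
  have hε0 : 0 < ε := by positivity
  -- maxima
  choose u hu0 hu1 hu2 using fun j => bw_exists m (P j) (hP j) 0 r hr0
  set p : Fin 12 → ℝ := fun j => ‖(P j).eval (u j)‖ with hp
  have hp0 : ∀ j, 0 ≤ p j := fun j => norm_nonneg _
  have hpmax : ∀ j, ∀ w : ℂ, ‖w‖ ≤ r → ‖(P j).eval w‖ ≤ p j := fun j w hw => by
    apply hu1 j w
    simpa using hw
  obtain ⟨s, k, hk1, hk2⟩ := DOM_select p hp0 y V hV0
  have hs66 : ((s : ℕ) : ℝ) ≤ 66 := by
    have := s.2
    have : (s : ℕ) ≤ 66 := by omega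
    exact_mod_cast this
  set c : ℝ := (s : ℕ) * r / 132 with hc
  have hc0 : 0 ≤ c := by positivity
  have hc1 : c ≤ r / 2 := by
    rw [hc, div_le_div_iff₀ (by norm_num) (by norm_num)]
    nlinarith
  have hVc : V * (s : ℕ) / 132 = lam * c := by
    rw [hVdef, hc]; ring
  rw [hVc] at hk1 hk2
  obtain ⟨v, hv0, hv1, hv2⟩ := bw_exists m (P k) (hP k) (c : ℂ) ε hε0
  set δ : ℝ := lam * ε + kap with hδ
  have hδ0 : 0 ≤ δ := by positivity
  have hcn : ‖(c : ℂ)‖ = c := by
    rw [Complex.norm_real, Real.norm_of_nonneg hc0]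
  -- discs
  have hdisc : ‖v‖ ≤ r := by
    have : ‖v‖ ≤ ‖v - c‖ + ‖(c : ℂ)‖ := by
      have := norm_add_le (v - c) (c : ℂ)
      simpa using this
    rw [hcn] at this
    have : ‖v‖ ≤ ε + r / 2 := by linarith
    rw [hε] at this
    linarith
  have hvR : ‖v‖ ≤ R := by linarith
  have hre : |v.re - c| ≤ ε := by
    have := Complex.abs_re_le_norm (v - c)
    simp only [Complex.sub_re, Complex.ofReal_re] at this
    linarith
  obtain ⟨hre1, hre2⟩ := abs_le.mp hre
  have hgup : ‖g v‖ ≤ Real.exp (y + lam * c + δ) := by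
    refine (hup v hvR).trans (Real.exp_le_exp.mpr ?_)
    rw [hδ]
    nlinarith
  have hglo : Real.exp (y + lam * c - δ) ≤ ‖g v‖ := by
    refine le_trans (Real.exp_le_exp.mpr ?_) (hlo v hvR)
    rw [hδ]
    nlinarith
  have hj11 : ∀ j : Fin 12, ((j : ℕ) : ℝ) ≤ 11 := fun j => by
    have := j.2
    have : (j : ℕ) ≤ 11 := by omega
    exact_mod_cast this
  have hgup' : ∀ j : Fin 12, ‖g v‖ ^ (j : ℕ) ≤
      Real.exp ((j : ℕ) * (y + lam * c)) * Real.exp (11 * δ) := by
    intro j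
    calc ‖g v‖ ^ (j : ℕ) ≤ Real.exp (y + lam * c + δ) ^ (j : ℕ) :=
          pow_le_pow_left₀ (norm_nonneg _) hgup _
      _ = Real.exp ((j : ℕ) * (y + lam * c) + (j : ℕ) * δ) := by
          rw [← Real.exp_nat_mul]; congr 1; ring
      _ ≤ Real.exp ((j : ℕ) * (y + lam * c) + 11 * δ) := by
          apply Real.exp_le_exp.mpr
          have := mul_le_mul_of_nonneg_right (hj11 j) hδ0
          linarith
      _ = _ := by rw [Real.exp_add]
  have hglo' : Real.exp ((k : ℕ) * (y + lam * c)) * Real.exp (-(11 * δ)) ≤ ‖g v‖ ^ (k : ℕ) := by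
    calc Real.exp ((k : ℕ) * (y + lam * c)) * Real.exp (-(11 * δ))
        = Real.exp ((k : ℕ) * (y + lam * c) - 11 * δ) := by
          rw [← Real.exp_add]; congr 1; 
      _ ≤ Real.exp ((k : ℕ) * (y + lam * c) - (k : ℕ) * δ) := by
          apply Real.exp_le_exp.mpr
          have := mul_le_mul_of_nonneg_right (hj11 k) hδ0
          linarith
      _ = Real.exp (y + lam * c - δ) ^ (k : ℕ) := by
          rw [← Real.exp_nat_mul]; congr 1; ring
      _ ≤ _ := pow_le_pow_left₀ (Real.exp_pos _).le hglo _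
  -- growth
  set A : ℝ := m * 24000 ^ m with hA
  have hA0 : 0 < A := by positivity
  have hA1 : 1 ≤ A := by
    rw [hA]
    have : (1 : ℝ) ≤ 24000 ^ m := one_le_pow₀ (by norm_num)
    nlinarith
  have hgrow : p k ≤ A * ‖(P k).eval v‖ := by
    rcases le_total ‖u k - c‖ ε with h | h
    · calc p k ≤ ‖(P k).eval v‖ := hv1 _ h
        _ = 1 * ‖(P k).eval v‖ := (one_mul _).symm
        _ ≤ A * ‖(P k).eval v‖ := mul_le_mul_of_nonneg_right hA1 (norm_nonneg _)
    · have h2 : ‖u k - c‖ / ε ≤ 24000 := by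
        rw [div_le_iff₀ hε0]
        have h3 : ‖u k - c‖ ≤ ‖u k‖ + ‖(c : ℂ)‖ := norm_sub_le _ _
        have h4 : ‖u k‖ ≤ r := by simpa using hu0 k
        rw [hcn] at h3
        rw [hε]
        linarith
      calc p k ≤ m * (‖u k - c‖ / ε) ^ m * ‖(P k).eval v‖ := hv2 _ h
        _ ≤ m * 24000 ^ m * ‖(P k).eval v‖ := by
          apply mul_le_mul_of_nonneg_right _ (norm_nonneg _)
          apply mul_le_mul_of_nonneg_left _ (by positivity)
          exact pow_le_pow_left₀ (by positivity) h2 _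
  set T : ℝ := p k * Real.exp ((k : ℕ) * (y + lam * c)) with hT
  have hT0 : 0 ≤ T := mul_nonneg (hp0 k) (Real.exp_pos _).le
  -- main term
  have hmain : T / A * Real.exp (-(11 * δ)) ≤ ‖(P k).eval v * g v ^ (k : ℕ)‖ := by
    rw [norm_mul, norm_pow]
    calc T / A * Real.exp (-(11 * δ))
        = (p k / A) * (Real.exp ((k : ℕ) * (y + lam * c)) * Real.exp (-(11 * δ))) := by
          rw [hT]; ring
      _ ≤ ‖(P k).eval v‖ * ‖g v‖ ^ (k : ℕ) := by
          apply mul_le_mul _ hglo' (by positivity) (norm_nonneg _)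
          rw [div_le_iff₀ hA0]
          linarith
  -- other terms
  have hoth : ∀ j : Fin 12, j ≠ k → ‖(P j).eval v * g v ^ (j : ℕ)‖ ≤
      T * Real.exp (-(V / 264)) * Real.exp (11 * δ) := by
    intro j hj
    rw [norm_mul, norm_pow]
    calc ‖(P j).eval v‖ * ‖g v‖ ^ (j : ℕ)
        ≤ p j * (Real.exp ((j : ℕ) * (y + lam * c)) * Real.exp (11 * δ)) :=
          mul_le_mul (hpmax j v hdisc) (hgup' j) (by positivity) (hp0 j)
      _ = p j * Real.exp ((j : ℕ) * (y + lam * c)) * Real.exp (11 * δ) := by ring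
      _ ≤ T * Real.exp (-(V / 264)) * Real.exp (11 * δ) :=
          mul_le_mul_of_nonneg_right (hk2 j hj) (Real.exp_pos _).le
  have hsum : ‖(P k).eval v * g v ^ (k : ℕ)‖ -
      11 * (T * Real.exp (-(V / 264)) * Real.exp (11 * δ)) ≤
      ‖∑ j : Fin 12, (P j).eval v * g v ^ (j : ℕ)‖ := by
    rw [← Finset.add_sum_erase Finset.univ (fun j : Fin 12 => (P j).eval v * g v ^ (j : ℕ))
      (Finset.mem_univ k)]
    have h1 : ‖∑ j ∈ Finset.univ.erase k, (P j).eval v * g v ^ (j : ℕ)‖ ≤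
        11 * (T * Real.exp (-(V / 264)) * Real.exp (11 * δ)) := by
      refine (norm_sum_le _ _).trans ?_
      refine (Finset.sum_le_sum fun j hj => hoth j (Finset.ne_of_mem_erase hj)).trans ?_
      rw [Finset.sum_const, Finset.card_erase_of_mem (Finset.mem_univ _), Finset.card_univ,
        Fintype.card_fin, nsmul_eq_mul]
      norm_num
    have h2 := norm_sub_le ((P k).eval v * g v ^ (k : ℕ) +
      ∑ j ∈ Finset.univ.erase k, (P j).eval v * g v ^ (j : ℕ))
      (∑ j ∈ Finset.univ.erase k, (P j).eval v * g v ^ (j : ℕ))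
    rw [add_sub_cancel_right] at h2
    linarith
  -- numerics
  have hkV : kap ≤ V / 10 ^ 5 := by
    rw [hVdef]
    refine hk.trans (le_of_eq ?_)
    rw [hRr]
    ring
  have hlamε : lam * ε = V / 12000 := by
    rw [hVdef, hε]; ring
  have hδV : δ ≤ V / 12000 + V / 10 ^ 5 := by
    rw [hδ, hlamε]
    linarith
  have hnum : 22 * A * Real.exp (22 * δ - V / 264) ≤ 1 := DOM_num m V δ hV hδV
  have hhalf := DOM_half T A δ V hT0 hA0 hnum
  refine ⟨v, hdisc, fun j w' hw' => ?_⟩
  have h1 : ‖(P j).eval w'‖ * Real.exp ((j : ℕ) * y) ≤ T := by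
    calc ‖(P j).eval w'‖ * Real.exp ((j : ℕ) * y)
        ≤ p j * Real.exp ((j : ℕ) * (y + lam * c)) := by
          apply mul_le_mul (hpmax j w' hw') _ (Real.exp_pos _).le (hp0 j)
          apply Real.exp_le_exp.mpr
          apply mul_le_mul_of_nonneg_left _ (Nat.cast_nonneg _)
          have : 0 ≤ lam * c := by positivity
          linarith
      _ ≤ T := hk1 j
  have h2 : Real.exp (-(lam * R)) ≤ Real.exp (-(11 * δ)) := by
    apply Real.exp_le_exp.mpr
    have : lam * R = 100 * V := by rw [hVdef, hRr]; ring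
    rw [this]
    linarith
  have h3 : (1 / (2 * (m : ℝ))) * (1 / 24000) ^ m = 1 / (2 * A) := by
    rw [hA, one_div_pow]
    field_simp
  calc (1 / (2 * (m : ℝ))) * (1 / 24000) ^ m * Real.exp (-(lam * R)) * ‖(P j).eval w'‖ *
        Real.exp ((j : ℕ) * y)
      = 1 / (2 * A) * Real.exp (-(lam * R)) * (‖(P j).eval w'‖ * Real.exp ((j : ℕ) * y)) := by
        rw [h3]; ring
    _ ≤ 1 / (2 * A) * Real.exp (-(11 * δ)) * T := by
        apply mul_le_mul _ h1 (by positivity) (by positivity)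
        exact mul_le_mul_of_nonneg_left h2 (by positivity)
    _ = T / A * Real.exp (-(11 * δ)) - T / A * Real.exp (-(11 * δ)) / 2 := by
        field_simp
        ring
    _ ≤ ‖(P k).eval v * g v ^ (k : ℕ)‖ -
        11 * (T * Real.exp (-(V / 264)) * Real.exp (11 * δ)) := by linarith
    _ ≤ _ := hsum

end Pool.Agent.MP7629b0
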