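import Pool.Agent.Lib.MP_7629b0_nt.Defs

/-!
Module NEWT: remainder of Newton interpolation.
-/

set_option autoImplicit false

namespace Pool.Agent.MP7629b0

open Complex

theorem newt_aux (R H : ℝ) (hH : 0 ≤ H) (hR : H < R) (c : ℂ) (hc : ‖c‖ ≤ H) (f : ℂ → ℂ)
    (hf : DiffContOnCl ℂ f (Metric.ball 0 R)) (B : ℝ) (hB : ∀ w : ℂ, ‖w‖ ≤ R → ‖f w‖ ≤ B) :
    DiffContOnCl ℂ (dslope f c) (Metric.ball 0 R) ∧
      ∀ w : ℂ, ‖w‖ ≤ R → ‖dslope f c w‖ ≤ 2 / (R - H) * B := by
  have hR0 : R ≠ 0 := by linarith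
  have hcb : c ∈ Metric.ball (0 : ℂ) R := by
    rw [mem_ball_zero_iff]
    linarith
  have hnb : Metric.ball (0 : ℂ) R ∈ nhds c := Metric.isOpen_ball.mem_nhds hcb
  have hd : DiffContOnCl ℂ (dslope f c) (Metric.ball 0 R) := by
    refine ⟨(Complex.differentiableOn_dslope hnb).2 hf.differentiableOn, ?_⟩
    have h1 : closure (Metric.ball (0 : ℂ) R) ∈ nhds c := Filter.mem_of_superset hnb subset_closure
    exact (continuousOn_dslope h1).2 ⟨hf.continuousOn,
      hf.differentiableOn.differentiableAt hnb⟩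
  refine ⟨hd, ?_⟩
  intro w hw
  refine Complex.norm_le_of_forall_mem_frontier_norm_le Metric.isBounded_ball hd ?_ ?_
  · intro z hz
    rw [frontier_ball (0 : ℂ) hR0, mem_sphere_zero_iff_norm] at hz
    have hzc : z ≠ c := by
      rintro rfl
      linarith
    rw [dslope_of_ne f hzc, slope_def_module, norm_smul, norm_inv]
    have h2 : R - H ≤ ‖z - c‖ := by
      have := norm_sub_norm_le z c
      linarith
    have h3 : ‖f z - f c‖ ≤ 2 * B := by
      calc ‖f z - f c‖ ≤ ‖f z‖ + ‖f c‖ := norm_sub_le _ _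
        _ ≤ B + B := add_le_add (hB z hz.le) (hB c (by linarith))
        _ = 2 * B := by ring
    have h4 : 0 < R - H := by linarith
    calc ‖z - c‖⁻¹ * ‖f z - f c‖ ≤ (R - H)⁻¹ * (2 * B) := by
          refine mul_le_mul (inv_anti₀ h4 h2) h3 (norm_nonneg _) (inv_nonneg.2 h4.le)
      _ = 2 / (R - H) * B := by
          field_simp
  · rw [closure_ball (0 : ℂ) hR0, mem_closedBall_zero_iff]
    exact hw

theorem newton (R H : ℝ) (hH : 0 ≤ H) (hR : H < R) (n : ℕ) (x : Fin n → ℂ)
    (hx : Function.Injective x) (hxH : ∀ l, ‖x l‖ ≤ H) (f : ℂ → ℂ)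
    (hf : DiffContOnCl ℂ f (Metric.ball 0 R)) (B : ℝ) (hB : ∀ w : ℂ, ‖w‖ ≤ R → ‖f w‖ ≤ B) :
    ∃ p : Polynomial ℂ, p.degree < (n : WithBot ℕ) ∧ (∀ l, p.eval (x l) = f (x l)) ∧
      ∀ w : ℂ, ‖w‖ ≤ R → ‖f w - p.eval w‖ ≤ (∏ l, ‖w - x l‖) * (2 / (R - H)) ^ n * B := by
  induction n generalizing f B with
  | zero =>
    refine ⟨0, by simp, fun l => l.elim0, ?_⟩
    intro w hw
    simpa using hB w hw
  | succ n ih =>
    obtain ⟨hd, hB'⟩ := newt_aux R H hH hR (x 0) (hxH 0) f hf B hB
    obtain ⟨p, hp, hp', hp''⟩ := ih (fun l => x l.succ)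
      (fun a b h => Fin.succ_injective n (hx h)) (fun l => hxH l.succ) (dslope f (x 0)) hd
      (2 / (R - H) * B) hB'
    have key : ∀ w : ℂ, f w - (Polynomial.C (f (x 0)) + (Polynomial.X - Polynomial.C (x 0)) * p).eval w
        = (w - x 0) * (dslope f (x 0) w - p.eval w) := by
      intro w
      have h1 := sub_smul_dslope f (x 0) w
      rw [smul_eq_mul] at h1
      rw [mul_sub, h1]
      simp only [Polynomial.eval_add, Polynomial.eval_C, Polynomial.eval_mul, Polynomial.eval_sub,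
        Polynomial.eval_X]
      ring
    refine ⟨Polynomial.C (f (x 0)) + (Polynomial.X - Polynomial.C (x 0)) * p, ?_, ?_, ?_⟩
    · refine (Polynomial.degree_add_le _ _).trans_lt (max_lt ?_ ?_)
      · refine Polynomial.degree_C_le.trans_lt ?_
        exact_mod_cast Nat.succ_pos n
      · rw [Polynomial.degree_mul, Polynomial.degree_X_sub_C]
        rcases eq_or_ne p 0 with rfl | h0
        · rw [Polynomial.degree_zero, WithBot.add_bot]
          exact WithBot.bot_lt_coe _
        · rw [Polynomial.degree_eq_natDegree h0] at hp ⊢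
          have : p.natDegree < n := by exact_mod_cast hp
          have h2 : 1 + p.natDegree < n + 1 := by omega
          exact_mod_cast h2
    · intro l
      have h1 := key (x l)
      refine Fin.cases ?_ (fun l => ?_) l
      · have h2 := key (x 0)
        rw [sub_self, zero_mul] at h2
        exact (sub_eq_zero.1 h2).symm
      · have h2 := key (x l.succ)
        rw [hp' l, sub_self, mul_zero] at h2
        exact (sub_eq_zero.1 h2).symm
    · intro w hw
      rw [key w, norm_mul, Fin.prod_univ_succ]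
      have h1 := hp'' w hw
      calc ‖w - x 0‖ * ‖dslope f (x 0) w - p.eval w‖
          ≤ ‖w - x 0‖ * ((∏ l : Fin n, ‖w - x l.succ‖) * (2 / (R - H)) ^ n * (2 / (R - H) * B)) :=
            mul_le_mul_of_nonneg_left h1 (norm_nonneg _)
        _ = ‖w - x 0‖ * (∏ l : Fin n, ‖w - x l.succ‖) * (2 / (R - H)) ^ (n + 1) * B := by ring

end Pool.Agent.MP7629b0
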