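import Pool.Agent.Lib.MP_7629b0_nt.Defs

/-!
Module NODE: the Lagrange bound at integer nodes.
-/

namespace Pool.Agent.MP7629b0

open Complex

theorem node_factorial_le (S : Finset ℕ) (h : ∀ y ∈ S, 1 ≤ y) :
    S.card.factorial ≤ ∏ y ∈ S, y := by
  induction S using Finset.induction_on_max with
  | empty => simp
  | insert a s hs ih =>
    have ha : a ∉ s := fun h' => lt_irrefl _ (hs a h')
    rw [Finset.card_insert_of_notMem ha, Finset.prod_insert ha, Nat.factorial_succ]
    refine Nat.mul_le_mul ?_ (ih fun y hy => h y (Finset.mem_insert_of_mem hy))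
    have h1 : insert a s ⊆ Finset.Icc 1 a := by
      intro y hy
      rw [Finset.mem_Icc]
      refine ⟨h y hy, ?_⟩
      rcases Finset.mem_insert.1 hy with rfl | hy
      · exact le_rfl
      · exact (hs y hy).le
    have h2 := Finset.card_le_card h1
    rw [Finset.card_insert_of_notMem ha, Nat.card_Icc] at h2
    omega

theorem node_prod {n : ℕ} (x : Fin n → ℕ) (hx : Function.Injective x) (l : Fin n) :
    ((n - 1).factorial : ℝ) ≤ 2 ^ (n - 1) * ∏ j ∈ Finset.univ.erase l, |(x l : ℝ) - x j| := by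
  classical
  set S := Finset.univ.erase l with hS
  set S1 := S.filter fun j => x j < x l with hS1
  set S2 := S.filter fun j => ¬ x j < x l with hS2
  have hcard : S1.card + S2.card = n - 1 := by
    rw [hS1, hS2, Finset.card_filter_add_card_filter_not, hS, Finset.card_erase_of_mem
      (Finset.mem_univ l), Finset.card_univ, Fintype.card_fin]
  have h1 : (S1.card.factorial : ℝ) ≤ ∏ j ∈ S1, |(x l : ℝ) - x j| := by
    have hinj : Set.InjOn (fun j => x l - x j) (S1 : Set (Fin n)) := by
      intro i hi j hj hij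
      have hi' : x i < x l := (Finset.mem_filter.1 hi).2
      have hj' : x j < x l := (Finset.mem_filter.1 hj).2
      apply hx
      have : x l - x i = x l - x j := hij
      omega
    have h := node_factorial_le (S1.image fun j => x l - x j) (by
      intro y hy
      obtain ⟨j, hj, rfl⟩ := Finset.mem_image.1 hy
      have hj' : x j < x l := (Finset.mem_filter.1 hj).2
      omega)
    rw [Finset.card_image_of_injOn hinj, Finset.prod_image hinj] at h
    have h2 : ((∏ j ∈ S1, (x l - x j) : ℕ) : ℝ) = ∏ j ∈ S1, |(x l : ℝ) - x j| := by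
      rw [Nat.cast_prod]
      refine Finset.prod_congr rfl fun j hj => ?_
      have hj' : x j < x l := (Finset.mem_filter.1 hj).2
      rw [Nat.cast_sub hj'.le, abs_of_nonneg]
      rw [sub_nonneg]
      exact_mod_cast hj'.le
    rw [← h2]
    exact_mod_cast h
  have h3 : (S2.card.factorial : ℝ) ≤ ∏ j ∈ S2, |(x l : ℝ) - x j| := by
    have hlt : ∀ j ∈ S2, x l < x j := by
      intro j hj
      have h5 := Finset.mem_filter.1 hj
      have h6 : j ≠ l := Finset.ne_of_mem_erase h5.1
      have h7 : x j ≠ x l := fun h => h6 (hx h)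
      have h8 := h5.2
      omega
    have hinj : Set.InjOn (fun j => x j - x l) (S2 : Set (Fin n)) := by
      intro i hi j hj hij
      have hi' := hlt i hi
      have hj' := hlt j hj
      apply hx
      have : x i - x l = x j - x l := hij
      omega
    have h := node_factorial_le (S2.image fun j => x j - x l) (by
      intro y hy
      obtain ⟨j, hj, rfl⟩ := Finset.mem_image.1 hy
      have hj' := hlt j hj
      omega)
    rw [Finset.card_image_of_injOn hinj, Finset.prod_image hinj] at h
    have h2 : ((∏ j ∈ S2, (x j - x l) : ℕ) : ℝ) = ∏ j ∈ S2, |(x l : ℝ) - x j| := by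
      rw [Nat.cast_prod]
      refine Finset.prod_congr rfl fun j hj => ?_
      have hj' := hlt j hj
      rw [Nat.cast_sub hj'.le, abs_sub_comm, abs_of_nonneg]
      rw [sub_nonneg]
      exact_mod_cast hj'.le
    rw [← h2]
    exact_mod_cast h
  have h4 : ∏ j ∈ S, |(x l : ℝ) - x j| = (∏ j ∈ S1, |(x l : ℝ) - x j|) *
      ∏ j ∈ S2, |(x l : ℝ) - x j| := (Finset.prod_filter_mul_prod_filter_not _ _ _).symm
  have h5 : ((n - 1).factorial : ℝ) ≤ 2 ^ (n - 1) * (S1.card.factorial * S2.card.factorial) := by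
    rw [← hcard]
    have h6 := Nat.add_choose_mul_factorial_mul_factorial S1.card S2.card
    have h7 : (S1.card + S2.card).choose S2.card ≤ 2 ^ (S1.card + S2.card) :=
      Nat.choose_le_two_pow _ _
    have h8 : (S1.card + S2.card).factorial ≤ 2 ^ (S1.card + S2.card) *
        (S1.card.factorial * S2.card.factorial) := by
      rw [← h6, mul_assoc]
      exact Nat.mul_le_mul_right _ h7
    exact_mod_cast h8
  rw [h4]
  refine h5.trans (mul_le_mul_of_nonneg_left ?_ (by positivity))
  exact mul_le_mul h1 h3 (by positivity) (le_trans (by positivity) h1)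

theorem node (n : ℕ) (hn : 1 ≤ n) (x : Fin n → ℕ) (hx : Function.Injective x) (H : ℝ)
    (hH : ∀ l, (x l : ℝ) ≤ H) (p : Polynomial ℂ) (hp : p.degree < (n : WithBot ℕ)) (B : ℝ)
    (hB : ∀ l, ‖p.eval ((x l : ℕ) : ℂ)‖ ≤ B) (w : ℂ) :
    ‖p.eval w‖ ≤ n * B * (2 * (‖w‖ + H)) ^ (n - 1) / (n - 1).factorial := by
  classical
  have hinj : Set.InjOn (fun l : Fin n => ((x l : ℕ) : ℂ)) (Finset.univ : Finset (Fin n)) := by
    intro i _ j _ h
    apply hx
    have h' : ((x i : ℕ) : ℂ) = ((x j : ℕ) : ℂ) := h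
    exact_mod_cast h'
  have h1 := Lagrange.eq_interpolate (s := Finset.univ) hinj (f := p) (by simpa using hp)
  have hB0 : 0 ≤ B := (norm_nonneg _).trans (hB ⟨0, hn⟩)
  have hH0 : 0 ≤ H := (Nat.cast_nonneg _).trans (hH ⟨0, hn⟩)
  have h2 : p.eval w = ∑ l : Fin n, p.eval ((x l : ℕ) : ℂ) *
      ∏ j ∈ Finset.univ.erase l, (((x l : ℕ) : ℂ) - (x j : ℕ))⁻¹ * (w - (x j : ℕ)) := by
    conv_lhs => rw [h1]
    rw [Lagrange.interpolate_apply, Polynomial.eval_finsetSum]
    refine Finset.sum_congr rfl fun l _ => ?_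
    rw [Polynomial.eval_mul, Polynomial.eval_C, Lagrange.basis, Polynomial.eval_prod]
    congr 1
    refine Finset.prod_congr rfl fun j _ => ?_
    rw [Lagrange.basisDivisor]
    simp
  rw [h2]
  have h3 : ∀ l : Fin n, ‖p.eval ((x l : ℕ) : ℂ) *
      ∏ j ∈ Finset.univ.erase l, (((x l : ℕ) : ℂ) - (x j : ℕ))⁻¹ * (w - (x j : ℕ))‖ ≤
      B * (2 * (‖w‖ + H)) ^ (n - 1) / (n - 1).factorial := by
    intro l
    rw [norm_mul, norm_prod]
    have h4 : ∏ j ∈ Finset.univ.erase l, ‖(((x l : ℕ) : ℂ) - (x j : ℕ))⁻¹ * (w - (x j : ℕ))‖ ≤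
        (2 * (‖w‖ + H)) ^ (n - 1) / (n - 1).factorial := by
      have h5 : ∏ j ∈ Finset.univ.erase l, ‖(((x l : ℕ) : ℂ) - (x j : ℕ))⁻¹ * (w - (x j : ℕ))‖ ≤
          ∏ j ∈ Finset.univ.erase l, |(x l : ℝ) - x j|⁻¹ * (‖w‖ + H) := by
        refine Finset.prod_le_prod (fun j _ => norm_nonneg _) fun j _ => ?_
        rw [norm_mul, norm_inv]
        have h6 : ‖((x l : ℕ) : ℂ) - (x j : ℕ)‖ = |(x l : ℝ) - x j| := by
          have : ((x l : ℕ) : ℂ) - (x j : ℕ) = (((x l : ℝ) - x j : ℝ) : ℂ) := by push_cast; rfl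
          rw [this, Complex.norm_real, Real.norm_eq_abs]
        rw [h6]
        refine mul_le_mul_of_nonneg_left ?_ (by positivity)
        refine (norm_sub_le _ _).trans (add_le_add_right ?_ _)
        rw [Complex.norm_natCast]
        exact hH j
      refine h5.trans ?_
      rw [Finset.prod_mul_distrib, Finset.prod_const, Finset.card_erase_of_mem
        (Finset.mem_univ l), Finset.card_univ, Fintype.card_fin, Finset.prod_inv_distrib,
        mul_pow]
      have h7 := node_prod x hx l
      have h8 : 0 < ((n - 1).factorial : ℝ) := by exact_mod_cast Nat.factorial_pos _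
      have h9 : 0 < ∏ j ∈ Finset.univ.erase l, |(x l : ℝ) - x j| := by
        have : 0 < 2 ^ (n - 1) * ∏ j ∈ Finset.univ.erase l, |(x l : ℝ) - x j| :=
          lt_of_lt_of_le h8 h7
        exact (mul_pos_iff_of_pos_left (by positivity)).1 this
      rw [inv_mul_eq_div, div_le_div_iff₀ h9 h8]
      have h10 : 0 ≤ (‖w‖ + H) ^ (n - 1) := by positivity
      nlinarith [mul_le_mul_of_nonneg_left h7 h10]
    refine (mul_le_mul (hB l) h4 (Finset.prod_nonneg fun _ _ => norm_nonneg _) hB0).trans ?_
    rw [mul_div_assoc]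
  refine (norm_sum_le _ _).trans ?_
  refine (Finset.sum_le_sum fun l _ => h3 l).trans ?_
  rw [Finset.sum_const, Finset.card_univ, Fintype.card_fin, nsmul_eq_mul]
  apply le_of_eq
  ring

theorem node_unique (n : ℕ) (x : Fin n → ℂ) (hx : Function.Injective x) (p q : Polynomial ℂ)
    (hp : p.degree < (n : WithBot ℕ)) (hq : q.degree < (n : WithBot ℕ))
    (h : ∀ l, p.eval (x l) = q.eval (x l)) : p = q := by
  classical
  have hinj : Set.InjOn x (Finset.univ : Finset (Fin n)) := fun i _ j _ h => hx h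
  exact Polynomial.eq_of_degrees_lt_of_eval_index_eq Finset.univ hinj (by simpa using hp)
    (by simpa using hq) fun i _ => h i

end Pool.Agent.MP7629b0
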