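import Pool.Agent.Lib.MP_7629b0_nt.Defs

/-!
# Siegel lemma (module SG of project PPP)
-/

namespace Pool.Agent.MP7629b0

open Complex

open Matrix in
attribute [local instance] Matrix.seminormedAddCommGroup in
theorem SG_aux (m B : ℕ) (hm : 1 ≤ m) (hB : 1 ≤ B) (A : Matrix (Fin (6 * m)) (Fin 12 × Fin m) ℤ)
    (hA : ∀ l c, |A l c| ≤ B) :
    ∃ t : Fin 12 × Fin m → ℤ, t ≠ 0 ∧ A *ᵥ t = 0 ∧ ∀ c, |t c| ≤ 12 * m * B := by
  have hcard : Fintype.card (Fin (6 * m)) < Fintype.card (Fin 12 × Fin m) := by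
    simp
    omega
  have hpos : 0 < Fintype.card (Fin (6 * m)) := by
    simp
    omega
  obtain ⟨t, ht, hAt, hnorm⟩ := Int.Matrix.exists_ne_zero_int_vec_norm_le A hcard hpos
  refine ⟨t, ht, hAt, fun c => ?_⟩
  have hm' : (0 : ℝ) < m := by exact_mod_cast hm
  have hB' : (1 : ℝ) ≤ B := by exact_mod_cast hB
  have hexp : ((Fintype.card (Fin (6 * m)) : ℕ) : ℝ) /
      (((Fintype.card (Fin 12 × Fin m) : ℕ) : ℝ) - ((Fintype.card (Fin (6 * m)) : ℕ) : ℝ)) = 1 := by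
    simp only [Fintype.card_fin, Fintype.card_prod]
    push_cast
    field_simp
    ring
  rw [hexp, Real.rpow_one] at hnorm
  have hAn : ‖A‖ ≤ B := by
    rw [Matrix.norm_le_iff (by positivity)]
    intro i j
    rw [Int.norm_eq_abs]
    exact_mod_cast hA i j
  have h1 : ‖t c‖ ≤ ‖t‖ := norm_le_pi_norm t c
  have h2 : ‖t c‖ ≤ ((Fintype.card (Fin 12 × Fin m) : ℕ) : ℝ) * B := by
    refine h1.trans (hnorm.trans ?_)
    gcongr
    exact max_le hB' hAn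
  simp only [Fintype.card_fin, Fintype.card_prod] at h2
  rw [Int.norm_eq_abs] at h2
  exact_mod_cast h2

theorem sieg (m B : ℕ) (hm : 1 ≤ m) (hB : 1 ≤ B) (x : Fin (6 * m) → ℕ) (a : Fin (6 * m) → ℤ)
    (hB' : ∀ l, ∀ i j : ℕ, i < m → j < 12 → ((x l : ℤ) ^ i * |a l| ^ j) ≤ B) :
    ∃ p : Fin 12 → Fin m → ℤ, p ≠ 0 ∧ (∀ j i, |p j i| ≤ 12 * m * B) ∧
      ∀ l, ∑ j : Fin 12, ∑ i : Fin m, p j i * (x l : ℤ) ^ (i : ℕ) * a l ^ (j : ℕ) = 0 := by
  obtain ⟨t, ht, hAt, hb⟩ := SG_aux m B hm hB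
    (Matrix.of fun l c => (x l : ℤ) ^ (c.2 : ℕ) * a l ^ (c.1 : ℕ)) (by
      intro l c
      rw [Matrix.of_apply, abs_mul, abs_pow, abs_pow, Nat.abs_cast]
      exact hB' l c.2 c.1 c.2.2 c.1.2)
  refine ⟨fun j i => t (j, i), ?_, fun j i => hb (j, i), fun l => ?_⟩
  · intro h
    apply ht
    funext c
    exact congrFun (congrFun h c.1) c.2
  · have h := congrFun hAt l
    rw [Matrix.mulVec, dotProduct, Fintype.sum_prod_type] at h
    rw [Pi.zero_apply] at h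
    rw [← h]
    refine Finset.sum_congr rfl fun j _ => Finset.sum_congr rfl fun i _ => ?_
    rw [Matrix.of_apply]
    ring

end Pool.Agent.MP7629b0
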