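import Pool.Agent.Lib.MP_7629b0_nt.Defs
import Pool.Agent.Lib.MP_7629b0_nt.SG
import Pool.Agent.Lib.MP_7629b0_nt.NEWT
import Pool.Agent.Lib.MP_7629b0_nt.NODE

/-!
# MP_7629b0_nt, module EXT2: the auxiliary relation holds on all points (large exponents).
-/

namespace Pool.Agent.MP7629b0

open Complex

/-- difference of powers -/
theorem EXT2_pow_sub (A : ℝ) (u v : ℂ) (hA : 1 ≤ A) (hu : ‖u‖ ≤ A) (hv : ‖v‖ ≤ A) (j : ℕ) (hj : j < 12) :
    ‖u ^ j - v ^ j‖ ≤ 11 * A ^ 11 * ‖u - v‖ := by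
  have key : ∀ j : ℕ, ‖u ^ j - v ^ j‖ ≤ j * A ^ j * ‖u - v‖ := by
    intro j
    induction j with
    | zero => simp
    | succ j ih =>
      have e : u ^ (j + 1) - v ^ (j + 1) = u * (u ^ j - v ^ j) + v ^ j * (u - v) := by ring
      have hA0 : 0 ≤ A := by linarith
      have h1 : ‖u * (u ^ j - v ^ j)‖ ≤ A * (j * A ^ j * ‖u - v‖) := by
        rw [norm_mul]
        exact mul_le_mul hu ih (norm_nonneg _) hA0
      have h2 : ‖v ^ j * (u - v)‖ ≤ A ^ (j + 1) * ‖u - v‖ := by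
        rw [norm_mul, norm_pow]
        refine mul_le_mul_of_nonneg_right ?_ (norm_nonneg _)
        calc ‖v‖ ^ j ≤ A ^ j := pow_le_pow_left₀ (norm_nonneg _) hv j
          _ ≤ A ^ (j + 1) := pow_le_pow_right₀ hA (Nat.le_succ j)
      rw [e]
      refine (norm_add_le _ _).trans ?_
      push_cast
      calc ‖u * (u ^ j - v ^ j)‖ + ‖v ^ j * (u - v)‖
          ≤ A * (j * A ^ j * ‖u - v‖) + A ^ (j + 1) * ‖u - v‖ := add_le_add h1 h2
        _ = (j + 1) * A ^ (j + 1) * ‖u - v‖ := by ring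
  refine (key j).trans ?_
  refine mul_le_mul_of_nonneg_right ?_ (norm_nonneg _)
  have h3 : (j : ℝ) ≤ 11 := by exact_mod_cast Nat.lt_succ_iff.mp hj
  have h4 : A ^ j ≤ A ^ 11 := pow_le_pow_right₀ hA (Nat.lt_succ_iff.mp hj)
  exact mul_le_mul h3 h4 (by positivity) (by norm_num)

/-- the auxiliary function -/
noncomputable def EXT2_F {m : ℕ} (p : Fin 12 → Fin m → ℤ) (w z : ℂ) : ℂ :=
  ∑ j : Fin 12, ∑ i : Fin m, ((p j i : ℤ) : ℂ) * w ^ (i : ℕ) * z ^ (j : ℕ)

theorem EXT2_F_norm_le {m : ℕ} (p : Fin 12 → Fin m → ℤ) (M T A : ℝ) (hT : 1 ≤ T) (hA : 1 ≤ A)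
    (hM : 0 ≤ M) (hp : ∀ j i, |((p j i : ℤ) : ℝ)| ≤ M) (w z : ℂ) (hw : ‖w‖ ≤ T) (hz : ‖z‖ ≤ A) :
    ‖EXT2_F p w z‖ ≤ 12 * m * M * T ^ m * A ^ 11 := by
  have h1 : ∀ j : Fin 12, ∀ i : Fin m,
      ‖((p j i : ℤ) : ℂ) * w ^ (i : ℕ) * z ^ (j : ℕ)‖ ≤ M * T ^ m * A ^ 11 := by
    intro j i
    rw [norm_mul, norm_mul, norm_pow, norm_pow, Complex.norm_intCast]
    have hi : ‖w‖ ^ (i : ℕ) ≤ T ^ m :=
      (pow_le_pow_left₀ (norm_nonneg _) hw _).trans (pow_le_pow_right₀ hT i.2.le)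
    have hj : ‖z‖ ^ (j : ℕ) ≤ A ^ 11 :=
      (pow_le_pow_left₀ (norm_nonneg _) hz _).trans (pow_le_pow_right₀ hA (by omega))
    exact mul_le_mul (mul_le_mul (hp j i) hi (by positivity) hM) hj (by positivity)
      (by positivity)
  refine (norm_sum_le _ _).trans ?_
  calc ∑ j : Fin 12, ‖∑ i : Fin m, ((p j i : ℤ) : ℂ) * w ^ (i : ℕ) * z ^ (j : ℕ)‖
      ≤ ∑ j : Fin 12, ∑ i : Fin m, M * T ^ m * A ^ 11 :=
        Finset.sum_le_sum fun j _ => (norm_sum_le _ _).trans (Finset.sum_le_sum fun i _ => h1 j i)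
    _ = 12 * m * M * T ^ m * A ^ 11 := by
        simp only [Finset.sum_const, Finset.card_univ, Fintype.card_fin, nsmul_eq_mul]
        push_cast
        ring

theorem EXT2_F_sub_le {m : ℕ} (p : Fin 12 → Fin m → ℤ) (M T A : ℝ) (hT : 1 ≤ T) (hA : 1 ≤ A)
    (hM : 0 ≤ M) (hp : ∀ j i, |((p j i : ℤ) : ℝ)| ≤ M) (w z z' : ℂ) (hw : ‖w‖ ≤ T)
    (hz : ‖z‖ ≤ A) (hz' : ‖z'‖ ≤ A) :
    ‖EXT2_F p w z - EXT2_F p w z'‖ ≤ 132 * m * M * T ^ m * A ^ 11 * ‖z - z'‖ := by
  have h1 : ∀ j : Fin 12, ∀ i : Fin m,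
      ‖((p j i : ℤ) : ℂ) * w ^ (i : ℕ) * z ^ (j : ℕ) -
        ((p j i : ℤ) : ℂ) * w ^ (i : ℕ) * z' ^ (j : ℕ)‖ ≤
        M * T ^ m * (11 * A ^ 11 * ‖z - z'‖) := by
    intro j i
    rw [← mul_sub, norm_mul, norm_mul, norm_pow, Complex.norm_intCast]
    have hi : ‖w‖ ^ (i : ℕ) ≤ T ^ m :=
      (pow_le_pow_left₀ (norm_nonneg _) hw _).trans (pow_le_pow_right₀ hT i.2.le)
    exact mul_le_mul (mul_le_mul (hp j i) hi (by positivity) hM)
      (EXT2_pow_sub A z z' hA hz hz' j j.2) (norm_nonneg _) (by positivity)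
  rw [EXT2_F, EXT2_F, ← Finset.sum_sub_distrib]
  refine (norm_sum_le _ _).trans ?_
  calc ∑ j : Fin 12, ‖∑ i : Fin m, ((p j i : ℤ) : ℂ) * w ^ (i : ℕ) * z ^ (j : ℕ) -
          ∑ i : Fin m, ((p j i : ℤ) : ℂ) * w ^ (i : ℕ) * z' ^ (j : ℕ)‖
      ≤ ∑ j : Fin 12, ∑ i : Fin m, M * T ^ m * (11 * A ^ 11 * ‖z - z'‖) := by
        refine Finset.sum_le_sum fun j _ => ?_
        rw [← Finset.sum_sub_distrib]
        exact (norm_sum_le _ _).trans (Finset.sum_le_sum fun i _ => h1 j i)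
    _ = 132 * m * M * T ^ m * A ^ 11 * ‖z - z'‖ := by
        simp only [Finset.sum_const, Finset.card_univ, Fintype.card_fin, nsmul_eq_mul]
        push_cast
        ring

theorem EXT2_F_diff {m : ℕ} (p : Fin 12 → Fin m → ℤ) (g : ℂ → ℂ) (U : Set ℂ)
    (hg : DiffContOnCl ℂ g U) : DiffContOnCl ℂ (fun w => EXT2_F p w (g w)) U := by
  constructor
  · unfold EXT2_F
    refine DifferentiableOn.fun_sum fun j _ => DifferentiableOn.fun_sum fun i _ => ?_
    exact ((differentiableOn_const _).mul (differentiableOn_id.pow _)).mul (hg.1.pow _)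
  · unfold EXT2_F
    refine continuousOn_finsetSum _ fun j _ => continuousOn_finsetSum _ fun i _ => ?_
    exact (continuousOn_const.mul (continuousOn_id.pow _)).mul (hg.2.pow _)

theorem EXT2_le_exp (x : ℝ) : x ≤ Real.exp x := by
  have := Real.add_one_le_exp x
  linarith

/-- numerical facts -/
structure EXT2_Num (H R lam kap y E D m : ℝ) : Prop where
  hD : 10 ^ 4 ≤ D
  hy : 2500 ≤ y
  hm1 : 1 ≤ m
  hmD : 60 * y ≤ m * D
  hmD' : m * D ≤ 64 * y
  hm : 10 ^ 4 * m ≤ m * D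
  hH : 2 * H ≤ Real.exp (2.2 * D)
  hR : 2 * R ≤ Real.exp (3.2 * D)
  hq : 2 * H / (R - H) ≤ Real.exp (1 - D)
  hlR : lam * R ≤ y / 100
  hkap : kap ≤ y / 1000
  hv : 10 ^ 8 * y ≤ lam * R * D
  hE : E ≤ Real.exp (-(100 * (lam * R * D + y)))

theorem EXT2_num (S : Finset ℕ) (H R lam kap y E : ℝ) (g : ℂ → ℂ) (a : ℕ → ℤ)
    (h : G2 S H R lam kap y E g a) (m : ℕ) (hm : m = ⌈60 * y / Real.log (R / H)⌉₊) :
    EXT2_Num H R lam kap y E (Real.log (R / H)) m := by
  obtain ⟨hH, hR, hlam, hkap, hy, hg, hup, hlo, hS, hE, hE1, k1, k2, k3, k4, k5, k6, k7⟩ := h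
  set D := Real.log (R / H) with hD
  have hH0 : 0 < H := by linarith
  have hR0 : 0 < R := by linarith
  have hD0 : 0 < D := by linarith [k1]
  have hceil : 60 * y / D ≤ m := by
    rw [hm]
    exact Nat.le_ceil _
  have hceil' : (m : ℝ) < 60 * y / D + 1 := by
    rw [hm]
    exact Nat.ceil_lt_add_one (by positivity)
  have hmD : 60 * y ≤ m * D := by
    rwa [div_le_iff₀ hD0] at hceil
  have hmD' : m * D ≤ 64 * y := by
    have : (m : ℝ) * D < (60 * y / D + 1) * D := mul_lt_mul_of_pos_right hceil' hD0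
    have e : (60 * y / D + 1) * D = 60 * y + D := by field_simp
    linarith
  have hm1 : (1 : ℝ) ≤ m := by
    have : 0 < m := by
      by_contra h0
      have : m = 0 := by omega
      rw [this] at hmD
      norm_num at hmD
      linarith
    exact_mod_cast this
  have hexpD : Real.exp D = R / H := by
    rw [hD, Real.exp_log (by positivity)]
  refine ⟨k1, by linarith, hm1, hmD, hmD', ?_, ?_, ?_, ?_, k7, ?_, k6, hE1⟩
  · nlinarith
  · rw [← Real.exp_log (by positivity : (0 : ℝ) < 2 * H), Real.exp_le_exp]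
    linarith
  · rw [← Real.exp_log (by positivity : (0 : ℝ) < 2 * R), Real.exp_le_exp]
    linarith
  · rw [div_le_iff₀ (by linarith)]
    have hRe : R = H * Real.exp D := by
      rw [hexpD]
      field_simp
    have h1 : Real.exp (1 - D) * Real.exp D = Real.exp 1 := by
      rw [← Real.exp_add]
      ring_nf
    have h2 : (2.7 : ℝ) ≤ Real.exp 1 := by
      have := Real.exp_one_gt_d9
      linarith
    have h3 : Real.exp (1 - D) ≤ 1 / 2 := by
      have h4 : Real.exp (1 - D) ≤ Real.exp (-1) := by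
        rw [Real.exp_le_exp]
        linarith
      have h5 : Real.exp (-1) ≤ 1 / 2 := by
        rw [Real.exp_neg, inv_le_comm₀ (Real.exp_pos 1) (by norm_num)]
        linarith
      linarith
    have h6 : Real.exp (1 - D) * (R - H) = H * Real.exp 1 - Real.exp (1 - D) * H := by
      rw [← h1]
      nth_rewrite 1 [hRe]
      ring
    rw [h6]
    nlinarith
  · have : lam * R / 10 ^ 7 ≤ y / 1000 := by
      have : lam * R / 10 ^ 7 ≤ lam * R / 1 := by
        apply div_le_div_of_nonneg_left (by positivity) (by norm_num) (by norm_num)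
      have h2 : lam * R / 10 ^ 7 ≤ y / 100 / 10 ^ 7 :=
        div_le_div_of_nonneg_right k7 (by norm_num)
      have h3 : y / 100 / 10 ^ 7 ≤ y / 1000 := by
        rw [div_div]
        exact div_le_div_of_nonneg_left hy.le (by norm_num) (by norm_num)
      linarith
    linarith

/-- the bound for the perturbation -/
theorem EXT2_tiny {H R lam kap y E D m : ℝ} (h : EXT2_Num H R lam kap y E D m) (k : ℕ)
    (hk : (k : ℝ) = m) (hH : 1 ≤ H) (hE : 0 ≤ E) :
    132 * m * Real.exp (2.3 * m * D + 12 * y) * H ^ k * Real.exp (1.02 * y) ^ 11 * E ≤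
      Real.exp (133 * m + 4.5 * (m * D) - 76 * y - 100 * (lam * R * D)) := by
  have h1 : 132 * m ≤ Real.exp (133 * m) := by
    refine (EXT2_le_exp _).trans ?_
    rw [Real.exp_le_exp]
    linarith [h.hm1]
  have h2 : H ^ k ≤ Real.exp (2.2 * (m * D)) := by
    have : H ≤ Real.exp (2.2 * D) := by linarith [h.hH]
    calc H ^ k ≤ Real.exp (2.2 * D) ^ k := pow_le_pow_left₀ (by linarith) this k
      _ = Real.exp (2.2 * (m * D)) := by
        rw [← Real.exp_nat_mul, hk]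
        ring_nf
  have h3 : Real.exp (1.02 * y) ^ 11 = Real.exp (11.22 * y) := by
    rw [← Real.exp_nat_mul]
    norm_num
    ring
  have h4 := h.hE
  have hm0 : 0 ≤ m := by linarith [h.hm1]
  rw [h3]
  calc 132 * m * Real.exp (2.3 * m * D + 12 * y) * H ^ k * Real.exp (11.22 * y) * E
      ≤ Real.exp (133 * m) * Real.exp (2.3 * m * D + 12 * y) * Real.exp (2.2 * (m * D)) *
          Real.exp (11.22 * y) * Real.exp (-(100 * (lam * R * D + y))) := by
        gcongr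
    _ = Real.exp (133 * m + (2.3 * m * D + 12 * y) + 2.2 * (m * D) + 11.22 * y +
          -(100 * (lam * R * D + y))) := by
        simp only [Real.exp_add]
    _ ≤ Real.exp (133 * m + 4.5 * (m * D) - 76 * y - 100 * (lam * R * D)) := by
        rw [Real.exp_le_exp]
        have : 0 ≤ y := by linarith [h.hy]
        linarith

theorem ext2 (S : Finset ℕ) (H R lam kap y E : ℝ) (g : ℂ → ℂ) (a : ℕ → ℤ)
    (h : G2 S H R lam kap y E g a) (m : ℕ) (hm : m = ⌈60 * y / Real.log (R / H)⌉₊)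
    (hS : 6 * m ≤ S.card) :
    ∃ p : Fin 12 → Fin m → ℤ, p ≠ 0 ∧ (∀ j i, |((p j i : ℤ) : ℝ)| ≤
        Real.exp (2.3 * m * Real.log (R / H) + 12 * y)) ∧
      ∀ x ∈ S, ∑ j : Fin 12, ∑ i : Fin m, p j i * (x : ℤ) ^ (i : ℕ) * a x ^ (j : ℕ) = 0 := by
  have hn := EXT2_num S H R lam kap y E g a h m hm
  obtain ⟨hH, hR, hlam, hkap, hy, hg, hup, hlo, hS', hE', hE1, -, -, -, -, -, -, -⟩ := h
  set D := Real.log (R / H) with hD
  have hR1 : 1 ≤ R := by linarith
  have hm1 : 1 ≤ m := by exact_mod_cast hn.hm1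
  have hS0 : S.Nonempty := by
    rw [← Finset.card_pos]
    omega
  have hE0 : 0 ≤ E := by
    obtain ⟨x, hx⟩ := hS0
    exact (norm_nonneg _).trans (hE' x hx)
  have hy0 := hn.hy
  have hv := hn.hv
  have hlR := hn.hlR
  have hk' := hn.hkap
  have hE2 : E ≤ 1 := by
    refine hn.hE.trans ?_
    rw [← Real.exp_zero, Real.exp_le_exp]
    linarith
  set A := Real.exp (1.02 * y) with hA
  have hA1 : 1 ≤ A := by
    rw [hA, ← Real.exp_zero, Real.exp_le_exp]
    linarith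
  -- size of `g x` and `a x`
  have hgx : ∀ x ∈ S, ‖g x‖ ≤ Real.exp (1.011 * y) := by
    intro x hx
    have hxH := hS' x hx
    have hxR : ‖((x : ℕ) : ℂ)‖ ≤ R := by
      rw [Complex.norm_natCast]
      linarith
    refine (hup x hxR).trans ?_
    rw [Real.exp_le_exp, Complex.natCast_re]
    have : lam * (x : ℝ) ≤ lam * R := mul_le_mul_of_nonneg_left (by linarith) hlam.le
    linarith
  have hexp2 : Real.exp (1.011 * y) + 1 ≤ A := by
    have h1 : (1 : ℝ) ≤ Real.exp (1.011 * y) := by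
      rw [← Real.exp_zero, Real.exp_le_exp]
      linarith
    have h2 : A = Real.exp (1.011 * y) * Real.exp (0.009 * y) := by
      rw [hA, ← Real.exp_add]
      ring_nf
    have h3 : (2 : ℝ) ≤ Real.exp (0.009 * y) := by
      have := Real.add_one_le_exp (0.009 * y)
      linarith
    rw [h2]
    nlinarith
  have hgA : ∀ x ∈ S, ‖g x‖ ≤ A := fun x hx => by linarith [hgx x hx]
  have haA : ∀ x ∈ S, ‖((a x : ℤ) : ℂ)‖ ≤ A := by
    intro x hx
    have h1 := hE' x hx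
    have h2 : ‖((a x : ℤ) : ℂ)‖ ≤ ‖((a x : ℤ) : ℂ) - g x‖ + ‖g x‖ := by
      have := norm_add_le (((a x : ℤ) : ℂ) - g x) (g x)
      rwa [sub_add_cancel] at this
    linarith [hgx x hx]
  -- nodes
  obtain ⟨T, hTS, hTc⟩ := Finset.exists_subset_card_eq hS
  let e := (T.equivFinOfCardEq hTc).symm
  let x : Fin (6 * m) → ℕ := fun l => (e l : ℕ)
  have hxT : ∀ l, x l ∈ S := fun l => hTS (e l).2
  have hxinj : Function.Injective x := fun l l' hl => e.injective (Subtype.ext hl)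
  -- Siegel
  set B : ℕ := ⌈H ^ m * A ^ 11⌉₊ with hB
  have hHA : 1 ≤ H ^ m * A ^ 11 := one_le_mul_of_one_le_of_one_le (one_le_pow₀ hH) (one_le_pow₀ hA1)
  have hB1 : 1 ≤ B := by
    rw [hB, Nat.one_le_ceil_iff]
    linarith
  have hBle : (B : ℝ) ≤ 2 * (H ^ m * A ^ 11) := by
    have := Nat.ceil_lt_add_one (by linarith : 0 ≤ H ^ m * A ^ 11)
    rw [← hB] at this
    linarith
  have hBge : H ^ m * A ^ 11 ≤ B := by
    rw [hB]
    exact Nat.le_ceil _
  obtain ⟨p, hp0, hpb, hpz⟩ := sieg m B hm1 hB1 x (fun l => a (x l)) (by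
    intro l i j hi hj
    have h1 : ((x l : ℕ) : ℝ) ^ i ≤ H ^ m :=
      (pow_le_pow_left₀ (Nat.cast_nonneg _) (hS' _ (hxT l)) _).trans
        (pow_le_pow_right₀ hH hi.le)
    have h2 : |((a (x l) : ℤ) : ℝ)| ^ j ≤ A ^ 11 := by
      have := haA _ (hxT l)
      rw [Complex.norm_intCast] at this
      exact (pow_le_pow_left₀ (abs_nonneg _) this _).trans (pow_le_pow_right₀ hA1 (by omega))
    have h3 : ((x l : ℕ) : ℝ) ^ i * |((a (x l) : ℤ) : ℝ)| ^ j ≤ B :=
      (mul_le_mul h1 h2 (by positivity) (by positivity)).trans hBge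
    have h4 : ((((x l : ℕ) : ℤ) ^ i * |a (x l)| ^ j : ℤ) : ℝ) ≤ ((B : ℤ) : ℝ) := by
      push_cast
      exact h3
    exact_mod_cast h4)
  have hM : ∀ j i, |((p j i : ℤ) : ℝ)| ≤ Real.exp (2.3 * m * D + 12 * y) := by
    intro j i
    have h1 : |((p j i : ℤ) : ℝ)| ≤ 12 * m * B := by
      have := hpb j i
      exact_mod_cast this
    have h2 : (12 : ℝ) * m * B ≤ 24 * m * (H ^ m * A ^ 11) := by
      have : (0 : ℝ) ≤ 12 * m := by positivity
      nlinarith
    have h3 : (24 : ℝ) * m ≤ Real.exp (24 * m) := EXT2_le_exp _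
    have h4 : H ^ m ≤ Real.exp (2.2 * (m * D)) := by
      have : H ≤ Real.exp (2.2 * D) := by linarith [hn.hH]
      calc H ^ m ≤ Real.exp (2.2 * D) ^ m := pow_le_pow_left₀ (by linarith) this m
        _ = Real.exp (2.2 * (m * D)) := by
          rw [← Real.exp_nat_mul]
          ring_nf
    have h5 : A ^ 11 = Real.exp (11.22 * y) := by
      rw [hA, ← Real.exp_nat_mul]
      norm_num
      ring
    have h6 : 24 * m * (H ^ m * A ^ 11) ≤ Real.exp (2.3 * m * D + 12 * y) := by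
      rw [h5]
      calc 24 * (m : ℝ) * (H ^ m * Real.exp (11.22 * y))
          ≤ Real.exp (24 * m) * (Real.exp (2.2 * (m * D)) * Real.exp (11.22 * y)) := by
            gcongr
        _ = Real.exp (24 * m + (2.2 * (m * D) + 11.22 * y)) := by
            simp only [Real.exp_add]
        _ ≤ Real.exp (2.3 * m * D + 12 * y) := by
            rw [Real.exp_le_exp]
            have := hn.hm
            linarith
    linarith
  refine ⟨p, hp0, hM, ?_⟩
  set M := Real.exp (2.3 * m * D + 12 * y) with hMdef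
  have hM0 : 0 ≤ M := (Real.exp_pos _).le
  set T0 := 132 * m * M * H ^ m * A ^ 11 * E with hT0
  have hT00 : 0 ≤ T0 := by positivity
  have hT0le : T0 ≤ Real.exp (133 * m + 4.5 * (m * D) - 76 * y - 100 * (lam * R * D)) :=
    EXT2_tiny hn m rfl hH hE0
  -- the value with `a`
  have hZ : ∀ z ∈ S, EXT2_F p z (a z : ℂ) =
      ((∑ j : Fin 12, ∑ i : Fin m, p j i * (z : ℤ) ^ (i : ℕ) * a z ^ (j : ℕ) : ℤ) : ℂ) := by
    intro z _
    rw [EXT2_F]
    push_cast
    rfl
  have hdiff : ∀ z ∈ S, ‖EXT2_F p z (g z) - EXT2_F p z (a z : ℂ)‖ ≤ T0 := by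
    intro z hz
    have hzH : ‖((z : ℕ) : ℂ)‖ ≤ H := by
      rw [Complex.norm_natCast]
      exact hS' z hz
    refine (EXT2_F_sub_le p M H A hH hA1 hM0 hM z (g z) (a z : ℂ) hzH (hgA z hz)
      (haA z hz)).trans ?_
    rw [hT0]
    refine mul_le_mul_of_nonneg_left ?_ (by positivity)
    rw [norm_sub_rev]
    exact hE' z hz
  -- interpolation
  set F : ℂ → ℂ := fun w => EXT2_F p w (g w) with hF
  set s := y + lam * R + kap with hs
  have hs0 : 0 ≤ s := by
    have : 0 ≤ lam * R := by positivity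
    linarith
  set B' := 12 * m * M * R ^ m * Real.exp s ^ 11 with hB'
  have hFB : ∀ w : ℂ, ‖w‖ ≤ R → ‖F w‖ ≤ B' := by
    intro w hw
    refine EXT2_F_norm_le p M R (Real.exp s) hR1 (Real.one_le_exp hs0) hM0 hM w (g w) hw ?_
    refine (hup w hw).trans ?_
    rw [Real.exp_le_exp, hs]
    have h1 : w.re ≤ R := (Complex.re_le_norm w).trans hw
    have : lam * w.re ≤ lam * R := mul_le_mul_of_nonneg_left h1 hlam.le
    linarith
  have hxH : ∀ l, ‖((x l : ℕ) : ℂ)‖ ≤ H := by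
    intro l
    rw [Complex.norm_natCast]
    exact hS' _ (hxT l)
  obtain ⟨P, hPd, hPe, hPn⟩ := newton R H (by linarith) hR (6 * m) (fun l => ((x l : ℕ) : ℂ))
    (fun l l' hl => hxinj (Nat.cast_injective hl)) hxH F (EXT2_F_diff p g _ hg) B' hFB
  have hnode : ∀ l, ‖P.eval ((x l : ℕ) : ℂ)‖ ≤ T0 := by
    intro l
    have h1 : P.eval ((x l : ℕ) : ℂ) = F ((x l : ℕ) : ℂ) := hPe l
    have h2 := hdiff _ (hxT l)
    rw [hZ _ (hxT l), hpz l, Int.cast_zero, sub_zero] at h2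
    rw [h1]
    exact h2
  intro z hz
  have hzH : ‖((z : ℕ) : ℂ)‖ ≤ H := by
    rw [Complex.norm_natCast]
    exact hS' z hz
  have hzR : ‖((z : ℕ) : ℂ)‖ ≤ R := by linarith
  have hP1 := node (6 * m) (by omega) x hxinj H (fun l => hS' _ (hxT l)) P hPd T0 hnode
    ((z : ℕ) : ℂ)
  have hP2 := hPn ((z : ℕ) : ℂ) hzR
  -- first term
  have hprod : ∏ l, ‖((z : ℕ) : ℂ) - ((x l : ℕ) : ℂ)‖ ≤ H ^ (6 * m) := by
    have h1 : ∀ l, ‖((z : ℕ) : ℂ) - ((x l : ℕ) : ℂ)‖ ≤ H := by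
      intro l
      have h2 : ((z : ℕ) : ℂ) - ((x l : ℕ) : ℂ) = (((z : ℝ) - (x l : ℝ) : ℝ) : ℂ) := by
        push_cast
        rfl
      rw [h2, Complex.norm_real, Real.norm_eq_abs, abs_le]
      have h3 := hS' z hz
      have h4 := hS' _ (hxT l)
      have h5 : (0 : ℝ) ≤ z := Nat.cast_nonneg _
      have h6 : (0 : ℝ) ≤ x l := Nat.cast_nonneg _
      constructor <;> linarith
    calc ∏ l, ‖((z : ℕ) : ℂ) - ((x l : ℕ) : ℂ)‖ ≤ ∏ _l : Fin (6 * m), H :=
          Finset.prod_le_prod (fun _ _ => norm_nonneg _) fun l _ => h1 l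
      _ = H ^ (6 * m) := by simp
  have hterm1 : (∏ l, ‖((z : ℕ) : ℂ) - ((x l : ℕ) : ℂ)‖) * (2 / (R - H)) ^ (6 * m) * B' ≤
      Real.exp (-2) := by
    have hRH : 0 < R - H := by linarith
    have h1 : (∏ l, ‖((z : ℕ) : ℂ) - ((x l : ℕ) : ℂ)‖) * (2 / (R - H)) ^ (6 * m) ≤
        Real.exp (1 - D) ^ (6 * m) := by
      calc (∏ l, ‖((z : ℕ) : ℂ) - ((x l : ℕ) : ℂ)‖) * (2 / (R - H)) ^ (6 * m)
          ≤ H ^ (6 * m) * (2 / (R - H)) ^ (6 * m) :=
            mul_le_mul_of_nonneg_right hprod (by positivity)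
        _ = (2 * H / (R - H)) ^ (6 * m) := by
            rw [← mul_pow]
            congr 1
            ring
        _ ≤ Real.exp (1 - D) ^ (6 * m) :=
            pow_le_pow_left₀ (by positivity) hn.hq _
    have h2 : Real.exp (1 - D) ^ (6 * m) = Real.exp (6 * m - 6 * (m * D)) := by
      rw [← Real.exp_nat_mul]
      push_cast
      ring_nf
    have h3 : R ^ m ≤ Real.exp (3.2 * (m * D)) := by
      have : R ≤ Real.exp (3.2 * D) := by linarith [hn.hR]
      calc R ^ m ≤ Real.exp (3.2 * D) ^ m := pow_le_pow_left₀ (by linarith) this m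
        _ = Real.exp (3.2 * (m * D)) := by
          rw [← Real.exp_nat_mul]
          ring_nf
    have h4 : (12 : ℝ) * m ≤ Real.exp (12 * m) := EXT2_le_exp _
    have h5 : Real.exp s ^ 11 ≤ Real.exp (11.3 * y) := by
      rw [← Real.exp_nat_mul, Real.exp_le_exp]
      push_cast
      linarith
    have h6 : B' ≤ Real.exp (12 * m) * M * Real.exp (3.2 * (m * D)) * Real.exp (11.3 * y) := by
      rw [hB']
      gcongr
    have hB'0 : 0 ≤ B' := by positivity
    calc (∏ l, ‖((z : ℕ) : ℂ) - ((x l : ℕ) : ℂ)‖) * (2 / (R - H)) ^ (6 * m) * B'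
        ≤ Real.exp (6 * m - 6 * (m * D)) *
          (Real.exp (12 * m) * M * Real.exp (3.2 * (m * D)) * Real.exp (11.3 * y)) := by
          rw [← h2]
          exact mul_le_mul h1 h6 hB'0 (by positivity)
      _ = Real.exp ((6 * m - 6 * (m * D)) + (12 * m + (2.3 * m * D + 12 * y) +
            3.2 * (m * D) + 11.3 * y)) := by
          rw [hMdef]
          simp only [Real.exp_add]
      _ ≤ Real.exp (-2) := by
          rw [Real.exp_le_exp]
          have h7 := hn.hm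
          have h8 := hn.hmD
          linarith
  -- second term
  have hterm2 : ((6 * m : ℕ) : ℝ) * T0 * (2 * (‖((z : ℕ) : ℂ)‖ + H)) ^ (6 * m - 1) /
      (6 * m - 1).factorial ≤ Real.exp (-2) := by
    have h1 : (1 : ℝ) ≤ ((6 * m - 1).factorial : ℝ) := by
      exact_mod_cast Nat.one_le_iff_ne_zero.mpr (Nat.factorial_ne_zero _)
    have h2 : (2 * (‖((z : ℕ) : ℂ)‖ + H)) ^ (6 * m - 1) ≤ Real.exp (13.8 * (m * D)) := by
      have h3 : 2 * (‖((z : ℕ) : ℂ)‖ + H) ≤ Real.exp (2.3 * D) := by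
        have h4 : 2 * (‖((z : ℕ) : ℂ)‖ + H) ≤ 2 * (2 * H) := by linarith
        have h5 : (2 : ℝ) ≤ Real.exp (0.1 * D) := by
          have := Real.add_one_le_exp (0.1 * D)
          have := hn.hD
          linarith
        have h6 : Real.exp (2.3 * D) = Real.exp (0.1 * D) * Real.exp (2.2 * D) := by
          rw [← Real.exp_add]
          ring_nf
        rw [h6]
        refine h4.trans (mul_le_mul h5 hn.hH (by linarith) (Real.exp_pos _).le)
      have h7 : (1 : ℝ) ≤ Real.exp (2.3 * D) := Real.one_le_exp (by linarith [hn.hD])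
      calc (2 * (‖((z : ℕ) : ℂ)‖ + H)) ^ (6 * m - 1)
          ≤ Real.exp (2.3 * D) ^ (6 * m - 1) := pow_le_pow_left₀ (by positivity) h3 _
        _ ≤ Real.exp (2.3 * D) ^ (6 * m) := pow_le_pow_right₀ h7 (Nat.sub_le _ _)
        _ = Real.exp (13.8 * (m * D)) := by
          rw [← Real.exp_nat_mul]
          push_cast
          ring_nf
    have h8 : ((6 * m : ℕ) : ℝ) ≤ Real.exp (6 * m) := by
      push_cast
      exact EXT2_le_exp _
    have h9 : ((6 * m : ℕ) : ℝ) * T0 * (2 * (‖((z : ℕ) : ℂ)‖ + H)) ^ (6 * m - 1) ≤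
        Real.exp (6 * m) * Real.exp (133 * m + 4.5 * (m * D) - 76 * y - 100 * (lam * R * D)) *
          Real.exp (13.8 * (m * D)) := by
      gcongr
    have h10 : ((6 * m : ℕ) : ℝ) * T0 * (2 * (‖((z : ℕ) : ℂ)‖ + H)) ^ (6 * m - 1) /
        (6 * m - 1).factorial ≤
        ((6 * m : ℕ) : ℝ) * T0 * (2 * (‖((z : ℕ) : ℂ)‖ + H)) ^ (6 * m - 1) :=
      div_le_self (by positivity) h1
    refine h10.trans (h9.trans ?_)
    rw [← Real.exp_add, ← Real.exp_add, Real.exp_le_exp]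
    have h11 := hn.hm
    have h12 := hn.hmD'
    linarith
  have hterm3 : T0 ≤ Real.exp (-2) := by
    refine hT0le.trans ?_
    rw [Real.exp_le_exp]
    have h11 := hn.hm
    have h12 := hn.hmD'
    linarith
  have hexp : Real.exp (-2) ≤ 1 / 4 := by
    have h1 : Real.exp (-2) * Real.exp 2 = 1 := by
      rw [← Real.exp_add]
      norm_num
    have h2 : (4 : ℝ) ≤ Real.exp 2 := by
      have h3 : Real.exp 2 = Real.exp 1 * Real.exp 1 := by
        rw [← Real.exp_add]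
        norm_num
      have h4 : (2.7 : ℝ) ≤ Real.exp 1 := by
        have := Real.exp_one_gt_d9
        linarith
      rw [h3]
      nlinarith
    have h3 := Real.exp_pos (-2)
    nlinarith
  set Z : ℤ := ∑ j : Fin 12, ∑ i : Fin m, p j i * (z : ℤ) ^ (i : ℕ) * a z ^ (j : ℕ) with hZdef
  have hZn : ‖((Z : ℤ) : ℂ)‖ < 1 := by
    have h1 : ((Z : ℤ) : ℂ) = (F z - P.eval ((z : ℕ) : ℂ)) + P.eval ((z : ℕ) : ℂ) -
        (EXT2_F p z (g z) - EXT2_F p z (a z : ℂ)) := by
      rw [hZ z hz, hF]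
      ring
    rw [h1]
    refine (norm_sub_le _ _).trans_lt ?_
    have h2 := norm_add_le (F z - P.eval ((z : ℕ) : ℂ)) (P.eval ((z : ℕ) : ℂ))
    have h3 := hdiff z hz
    linarith
  rw [Complex.norm_intCast] at hZn
  have h1 : |Z| < 1 := by exact_mod_cast hZn
  exact Int.abs_lt_one_iff.mp h1

end Pool.Agent.MP7629b0
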