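import Pool.Agent.Lib.MP_7629b0_nt.Defs
import Pool.Agent.Lib.MP_7629b0_nt.NEWT
import Pool.Agent.Lib.MP_7629b0_nt.NODE
import Pool.Agent.Lib.MP_7629b0_nt.BW
import Pool.Agent.Lib.MP_7629b0_nt.DOM
import Pool.Agent.Lib.MP_7629b0_nt.EXT2

namespace Pool.Agent.MP7629b0

open Complex

/-! ### Counting theorem for large exponents -/

open Real in
/-- a polynomial with a coefficient of modulus at least one is not small on the unit disc -/
theorem GT2_coeff (P : Polynomial ℂ) (k : ℕ) (h1 : 1 ≤ ‖P.coeff k‖) (M : ℝ)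
    (hM : ∀ w : ℂ, ‖w‖ ≤ 1 → ‖P.eval w‖ ≤ M) : 1 ≤ M := by
  have hM0 : 0 ≤ M := (norm_nonneg _).trans (hM 0 (by simp))
  have h := P.sum_sq_norm_coeff_eq_circleAverage
  have hint : CircleIntegrable (fun θ ↦ ‖P.eval θ‖ ^ 2) 0 1 := by
    apply ContinuousOn.circleIntegrable'
    exact ((P.continuous.norm).pow 2).continuousOn
  have h2 : Real.circleAverage (fun θ ↦ ‖P.eval θ‖ ^ 2) 0 1 ≤ M ^ 2 := by
    refine Real.circleAverage_mono_on_of_le_circle hint fun x hx => ?_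
    have hx' : ‖x‖ ≤ 1 := by
      have := Metric.mem_sphere.mp hx
      rw [dist_zero_right, abs_one] at this
      exact this.le
    exact pow_le_pow_left₀ (norm_nonneg _) (hM x hx') 2
  have h3 : ‖P.coeff k‖ ^ 2 ≤ ∑ i ∈ P.support, ‖P.coeff i‖ ^ 2 := by
    have hk : k ∈ P.support := by
      rw [Polynomial.mem_support_iff]
      intro h0
      rw [h0, norm_zero] at h1
      linarith
    exact Finset.single_le_sum (f := fun i => ‖P.coeff i‖ ^ 2) (fun i _ => by positivity) hk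
  rw [h] at h3
  have h4 : (1 : ℝ) ≤ ‖P.coeff k‖ ^ 2 := by nlinarith
  nlinarith

/-- numerical consequences of the hypotheses -/
theorem GT2_num {S : Finset ℕ} {H R lam kap y E : ℝ} {g : ℂ → ℂ} {a : ℕ → ℤ}
    (h : G2 S H R lam kap y E g a) :
    0 < Real.log (R / H) ∧ 10 ^ 4 * H ≤ R ∧ 10 ^ 4 ≤ R ∧ R ≤ Real.exp (32 / 10 * Real.log (R / H)) ∧
      25 * 10 ^ 6 ≤ lam * R := by
  have hH0 : 0 < H := lt_of_lt_of_le one_pos h.hH
  have hR0 : 0 < R := hH0.trans h.hR
  have hD : 0 < Real.log (R / H) := lt_of_lt_of_le (by norm_num) h.k1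
  have h1 : 10 ^ 4 ≤ R / H := by
    have := Real.add_one_le_exp (Real.log (R / H))
    rw [Real.exp_log (by positivity)] at this
    linarith [h.k1]
  have h2 : 10 ^ 4 * H ≤ R := by rwa [le_div_iff₀ hH0] at h1
  refine ⟨hD, h2, ?_, ?_, ?_⟩
  · nlinarith [h.hH]
  · have h3 : R ≤ 2 * R := by linarith
    refine h3.trans ?_
    rw [← Real.exp_log (show 0 < 2 * R by positivity)]
    exact Real.exp_le_exp.mpr h.k3
  · have h4 := h.k6
    have h5 := h.k4
    have h6 : 25 * 10 ^ 6 * Real.log (R / H) ≤ lam * R * Real.log (R / H) := by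
      refine le_trans ?_ h4
      nlinarith
    exact le_of_mul_le_mul_right h6 hD

/-- powers of nearby numbers -/
theorem GT2_pow (u v : ℂ) (G : ℝ) (hG : 1 ≤ G) (hu : ‖u‖ ≤ G) (hv : ‖v‖ ≤ G) (j : ℕ)
    (hj : j ≤ 11) : ‖u ^ j - v ^ j‖ ≤ 11 * G ^ 11 * ‖u - v‖ := by
  rw [← Commute.geom_sum₂_mul (Commute.all u v) j, norm_mul]
  refine mul_le_mul_of_nonneg_right ?_ (norm_nonneg _)
  have hterm : ∀ i ∈ Finset.range j, ‖u ^ i * v ^ (j - 1 - i)‖ ≤ G ^ 11 := by
    intro i hi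
    have hi' := Finset.mem_range.mp hi
    rw [norm_mul, norm_pow, norm_pow]
    calc ‖u‖ ^ i * ‖v‖ ^ (j - 1 - i) ≤ G ^ i * G ^ (j - 1 - i) := by gcongr
      _ = G ^ (j - 1) := by rw [← pow_add]; congr 1; omega
      _ ≤ G ^ 11 := pow_le_pow_right₀ hG (by omega)
  calc ‖∑ i ∈ Finset.range j, u ^ i * v ^ (j - 1 - i)‖ ≤ ∑ i ∈ Finset.range j, G ^ 11 :=
        (norm_sum_le _ _).trans (Finset.sum_le_sum hterm)
    _ = j * G ^ 11 := by rw [Finset.sum_const, Finset.card_range, nsmul_eq_mul]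
    _ ≤ 11 * G ^ 11 := by
        have : (j : ℝ) ≤ 11 := by exact_mod_cast hj
        have hG' : 0 ≤ G ^ 11 := by positivity
        exact mul_le_mul_of_nonneg_right this hG'

/-- the auxiliary function is tiny at the points of `S` -/
theorem GT2_tiny {S : Finset ℕ} {H R lam kap y E : ℝ} {g : ℂ → ℂ} {a : ℕ → ℤ}
    (h : G2 S H R lam kap y E g a) (m : ℕ) (hm1 : 1 ≤ m)
    (hm : (m : ℝ) * Real.log (R / H) ≤ 64 * y) (p : Fin 12 → Fin m → ℤ)
    (hp : ∀ j i, |((p j i : ℤ) : ℝ)| ≤ Real.exp (2.3 * m * Real.log (R / H) + 12 * y))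
    (x : ℕ) (hx : x ∈ S)
    (h0 : ∑ j : Fin 12, ∑ i : Fin m, p j i * (x : ℤ) ^ (i : ℕ) * a x ^ (j : ℕ) = 0) :
    ‖∑ j : Fin 12, (∑ i : Fin m, ((p j i : ℤ) : ℂ) * (x : ℂ) ^ (i : ℕ)) * g x ^ (j : ℕ)‖ ≤
      Real.exp (-(99 * (lam * R * Real.log (R / H)))) := by
  obtain ⟨hD, hRH, hR4, hRexp, hΛ⟩ := GT2_num h
  set D := Real.log (R / H) with hDdef
  set Λ := lam * R with hΛdef
  have hy := h.hy
  have hk4 := h.k4
  have hk5 := h.k5
  have hk6 := h.k6
  have hk7 := h.k7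
  have hk1 := h.k1
  rw [← hΛdef] at hk5 hk6 hk7
  have hR0 : 0 < R := by linarith
  have hxR : (x : ℝ) ≤ R := (h.hS x hx).trans h.hR.le
  have hxnorm : ‖((x : ℕ) : ℂ)‖ ≤ R := by simpa using hxR
  -- the bound for `g`
  have hg : ‖g x‖ ≤ Real.exp (1011 / 1000 * y) := by
    refine (h.hup _ hxnorm).trans (Real.exp_le_exp.mpr ?_)
    rw [Complex.natCast_re]
    have : lam * x ≤ Λ := mul_le_mul_of_nonneg_left hxR h.hlam.le
    linarith
  have hE := h.hE x hx
  have hE1 : E ≤ Real.exp (-(100 * (Λ * D + y))) := h.hE1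
  have hΛD : 0 < Λ * D := by positivity
  have hE2 : E ≤ 1 := hE1.trans (Real.exp_le_one_iff.mpr (by linarith))
  set G := Real.exp (102 / 100 * y) with hGdef
  have hG1 : 1 ≤ G := Real.one_le_exp (by positivity)
  have hgG : Real.exp (1011 / 1000 * y) + 1 ≤ G := by
    have h1 : G = Real.exp (1011 / 1000 * y) * Real.exp (9 / 1000 * y) := by
      rw [hGdef, ← Real.exp_add]; congr 1; ring
    have h2 : (2 : ℝ) ≤ Real.exp (9 / 1000 * y) := by
      have := Real.add_one_le_exp (9 / 1000 * y)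
      linarith
    have h3 : 1 ≤ Real.exp (1011 / 1000 * y) := Real.one_le_exp (by positivity)
    rw [h1]
    nlinarith
  have hgx : ‖g x‖ ≤ G := hg.trans (by linarith)
  have hax : ‖((a x : ℤ) : ℂ)‖ ≤ G := by
    have : ((a x : ℤ) : ℂ) = (((a x : ℤ) : ℂ) - g x) + g x := by ring
    rw [this]
    exact (norm_add_le _ _).trans (by linarith)
  -- the difference
  have hdiff : ∑ j : Fin 12, (∑ i : Fin m, ((p j i : ℤ) : ℂ) * (x : ℂ) ^ (i : ℕ)) *
      g x ^ (j : ℕ) = ∑ j : Fin 12, (∑ i : Fin m, ((p j i : ℤ) : ℂ) * (x : ℂ) ^ (i : ℕ)) *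
      (g x ^ (j : ℕ) - ((a x : ℤ) : ℂ) ^ (j : ℕ)) := by
    have h1 : ∑ j : Fin 12, (∑ i : Fin m, ((p j i : ℤ) : ℂ) * (x : ℂ) ^ (i : ℕ)) *
        ((a x : ℤ) : ℂ) ^ (j : ℕ) = 0 := by
      have h2 := congrArg (fun z : ℤ => (z : ℂ)) h0
      push_cast at h2
      rw [← h2]
      refine Finset.sum_congr rfl fun j _ => ?_
      rw [Finset.sum_mul]
    simp only [mul_sub, Finset.sum_sub_distrib]
    rw [h1, sub_zero]
  rw [hdiff]
  set X := Real.exp (2.3 * m * D + 12 * y) with hXdef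
  have hX0 : 0 < X := Real.exp_pos _
  have hR1 : 1 ≤ R := by linarith
  have hpoly : ∀ j : Fin 12, ‖∑ i : Fin m, ((p j i : ℤ) : ℂ) * (x : ℂ) ^ (i : ℕ)‖ ≤
      m * (X * R ^ m) := by
    intro j
    refine (norm_sum_le _ _).trans ((Finset.sum_le_card_nsmul _ _ (X * R ^ m) fun i _ => ?_).trans
      (by simp))
    rw [norm_mul, norm_pow]
    have h1 : ‖((p j i : ℤ) : ℂ)‖ ≤ X := by
      rw [Complex.norm_intCast]
      exact hp j i
    have h2 : ‖(x : ℂ)‖ ^ (i : ℕ) ≤ R ^ m :=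
      (pow_le_pow_left₀ (norm_nonneg _) hxnorm _).trans (pow_le_pow_right₀ hR1 i.2.le)
    exact mul_le_mul h1 h2 (by positivity) hX0.le
  have hterm : ∀ j ∈ (Finset.univ : Finset (Fin 12)),
      ‖(∑ i : Fin m, ((p j i : ℤ) : ℂ) * (x : ℂ) ^ (i : ℕ)) *
      (g x ^ (j : ℕ) - ((a x : ℤ) : ℂ) ^ (j : ℕ))‖ ≤
      (m * (X * R ^ m)) * (11 * G ^ 11 * Real.exp (-(100 * (Λ * D + y)))) := by
    intro j _
    rw [norm_mul]
    refine mul_le_mul (hpoly j) ?_ (norm_nonneg _) (by positivity)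
    refine (GT2_pow _ _ G hG1 hgx hax j (by omega)).trans ?_
    refine mul_le_mul_of_nonneg_left ?_ (by positivity)
    rw [norm_sub_rev]
    exact hE.trans hE1
  refine (norm_sum_le _ _).trans ((Finset.sum_le_card_nsmul _ _ _ hterm).trans ?_)
  rw [Finset.card_univ, Fintype.card_fin, nsmul_eq_mul]
  -- exponents
  have hRm : R ^ m ≤ Real.exp (32 / 10 * (m * D)) := by
    calc R ^ m ≤ (Real.exp (32 / 10 * D)) ^ m := pow_le_pow_left₀ hR0.le hRexp m
      _ = Real.exp (32 / 10 * (m * D)) := by rw [← Real.exp_nat_mul]; congr 1; ring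
  have hmy : (m : ℝ) ≤ 64 / 10 ^ 4 * y := by
    have h1 : (m : ℝ) * 10 ^ 4 ≤ m * D := mul_le_mul_of_nonneg_left hk1 (Nat.cast_nonneg m)
    linarith
  have h132 : 132 * (m : ℝ) ≤ Real.exp y := by
    have := Real.add_one_le_exp y
    linarith
  have hG11 : G ^ 11 = Real.exp (1122 / 100 * y) := by
    rw [hGdef, ← Real.exp_nat_mul]; congr 1; push_cast; ring
  calc ((12 : ℕ) : ℝ) * ((m * (X * R ^ m)) * (11 * G ^ 11 * Real.exp (-(100 * (Λ * D + y)))))
      = (132 * (m : ℝ)) * (X * R ^ m * G ^ 11 * Real.exp (-(100 * (Λ * D + y)))) := by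
        push_cast; ring
    _ ≤ Real.exp y * (X * Real.exp (32 / 10 * (m * D)) * Real.exp (1122 / 100 * y) *
        Real.exp (-(100 * (Λ * D + y)))) := by
        rw [hG11]
        gcongr
    _ = Real.exp (y + (2.3 * m * D + 12 * y + 32 / 10 * (m * D) + 1122 / 100 * y +
        -(100 * (Λ * D + y)))) := by
        rw [hXdef]
        simp only [Real.exp_add]
    _ ≤ Real.exp (-(99 * (Λ * D))) := by
        apply Real.exp_le_exp.mpr
        have h1 : (2.3 : ℝ) * m * D = 2.3 * (m * D) := by ring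
        rw [h1]
        nlinarith

theorem GT2_num2 : Real.exp (7 / 2) ≤ 40 ∧ (2400000 : ℝ) ≤ Real.exp 15 ∧
    (24 : ℝ) ≤ Real.exp 4 ∧ (24000 : ℝ) ≤ Real.exp 11 := by
  have hu := Real.exp_one_lt_d9
  have hl := Real.exp_one_gt_d9
  have key : ∀ n : ℕ, Real.exp n = Real.exp 1 ^ n := fun n => by
    rw [← Real.exp_nat_mul, mul_one]
  have hlow : ∀ n : ℕ, (2.7182818283 : ℝ) ^ n ≤ Real.exp n := fun n => by
    rw [key]; exact pow_le_pow_left₀ (by norm_num) hl.le n
  refine ⟨?_, ?_, ?_, ?_⟩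
  · have h1 : Real.exp (7 / 2) ^ 2 ≤ 40 ^ 2 := by
      rw [← Real.exp_nat_mul]
      have : ((2 : ℕ) : ℝ) * (7 / 2) = ((7 : ℕ) : ℝ) := by norm_num
      rw [this, key]
      refine (pow_le_pow_left₀ (Real.exp_pos 1).le hu.le 7).trans ?_
      norm_num
    exact le_of_sq_le_sq h1 (by norm_num)
  · have := hlow 15
    refine le_trans ?_ (by exact_mod_cast this)
    norm_num
  · have := hlow 4
    refine le_trans ?_ (by exact_mod_cast this)
    norm_num
  · have := hlow 11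
    refine le_trans ?_ (by exact_mod_cast this)
    norm_num

/-- sup bound of the auxiliary function, real version: `Q` the sup of the polynomials -/
theorem GT2_final {m m' : ℕ} {Λ D kap A : ℝ} (hm1 : 1 ≤ m) (hA : 0 ≤ A) (hkap : kap ≤ Λ / 10 ^ 7)
    (hΛ : 25 * 10 ^ 6 ≤ Λ) (hm : (m : ℝ) ≤ 64 / 10 ^ 8 * Λ) (hm' : 4 * Λ ≤ m')
    (hm'2 : (m' : ℝ) ≤ 5 * Λ) (hD : 10 ^ 4 ≤ D)
    (h1 : A ≤ (1 / 40) ^ m' * (12 * (m * 100 ^ m * Real.exp (11 * (Λ + kap)) *
      (A * (2 * m) * 24000 ^ m * Real.exp Λ))) + Real.exp (m' + 16 * (Λ * D) - 99 * (Λ * D)))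
    (h2 : 1 / (2 * m) * (1 / 24000) ^ m * Real.exp (-Λ) ≤ A) : False := by
  obtain ⟨e1, e2, e3, e4⟩ := GT2_num2
  have hm0 : (0 : ℝ) < m := by exact_mod_cast hm1
  have hmexp : (m : ℝ) ≤ Real.exp m := by
    have := Real.add_one_le_exp (m : ℝ)
    linarith
  -- the main coefficient
  have c1 : ((1 : ℝ) / 40) ^ m' ≤ Real.exp (-(7 / 2 * m')) := by
    have : (1 : ℝ) / 40 ≤ Real.exp (-(7 / 2)) := by
      rw [Real.exp_neg, one_div]
      exact inv_anti₀ (Real.exp_pos _) e1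
    calc ((1 : ℝ) / 40) ^ m' ≤ (Real.exp (-(7 / 2))) ^ m' :=
          pow_le_pow_left₀ (by norm_num) this m'
      _ = Real.exp (-(7 / 2 * m')) := by rw [← Real.exp_nat_mul]; congr 1; ring
  have c2 : (2400000 : ℝ) ^ m ≤ Real.exp (15 * m) := by
    calc (2400000 : ℝ) ^ m ≤ (Real.exp 15) ^ m := pow_le_pow_left₀ (by norm_num) e2 m
      _ = Real.exp (15 * m) := by rw [← Real.exp_nat_mul]; congr 1; ring
  have c3 : (1 / 40) ^ m' * (12 * (m * 100 ^ m * Real.exp (11 * (Λ + kap)) *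
      (A * (2 * m) * 24000 ^ m * Real.exp Λ))) ≤ A * Real.exp (-1) := by
    have h100 : (100 : ℝ) ^ m * 24000 ^ m = 2400000 ^ m := by
      rw [← mul_pow]; norm_num
    calc (1 / 40 : ℝ) ^ m' * (12 * (m * 100 ^ m * Real.exp (11 * (Λ + kap)) *
        (A * (2 * m) * 24000 ^ m * Real.exp Λ)))
        = A * ((1 / 40 : ℝ) ^ m' * 24 * m * m * (100 ^ m * 24000 ^ m) *
          Real.exp (11 * (Λ + kap)) * Real.exp Λ) := by ring
      _ ≤ A * (Real.exp (-(7 / 2 * m')) * Real.exp 4 * Real.exp m * Real.exp m *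
          Real.exp (15 * m) * Real.exp (11 * (Λ + kap)) * Real.exp Λ) := by
          rw [h100]
          gcongr
      _ = A * Real.exp (-(7 / 2 * m') + 4 + m + m + 15 * m + 11 * (Λ + kap) + Λ) := by
          simp only [Real.exp_add]
      _ ≤ A * Real.exp (-1) := by
          refine mul_le_mul_of_nonneg_left (Real.exp_le_exp.mpr ?_) hA
          linarith
  have c4 : Real.exp (-1) ≤ 1 / 2 := by
    rw [Real.exp_neg, ← one_div]
    have := Real.add_one_le_exp (1 : ℝ)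
    exact one_div_le_one_div_of_le (by norm_num) (by linarith)
  have hΛD : Λ * 10 ^ 4 ≤ Λ * D := mul_le_mul_of_nonneg_left hD (by linarith)
  have c5 : Real.exp (m' + 16 * (Λ * D) - 99 * (Λ * D)) ≤ Real.exp (-(3 * Λ)) := by
    apply Real.exp_le_exp.mpr
    nlinarith
  have c6 : A ≤ 2 * Real.exp (-(3 * Λ)) := by nlinarith
  -- the lower bound
  have c7 : Real.exp (-(13 * m) - Λ) ≤ 1 / (2 * m) * (1 / 24000) ^ m * Real.exp (-Λ) := by
    have d1 : Real.exp (-(2 * m)) ≤ 1 / (2 * m) := by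
      rw [Real.exp_neg, ← one_div]
      have := Real.add_one_le_exp (2 * (m : ℝ))
      exact one_div_le_one_div_of_le (by positivity) (by linarith)
    have d2 : Real.exp (-(11 * m)) ≤ (1 / 24000) ^ m := by
      have : Real.exp (-11) ≤ 1 / 24000 := by
        rw [Real.exp_neg, ← one_div]
        exact one_div_le_one_div_of_le (by norm_num) e4
      calc Real.exp (-(11 * m)) = (Real.exp (-11)) ^ m := by
            rw [← Real.exp_nat_mul]; congr 1; ring
        _ ≤ (1 / 24000) ^ m := pow_le_pow_left₀ (Real.exp_pos _).le this m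
    calc Real.exp (-(13 * m) - Λ) = Real.exp (-(2 * m)) * Real.exp (-(11 * m)) *
          Real.exp (-Λ) := by rw [← Real.exp_add, ← Real.exp_add]; congr 1; ring
      _ ≤ 1 / (2 * m) * (1 / 24000) ^ m * Real.exp (-Λ) := by gcongr
  have c8 : 2 * Real.exp (-(3 * Λ)) ≤ Real.exp (1 - 3 * Λ) := by
    have := Real.add_one_le_exp (1 : ℝ)
    rw [sub_eq_add_neg, Real.exp_add]
    exact mul_le_mul_of_nonneg_right (by linarith) (Real.exp_pos _).le
  have c9 : Real.exp (-(13 * m) - Λ) ≤ Real.exp (1 - 3 * Λ) := by linarith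
  have := Real.exp_le_exp.mp c9
  linarith

theorem gt2 (S : Finset ℕ) (H R lam kap y E : ℝ) (g : ℂ → ℂ) (a : ℕ → ℤ)
    (h : G2 S H R lam kap y E g a) : (S.card : ℝ) ≤ 5 * (lam * R) := by
  by_contra hcard
  push Not at hcard
  obtain ⟨hD, hRH, hR4, hRexp, hΛ⟩ := GT2_num h
  have hy := h.hy
  have hk1 := h.k1
  have hk4 := h.k4
  have hk5 := h.k5
  have hk6 := h.k6
  have hk7 := h.k7
  have hH0 : 0 < H := lt_of_lt_of_le one_pos h.hH
  have hR0 : 0 < R := hH0.trans h.hR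
  set D := Real.log (R / H) with hDdef
  set Λ := lam * R with hΛdef
  -- the parameter `m`
  obtain ⟨m, hm⟩ : ∃ m : ℕ, m = ⌈60 * y / D⌉₊ := ⟨_, rfl⟩
  have hyD : 1 / 4 ≤ y / D := by rw [le_div_iff₀ hD]; linarith
  have hm1 : 1 ≤ m := by
    rw [hm]
    exact Nat.one_le_iff_ne_zero.mpr (Nat.ceil_pos.mpr (by positivity)).ne'
  have hmle : (m : ℝ) ≤ 64 * (y / D) := by
    have h1 : (m : ℝ) < 60 * y / D + 1 := by
      rw [hm]; exact Nat.ceil_lt_add_one (by positivity)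
    have h2 : 60 * y / D = 60 * (y / D) := by ring
    rw [h2] at h1
    linarith
  have hmD : (m : ℝ) * D ≤ 64 * y := by
    have := mul_le_mul_of_nonneg_right hmle hD.le
    have h2 : 64 * (y / D) * D = 64 * y := by field_simp
    linarith
  have hyΛ : y / D ≤ Λ / 10 ^ 8 := by
    rw [div_le_div_iff₀ hD (by norm_num)]
    linarith
  have hmΛ : (m : ℝ) ≤ 64 / 10 ^ 8 * Λ := by linarith
  have h6m : 6 * m ≤ S.card := by
    have : ((6 * m : ℕ) : ℝ) ≤ S.card := by push_cast; linarith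
    exact_mod_cast this
  obtain ⟨p, hp0, hpb, hpS⟩ := ext2 S H R lam kap y E g a h m hm h6m
  -- the polynomials
  let P : Fin 12 → Polynomial ℂ := fun j =>
    ∑ i : Fin m, Polynomial.C ((p j i : ℤ) : ℂ) * Polynomial.X ^ (i : ℕ)
  have hPdeg : ∀ j, (P j).degree < (m : WithBot ℕ) := fun j =>
    Polynomial.degree_sum_fin_lt _
  have hPeval : ∀ j (w : ℂ), (P j).eval w = ∑ i : Fin m, ((p j i : ℤ) : ℂ) * w ^ (i : ℕ) := by
    intro j w
    simp [P, Polynomial.eval_finsetSum]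
  have hPcoeff : ∀ j (i : Fin m), (P j).coeff i = ((p j i : ℤ) : ℂ) := by
    intro j i
    simp only [P, Polynomial.finsetSum_coeff, Polynomial.coeff_C_mul, Polynomial.coeff_X_pow]
    rw [Finset.sum_eq_single i]
    · simp
    · intro b _ hb
      have : ¬ ((i : ℕ) = b) := fun hib => hb (Fin.ext hib.symm)
      simp [this]
    · intro hi
      exact absurd (Finset.mem_univ _) hi
  -- maxima on the small disc
  choose v hv1 hv2 hv3 using fun j => bw_exists m (P j) (hPdeg j) 0 (R / 100) (by positivity)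
  simp only [sub_zero] at hv1 hv2 hv3
  -- the dominance lemma
  obtain ⟨w, hw, hdom⟩ := dom R lam kap y m hm1 g hR0 h.hlam h.hkap h.hup h.hlo hk5
    (by
      have : lam * (R / 100) = Λ / 100 := by rw [hΛdef]; ring
      rw [this]
      linarith) P hPdeg
  set F : ℂ → ℂ := fun z => ∑ j : Fin 12, (P j).eval z * g z ^ (j : ℕ) with hF
  have hA0 : 0 ≤ ‖F w‖ := norm_nonneg _
  -- the bound for the polynomials at the maxima
  have hpj : ∀ j : Fin 12, ‖(P j).eval (v j)‖ * Real.exp ((j : ℕ) * y) ≤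
      ‖F w‖ * (2 * m) * 24000 ^ m * Real.exp Λ := by
    intro j
    have h1 := hdom j (v j) (hv1 j)
    have hm0 : (0 : ℝ) < m := by exact_mod_cast hm1
    have h2 : (1 / (2 * (m : ℝ))) * (1 / 24000) ^ m * Real.exp (-Λ) *
        ‖(P j).eval (v j)‖ * Real.exp ((j : ℕ) * y) * ((2 * m) * 24000 ^ m * Real.exp Λ) =
        ‖(P j).eval (v j)‖ * Real.exp ((j : ℕ) * y) := by
      rw [Real.exp_neg, one_div_pow]
      field_simp
    have h3 := mul_le_mul_of_nonneg_right h1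
      (show 0 ≤ (2 * (m : ℝ)) * 24000 ^ m * Real.exp Λ by positivity)
    rw [h2] at h3
    refine h3.trans (le_of_eq ?_)
    ring
  -- the sup bound of `F`
  set B : ℝ := 12 * (m * 100 ^ m * Real.exp (11 * (Λ + kap)) *
      (‖F w‖ * (2 * m) * 24000 ^ m * Real.exp Λ)) with hBdef
  have hkap0 := h.hkap
  have hB : ∀ z : ℂ, ‖z‖ ≤ R → ‖F z‖ ≤ B := by
    intro z hz
    have hterm : ∀ j ∈ (Finset.univ : Finset (Fin 12)), ‖(P j).eval z * g z ^ (j : ℕ)‖ ≤
        m * 100 ^ m * Real.exp (11 * (Λ + kap)) *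
          (‖F w‖ * (2 * m) * 24000 ^ m * Real.exp Λ) := by
      intro j _
      rw [norm_mul, norm_pow]
      have h1 : ‖(P j).eval z‖ ≤ m * 100 ^ m * ‖(P j).eval (v j)‖ := by
        rcases le_total ‖z‖ (R / 100) with hz' | hz'
        · refine (hv2 j z hz').trans ?_
          have hm0 : (1 : ℝ) ≤ m := by exact_mod_cast hm1
          have h100 : (1 : ℝ) ≤ 100 ^ m := one_le_pow₀ (by norm_num)
          have : (1 : ℝ) ≤ m * 100 ^ m := by nlinarith
          exact le_mul_of_one_le_left (norm_nonneg _) this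
        · refine (hv3 j z hz').trans ?_
          have : ‖z‖ / (R / 100) ≤ 100 := by
            rw [div_le_iff₀ (by positivity)]
            linarith
          gcongr
      have h2 : ‖g z‖ ^ (j : ℕ) ≤ Real.exp ((j : ℕ) * y) * Real.exp (11 * (Λ + kap)) := by
        have h3 : ‖g z‖ ≤ Real.exp (y + (Λ + kap)) := by
          refine (h.hup z hz).trans (Real.exp_le_exp.mpr ?_)
          have : lam * z.re ≤ Λ :=
            mul_le_mul_of_nonneg_left ((Complex.re_le_norm z).trans hz) h.hlam.le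
          linarith
        calc ‖g z‖ ^ (j : ℕ) ≤ (Real.exp (y + (Λ + kap))) ^ (j : ℕ) :=
              pow_le_pow_left₀ (norm_nonneg _) h3 _
          _ = Real.exp ((j : ℕ) * y + (j : ℕ) * (Λ + kap)) := by
              rw [← Real.exp_nat_mul]; congr 1; ring
          _ ≤ Real.exp ((j : ℕ) * y + 11 * (Λ + kap)) := by
              apply Real.exp_le_exp.mpr
              have hj : ((j : ℕ) : ℝ) ≤ 11 := by exact_mod_cast (by omega : (j : ℕ) ≤ 11)
              have : ((j : ℕ) : ℝ) * (Λ + kap) ≤ 11 * (Λ + kap) :=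
                mul_le_mul_of_nonneg_right hj (by linarith)
              linarith
          _ = Real.exp ((j : ℕ) * y) * Real.exp (11 * (Λ + kap)) := Real.exp_add _ _
      calc ‖(P j).eval z‖ * ‖g z‖ ^ (j : ℕ) ≤ (m * 100 ^ m * ‖(P j).eval (v j)‖) *
            (Real.exp ((j : ℕ) * y) * Real.exp (11 * (Λ + kap))) :=
            mul_le_mul h1 h2 (by positivity) (by positivity)
        _ = m * 100 ^ m * Real.exp (11 * (Λ + kap)) *
            (‖(P j).eval (v j)‖ * Real.exp ((j : ℕ) * y)) := by ring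
        _ ≤ m * 100 ^ m * Real.exp (11 * (Λ + kap)) *
            (‖F w‖ * (2 * m) * 24000 ^ m * Real.exp Λ) :=
            mul_le_mul_of_nonneg_left (hpj j) (by positivity)
    refine (norm_sum_le _ _).trans ((Finset.sum_le_card_nsmul _ _ _ hterm).trans (le_of_eq ?_))
    rw [Finset.card_univ, Fintype.card_fin, nsmul_eq_mul, hBdef]
    push_cast
    ring
  -- the nodes
  obtain ⟨m', hm'⟩ : ∃ m' : ℕ, m' = ⌈4 * Λ⌉₊ := ⟨_, rfl⟩
  have hm'1 : 4 * Λ ≤ m' := by rw [hm']; exact Nat.le_ceil _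
  have hm'2 : (m' : ℝ) ≤ 5 * Λ := by
    have h1 : (m' : ℝ) < 4 * Λ + 1 := by
      rw [hm']; exact Nat.ceil_lt_add_one (by positivity)
    linarith
  have hm'S : m' ≤ S.card := by
    have : (m' : ℝ) ≤ S.card := by linarith
    exact_mod_cast this
  have hm'pos : 1 ≤ m' := by
    have : (0 : ℝ) < m' := by linarith
    exact_mod_cast this
  obtain ⟨S', hS'S, hS'card⟩ := Finset.exists_subset_card_eq hm'S
  let x : Fin m' → ℕ := fun l => S'.orderEmbOfFin hS'card l
  have hxinj : Function.Injective x := (S'.orderEmbOfFin hS'card).injective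
  have hxS : ∀ l, x l ∈ S := fun l => hS'S (Finset.orderEmbOfFin_mem S' hS'card l)
  have hxH : ∀ l, (x l : ℝ) ≤ H := fun l => h.hS _ (hxS l)
  have hFd : DiffContOnCl ℂ F (Metric.ball 0 R) := by
    refine ⟨?_, ?_⟩
    · exact DifferentiableOn.fun_sum fun j _ =>
        (P j).differentiable.differentiableOn.mul (h.hg.differentiableOn.pow _)
    · exact continuousOn_finsetSum _ fun j _ =>
        (P j).continuous.continuousOn.mul (h.hg.continuousOn.pow _)
  obtain ⟨q, hqdeg, hqx, hq⟩ := newton R H hH0.le h.hR m' (fun l => ((x l : ℕ) : ℂ))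
    (fun l l' hll' => hxinj (Nat.cast_injective hll')) (fun l => by simpa using hxH l) F hFd B hB
  have hwR : ‖w‖ ≤ R := hw.trans (by linarith)
  have hq1 := hq w hwR
  have hq2 := node m' hm'pos x hxinj H hxH q hqdeg
    (Real.exp (-(99 * (Λ * D)))) (fun l => by
      rw [hqx l, hF]
      simp only [hPeval]
      exact GT2_tiny h m hm1 hmD p hpb (x l) (hxS l) (hpS (x l) (hxS l))) w
  -- the product
  have hprod : (∏ l, ‖w - ((x l : ℕ) : ℂ)‖) * (2 / (R - H)) ^ m' ≤ (1 / 40) ^ m' := by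
    have h1 : ∏ l, ‖w - ((x l : ℕ) : ℂ)‖ ≤ (R / 100 + H) ^ m' := by
      calc ∏ l, ‖w - ((x l : ℕ) : ℂ)‖ ≤ ∏ _l : Fin m', (R / 100 + H) := by
            refine Finset.prod_le_prod (fun _ _ => norm_nonneg _) fun l _ => ?_
            refine (norm_sub_le _ _).trans (add_le_add hw ?_)
            simpa using hxH l
        _ = (R / 100 + H) ^ m' := by simp
    have hRH0 : 0 < R - H := by linarith [h.hR]
    calc (∏ l, ‖w - ((x l : ℕ) : ℂ)‖) * (2 / (R - H)) ^ m' ≤
          (R / 100 + H) ^ m' * (2 / (R - H)) ^ m' :=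
          mul_le_mul_of_nonneg_right h1 (by positivity)
      _ = ((R / 100 + H) * (2 / (R - H))) ^ m' := by rw [mul_pow]
      _ ≤ (1 / 40) ^ m' := by
          refine pow_le_pow_left₀ (by positivity) ?_ m'
          rw [mul_div_assoc', div_le_div_iff₀ hRH0 (by norm_num)]
          nlinarith
  have hB0 : 0 ≤ B := by positivity
  have hFq : ‖F w - q.eval w‖ ≤ (1 / 40) ^ m' * B :=
    hq1.trans (mul_le_mul_of_nonneg_right hprod hB0)
  -- the small polynomial
  have hqw : ‖q.eval w‖ ≤ Real.exp (m' + 16 * (Λ * D) - 99 * (Λ * D)) := by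
    refine hq2.trans ?_
    have h1 : (2 * (‖w‖ + H)) ^ (m' - 1) ≤ Real.exp (16 * (Λ * D)) := by
      have h2 : 2 * (‖w‖ + H) ≤ R := by nlinarith [h.hH]
      calc (2 * (‖w‖ + H)) ^ (m' - 1) ≤ R ^ (m' - 1) :=
            pow_le_pow_left₀ (by positivity) h2 _
        _ ≤ R ^ m' := pow_le_pow_right₀ (by linarith) (Nat.sub_le _ _)
        _ ≤ (Real.exp (32 / 10 * D)) ^ m' := pow_le_pow_left₀ hR0.le hRexp m'
        _ = Real.exp (32 / 10 * (m' * D)) := by rw [← Real.exp_nat_mul]; congr 1; ring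
        _ ≤ Real.exp (16 * (Λ * D)) := by
            apply Real.exp_le_exp.mpr
            have := mul_le_mul_of_nonneg_right hm'2 hD.le
            nlinarith
    have h3 : (1 : ℝ) ≤ ((m' - 1).factorial : ℝ) := by
      exact_mod_cast Nat.one_le_iff_ne_zero.mpr (Nat.factorial_ne_zero _)
    have h4 : (m' : ℝ) ≤ Real.exp m' := by
      have := Real.add_one_le_exp (m' : ℝ)
      linarith
    have h5 : 0 ≤ (m' : ℝ) * Real.exp (-(99 * (Λ * D))) * (2 * (‖w‖ + H)) ^ (m' - 1) := by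
      positivity
    calc (m' : ℝ) * Real.exp (-(99 * (Λ * D))) * (2 * (‖w‖ + H)) ^ (m' - 1) /
          ((m' - 1).factorial : ℝ) ≤
          (m' : ℝ) * Real.exp (-(99 * (Λ * D))) * (2 * (‖w‖ + H)) ^ (m' - 1) :=
          div_le_self h5 h3
      _ ≤ Real.exp m' * Real.exp (-(99 * (Λ * D))) * Real.exp (16 * (Λ * D)) := by
          gcongr
      _ = Real.exp (m' + 16 * (Λ * D) - 99 * (Λ * D)) := by
          rw [← Real.exp_add, ← Real.exp_add]; congr 1; ring
  -- a nonzero coefficient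
  obtain ⟨j0, i0, hji⟩ : ∃ j i, p j i ≠ 0 := by
    by_contra hall
    push Not at hall
    exact hp0 (funext fun j => funext fun i => hall j i)
  have hone : 1 ≤ ‖(P j0).eval (v j0)‖ := by
    refine GT2_coeff (P j0) i0 ?_ _ fun z hz => hv2 j0 z (hz.trans (by linarith))
    rw [hPcoeff, Complex.norm_intCast]
    exact_mod_cast Int.one_le_abs hji
  refine GT2_final (A := ‖F w‖) (D := D) (kap := kap) hm1 hA0 hk5 hΛ hmΛ hm'1 hm'2 hk1 ?_ ?_
  · calc ‖F w‖ = ‖(F w - q.eval w) + q.eval w‖ := by rw [sub_add_cancel]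
      _ ≤ ‖F w - q.eval w‖ + ‖q.eval w‖ := norm_add_le _ _
      _ ≤ _ := add_le_add hFq hqw
  · have h1 := hdom j0 (v j0) (hv1 j0)
    refine le_trans ?_ h1
    have h2 : 1 ≤ ‖(P j0).eval (v j0)‖ * Real.exp ((j0 : ℕ) * y) := by
      have : 1 ≤ Real.exp ((j0 : ℕ) * y) := Real.one_le_exp (by positivity)
      nlinarith
    have h3 : 0 ≤ 1 / (2 * (m : ℝ)) * (1 / 24000) ^ m * Real.exp (-Λ) := by positivity
    calc 1 / (2 * (m : ℝ)) * (1 / 24000) ^ m * Real.exp (-Λ) ≤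
          1 / (2 * (m : ℝ)) * (1 / 24000) ^ m * Real.exp (-Λ) *
          (‖(P j0).eval (v j0)‖ * Real.exp ((j0 : ℕ) * y)) := le_mul_of_one_le_right h3 h2
      _ = _ := by rw [mul_assoc _ ‖(P j0).eval (v j0)‖]

end Pool.Agent.MP7629b0
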