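import Pool.Agent.Lib.MP_7629b0_nt.Defs
import Pool.Agent.Lib.MP_7629b0_nt.GT2

/-!
# MP_7629b0_nt, module PAR2: asymptotics for the exponents `b ≥ N^(10^(-10))`.
-/

namespace Pool.Agent.MP7629b0

open Complex

/-- the numerical facts valid for large `N` -/
theorem PAR2_event (c C K : ℝ) (hc : 0 < c) :
    ∀ᶠ N : ℕ in Filter.atTop, 3 ≤ N ∧ 10 ^ 5 ≤ Real.log N ∧
      Real.log (Real.log N) ≤ (3 / 10000) * Real.log N ∧
      Real.log 2 + Real.log K ≤ (5 / 100) * Real.log N ∧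
      C ^ 2 * K * (2 * 10 ^ 7) ≤ Real.log N ∧
      100 * (K * C / c) ≤ Real.log N ∧
      2 * 10 ^ 7 * C * Real.log N ≤ c ^ ((1 : ℝ) / 3) * (N : ℝ) ^ ((2 : ℝ) / 3) ∧
      2 * (103 + 50 * (K * C / c)) ≤ (N : ℝ) ^ ((1 : ℝ) / 10 ^ 10) := by
  have hN : Filter.Tendsto (fun N : ℕ => (N : ℝ)) Filter.atTop Filter.atTop :=
    tendsto_natCast_atTop_atTop
  have hL : Filter.Tendsto (fun N : ℕ => Real.log N) Filter.atTop Filter.atTop :=
    Real.tendsto_log_atTop.comp hN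
  have h1 := hL.eventually_ge_atTop (10 ^ 5)
  have h2 : ∀ᶠ N : ℕ in Filter.atTop,
      Real.log (Real.log N) ≤ (3 / 10000) * Real.log N := by
    have h := Real.isLittleO_log_id_atTop.bound (show (0 : ℝ) < 3 / 10000 by norm_num)
    have h' := hL.eventually h
    filter_upwards [h', h1] with N hN1 hN2
    rw [id, Real.norm_eq_abs, Real.norm_eq_abs] at hN1
    have h3 : |Real.log N| = Real.log N := abs_of_nonneg (by linarith)
    rw [h3] at hN1
    exact (le_abs_self _).trans hN1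
  have h3 : ∀ᶠ N : ℕ in Filter.atTop, Real.log 2 + Real.log K ≤ (5 / 100) * Real.log N := by
    filter_upwards [hL.eventually_ge_atTop (20 * (Real.log 2 + Real.log K))] with N hN1
    linarith
  have h4 := hL.eventually_ge_atTop (C ^ 2 * K * (2 * 10 ^ 7))
  have h5 := hL.eventually_ge_atTop (100 * (K * C / c))
  have h6 : ∀ᶠ N : ℕ in Filter.atTop,
      2 * 10 ^ 7 * C * Real.log N ≤ c ^ ((1 : ℝ) / 3) * (N : ℝ) ^ ((2 : ℝ) / 3) := by
    have hd : 0 < c ^ ((1 : ℝ) / 3) / (2 * 10 ^ 7 * (|C| + 1)) := by positivity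
    have h := (isLittleO_log_rpow_atTop (show (0 : ℝ) < 2 / 3 by norm_num)).bound hd
    have h' := hN.eventually h
    filter_upwards [h', h1] with N hN1 hN2
    rw [Real.norm_eq_abs, Real.norm_eq_abs] at hN1
    have h3 : |Real.log N| = Real.log N := abs_of_nonneg (by linarith)
    have h4 : |(N : ℝ) ^ ((2 : ℝ) / 3)| = (N : ℝ) ^ ((2 : ℝ) / 3) := abs_of_nonneg (by positivity)
    rw [h3, h4] at hN1
    have h5 : 2 * 10 ^ 7 * (|C| + 1) * Real.log N ≤
        c ^ ((1 : ℝ) / 3) * (N : ℝ) ^ ((2 : ℝ) / 3) := by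
      have h7 : c ^ ((1 : ℝ) / 3) / (2 * 10 ^ 7 * (|C| + 1)) * (N : ℝ) ^ ((2 : ℝ) / 3) =
          (c ^ ((1 : ℝ) / 3) * (N : ℝ) ^ ((2 : ℝ) / 3)) / (2 * 10 ^ 7 * (|C| + 1)) := by ring
      rw [h7, le_div_iff₀ (by positivity)] at hN1
      linarith
    have h6 : C ≤ |C| + 1 := by linarith [le_abs_self C]
    have h8 : 0 ≤ Real.log N := by linarith
    nlinarith
  have h7 := ((tendsto_rpow_atTop (show (0 : ℝ) < 1 / 10 ^ 10 by norm_num)).comp
    hN).eventually_ge_atTop (2 * (103 + 50 * (K * C / c)))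
  filter_upwards [Filter.eventually_ge_atTop 3, h1, h2, h3, h4, h5, h6, h7] with N a0 a1 a2 a3 a4
    a5 a6 a7
  exact ⟨a0, a1, a2, a3, a4, a5, a6, a7⟩

/-- bounds for `D = log (R/H)` -/
theorem PAR2_D (K : ℝ) (hK : 1 ≤ K) (N : ℕ) (h3 : 3 ≤ N) (hL : 10 ^ 5 ≤ Real.log N)
    (hLL : Real.log (Real.log N) ≤ (3 / 10000) * Real.log N)
    (hLK : Real.log 2 + Real.log K ≤ (5 / 100) * Real.log N) :
    1 ≤ (Hn N : ℝ) ∧ (333 / 1000) * Real.log N ≤ Real.log (K * N / Real.log N / Hn N) ∧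
    Real.log (K * N / Real.log N / Hn N) ≤ Real.log N / 2 ∧
    Real.log (2 * Hn N) ≤ (67 / 100) * Real.log N ∧
    Real.log (2 * (K * N / Real.log N)) ≤ (105 / 100) * Real.log N := by
  have hN0 : (0 : ℝ) < N := by
    have : 0 < N := by omega
    exact_mod_cast this
  have hN1 : (1 : ℝ) ≤ N := by
    have : 1 ≤ N := by omega
    exact_mod_cast this
  have hL0 : 0 < Real.log N := by linarith
  have hK0 : 0 < K := by linarith
  have hx1 : (1 : ℝ) ≤ (N : ℝ) ^ ((2 : ℝ) / 3 + 1 / 10 ^ 10) :=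
    Real.one_le_rpow hN1 (by norm_num)
  have hH1n : 1 ≤ Hn N := by
    unfold Hn
    exact Nat.le_floor (by simpa using hx1)
  have hH1 : (1 : ℝ) ≤ (Hn N : ℝ) := by exact_mod_cast hH1n
  have hH0 : (0 : ℝ) < (Hn N : ℝ) := by linarith
  have hHle : (Hn N : ℝ) ≤ (N : ℝ) ^ ((2 : ℝ) / 3 + 1 / 10 ^ 10) := by
    unfold Hn
    exact Nat.floor_le (by positivity)
  have hHge : (N : ℝ) ^ ((2 : ℝ) / 3 + 1 / 10 ^ 10) ≤ 2 * (Hn N : ℝ) := by
    have h1 := (Nat.lt_floor_add_one ((N : ℝ) ^ ((2 : ℝ) / 3 + 1 / 10 ^ 10))).le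
    have h2 : (⌊(N : ℝ) ^ ((2 : ℝ) / 3 + 1 / 10 ^ 10)⌋₊ : ℝ) = (Hn N : ℝ) := rfl
    rw [h2] at h1
    linarith
  have l1 : Real.log (Hn N) ≤ ((2 : ℝ) / 3 + 1 / 10 ^ 10) * Real.log N := by
    rw [← Real.log_rpow hN0]
    exact Real.log_le_log hH0 hHle
  have l2 : ((2 : ℝ) / 3 + 1 / 10 ^ 10) * Real.log N ≤ Real.log 2 + Real.log (Hn N) := by
    rw [← Real.log_rpow hN0, ← Real.log_mul (by norm_num) hH0.ne']
    exact Real.log_le_log (by positivity) hHge
  have hlR : Real.log (K * N / Real.log N) = Real.log K + Real.log N - Real.log (Real.log N) := by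
    rw [Real.log_div (by positivity) hL0.ne', Real.log_mul hK0.ne' hN0.ne']
  have hR0 : 0 < K * N / Real.log N := by positivity
  have hlD : Real.log (K * N / Real.log N / Hn N) =
      Real.log (K * N / Real.log N) - Real.log (Hn N) := by
    rw [Real.log_div hR0.ne' hH0.ne']
  have hLL0 : 0 ≤ Real.log (Real.log N) := Real.log_nonneg (by linarith)
  have hlK : 0 ≤ Real.log K := Real.log_nonneg hK
  have hl2 : 0 < Real.log 2 := Real.log_pos (by norm_num)
  have hl2' : Real.log 2 < 1 := by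
    have := Real.log_two_lt_d9
    linarith
  refine ⟨hH1, ?_, ?_, ?_, ?_⟩
  · rw [hlD, hlR]
    linarith
  · rw [hlD, hlR]
    linarith
  · rw [Real.log_mul (by norm_num) hH0.ne']
    linarith
  · rw [Real.log_mul (by norm_num) hR0.ne', hlR]
    linarith

/-- `|u - 1| ≤ |u^b - 1|` for `u ≥ 0`, `b ≥ 1` -/
theorem PAR2_root (u : ℝ) (hu : 0 ≤ u) (b : ℕ) (hb : 1 ≤ b) : |u - 1| ≤ |u ^ b - 1| := by
  have h1 : u ^ b - 1 = (∑ i ∈ Finset.range b, u ^ i) * (u - 1) := (geom_sum_mul u b).symm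
  have h2 : 1 ≤ ∑ i ∈ Finset.range b, u ^ i := by
    have : u ^ 0 ≤ ∑ i ∈ Finset.range b, u ^ i :=
      Finset.single_le_sum (f := fun i => u ^ i) (fun i _ => pow_nonneg hu i)
        (Finset.mem_range.mpr (by omega))
    simpa using this
  rw [h1, abs_mul, abs_of_nonneg (by linarith : 0 ≤ ∑ i ∈ Finset.range b, u ^ i)]
  nlinarith [abs_nonneg (u - 1)]

/-- real part of `z / b` -/
theorem PAR2_re (z : ℂ) (b : ℕ) : (z / (b : ℂ)).re = z.re / b := by
  rw [show ((b : ℕ) : ℂ) = ((b : ℝ) : ℂ) by push_cast; rfl, Complex.div_ofReal_re]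

/-- The hypotheses of the counting theorem hold. -/
theorem PAR2_G2 (c C K : ℝ) (hc : 0 < c) (hC : 0 < C) (hK : 1 ≤ K) (hK1 : 10 ^ 9 * C / c ≤ K)
    (N : ℕ) (h3 : 3 ≤ N) (hL : 10 ^ 5 ≤ Real.log N)
    (hLL : Real.log (Real.log N) ≤ (3 / 10000) * Real.log N)
    (hLK : Real.log 2 + Real.log K ≤ (5 / 100) * Real.log N)
    (h4 : C ^ 2 * K * (2 * 10 ^ 7) ≤ Real.log N)
    (h5 : 100 * (K * C / c) ≤ Real.log N)
    (h6 : 2 * 10 ^ 7 * C * Real.log N ≤ c ^ ((1 : ℝ) / 3) * (N : ℝ) ^ ((2 : ℝ) / 3))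
    (h7 : 2 * (103 + 50 * (K * C / c)) ≤ (N : ℝ) ^ ((1 : ℝ) / 10 ^ 10))
    (r : ℕ) (t : ℝ) (h : ℂ → ℂ) (hA : AD c C K N r t h) (b : ℕ)
    (hb : (N : ℝ) ^ ((1 : ℝ) / 10 ^ 10) ≤ b) (hb2 : b * Real.log N ≤ 8 * (h 0).re)
    (S : Finset ℕ) (a : ℕ → ℕ)
    (hS : ∀ x ∈ S, x ≤ Hn N ∧ (N + x) % 2 = r ∧ pl (N + x) = a x ^ b) :
    G2 S (Hn N) (K * N / Real.log N) (t / b)
      (C * (1 + (K * N / Real.log N) ^ 2 * t ^ 4) / b) ((h 0).re / b)
      (Real.exp (-((57 / 100) * b - 1) * ((h 0).re / b) + (t / b) * Hn N +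
        C * (1 + (K * N / Real.log N) ^ 2 * t ^ 4) / b))
      (fun w => Complex.exp (h w / b)) (fun x => (a x : ℤ)) := by
  obtain ⟨hH1, hD1, hD2, hlH, hlR⟩ := PAR2_D K hK N h3 hL hLL hLK
  have hN0 : (0 : ℝ) < N := by
    have : 0 < N := by omega
    exact_mod_cast this
  have hL0 : 0 < Real.log N := by linarith
  have hK0 : 0 < K := by linarith
  have ht := hA.ht
  have hR0 : 0 < K * N / Real.log N := by positivity
  set L := Real.log N with hLdef
  set R := K * N / L with hRdef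
  set D := Real.log (R / Hn N) with hDdef
  have hKC : 0 < K * C / c := by positivity
  have hb1 : (206 : ℝ) ≤ b := by linarith
  have hb0 : (0 : ℝ) < b := by linarith
  have hbn : 1 ≤ b := by
    have : (1 : ℝ) ≤ b := by linarith
    exact_mod_cast this
  have hH0 : (0 : ℝ) < (Hn N : ℝ) := by linarith
  have hD0 : 10 ^ 4 ≤ D := by linarith
  have hHR : (Hn N : ℝ) < R := by
    have h1 : 0 < D := by linarith
    have h2 : 1 < R / Hn N := by
      by_contra hcon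
      push Not at hcon
      have : D ≤ 0 := Real.log_nonpos (by positivity) hcon
      linarith
    rwa [lt_div_iff₀ hH0, one_mul] at h2
  -- the main sizes
  have ht2 : 0 < t ^ 2 := by positivity
  have e1 : t * R = K * (N * t ^ 3) / (L * t ^ 2) := by
    rw [hRdef]
    field_simp
  have hy1 : c / t ^ 2 ≤ (h 0).re := hA.h0
  have hy2 : (h 0).re ≤ C / t ^ 2 := hA.h0'
  have hy0 : 0 < (h 0).re := lt_of_lt_of_le (by positivity) hy1
  have e2 : t * R ≤ (K * C / c / L) * (h 0).re := by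
    rw [e1]
    have h1 : K * (N * t ^ 3) / (L * t ^ 2) ≤ K * C / (L * t ^ 2) := by
      gcongr
      exact hA.hN'
    have h2 : K * C / (L * t ^ 2) = (K * C / c / L) * (c / t ^ 2) := by
      field_simp
    rw [h2] at h1
    refine h1.trans ?_
    gcongr
  have e2' : K * C / c / L ≤ 1 / 100 := by
    rw [div_le_iff₀ hL0]
    linarith
  have e3 : t * R ≤ (h 0).re / 100 := by
    refine e2.trans ?_
    nlinarith
  have hkap : C * (1 + R ^ 2 * t ^ 4) ≤ t * R / 10 ^ 7 := by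
    have i1 : C * (R ^ 2 * t ^ 4) ≤ t * R / (2 * 10 ^ 7) := by
      have i2 : C * (R ^ 2 * t ^ 4) = (C * (K * (N * t ^ 3)) / L) * (t * R) := by
        rw [hRdef]
        field_simp
      rw [i2]
      have i3 : C * (K * (N * t ^ 3)) / L ≤ 1 / (2 * 10 ^ 7) := by
        rw [div_le_iff₀ hL0]
        have i4 : C * (K * (N * t ^ 3)) ≤ C * (K * C) := by
          gcongr
          exact hA.hN'
        have i5 : C * (K * C) = C ^ 2 * K := by ring
        rw [i5] at i4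
        linarith
      have i6 : 0 ≤ t * R := by positivity
      calc (C * (K * (N * t ^ 3)) / L) * (t * R) ≤ 1 / (2 * 10 ^ 7) * (t * R) := by gcongr
        _ = t * R / (2 * 10 ^ 7) := by ring
    have j1 : C ≤ t * R / (2 * 10 ^ 7) := by
      have j2 : c ^ ((1 : ℝ) / 3) * (N : ℝ) ^ ((2 : ℝ) / 3) ≤ t * N := by
        have j3 : c ^ ((1 : ℝ) / 3) ≤ (N * t ^ 3) ^ ((1 : ℝ) / 3) :=
          Real.rpow_le_rpow hc.le hA.hN (by norm_num)
        have j4 : (N * t ^ 3) ^ ((1 : ℝ) / 3) = (N : ℝ) ^ ((1 : ℝ) / 3) * t := by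
          rw [Real.mul_rpow hN0.le (by positivity), ← Real.rpow_natCast t 3,
            ← Real.rpow_mul ht.le]
          norm_num
        rw [j4] at j3
        calc c ^ ((1 : ℝ) / 3) * (N : ℝ) ^ ((2 : ℝ) / 3)
            ≤ (N : ℝ) ^ ((1 : ℝ) / 3) * t * (N : ℝ) ^ ((2 : ℝ) / 3) := by gcongr
          _ = t * ((N : ℝ) ^ ((1 : ℝ) / 3) * (N : ℝ) ^ ((2 : ℝ) / 3)) := by ring
          _ = t * N := by
            rw [← Real.rpow_add hN0]
            norm_num
      have j5 : 2 * 10 ^ 7 * C * L ≤ t * N := h6.trans j2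
      have j6 : t * N ≤ t * (K * N) := by
        have : (N : ℝ) ≤ K * N := by nlinarith
        gcongr
      rw [le_div_iff₀ (by norm_num)]
      have j7 : t * R = t * (K * N) / L := by
        rw [hRdef]
        ring
      rw [j7, le_div_iff₀ hL0]
      linarith
    have : C * (1 + R ^ 2 * t ^ 4) = C + C * (R ^ 2 * t ^ 4) := by ring
    rw [this]
    linarith
  have hkap0 : 0 ≤ C * (1 + R ^ 2 * t ^ 4) := by positivity
  have hreb : ∀ w : ℂ, ‖w‖ ≤ R → |(h w).re - (h 0).re - t * w.re| ≤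
      C * (1 + R ^ 2 * t ^ 4) := by
    intro w hw
    refine (hA.hre w hw).trans ?_
    gcongr
  have hnorm : ∀ w : ℂ, ‖Complex.exp (h w / b)‖ = Real.exp ((h w).re / b) := by
    intro w
    rw [Complex.norm_exp, PAR2_re]
  refine ⟨hH1, hHR, by positivity, by positivity, by positivity, ?_, ?_, ?_, ?_, ?_, ?_, hD0, ?_,
    ?_, ?_, ?_, ?_, ?_⟩
  · -- hg
    have hdiff : DifferentiableOn ℂ (fun w => Complex.exp (h w / b)) (Metric.closedBall 0 R) := by
      intro w hw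
      have h1 : DifferentiableAt ℂ h w := (hA.hh w hw).differentiableAt
      exact ((h1.div_const (b : ℂ)).cexp).differentiableWithinAt
    apply DifferentiableOn.diffContOnCl
    rwa [closure_ball _ hR0.ne']
  · -- hup
    intro w hw
    rw [hnorm]
    apply Real.exp_le_exp.mpr
    have := (abs_le.mp (hreb w hw)).2
    have e : (h 0).re / b + t / b * w.re + C * (1 + R ^ 2 * t ^ 4) / b =
        ((h 0).re + t * w.re + C * (1 + R ^ 2 * t ^ 4)) / b := by ring
    rw [e]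
    gcongr
    linarith
  · -- hlo
    intro w hw
    rw [hnorm]
    apply Real.exp_le_exp.mpr
    have := (abs_le.mp (hreb w hw)).1
    have e : (h 0).re / b + t / b * w.re - C * (1 + R ^ 2 * t ^ 4) / b =
        ((h 0).re + t * w.re - C * (1 + R ^ 2 * t ^ 4)) / b := by ring
    rw [e]
    gcongr
    linarith
  · -- hS
    intro x hx
    exact_mod_cast (hS x hx).1
  · -- hE
    intro x hx
    obtain ⟨hx1, hx2, hx3⟩ := hS x hx
    have hxH : (x : ℝ) ≤ Hn N := by exact_mod_cast hx1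
    have hxR : (x : ℝ) ≤ K * N / Real.log N := hxH.trans hHR.le
    have him := hA.him x (Nat.cast_nonneg x) hxR
    have hpl := hA.hpl x hxR hx2
    rw [hx3] at hpl
    have hxc : ((x : ℝ) : ℂ) = (x : ℂ) := by push_cast; rfl
    rw [hxc] at him
    set hr := (h (x : ℂ)).re with hrdef
    have hh : h (x : ℂ) = (hr : ℂ) := by
      apply Complex.ext
      · simp [hrdef]
      · simpa using him
    have hg : Complex.exp (h (x : ℂ) / b) = ((Real.exp (hr / b) : ℝ) : ℂ) := by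
      rw [hh]
      push_cast
      rfl
    have hgoal : ‖(((a x : ℤ) : ℤ) : ℂ) - Complex.exp (h (x : ℂ) / b)‖ =
        |(a x : ℝ) - Real.exp (hr / b)| := by
      rw [hg]
      have : ((((a x : ℕ) : ℤ) : ℤ) : ℂ) - ((Real.exp (hr / b) : ℝ) : ℂ) =
          (((a x : ℝ) - Real.exp (hr / b) : ℝ) : ℂ) := by
        push_cast
        rfl
      rw [this, Complex.norm_real, Real.norm_eq_abs]
    rw [hgoal]
    set G := Real.exp (hr / b) with hG
    have hG0 : 0 < G := Real.exp_pos _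
    have hGb : G ^ b = Real.exp hr := by
      rw [hG, ← Real.exp_nat_mul]
      congr 1
      field_simp
    have hu0 : 0 ≤ (a x : ℝ) / G := by positivity
    have hroot := PAR2_root ((a x : ℝ) / G) hu0 b hbn
    have hrel : |((a x : ℝ) / G) ^ b - 1| ≤ Real.exp (-(57 / 100) * (h 0).re) := by
      have e3 : ((a x : ℝ) / G) ^ b - 1 = ((a x : ℝ) ^ b - G ^ b) / G ^ b := by
        rw [div_pow]
        field_simp
      rw [e3, abs_div, abs_of_pos (by positivity : 0 < G ^ b), div_le_iff₀ (by positivity), hGb]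
      push_cast at hpl
      exact hpl
    have hab : |(a x : ℝ) - G| ≤ Real.exp (-(57 / 100) * (h 0).re) * G := by
      have e4 : (a x : ℝ) - G = ((a x : ℝ) / G - 1) * G := by field_simp
      rw [e4, abs_mul, abs_of_pos hG0]
      gcongr
      exact hroot.trans hrel
    refine hab.trans ?_
    rw [hG, ← Real.exp_add]
    apply Real.exp_le_exp.mpr
    have hxn : ‖(x : ℂ)‖ ≤ R := by
      rw [Complex.norm_natCast]
      exact hxR
    have h8 := (abs_le.mp (hreb (x : ℂ) hxn)).2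
    have h9 : ((x : ℂ)).re = (x : ℝ) := by simp
    rw [h9] at h8
    have h10 : hr ≤ (h 0).re + t * Hn N + C * (1 + R ^ 2 * t ^ 4) := by
      have : t * (x : ℝ) ≤ t * Hn N := by gcongr
      linarith
    have h11 : hr / b ≤ ((h 0).re + t * Hn N + C * (1 + R ^ 2 * t ^ 4)) / b := by gcongr
    have h12 : -((57 / 100) * (b : ℝ) - 1) * ((h 0).re / b) + (t / b) * Hn N +
        C * (1 + R ^ 2 * t ^ 4) / b = -(57 / 100) * (h 0).re +
        ((h 0).re + t * Hn N + C * (1 + R ^ 2 * t ^ 4)) / b := by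
      field_simp
      ring
    rw [h12]
    linarith
  · -- hE1
    apply Real.exp_le_exp.mpr
    have f1 : t / b * R = (t * R) / b := by ring
    have f2 : C * (1 + R ^ 2 * t ^ 4) / b ≤ (t * R / 10 ^ 7) / b := by gcongr
    have f3 : t / b * Hn N ≤ (t * R) / b := by
      rw [f1.symm]
      gcongr
    have f4 : (t * R) / b ≤ ((h 0).re / 100) / b := by gcongr
    have f5 : t / b * R * D ≤ (K * C / c) / 2 * ((h 0).re / b) := by
      calc t / b * R * D ≤ t / b * R * (L / 2) := by gcongr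
        _ = (t * R) * (L / 2) / b := by ring
        _ ≤ ((K * C / c / L) * (h 0).re) * (L / 2) / b := by gcongr
        _ = (K * C / c) / 2 * ((h 0).re / b) := by
          field_simp
    set Y := (h 0).re / b with hY
    have hY0 : 0 < Y := by positivity
    have f6 : ((h 0).re / 100) / b = Y / 100 := by rw [hY]; ring
    have f7 : (t * R / 10 ^ 7) / b = ((t * R) / b) / 10 ^ 7 := by ring
    rw [f6] at f4
    rw [f7] at f2
    have f8 : 103 + 50 * (K * C / c) ≤ (57 / 100) * (b : ℝ) := by linarith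
    have f9 : (103 + 50 * (K * C / c)) * Y ≤ (57 / 100) * (b : ℝ) * Y := by gcongr
    nlinarith
  · -- k2
    linarith
  · -- k3
    linarith
  · -- k4
    rw [le_div_iff₀ hb0]
    have : D * b ≤ L / 2 * b := by gcongr
    linarith
  · -- k5
    have f1 : t / b * R / 10 ^ 7 = (t * R / 10 ^ 7) / b := by ring
    rw [f1]
    gcongr
  · -- k6
    have g1 : 10 ^ 8 * (h 0).re ≤ t * R * D := by
      have g2 : t * R * ((333 / 1000) * L) ≤ t * R * D := by gcongr
      have g3 : t * R * ((333 / 1000) * L) = (333 / 1000) * K * (N * t ^ 3) / t ^ 2 := by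
        rw [e1]
        field_simp
      have g4 : (333 / 1000) * K * c / t ^ 2 ≤ (333 / 1000) * K * (N * t ^ 3) / t ^ 2 := by
        gcongr
        exact hA.hN
      have g5 : 10 ^ 8 * C ≤ (333 / 1000) * K * c := by
        rw [div_le_iff₀ hc] at hK1
        nlinarith
      have g6 : 10 ^ 8 * (C / t ^ 2) ≤ (333 / 1000) * K * c / t ^ 2 := by
        rw [← mul_div_assoc]
        gcongr
      linarith
    have g7 : t / b * R * D = (t * R * D) / b := by ring
    have g8 : 10 ^ 8 * ((h 0).re / b) = (10 ^ 8 * (h 0).re) / b := by ring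
    rw [g7, g8]
    gcongr
  · -- k7
    have f1 : t / b * R = (t * R) / b := by ring
    have f2 : (h 0).re / b / 100 = ((h 0).re / 100) / b := by ring
    rw [f1, f2]
    gcongr

/-- The count for large exponents, from the counting theorem `gt2`. -/
theorem PAR2_count_large
    (hgt2 : ∀ (S : Finset ℕ) (H R lam kap y E : ℝ) (g : ℂ → ℂ) (a : ℕ → ℤ),
      G2 S H R lam kap y E g a → (S.card : ℝ) ≤ 5 * (lam * R))
    (c C : ℝ) (hc : 0 < c) (hC : 0 < C) : ∃ K1 : ℝ, ∀ K : ℝ, K1 ≤ K →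
    ∃ (C2 : ℝ) (N0 : ℕ), ∀ N r : ℕ, N0 ≤ N → ∀ (t : ℝ) (h : ℂ → ℂ), AD c C K N r t h →
      ∀ b : ℕ, (N : ℝ) ^ ((1 : ℝ) / 10 ^ 10) ≤ b → b * Real.log N ≤ 8 * (h 0).re →
        (Set.ncard {x : ℕ | x ≤ Hn N ∧ (N + x) % 2 = r ∧ ∃ a : ℕ, pl (N + x) = a ^ b} : ℝ) ≤
          C2 * (N : ℝ) ^ ((2 : ℝ) / 3) / (b * Real.log N) := by
  refine ⟨max 1 (10 ^ 9 * C / c), fun K hKK => ?_⟩
  have hK : 1 ≤ K := (le_max_left _ _).trans hKK
  have hK1 : 10 ^ 9 * C / c ≤ K := (le_max_right _ _).trans hKK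
  obtain ⟨N0, hN0⟩ := Filter.eventually_atTop.mp (PAR2_event c C K hc)
  refine ⟨5 * K * C ^ ((1 : ℝ) / 3), N0, fun N r hN t h hA b hb hb2 => ?_⟩
  obtain ⟨h3, hL, hLL, hLK, h4, h5, h6, h7⟩ := hN0 N hN
  have hfin : {x : ℕ | x ≤ Hn N ∧ (N + x) % 2 = r ∧ ∃ a : ℕ, pl (N + x) = a ^ b}.Finite :=
    (Set.finite_Iic (Hn N)).subset fun x hx => hx.1
  classical
  let a : ℕ → ℕ := fun x => if hx : ∃ a : ℕ, pl (N + x) = a ^ b then hx.choose else 0
  have hG := PAR2_G2 c C K hc hC hK hK1 N h3 hL hLL hLK h4 h5 h6 h7 r t h hA b hb hb2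
    hfin.toFinset a (by
      intro x hx
      rw [Set.Finite.mem_toFinset] at hx
      obtain ⟨hx1, hx2, hx3⟩ := hx
      refine ⟨hx1, hx2, ?_⟩
      simp only [a, dif_pos hx3]
      exact hx3.choose_spec)
  have hcard := hgt2 _ _ _ _ _ _ _ _ _ hG
  rw [Set.ncard_eq_toFinset_card _ hfin]
  refine hcard.trans ?_
  have hN1 : (0 : ℝ) < N := by
    have : 0 < N := by omega
    exact_mod_cast this
  have hL0 : 0 < Real.log N := by linarith
  have hb0 : (0 : ℝ) < b := lt_of_lt_of_le (by positivity) hb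
  have ht := hA.ht
  have key : t * N ≤ C ^ ((1 : ℝ) / 3) * (N : ℝ) ^ ((2 : ℝ) / 3) := by
    have j3 : (N * t ^ 3) ^ ((1 : ℝ) / 3) ≤ C ^ ((1 : ℝ) / 3) :=
      Real.rpow_le_rpow (by positivity) hA.hN' (by norm_num)
    have j4 : (N * t ^ 3) ^ ((1 : ℝ) / 3) = (N : ℝ) ^ ((1 : ℝ) / 3) * t := by
      rw [Real.mul_rpow hN1.le (by positivity), ← Real.rpow_natCast t 3,
        ← Real.rpow_mul ht.le]
      norm_num
    rw [j4] at j3
    calc t * N = t * ((N : ℝ) ^ ((1 : ℝ) / 3) * (N : ℝ) ^ ((2 : ℝ) / 3)) := by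
          rw [← Real.rpow_add hN1]
          norm_num
      _ = (N : ℝ) ^ ((1 : ℝ) / 3) * t * (N : ℝ) ^ ((2 : ℝ) / 3) := by ring
      _ ≤ C ^ ((1 : ℝ) / 3) * (N : ℝ) ^ ((2 : ℝ) / 3) := by gcongr
  have e : 5 * (t / b * (K * N / Real.log N)) = 5 * K * (t * N) / (b * Real.log N) := by
    field_simp
  rw [e]
  have e' : 5 * K * C ^ ((1 : ℝ) / 3) * (N : ℝ) ^ ((2 : ℝ) / 3) =
      5 * K * (C ^ ((1 : ℝ) / 3) * (N : ℝ) ^ ((2 : ℝ) / 3)) := by ring
  rw [e']
  gcongr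

/-- The count for large exponents. -/
theorem count_large (c C : ℝ) (hc : 0 < c) (hC : 0 < C) : ∃ K1 : ℝ, ∀ K : ℝ, K1 ≤ K →
    ∃ (C2 : ℝ) (N0 : ℕ), ∀ N r : ℕ, N0 ≤ N → ∀ (t : ℝ) (h : ℂ → ℂ), AD c C K N r t h →
      ∀ b : ℕ, (N : ℝ) ^ ((1 : ℝ) / 10 ^ 10) ≤ b → b * Real.log N ≤ 8 * (h 0).re →
        (Set.ncard {x : ℕ | x ≤ Hn N ∧ (N + x) % 2 = r ∧ ∃ a : ℕ, pl (N + x) = a ^ b} : ℝ) ≤
          C2 * (N : ℝ) ^ ((2 : ℝ) / 3) / (b * Real.log N) :=
  PAR2_count_large gt2 c C hc hC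

end Pool.Agent.MP7629b0
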