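import Pool.Agent.Lib.MP_7629b0_nt.Defs
import Pool.Agent.Lib.MP_7629b0_nt.PAR2

/-! PPP (MP_7629b0_nt), module PAR1: asymptotics for the small exponents. -/

namespace Pool.Agent.MP7629b0

open Complex

theorem PAR1_ev (A α β : ℝ) (h : α < β) :
    ∀ᶠ N : ℕ in Filter.atTop, A * Real.log N * (N : ℝ) ^ α ≤ (N : ℝ) ^ β := by
  have hd : 0 < 1 / (|A| + 1) := by positivity
  have h1 := ((isLittleO_log_rpow_atTop (sub_pos.2 h)).comp_tendsto
    tendsto_natCast_atTop_atTop).bound hd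
  filter_upwards [h1, Filter.eventually_ge_atTop 1] with N hN hN1
  have hN1' : (1 : ℝ) ≤ N := by exact_mod_cast hN1
  have hN0 : (0 : ℝ) < N := by linarith
  have hL : 0 ≤ Real.log N := Real.log_nonneg hN1'
  simp only [Function.comp_apply] at hN
  rw [Real.norm_of_nonneg hL, Real.norm_of_nonneg (Real.rpow_nonneg hN0.le _)] at hN
  have h2 : A * Real.log N ≤ (N : ℝ) ^ (β - α) := by
    have h3 : A * Real.log N ≤ (|A| + 1) * Real.log N := by
      have : A ≤ |A| + 1 := by linarith [le_abs_self A]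
      exact mul_le_mul_of_nonneg_right this hL
    refine h3.trans ?_
    calc (|A| + 1) * Real.log N ≤ (|A| + 1) * (1 / (|A| + 1) * (N : ℝ) ^ (β - α)) :=
          mul_le_mul_of_nonneg_left hN (by positivity)
      _ = (N : ℝ) ^ (β - α) := by field_simp
  have h3 : (N : ℝ) ^ β = (N : ℝ) ^ (β - α) * (N : ℝ) ^ α := by
    rw [← Real.rpow_add hN0]
    congr 1
    ring
  rw [h3]
  exact mul_le_mul_of_nonneg_right h2 (Real.rpow_nonneg hN0.le _)

/-- the numerical facts valid for large `N` -/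
structure PAR1_Facts (c C K c1 C1 : ℝ) (N : ℕ) : Prop where
  p3 : 3 ≤ N
  pL : 10 ^ 7 ≤ Real.log N
  pLL : Real.log (Real.log N) ≤ (3 / 10000) * Real.log N
  pLK : Real.log 2 + Real.log K ≤ (5 / 100) * Real.log N
  g5 : 10 ^ 8 * C1 ^ 2 / c * Real.log N * (N : ℝ) ^ ((1 : ℝ) / 10 ^ 10) ≤ (N : ℝ) ^ ((2 : ℝ) / 3)
  g6 : 6 * C1 ^ 2 / c * Real.log N * (N : ℝ) ^ ((2 : ℝ) / 10 ^ 10) ≤
    (N : ℝ) ^ ((33 : ℝ) / 10 ^ 11)
  g7 : 4 * C / c1 ^ 2 ≤ Real.log N
  g8 : 10 ^ 5 * C * C1 ^ 2 / c * Real.log N * (N : ℝ) ^ (0 : ℝ) ≤ (N : ℝ) ^ ((2 : ℝ) / 3)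
  g8' : 10 ^ 5 * (C ^ 3 * K ^ 2) / c ≤ Real.log N
  g9 : 10 ^ 4 * (K * C / c) ≤ Real.log N
  g10 : C / c * Real.log N * (N : ℝ) ^ ((1 : ℝ) / 10 ^ 10) ≤
    (N : ℝ) ^ ((1 : ℝ) / 3)

theorem PAR1_event (c C K c1 C1 : ℝ) (hc : 0 < c) :
    ∀ᶠ N : ℕ in Filter.atTop, PAR1_Facts c C K c1 C1 N := by
  have hL : Filter.Tendsto (fun N : ℕ => Real.log N) Filter.atTop Filter.atTop :=
    Real.tendsto_log_atTop.comp tendsto_natCast_atTop_atTop
  filter_upwards [PAR2_event c C K hc, hL.eventually_ge_atTop (10 ^ 7),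
    PAR1_ev (10 ^ 8 * C1 ^ 2 / c) (1 / 10 ^ 10) (2 / 3) (by norm_num),
    PAR1_ev (6 * C1 ^ 2 / c) (2 / 10 ^ 10) (33 / 10 ^ 11) (by norm_num),
    hL.eventually_ge_atTop (4 * C / c1 ^ 2),
    PAR1_ev (10 ^ 5 * C * C1 ^ 2 / c) 0 (2 / 3) (by norm_num),
    hL.eventually_ge_atTop (10 ^ 5 * (C ^ 3 * K ^ 2) / c),
    hL.eventually_ge_atTop (10 ^ 4 * (K * C / c)),
    PAR1_ev (C / c) (1 / 10 ^ 10) (1 / 3) (by norm_num)]
    with N a1 a2 a3 a4 a5 a6 a7 a8 a9
  exact ⟨a1.1, a2, a1.2.2.1, a1.2.2.2.1, a3, a4, a5, a6, a7, a8, a9⟩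

/-- sizes: `P/C1² ≤ 1/t² ≤ P/c1²` where `P = N^(2/3)`. -/
theorem PAR1_t (c C : ℝ) (hc : 0 < c) (N : ℕ) (hN : 1 ≤ N) (t : ℝ) (ht : 0 < t)
    (h1 : c ≤ N * t ^ 3) (h2 : N * t ^ 3 ≤ C) :
    (N : ℝ) ^ ((2 : ℝ) / 3) / (max 1 C) ^ 2 ≤ 1 / t ^ 2 ∧
    1 / t ^ 2 ≤ (N : ℝ) ^ ((2 : ℝ) / 3) / (min 1 c) ^ 2 := by
  have hN0 : (0 : ℝ) < N := by exact_mod_cast hN
  set e : ℝ := (N : ℝ) ^ ((1 : ℝ) / 3) with he
  have he0 : 0 < e := Real.rpow_pos_of_pos hN0 _
  have he3 : e ^ 3 = N := by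
    rw [he, ← Real.rpow_natCast, ← Real.rpow_mul hN0.le]
    norm_num
  have he2 : (N : ℝ) ^ ((2 : ℝ) / 3) = e ^ 2 := by
    rw [he, ← Real.rpow_natCast, ← Real.rpow_mul hN0.le]
    norm_num
  have hT0 : 0 < t * e := by positivity
  have hT3 : (t * e) ^ 3 = N * t ^ 3 := by rw [mul_pow, he3]; ring
  have hC1 : t * e ≤ max 1 C := by
    rcases le_or_gt (t * e) 1 with h | h
    · exact h.trans (le_max_left _ _)
    · refine le_trans ?_ (le_max_right 1 C)
      refine le_trans ?_ h2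
      rw [← hT3]
      have : 1 ≤ (t * e) ^ 2 := one_le_pow₀ h.le
      nlinarith
  have hc1 : min 1 c ≤ t * e := by
    rcases le_or_gt 1 (t * e) with h | h
    · exact (min_le_left _ _).trans h
    · refine (min_le_right 1 c).trans ?_
      refine h1.trans ?_
      rw [← hT3]
      have : (t * e) ^ 2 ≤ 1 := pow_le_one₀ hT0.le h.le
      nlinarith
  have hc10 : 0 < min 1 c := lt_min one_pos hc
  have hC10 : 0 < max 1 C := lt_of_lt_of_le one_pos (le_max_left _ _)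
  have hte2 : 1 / t ^ 2 = e ^ 2 / (t * e) ^ 2 := by field_simp
  rw [he2, hte2]
  constructor
  · apply div_le_div_of_nonneg_left (by positivity) (by positivity)
    exact pow_le_pow_left₀ hT0.le hC1 2
  · apply div_le_div_of_nonneg_left (by positivity) (by positivity)
    exact pow_le_pow_left₀ hc10.le hc1 2

/-- the numerical core -/
theorem PAR1_core (c C K C1 c1 L D P B b Y v t R H e m Nr Z : ℝ) (hc : 0 < c) (hC : 0 < C)
    (hK : 1 ≤ K) (hK1 : 10 ^ 9 * C / c ≤ K) (hc1 : 0 < c1) (hC1 : 0 < C1) (hL : 10 ^ 7 ≤ L)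
    (hD1 : (333 / 1000) * L ≤ D) (hD2 : D ≤ L / 2) (hP : 0 < P) (hB : 1 ≤ B) (hb : 2 ≤ b)
    (hbB : b ≤ B) (hv : 0 < v) (hv1 : P / C1 ^ 2 ≤ v) (hv2 : v ≤ P / c1 ^ 2)
    (hY1 : c * v ≤ Y) (hY2 : Y ≤ C * v) (ht : 0 < t) (htv : t ^ 2 * v = 1) (he : 0 < e)
    (hN : Nr = P * e) (hNt : c ≤ Nr * t ^ 3) (hNt' : Nr * t ^ 3 ≤ C) (hR : R = K * Nr / L)
    (hH0 : 0 < H) (hH : H ≤ P * B) (hH' : P * B ≤ 2 * H)
    (hm1 : (105 / 100) * (Y / b) ≤ m * D) (hm2 : m * D ≤ (105 / 100) * (Y / b) + D)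
    (g5 : 10 ^ 8 * C1 ^ 2 / c * L * B ≤ P) (g6 : 6 * C1 ^ 2 / c * L * B ^ 2 ≤ Z)
    (g7 : 4 * C / c1 ^ 2 ≤ L) (g8 : 10 ^ 5 * C * C1 ^ 2 / c * L ≤ P)
    (g8' : 10 ^ 5 * (C ^ 3 * K ^ 2) / c ≤ L) (g9 : 10 ^ 4 * (K * C / c) ≤ L)
    (g10 : C / c * L * B ≤ e) :
    m * D ≤ (1051 / 1000) * (Y / b) ∧ 10 ^ 8 ≤ m ∧ C * (1 + R ^ 2 * t ^ 4) / b ≤ m / 10 ^ 5 ∧
    t / b * R ≤ (Y / b) / 10 ^ 4 ∧ (11 / 10) * m ≤ t / b * R / 2 ∧ 2 * (t / b) * H ≤ m ∧
    11 * H ≤ m * Z ∧ m ≤ H ∧ (107 / 100) * m ≤ 4 * C / c1 ^ 2 * P / (b * L) ∧ m ≤ Y / b := by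
  have hL0 : 0 < L := by linarith
  have hb0 : 0 < b := by linarith
  have hB0 : 0 < B := by linarith
  have hD0 : 0 < D := by linarith
  set y := Y / b with hy
  have hYy : Y = y * b := by rw [hy]; field_simp
  have hN0 : 0 < Nr := by rw [hN]; positivity
  -- y is large
  have k1 : c * (P / C1 ^ 2) ≤ Y := (mul_le_mul_of_nonneg_left hv1 hc.le).trans hY1
  have k2 : 10 ^ 8 * L * B ≤ c * (P / C1 ^ 2) := by
    have h1 : c / C1 ^ 2 * (10 ^ 8 * C1 ^ 2 / c * L * B) ≤ c / C1 ^ 2 * P :=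
      mul_le_mul_of_nonneg_left g5 (by positivity)
    have h2 : c / C1 ^ 2 * (10 ^ 8 * C1 ^ 2 / c * L * B) = 10 ^ 8 * L * B := by field_simp
    have h3 : c / C1 ^ 2 * P = c * (P / C1 ^ 2) := by ring
    linarith
  have k3 : 10 ^ 8 * L ≤ y := by
    rw [hy, le_div_iff₀ hb0]
    have : 10 ^ 8 * L * b ≤ 10 ^ 8 * L * B := mul_le_mul_of_nonneg_left hbB (by positivity)
    linarith
  have hy0 : 0 < y := by linarith
  have r1 : m * D ≤ (1051 / 1000) * y := by linarith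
  have hm0 : 0 < m := by
    by_contra hcon
    push Not at hcon
    have : m * D ≤ 0 := mul_nonpos_of_nonpos_of_nonneg hcon hD0.le
    linarith
  have k4 : (21 / 10) * y ≤ m * L := by
    have : m * D ≤ m * (L / 2) := mul_le_mul_of_nonneg_left hD2 hm0.le
    linarith
  have k5 : m * L ≤ (3157 / 1000) * y := by
    have : m * ((333 / 1000) * L) ≤ m * D := mul_le_mul_of_nonneg_left hD1 hm0.le
    linarith
  have r2 : 10 ^ 8 ≤ m := by
    have h1 : 10 ^ 8 * L ≤ m * L := by linarith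
    exact le_of_mul_le_mul_right h1 hL0
  have k6 : m ≤ y := by
    have h1 : m * 10 ^ 7 ≤ m * L := mul_le_mul_of_nonneg_left hL hm0.le
    linarith
  -- b m
  have k7 : (21 / 10) * (c * v) ≤ b * m * L := by
    have h1 : b * ((21 / 10) * y) ≤ b * (m * L) := mul_le_mul_of_nonneg_left k4 hb0.le
    have h2 : b * ((21 / 10) * y) = (21 / 10) * Y := by rw [hYy]; ring
    nlinarith
  have k8 : b * m * L ≤ (3157 / 1000) * (C * v) := by
    have h1 : b * (m * L) ≤ b * ((3157 / 1000) * y) := mul_le_mul_of_nonneg_left k5 hb0.le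
    have h2 : b * ((3157 / 1000) * y) = (3157 / 1000) * Y := by rw [hYy]; ring
    nlinarith
  -- t R
  have q0 : t * R * L = K * (Nr * t ^ 3) * v := by
    rw [hR]
    have : K * (Nr * t ^ 3) * v = K * Nr * t * (t ^ 2 * v) := by ring
    rw [this, htv]
    field_simp
  have q1 : K * c * v ≤ t * R * L := by
    rw [q0]
    have : K * c ≤ K * (Nr * t ^ 3) := mul_le_mul_of_nonneg_left hNt (by linarith)
    exact mul_le_mul_of_nonneg_right this hv.le
  have q2 : t * R * L ≤ K * C * v := by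
    rw [q0]
    have : K * (Nr * t ^ 3) ≤ K * C := mul_le_mul_of_nonneg_left hNt' (by linarith)
    exact mul_le_mul_of_nonneg_right this hv.le
  have hR0 : 0 < R := by rw [hR]; positivity
  have r3 : C * (1 + R ^ 2 * t ^ 4) / b ≤ m / 10 ^ 5 := by
    rw [div_le_div_iff₀ hb0 (by norm_num)]
    -- C ≤ c v / L / 10^5
    have h1 : 10 ^ 5 * C * L ≤ c * v := by
      have h2 : c / C1 ^ 2 * (10 ^ 5 * C * C1 ^ 2 / c * L) ≤ c / C1 ^ 2 * P :=
        mul_le_mul_of_nonneg_left g8 (by positivity)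
      have h3 : c / C1 ^ 2 * (10 ^ 5 * C * C1 ^ 2 / c * L) = 10 ^ 5 * C * L := by field_simp
      have h4 : c / C1 ^ 2 * P = c * (P / C1 ^ 2) := by ring
      have h5 : c * (P / C1 ^ 2) ≤ c * v := mul_le_mul_of_nonneg_left hv1 hc.le
      linarith
    have h6 : R ^ 2 * t ^ 4 * L ^ 2 ≤ (K * C) ^ 2 * v := by
      have h7 : (t * R * L) ^ 2 ≤ (K * C * v) ^ 2 := pow_le_pow_left₀ (by positivity) q2 2
      have h8 : (R ^ 2 * t ^ 4 * L ^ 2) * v = (t * R * L) ^ 2 := by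
        have : (R ^ 2 * t ^ 4 * L ^ 2) * v = (t * R * L) ^ 2 * (t ^ 2 * v) := by ring
        rw [this, htv, mul_one]
      have h9 : (K * C * v) ^ 2 = ((K * C) ^ 2 * v) * v := by ring
      rw [← h8, h9] at h7
      exact le_of_mul_le_mul_right h7 hv
    have h10 : 10 ^ 5 * (C ^ 3 * K ^ 2) ≤ c * L := by
      rw [div_le_iff₀ hc] at g8'
      linarith
    have h11 : 10 ^ 5 * (C * (R ^ 2 * t ^ 4)) * L ≤ c * v := by
      have h12 : 10 ^ 5 * (C * (R ^ 2 * t ^ 4 * L ^ 2)) ≤ 10 ^ 5 * (C * ((K * C) ^ 2 * v)) :=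
        mul_le_mul_of_nonneg_left (mul_le_mul_of_nonneg_left h6 hC.le) (by norm_num)
      have h13 : 10 ^ 5 * (C * ((K * C) ^ 2 * v)) = 10 ^ 5 * (C ^ 3 * K ^ 2) * v := by ring
      have h14 : 10 ^ 5 * (C ^ 3 * K ^ 2) * v ≤ c * L * v := mul_le_mul_of_nonneg_right h10 hv.le
      have h15 : 10 ^ 5 * (C * (R ^ 2 * t ^ 4)) * L * L ≤ c * v * L := by
        have e1 : 10 ^ 5 * (C * (R ^ 2 * t ^ 4)) * L * L = 10 ^ 5 * (C * (R ^ 2 * t ^ 4 * L ^ 2)) := by
          ring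
        have e2 : c * v * L = c * L * v := by ring
        rw [e1, e2]
        linarith
      exact le_of_mul_le_mul_right h15 hL0
    have h16 : C * (1 + R ^ 2 * t ^ 4) * 10 ^ 5 * L ≤ m * b * L := by
      have e1 : C * (1 + R ^ 2 * t ^ 4) * 10 ^ 5 * L =
          10 ^ 5 * C * L + 10 ^ 5 * (C * (R ^ 2 * t ^ 4)) * L := by ring
      have e2 : m * b * L = b * m * L := by ring
      have : 0 < c * v := by positivity
      rw [e1, e2]
      linarith
    exact le_of_mul_le_mul_right h16 hL0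
  have r4 : t / b * R ≤ y / 10 ^ 4 := by
    have h1 : 10 ^ 4 * (K * C) ≤ L * c := by
      have : 10 ^ 4 * (K * C / c) = 10 ^ 4 * (K * C) / c := by ring
      rwa [this, div_le_iff₀ hc] at g9
    have h2 : t * R * L * 10 ^ 4 ≤ Y * L := by
      have h3 : 10 ^ 4 * (K * C) * v ≤ L * c * v := mul_le_mul_of_nonneg_right h1 hv.le
      have h4 : L * (c * v) ≤ L * Y := mul_le_mul_of_nonneg_left hY1 hL0.le
      nlinarith
    have h3 : t * R * 10 ^ 4 ≤ Y := by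
      have : t * R * 10 ^ 4 * L ≤ Y * L := by linarith
      exact le_of_mul_le_mul_right this hL0
    have e1 : t / b * R = t * R / b := by ring
    have e2 : y / 10 ^ 4 = Y / 10 ^ 4 / b := by rw [hy]; ring
    rw [e1, e2]
    apply div_le_div_of_nonneg_right _ hb0.le
    rw [le_div_iff₀ (by norm_num)]
    exact h3
  have r5 : (11 / 10) * m ≤ t / b * R / 2 := by
    have e1 : t / b * R / 2 = t * R / 2 / b := by ring
    rw [e1, le_div_iff₀ hb0]
    have h1 : 10 ^ 9 * C ≤ K * c := by rwa [div_le_iff₀ hc] at hK1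
    have h2 : 10 ^ 9 * C * v ≤ K * c * v := mul_le_mul_of_nonneg_right h1 hv.le
    have h3 : 0 < C * v := by positivity
    have h4 : (11 / 10) * m * b * L ≤ t * R / 2 * L := by
      have e2 : (11 / 10) * m * b * L = (11 / 10) * (b * m * L) := by ring
      have e3 : t * R / 2 * L = t * R * L / 2 := by ring
      rw [e2, e3]
      linarith
    exact le_of_mul_le_mul_right h4 hL0
  have r6 : 2 * (t / b) * H ≤ m := by
    have e1 : 2 * (t / b) * H = 2 * (t * H) / b := by ring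
    rw [e1, div_le_iff₀ hb0]
    -- t = t^3 v
    have h1 : t * H ≤ t ^ 3 * v * (P * B) := by
      have e2 : t ^ 3 * v = t := by
        have : t ^ 3 * v = t * (t ^ 2 * v) := by ring
        rw [this, htv, mul_one]
      rw [e2]
      exact mul_le_mul_of_nonneg_left hH ht.le
    have h2 : C * L * B ≤ c * e := by
      have e3 : C / c * L * B = C * L * B / c := by ring
      rw [e3, div_le_iff₀ hc] at g10
      linarith
    have h3 : t ^ 3 * v * (P * B) * L ≤ c * v := by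
      have h4 : (t ^ 3 * (P * e)) * (v * L * B) ≤ C * (v * L * B) := by
        rw [← hN, mul_comm (t ^ 3) Nr]
        exact mul_le_mul_of_nonneg_right hNt' (by positivity)
      have h5 : C * (v * L * B) ≤ c * v * e := by
        have : C * L * B * v ≤ c * e * v := mul_le_mul_of_nonneg_right h2 hv.le
        linarith
      have h6 : t ^ 3 * v * (P * B) * L * e ≤ c * v * e := by
        have e4 : t ^ 3 * v * (P * B) * L * e = (t ^ 3 * (P * e)) * (v * L * B) := by ring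
        rw [e4]
        exact h4.trans h5
      exact le_of_mul_le_mul_right h6 he
    have h7 : 2 * (t * H) * L ≤ m * b * L := by
      have h8 : t * H * L ≤ t ^ 3 * v * (P * B) * L := mul_le_mul_of_nonneg_right h1 hL0.le
      have e5 : m * b * L = b * m * L := by ring
      have : 0 < c * v := by positivity
      rw [e5]
      linarith
    exact le_of_mul_le_mul_right h7 hL0
  have r7 : 11 * H ≤ m * Z := by
    have h1 : m * (6 * C1 ^ 2 / c * L * B ^ 2) ≤ m * Z := mul_le_mul_of_nonneg_left g6 hm0.le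
    have h2 : (21 / 10) * (c * (P / C1 ^ 2)) ≤ m * L * B := by
      have h3 : (21 / 10) * y * b ≤ m * L * b := mul_le_mul_of_nonneg_right k4 hb0.le
      have h4 : m * L * b ≤ m * L * B := mul_le_mul_of_nonneg_left hbB (by positivity)
      have h5 : (21 / 10) * y * b = (21 / 10) * Y := by rw [hYy]; ring
      linarith
    have h6 : (21 / 10) * (c * (P / C1 ^ 2)) * (6 * C1 ^ 2 / c * B) ≤
        m * L * B * (6 * C1 ^ 2 / c * B) := mul_le_mul_of_nonneg_right h2 (by positivity)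
    have h7 : (21 / 10) * (c * (P / C1 ^ 2)) * (6 * C1 ^ 2 / c * B) = (126 / 10) * (P * B) := by
      field_simp
      ring
    have h8 : m * L * B * (6 * C1 ^ 2 / c * B) = m * (6 * C1 ^ 2 / c * L * B ^ 2) := by ring
    have h9 : 0 < P * B := by positivity
    linarith
  have hv3 : C * v ≤ C / c1 ^ 2 * P := by
    have : C * v ≤ C * (P / c1 ^ 2) := mul_le_mul_of_nonneg_left hv2 hC.le
    have e1 : C * (P / c1 ^ 2) = C / c1 ^ 2 * P := by ring
    linarith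
  have r8 : m ≤ H := by
    have h1 : 2 * m * L ≤ b * m * L := by
      have : 2 * (m * L) ≤ b * (m * L) := mul_le_mul_of_nonneg_right hb (by positivity)
      linarith
    have h2 : C / c1 ^ 2 * P ≤ L / 4 * P := by
      apply mul_le_mul_of_nonneg_right _ hP.le
      have : 4 * C / c1 ^ 2 = 4 * (C / c1 ^ 2) := by ring
      linarith
    have h3 : 2 * m * L ≤ P * L := by
      have : 0 < P * L := by positivity
      linarith
    have h4 : 2 * m ≤ P := le_of_mul_le_mul_right h3 hL0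
    have h5 : P ≤ P * B := le_mul_of_one_le_right hP.le hB
    linarith
  have r9 : (107 / 100) * m ≤ 4 * C / c1 ^ 2 * P / (b * L) := by
    rw [le_div_iff₀ (by positivity)]
    have e1 : (107 / 100) * m * (b * L) = (107 / 100) * (b * m * L) := by ring
    have e2 : 4 * C / c1 ^ 2 * P = 4 * (C / c1 ^ 2 * P) := by ring
    rw [e1, e2]
    have : 0 < C / c1 ^ 2 * P := by positivity
    linarith
  exact ⟨r1, r2, r3, r4, r5, r6, r7, r8, r9, k6⟩

/-- The hypotheses of the counting theorem hold, and the size of `m`. -/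
theorem PAR1_G1 (c C K : ℝ) (hc : 0 < c) (hC : 0 < C) (hK : 1 ≤ K) (hK1 : 10 ^ 9 * C / c ≤ K)
    (N : ℕ) (hF : PAR1_Facts c C K (min 1 c) (max 1 C) N)
    (r : ℕ) (t : ℝ) (h : ℂ → ℂ) (hA : AD c C K N r t h) (b : ℕ) (hb : 2 ≤ b)
    (hbB : (b : ℝ) ≤ (N : ℝ) ^ ((1 : ℝ) / 10 ^ 10))
    (S : Finset ℕ) (a : ℕ → ℕ)
    (hS : ∀ x ∈ S, x ≤ Hn N ∧ (N + x) % 2 = r ∧ pl (N + x) = a x ^ b) :
    ∃ m : ℕ, G1 S (Hn N) (K * N / Real.log N) (t / b)
      (C * (1 + (K * N / Real.log N) ^ 2 * t ^ 4) / b) ((h 0).re / b)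
      (Real.exp (-((57 / 100) * b - 1) * ((h 0).re / b) + (t / b) * Hn N +
        C * (1 + (K * N / Real.log N) ^ 2 * t ^ 4) / b)) m
      (fun w => Complex.exp (h w / b)) (fun x => (a x : ℤ)) ∧
      (107 / 100) * (m : ℝ) ≤
        4 * C / (min 1 c) ^ 2 * (N : ℝ) ^ ((2 : ℝ) / 3) / (b * Real.log N) := by
  obtain ⟨hH1, hD1, hD2, hlH, hlR⟩ := PAR2_D K hK N hF.p3 (by linarith [hF.pL]) hF.pLL hF.pLK
  have hN1 : 1 ≤ N := by have := hF.p3; omega
  have hN0 : (0 : ℝ) < N := by exact_mod_cast hN1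
  have hN1' : (1 : ℝ) ≤ N := by exact_mod_cast hN1
  have hL := hF.pL
  have hL0 : 0 < Real.log N := by linarith
  have hK0 : 0 < K := by linarith
  have ht := hA.ht
  obtain ⟨hv1, hv2⟩ := PAR1_t c C hc N hN1 t ht hA.hN hA.hN'
  have hR0 : 0 < K * N / Real.log N := by positivity
  have hb2 : (2 : ℝ) ≤ b := by exact_mod_cast hb
  have hb0 : (0 : ℝ) < b := by linarith
  have hbn : 1 ≤ b := by omega
  have hH0 : (0 : ℝ) < (Hn N : ℝ) := by linarith
  have hBpos : (1 : ℝ) ≤ (N : ℝ) ^ ((1 : ℝ) / 10 ^ 10) := Real.one_le_rpow hN1' (by norm_num)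
  have hPB : (N : ℝ) ^ ((2 : ℝ) / 3 + 1 / 10 ^ 10) =
      (N : ℝ) ^ ((2 : ℝ) / 3) * (N : ℝ) ^ ((1 : ℝ) / 10 ^ 10) := Real.rpow_add hN0 _ _
  have hHle : (Hn N : ℝ) ≤ (N : ℝ) ^ ((2 : ℝ) / 3) * (N : ℝ) ^ ((1 : ℝ) / 10 ^ 10) := by
    rw [← hPB]
    unfold Hn
    exact Nat.floor_le (by positivity)
  have hHge : (N : ℝ) ^ ((2 : ℝ) / 3) * (N : ℝ) ^ ((1 : ℝ) / 10 ^ 10) ≤ 2 * (Hn N : ℝ) := by
    rw [← hPB]
    have h1 := (Nat.lt_floor_add_one ((N : ℝ) ^ ((2 : ℝ) / 3 + 1 / 10 ^ 10))).le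
    have h2 : (⌊(N : ℝ) ^ ((2 : ℝ) / 3 + 1 / 10 ^ 10)⌋₊ : ℝ) = (Hn N : ℝ) := rfl
    rw [h2] at h1
    linarith
  have hB2 : ((N : ℝ) ^ ((1 : ℝ) / 10 ^ 10)) ^ 2 = (N : ℝ) ^ ((2 : ℝ) / 10 ^ 10) := by
    rw [← Real.rpow_natCast, ← Real.rpow_mul hN0.le]
    norm_num
  have hPe : (N : ℝ) = (N : ℝ) ^ ((2 : ℝ) / 3) * (N : ℝ) ^ ((1 : ℝ) / 3) := by
    rw [← Real.rpow_add hN0]
    norm_num
  have hg8 : 10 ^ 5 * C * (max 1 C) ^ 2 / c * Real.log N ≤ (N : ℝ) ^ ((2 : ℝ) / 3) := by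
    have := hF.g8
    rwa [Real.rpow_zero, mul_one] at this
  have hP0 : 0 < (N : ℝ) ^ ((2 : ℝ) / 3) := by positivity
  have he0 : 0 < (N : ℝ) ^ ((1 : ℝ) / 3) := by positivity
  have hg6 := hF.g6
  rw [← hB2] at hg6
  have hlZ : Real.log ((N : ℝ) ^ ((33 : ℝ) / 10 ^ 11)) = (33 / 10 ^ 11) * Real.log N :=
    Real.log_rpow hN0 _
  have hZ0 : 0 < (N : ℝ) ^ ((33 : ℝ) / 10 ^ 11) := by positivity
  set Z := (N : ℝ) ^ ((33 : ℝ) / 10 ^ 11) with hZdef
  set P := (N : ℝ) ^ ((2 : ℝ) / 3) with hPdef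
  set e := (N : ℝ) ^ ((1 : ℝ) / 3) with hedef
  set B := (N : ℝ) ^ ((1 : ℝ) / 10 ^ 10) with hBdef
  have hg5 := hF.g5
  have hg10 := hF.g10
  rw [← hBdef, ← hPdef] at hg5
  rw [← hBdef, ← hedef] at hg10
  set L := Real.log N with hLdef
  set R := K * N / L with hRdef
  set D := Real.log (R / Hn N) with hDdef
  have hD0 : 10 ^ 6 ≤ D := by linarith
  have hDpos : 0 < D := by linarith
  have hHR : (Hn N : ℝ) < R := by
    have h2 : 1 < R / Hn N := by
      by_contra hcon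
      push Not at hcon
      have : D ≤ 0 := Real.log_nonpos (by positivity) hcon
      linarith
    rwa [lt_div_iff₀ hH0, one_mul] at h2
  have hY1 : c * (1 / t ^ 2) ≤ (h 0).re := by
    have := hA.h0
    rw [div_eq_mul_one_div] at this
    exact this
  have hY2 : (h 0).re ≤ C * (1 / t ^ 2) := by
    have := hA.h0'
    rw [div_eq_mul_one_div] at this
    exact this
  have hv0 : 0 < 1 / t ^ 2 := by positivity
  have hY0 : 0 < (h 0).re := lt_of_lt_of_le (by positivity) hY1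
  have htv : t ^ 2 * (1 / t ^ 2) = 1 := by field_simp
  set m : ℕ := ⌈(105 / 100) * ((h 0).re / b) / D⌉₊ with hm
  have hm1 : (105 / 100) * ((h 0).re / b) ≤ m * D := by
    have := Nat.le_ceil ((105 / 100) * ((h 0).re / b) / D)
    rwa [div_le_iff₀ hDpos] at this
  have hm2 : m * D ≤ (105 / 100) * ((h 0).re / b) + D := by
    have h1 := (Nat.ceil_lt_add_one (a := (105 / 100) * ((h 0).re / b) / D) (by positivity)).le
    have h2 : (m : ℝ) * D ≤ ((105 / 100) * ((h 0).re / b) / D + 1) * D :=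
      mul_le_mul_of_nonneg_right h1 hDpos.le
    have h3 : ((105 / 100) * ((h 0).re / b) / D + 1) * D = (105 / 100) * ((h 0).re / b) + D := by
      field_simp
    linarith
  obtain ⟨r1, r2, r3, r4, r5, r6, r7, r8, r9, r10⟩ := PAR1_core c C K (max 1 C) (min 1 c) L D P B b
    (h 0).re (1 / t ^ 2) t R (Hn N) e m N Z hc hC hK hK1 (lt_min one_pos hc)
    (lt_of_lt_of_le one_pos (le_max_left _ _)) hL hD1 hD2 hP0 hBpos hb2 hbB hv0 hv1 hv2 hY1 hY2 ht
    htv he0 hPe hA.hN hA.hN' hRdef hH0 hHle hHge hm1 hm2 hg5 hg6 hF.g7 hg8 hF.g8' hF.g9 hg10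
  refine ⟨m, ?_, r9⟩
  have hy0 : 0 < (h 0).re / b := by positivity
  have hkap0 : 0 ≤ C * (1 + R ^ 2 * t ^ 4) := by positivity
  have hreb : ∀ w : ℂ, ‖w‖ ≤ R → |(h w).re - (h 0).re - t * w.re| ≤
      C * (1 + R ^ 2 * t ^ 4) := by
    intro w hw
    refine (hA.hre w hw).trans ?_
    gcongr
  have hnorm : ∀ w : ℂ, ‖Complex.exp (h w / b)‖ = Real.exp ((h w).re / b) := by
    intro w
    rw [Complex.norm_exp, PAR2_re]
  refine ⟨hH1, hHR, by positivity, by positivity, hy0, ?_, ?_, ?_, ?_, ?_, ?_, hm1, r1, ?_, r8, ?_,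
    hD0, ?_, r3, r4, r5, r6⟩
  · -- hg
    have hdiff : DifferentiableOn ℂ (fun w => Complex.exp (h w / b)) (Metric.closedBall 0 R) := by
      intro w hw
      have h1 : DifferentiableAt ℂ h w := (hA.hh w hw).differentiableAt
      exact ((h1.div_const (b : ℂ)).cexp).differentiableWithinAt
    apply DifferentiableOn.diffContOnCl
    rwa [closure_ball _ hR0.ne']
  · -- hup
    intro w hw
    rw [hnorm]
    apply Real.exp_le_exp.mpr
    have := (abs_le.mp (hreb w hw)).2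
    have e : (h 0).re / b + t / b * w.re + C * (1 + R ^ 2 * t ^ 4) / b =
        ((h 0).re + t * w.re + C * (1 + R ^ 2 * t ^ 4)) / b := by ring
    rw [e]
    gcongr
    linarith
  · -- hlo
    intro w hw
    rw [hnorm]
    apply Real.exp_le_exp.mpr
    have := (abs_le.mp (hreb w hw)).1
    have e : (h 0).re / b + t / b * w.re - C * (1 + R ^ 2 * t ^ 4) / b =
        ((h 0).re + t * w.re - C * (1 + R ^ 2 * t ^ 4)) / b := by ring
    rw [e]
    gcongr
    linarith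
  · -- hS
    intro x hx
    exact_mod_cast (hS x hx).1
  · -- hE
    intro x hx
    obtain ⟨hx1, hx2, hx3⟩ := hS x hx
    have hxH : (x : ℝ) ≤ Hn N := by exact_mod_cast hx1
    have hxR : (x : ℝ) ≤ K * N / Real.log N := hxH.trans hHR.le
    have him := hA.him x (Nat.cast_nonneg x) hxR
    have hpl := hA.hpl x hxR hx2
    rw [hx3] at hpl
    have hxc : ((x : ℝ) : ℂ) = (x : ℂ) := by push_cast; rfl
    rw [hxc] at him
    set hr := (h (x : ℂ)).re with hrdef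
    have hh : h (x : ℂ) = (hr : ℂ) := by
      apply Complex.ext
      · simp [hrdef]
      · simpa using him
    have hg : Complex.exp (h (x : ℂ) / b) = ((Real.exp (hr / b) : ℝ) : ℂ) := by
      rw [hh]
      push_cast
      rfl
    have hgoal : ‖(((a x : ℤ) : ℤ) : ℂ) - Complex.exp (h (x : ℂ) / b)‖ =
        |(a x : ℝ) - Real.exp (hr / b)| := by
      rw [hg]
      have : ((((a x : ℕ) : ℤ) : ℤ) : ℂ) - ((Real.exp (hr / b) : ℝ) : ℂ) =
          (((a x : ℝ) - Real.exp (hr / b) : ℝ) : ℂ) := by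
        push_cast
        rfl
      rw [this, Complex.norm_real, Real.norm_eq_abs]
    rw [hgoal]
    set G := Real.exp (hr / b) with hG
    have hG0 : 0 < G := Real.exp_pos _
    have hGb : G ^ b = Real.exp hr := by
      rw [hG, ← Real.exp_nat_mul]
      congr 1
      field_simp
    have hu0 : 0 ≤ (a x : ℝ) / G := by positivity
    have hroot := PAR2_root ((a x : ℝ) / G) hu0 b hbn
    have hrel : |((a x : ℝ) / G) ^ b - 1| ≤ Real.exp (-(57 / 100) * (h 0).re) := by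
      have e3 : ((a x : ℝ) / G) ^ b - 1 = ((a x : ℝ) ^ b - G ^ b) / G ^ b := by
        rw [div_pow]
        field_simp
      rw [e3, abs_div, abs_of_pos (by positivity : 0 < G ^ b), div_le_iff₀ (by positivity), hGb]
      push_cast at hpl
      exact hpl
    have hab : |(a x : ℝ) - G| ≤ Real.exp (-(57 / 100) * (h 0).re) * G := by
      have e4 : (a x : ℝ) - G = ((a x : ℝ) / G - 1) * G := by field_simp
      rw [e4, abs_mul, abs_of_pos hG0]
      gcongr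
      exact hroot.trans hrel
    refine hab.trans ?_
    rw [hG, ← Real.exp_add]
    apply Real.exp_le_exp.mpr
    have hxn : ‖(x : ℂ)‖ ≤ R := by
      rw [Complex.norm_natCast]
      exact hxR
    have h8 := (abs_le.mp (hreb (x : ℂ) hxn)).2
    have h9 : ((x : ℂ)).re = (x : ℝ) := by simp
    rw [h9] at h8
    have h10 : hr ≤ (h 0).re + t * Hn N + C * (1 + R ^ 2 * t ^ 4) := by
      have : t * (x : ℝ) ≤ t * Hn N := by gcongr
      linarith
    have h11 : hr / b ≤ ((h 0).re + t * Hn N + C * (1 + R ^ 2 * t ^ 4)) / b := by gcongr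
    have h12 : -((57 / 100) * (b : ℝ) - 1) * ((h 0).re / b) + (t / b) * Hn N +
        C * (1 + R ^ 2 * t ^ 4) / b = -(57 / 100) * (h 0).re +
        ((h 0).re + t * Hn N + C * (1 + R ^ 2 * t ^ 4)) / b := by
      field_simp
      ring
    rw [h12]
    linarith
  · -- hE1
    apply Real.exp_le_exp.mpr
    have f1 : t / b * Hn N ≤ t / b * R := mul_le_mul_of_nonneg_left hHR.le (by positivity)
    have f2 : (14 / 100) * ((h 0).re / b) ≤ ((57 / 100) * b - 1) * ((h 0).re / b) :=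
      mul_le_mul_of_nonneg_right (by linarith) hy0.le
    have f3 : (m : ℝ) / 10 ^ 5 ≤ ((h 0).re / b) / 10 ^ 5 :=
      div_le_div_of_nonneg_right r10 (by norm_num)
    linarith
  · -- h2
    have hm0 : (0 : ℝ) < m := by linarith
    have h1 : 11 * (Hn N : ℝ) / m ≤ Z := by
      rw [div_le_iff₀ hm0]
      linarith
    have h2 : Real.log (11 * (Hn N : ℝ) / m) ≤ Real.log Z :=
      Real.log_le_log (by positivity) h1
    rw [hlZ] at h2
    refine h2.trans ?_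
    linarith
  · -- h3
    linarith
  · -- h5
    exact_mod_cast r2

/-- The count for small exponents, from the counting theorem `gt1`. -/
theorem PAR1_count_small
    (hgt1 : ∀ (S : Finset ℕ) (H R lam kap y E : ℝ) (m : ℕ) (g : ℂ → ℂ) (a : ℕ → ℤ),
      G1 S H R lam kap y E m g a → (S.card : ℝ) ≤ (107 / 100) * m)
    (c C : ℝ) (hc : 0 < c) (hC : 0 < C) : ∃ K1 : ℝ, ∀ K : ℝ, K1 ≤ K →
    ∃ (C2 : ℝ) (N0 : ℕ), ∀ N r : ℕ, N0 ≤ N → ∀ (t : ℝ) (h : ℂ → ℂ), AD c C K N r t h →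
      ∀ b : ℕ, 2 ≤ b → (b : ℝ) ≤ (N : ℝ) ^ ((1 : ℝ) / 10 ^ 10) →
        (Set.ncard {x : ℕ | x ≤ Hn N ∧ (N + x) % 2 = r ∧ ∃ a : ℕ, pl (N + x) = a ^ b} : ℝ) ≤
          C2 * (N : ℝ) ^ ((2 : ℝ) / 3) / (b * Real.log N) := by
  refine ⟨max 1 (10 ^ 9 * C / c), fun K hKK => ?_⟩
  have hK : 1 ≤ K := (le_max_left _ _).trans hKK
  have hK1 : 10 ^ 9 * C / c ≤ K := (le_max_right _ _).trans hKK
  obtain ⟨N0, hN0⟩ := Filter.eventually_atTop.mp
    (PAR1_event c C K (min 1 c) (max 1 C) hc)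
  refine ⟨4 * C / (min 1 c) ^ 2, N0, fun N r hN t h hA b hb hb2 => ?_⟩
  have hfin : {x : ℕ | x ≤ Hn N ∧ (N + x) % 2 = r ∧ ∃ a : ℕ, pl (N + x) = a ^ b}.Finite :=
    (Set.finite_Iic (Hn N)).subset fun x hx => hx.1
  classical
  let a : ℕ → ℕ := fun x => if hx : ∃ a : ℕ, pl (N + x) = a ^ b then hx.choose else 0
  obtain ⟨m, hG, hm⟩ := PAR1_G1 c C K hc hC hK hK1 N (hN0 N hN) r t h hA b hb hb2
    hfin.toFinset a (by
      intro x hx
      rw [Set.Finite.mem_toFinset] at hx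
      obtain ⟨hx1, hx2, hx3⟩ := hx
      refine ⟨hx1, hx2, ?_⟩
      simp only [a, dif_pos hx3]
      exact hx3.choose_spec)
  have hcard := hgt1 _ _ _ _ _ _ _ _ _ _ hG
  rw [Set.ncard_eq_toFinset_card _ hfin]
  exact hcard.trans hm

end Pool.Agent.MP7629b0
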