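import Pool.Agent.Lib.MP_7629b0_nt.GT1
import Pool.Agent.Lib.MP_7629b0_nt.PAR1

/-!
# PPP (MP_7629b0_nt): `count_small` from PAR1 and GT1
-/

namespace Pool.Agent.MP7629b0

open Complex

theorem count_small (c C : ℝ) (hc : 0 < c) (hC : 0 < C) : ∃ K1 : ℝ, ∀ K : ℝ, K1 ≤ K →
    ∃ (C2 : ℝ) (N0 : ℕ), ∀ N r : ℕ, N0 ≤ N → ∀ (t : ℝ) (h : ℂ → ℂ), AD c C K N r t h →
      ∀ b : ℕ, 2 ≤ b → (b : ℝ) ≤ (N : ℝ) ^ ((1 : ℝ) / 10 ^ 10) →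
        (Set.ncard {x : ℕ | x ≤ Hn N ∧ (N + x) % 2 = r ∧ ∃ a : ℕ, pl (N + x) = a ^ b} : ℝ) ≤
          C2 * (N : ℝ) ^ ((2 : ℝ) / 3) / (b * Real.log N) :=
  PAR1_count_small gt1 c C hc hC

end Pool.Agent.MP7629b0
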