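import Mathlib

/-!
# MP_7629b0_nt: plane partition numbers are almost never perfect powers.  Definitions.
-/

namespace Pool.Agent.MP7629b0

open Complex

/-- The power series `(1 - X^k)⁻¹ = ∑ X^{k j}` (for `k ≥ 1`). -/
noncomputable def geo (k : ℕ) : PowerSeries ℕ :=
  PowerSeries.mk fun m => if k ∣ m then 1 else 0

/-- The number of plane partitions of `n`, by MacMahon's generating function:
the coefficient of `X^n` in `∏_{k ≥ 1} (1 - X^k)^{-k}` (factors with `k > n` do not matter). -/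
noncomputable def pl (n : ℕ) : ℕ :=
  PowerSeries.coeff n (∏ k ∈ Finset.Icc 1 n, geo k ^ k)

/-- `c_n = σ₂(n)/n`, the coefficients of the logarithm of the generating function. -/
noncomputable def cc (n : ℕ) : ℝ := (∑ d ∈ n.divisors, (d : ℝ) ^ 2) / n

/-- `S j s = ∑ c_n n^j e^{-n s}`. -/
noncomputable def SS (j : ℕ) (s : ℝ) : ℝ := ∑' n : ℕ, cc n * (n : ℝ) ^ j * Real.exp (-(n * s))

/-- `LC j t = ∑ c_n n^j e^{-n t}`; `LC 0` is the logarithm of `∏ (1 - e^{-k t})^{-k}`,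
and `LC 1 = -(LC 0)'` etc. -/
noncomputable def LC (j : ℕ) (t : ℂ) : ℂ :=
  ∑' n : ℕ, (cc n : ℂ) * (n : ℂ) ^ j * Complex.exp (-(n * t))

/-- `F_r(t) = F(e^{-t}) + (-1)^r F(-e^{-t})`. -/
noncomputable def Fr (r : ℕ) (t : ℂ) : ℂ :=
  Complex.exp (LC 0 t) + (-1) ^ r * Complex.exp (LC 0 (t + Real.pi * I))

/-- the interpolating entire function: central arc only (`t0` is the saddle point) -/
noncomputable def MM (r : ℕ) (t0 : ℝ) (z : ℂ) : ℂ :=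
  (1 / (2 * Real.pi)) * ∫ v in (-(100 * t0))..(100 * t0),
    Fr r ((t0 / 2 : ℝ) + v * I) * Complex.exp (z * ((t0 / 2 : ℝ) + v * I))

/-- the polynomial `∑_{j<J} q_j binom(w, j)` -/
noncomputable def binPoly {J : ℕ} (q : Fin J → ℤ) : Polynomial ℂ :=
  ∑ j : Fin J, Polynomial.C (((q j : ℤ) : ℂ) / (Nat.factorial (j : ℕ) : ℂ)) *
    (descPochhammer ℂ (j : ℕ))

/-- Hypotheses of the counting theorem for small exponents (`D = log (R/H)`). -/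
structure G1 (S : Finset ℕ) (H R lam kap y E : ℝ) (m : ℕ) (g : ℂ → ℂ) (a : ℕ → ℤ) : Prop where
  hH : 1 ≤ H
  hR : H < R
  hlam : 0 < lam
  hkap : 0 ≤ kap
  hy : 0 < y
  hg : DiffContOnCl ℂ g (Metric.ball 0 R)
  hup : ∀ w : ℂ, ‖w‖ ≤ R → ‖g w‖ ≤ Real.exp (y + lam * w.re + kap)
  hlo : ∀ w : ℂ, ‖w‖ ≤ R → Real.exp (y + lam * w.re - kap) ≤ ‖g w‖
  hS : ∀ x ∈ S, (x : ℝ) ≤ H
  hE : ∀ x ∈ S, ‖((a x : ℤ) : ℂ) - g x‖ ≤ E
  hE1 : E ≤ Real.exp (-(13 / 100) * y)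
  h1 : (105 / 100) * y ≤ m * Real.log (R / H)
  h1' : m * Real.log (R / H) ≤ (1051 / 1000) * y
  h2 : Real.log (11 * H / m) ≤ (1 / 10 ^ 9) * Real.log (R / H)
  h2' : (m : ℝ) ≤ H
  h3 : Real.log (2 * R) ≤ 4 * Real.log (R / H)
  h4 : 10 ^ 6 ≤ Real.log (R / H)
  h5 : 10 ^ 8 ≤ m
  h6 : kap ≤ m / 10 ^ 5
  h7 : lam * R ≤ y / 10 ^ 4
  h8 : (11 / 10) * m ≤ lam * R / 2
  h9 : 2 * lam * H ≤ m

/-- Hypotheses of the counting theorem for large exponents. -/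
structure G2 (S : Finset ℕ) (H R lam kap y E : ℝ) (g : ℂ → ℂ) (a : ℕ → ℤ) : Prop where
  hH : 1 ≤ H
  hR : H < R
  hlam : 0 < lam
  hkap : 0 ≤ kap
  hy : 0 < y
  hg : DiffContOnCl ℂ g (Metric.ball 0 R)
  hup : ∀ w : ℂ, ‖w‖ ≤ R → ‖g w‖ ≤ Real.exp (y + lam * w.re + kap)
  hlo : ∀ w : ℂ, ‖w‖ ≤ R → Real.exp (y + lam * w.re - kap) ≤ ‖g w‖
  hS : ∀ x ∈ S, (x : ℝ) ≤ H
  hE : ∀ x ∈ S, ‖((a x : ℤ) : ℂ) - g x‖ ≤ E
  hE1 : E ≤ Real.exp (-(100 * (lam * R * Real.log (R / H) + y)))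
  k1 : 10 ^ 4 ≤ Real.log (R / H)
  k2 : Real.log (2 * H) ≤ (22 / 10) * Real.log (R / H)
  k3 : Real.log (2 * R) ≤ (32 / 10) * Real.log (R / H)
  k4 : Real.log (R / H) / 4 ≤ y
  k5 : kap ≤ lam * R / 10 ^ 7
  k6 : 10 ^ 8 * y ≤ lam * R * Real.log (R / H)
  k7 : lam * R ≤ y / 100

/-- The analytic data for the window starting at `N` and the residue class `r` modulo 2. -/
structure AD (c C K : ℝ) (N r : ℕ) (t : ℝ) (h : ℂ → ℂ) : Prop where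
  ht : 0 < t
  hN : c ≤ N * t ^ 3
  hN' : N * t ^ 3 ≤ C
  hh : AnalyticOnNhd ℂ h (Metric.closedBall 0 (K * N / Real.log N))
  him : ∀ x : ℝ, 0 ≤ x → x ≤ K * N / Real.log N → (h x).im = 0
  h0 : c / t ^ 2 ≤ (h 0).re
  h0' : (h 0).re ≤ C / t ^ 2
  hre : ∀ w : ℂ, ‖w‖ ≤ K * N / Real.log N →
    |(h w).re - (h 0).re - t * w.re| ≤ C * (1 + ‖w‖ ^ 2 * t ^ 4)
  hpl : ∀ x : ℕ, (x : ℝ) ≤ K * N / Real.log N → (N + x) % 2 = r →
    |(pl (N + x) : ℝ) - Real.exp (h x).re| ≤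
      Real.exp (-(57 / 100) * (h 0).re) * Real.exp (h x).re

/-- the length of the window -/
noncomputable def Hn (N : ℕ) : ℕ := ⌊(N : ℝ) ^ ((2 : ℝ) / 3 + 1 / 10 ^ 10)⌋₊

end Pool.Agent.MP7629b0
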