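import Mathlib

/-!
# Weighted pigeonhole principle for the pair `(P, Q)`
-/

namespace Pool.Agent.MP7629b0

theorem PIG_poly (m : ℕ) (p : Fin m → ℤ) (x : Fin m → ℕ) (hx : Function.Injective x)
    (h : ∀ l, ∑ i : Fin m, p i * ((x l).choose (i : ℕ) : ℤ) = 0) : p = 0 := by
  classical
  set P : Polynomial ℚ := ∑ i : Fin m, Polynomial.C ((p i : ℚ) / (Nat.factorial (i : ℕ) : ℚ)) *
    descPochhammer ℚ (i : ℕ) with hP
  have heval : ∀ n : ℕ,
      P.eval (n : ℚ) = ((∑ i : Fin m, p i * (n.choose (i : ℕ) : ℤ) : ℤ) : ℚ) := by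
    intro n
    rw [hP, Polynomial.eval_finsetSum]
    push_cast
    refine Finset.sum_congr rfl fun i _ => ?_
    rw [Polynomial.eval_mul, Polynomial.eval_C, descPochhammer_eval_eq_descFactorial,
      Nat.descFactorial_eq_factorial_mul_choose]
    have hf : (Nat.factorial (i : ℕ) : ℚ) ≠ 0 := by
      exact_mod_cast Nat.factorial_ne_zero _
    push_cast
    field_simp
  have hdeg : P.degree < ((Finset.univ : Finset (Fin m)).card : WithBot ℕ) := by
    rw [Finset.card_univ, Fintype.card_fin, ← Polynomial.mem_degreeLT, hP]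
    refine Submodule.sum_mem _ fun i _ => ?_
    rw [Polynomial.mem_degreeLT]
    refine lt_of_le_of_lt Polynomial.degree_le_natDegree ?_
    have h1 := Polynomial.natDegree_C_mul_le ((p i : ℚ) / (Nat.factorial (i : ℕ) : ℚ))
      (descPochhammer ℚ (i : ℕ))
    rw [descPochhammer_natDegree] at h1
    exact_mod_cast lt_of_le_of_lt h1 i.2
  have hP0 : P = 0 := by
    refine Polynomial.eq_zero_of_degree_lt_of_eval_index_eq_zero
      (v := fun l : Fin m => ((x l : ℕ) : ℚ)) (Finset.univ : Finset (Fin m)) ?_ hdeg ?_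
    · intro l _ l' _ hl
      have h1 : ((x l : ℕ) : ℚ) = ((x l' : ℕ) : ℚ) := hl
      exact hx (by exact_mod_cast h1)
    · intro l _
      rw [heval, h l]
      simp
  have hall : ∀ n : ℕ, ∑ i : Fin m, p i * (n.choose (i : ℕ) : ℤ) = 0 := by
    intro n
    have h1 := heval n
    rw [hP0, Polynomial.eval_zero] at h1
    exact_mod_cast h1.symm
  have hind : ∀ n : ℕ, ∀ i : Fin m, (i : ℕ) = n → p i = 0 := by
    intro n
    induction n using Nat.strong_induction_on with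
    | _ n ih =>
      intro i hi
      have h1 := hall (i : ℕ)
      rw [Finset.sum_eq_single i] at h1
      · simpa using h1
      · intro j _ hj
        rcases lt_trichotomy (j : ℕ) (i : ℕ) with h2 | h2 | h2
        · rw [ih j (by omega) j rfl, zero_mul]
        · exact absurd (Fin.ext h2) hj
        · rw [Nat.choose_eq_zero_of_lt h2]
          simp
      · intro h2
        exact absurd (Finset.mem_univ _) h2
  funext i
  exact hind _ i rfl

theorem PIG_bound {n k : ℕ} (c : Fin n → ℕ) (W B : ℕ) (b : Fin n → ℕ) (hc : ∀ i, c i ≤ W)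
    (hb : ∀ i, b i ≤ B) (hk : n ≤ k) :
    |∑ i : Fin n, ((c i : ℕ) : ℤ) * ((b i : ℕ) : ℤ)| ≤ (k * (W * B) : ℕ) := by
  refine (Finset.abs_sum_le_sum_abs _ _).trans ?_
  calc ∑ i : Fin n, |((c i : ℕ) : ℤ) * ((b i : ℕ) : ℤ)|
      ≤ ∑ _i : Fin n, ((W * B : ℕ) : ℤ) := by
        refine Finset.sum_le_sum fun i _ => ?_
        rw [abs_of_nonneg (by positivity)]
        exact_mod_cast Nat.mul_le_mul (hc i) (hb i)
    _ = ((n * (W * B) : ℕ) : ℤ) := by
        rw [Finset.sum_const, Finset.card_univ, Fintype.card_fin, nsmul_eq_mul]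
        push_cast
        ring
    _ ≤ _ := by exact_mod_cast Nat.mul_le_mul_right _ hk

theorem pig (m J X Y β : ℕ) (hm : 1 ≤ m) (hJ : 1 ≤ J) (hX : 1 ≤ X) (hY : 1 ≤ Y) (hβ : 1 ≤ β)
    (x : Fin m → ℕ) (hx : Function.Injective x) (a : Fin m → ℤ) (ha : ∀ l, |a l| ≤ Y)
    (hb : ∀ l, ∀ i : ℕ, i < max m J → (x l).choose i ≤ β)
    (hcard : (3 * (m + J) * β) ^ m ≤ X ^ J) :
    ∃ (p : Fin m → ℤ) (q : Fin J → ℤ), q ≠ 0 ∧ (∀ j, |q j| ≤ X) ∧
      ∀ l, (∑ i : Fin m, p i * ((x l).choose (i : ℕ) : ℤ)) +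
        (∑ j : Fin J, q j * ((x l).choose (j : ℕ) : ℤ)) * a l = 0 := by
  classical
  set V : ℕ := (m + J) * (X * Y * β) with hV
  set φ : (Fin m → Fin (X * Y + 1)) × (Fin J → Fin (X + 1)) → (Fin m → ℤ) := fun d l =>
    (∑ i : Fin m, ((d.1 i : ℕ) : ℤ) * ((x l).choose (i : ℕ) : ℤ)) +
      (∑ j : Fin J, ((d.2 j : ℕ) : ℤ) * ((x l).choose (j : ℕ) : ℤ)) * a l with hφ
  have hmaps : ∀ d ∈ (Finset.univ : Finset ((Fin m → Fin (X * Y + 1)) × (Fin J → Fin (X + 1)))),
      φ d ∈ Fintype.piFinset fun _ : Fin m => Finset.Icc (-(V : ℤ)) V := by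
    intro d _
    rw [Fintype.mem_piFinset]
    intro l
    rw [Finset.mem_Icc, ← abs_le]
    have h1 := PIG_bound (k := m) (fun i : Fin m => (d.1 i : ℕ)) (X * Y) β
      (fun i : Fin m => (x l).choose (i : ℕ)) (fun i => Nat.lt_succ_iff.1 (d.1 i).2)
      (fun i => hb l i (lt_of_lt_of_le i.2 (le_max_left _ _))) le_rfl
    have h2 := PIG_bound (k := J) (fun j : Fin J => (d.2 j : ℕ)) X β
      (fun j : Fin J => (x l).choose (j : ℕ)) (fun j => Nat.lt_succ_iff.1 (d.2 j).2)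
      (fun j => hb l j (lt_of_lt_of_le j.2 (le_max_right _ _))) le_rfl
    have h3 : |(∑ j : Fin J, ((d.2 j : ℕ) : ℤ) * ((x l).choose (j : ℕ) : ℤ)) * a l| ≤
        ((J * (X * β) : ℕ) : ℤ) * Y := by
      rw [abs_mul]
      exact mul_le_mul h2 (ha l) (abs_nonneg _) (by positivity)
    calc |φ d l| ≤ |∑ i : Fin m, ((d.1 i : ℕ) : ℤ) * ((x l).choose (i : ℕ) : ℤ)| +
          |(∑ j : Fin J, ((d.2 j : ℕ) : ℤ) * ((x l).choose (j : ℕ) : ℤ)) * a l| := abs_add_le _ _
      _ ≤ ((m * (X * Y * β) : ℕ) : ℤ) + ((J * (X * β) : ℕ) : ℤ) * Y := add_le_add h1 h3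
      _ = (V : ℤ) := by
        rw [hV]
        push_cast
        ring
  have hcardlt : (Fintype.piFinset fun _ : Fin m => Finset.Icc (-(V : ℤ)) V).card <
      (Finset.univ : Finset ((Fin m → Fin (X * Y + 1)) × (Fin J → Fin (X + 1)))).card := by
    rw [Fintype.card_piFinset_const, Int.card_Icc, Finset.card_univ, Fintype.card_prod,
      Fintype.card_pi, Fintype.card_pi]
    simp only [Fintype.card_fin, Finset.prod_const, Finset.card_univ]
    have e1 : ((V : ℤ) + 1 - -(V : ℤ)).toNat = 2 * V + 1 := by omega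
    rw [e1]
    have hV1 : 1 ≤ V := by
      rw [hV]
      exact Nat.succ_le_of_lt (by positivity)
    calc (2 * V + 1) ^ m ≤ (3 * V) ^ m := Nat.pow_le_pow_left (by omega) _
      _ = (3 * (m + J) * β) ^ m * (X * Y) ^ m := by
        rw [← mul_pow, hV]
        congr 1
        ring
      _ ≤ X ^ J * (X * Y) ^ m := Nat.mul_le_mul_right _ hcard
      _ < (X + 1) ^ J * (X * Y) ^ m := by
        refine Nat.mul_lt_mul_of_pos_right ?_ (by positivity)
        exact Nat.pow_lt_pow_left (Nat.lt_succ_self _) (by omega)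
      _ ≤ (X + 1) ^ J * (X * Y + 1) ^ m := by
        refine Nat.mul_le_mul_left _ (Nat.pow_le_pow_left (Nat.le_succ _) _)
      _ = (X * Y + 1) ^ m * (X + 1) ^ J := mul_comm _ _
  obtain ⟨d, _, d', _, hne, heq⟩ :=
    Finset.exists_ne_map_eq_of_card_lt_of_maps_to hcardlt hmaps
  have hrel : ∀ l, (∑ i : Fin m, (((d.1 i : ℕ) : ℤ) - ((d'.1 i : ℕ) : ℤ)) *
        ((x l).choose (i : ℕ) : ℤ)) +
      (∑ j : Fin J, (((d.2 j : ℕ) : ℤ) - ((d'.2 j : ℕ) : ℤ)) *
        ((x l).choose (j : ℕ) : ℤ)) * a l = 0 := by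
    intro l
    have h1 := congrFun heq l
    simp only [hφ] at h1
    simp only [sub_mul, Finset.sum_sub_distrib]
    linear_combination h1
  refine ⟨fun i => ((d.1 i : ℕ) : ℤ) - ((d'.1 i : ℕ) : ℤ),
    fun j => ((d.2 j : ℕ) : ℤ) - ((d'.2 j : ℕ) : ℤ), ?_, ?_, hrel⟩
  · intro hq
    apply hne
    have hq' : ∀ j, ((d.2 j : ℕ) : ℤ) - ((d'.2 j : ℕ) : ℤ) = 0 := fun j => congrFun hq j
    have hp := PIG_poly m (fun i => ((d.1 i : ℕ) : ℤ) - ((d'.1 i : ℕ) : ℤ)) x hx (by
      intro l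
      have h1 := hrel l
      simp only [hq', zero_mul, Finset.sum_const_zero, add_zero] at h1
      exact h1)
    have hp' : ∀ i, ((d.1 i : ℕ) : ℤ) - ((d'.1 i : ℕ) : ℤ) = 0 := fun i => congrFun hp i
    refine Prod.ext ?_ ?_
    · funext i
      have := hp' i
      exact Fin.ext (by omega)
    · funext j
      have := hq' j
      exact Fin.ext (by omega)
  · intro j
    have h1 := (d.2 j).2
    have h2 := (d'.2 j).2
    show |((d.2 j : ℕ) : ℤ) - ((d'.2 j : ℕ) : ℤ)| ≤ X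
    rw [abs_le]
    constructor <;> omega

end Pool.Agent.MP7629b0
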