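import Pool.Agent.Lib.MP_7629b0_nt.Defs
import Pool.Agent.Lib.MP_7629b0_nt.PIG
import Pool.Agent.Lib.MP_7629b0_nt.BP
import Pool.Agent.Lib.MP_7629b0_nt.NEWT
import Pool.Agent.Lib.MP_7629b0_nt.NODE

/-!
MP_7629b0_nt, module EXT1: the auxiliary relation holds at all points (small exponents).
-/

namespace Pool.Agent.MP7629b0

open Complex

/-- `Z^m/m! ≤ (e Z/m)^m` -/
theorem ext1_fac (m : ℕ) (hm : 1 ≤ m) (Z : ℝ) (hZ : 0 < Z) :
    Z ^ m / (m.factorial : ℝ) ≤ Real.exp (m * (1 + Real.log (Z / m))) := by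
  have hM : (0 : ℝ) < m := by exact_mod_cast hm
  have h1 := Real.pow_div_factorial_le_exp (m : ℝ) hM.le m
  have h2 : Real.exp (m * (1 + Real.log (Z / m))) = Real.exp m * (Z / m) ^ m := by
    rw [mul_add, mul_one, Real.exp_add, ← Real.log_pow, Real.exp_log (by positivity)]
  rw [h2]
  calc Z ^ m / (m.factorial : ℝ) = ((m : ℝ) ^ m / (m.factorial : ℝ)) * (Z / m) ^ m := by
        rw [div_pow]
        field_simp
    _ ≤ Real.exp m * (Z / m) ^ m := by gcongr

/-- `H^i/i!` increases up to `i ≤ H` -/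
theorem ext1_mono (m : ℕ) (H : ℝ) (hH : (m : ℝ) ≤ H) (i : ℕ) (hi : i ≤ m) :
    H ^ i / (i.factorial : ℝ) ≤ H ^ m / (m.factorial : ℝ) := by
  induction m, hi using Nat.le_induction with
  | base => exact le_rfl
  | succ n hn ih =>
    have hH' : (n : ℝ) + 1 ≤ H := by push_cast at hH; exact hH
    refine (ih (by linarith)).trans ?_
    rw [Nat.factorial_succ]
    push_cast
    have hn0 : (0 : ℝ) ≤ n := Nat.cast_nonneg n
    rw [div_le_div_iff₀ (by positivity) (by positivity), pow_succ]
    have h1 : 0 ≤ H ^ n * (n.factorial : ℝ) := by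
      have : 0 ≤ H := by linarith
      positivity
    nlinarith

theorem ext1_choose (m : ℕ) (H : ℝ) (hm : 1 ≤ m) (hH : (m : ℝ) ≤ H) (x : ℕ) (hx : (x : ℝ) ≤ H)
    (i : ℕ) (hi : i ≤ m) :
    ((x.choose i : ℕ) : ℝ) ≤ Real.exp (m * (1 + Real.log (H / m))) := by
  have hM : (1 : ℝ) ≤ m := by exact_mod_cast hm
  calc ((x.choose i : ℕ) : ℝ) ≤ (x : ℝ) ^ i / (i.factorial : ℝ) := Nat.choose_le_pow_div i x
    _ ≤ H ^ i / (i.factorial : ℝ) := by gcongr
    _ ≤ H ^ m / (m.factorial : ℝ) := ext1_mono m H hH i hi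
    _ ≤ _ := ext1_fac m hm H (by linarith)

theorem ext1_log12 (M : ℝ) (hM : 10 ^ 8 ≤ M) : Real.log (12 * M) ≤ 31 / 10 ^ 8 * M := by
  have h0 : (0 : ℝ) < M := by linarith [show (0 : ℝ) < 10 ^ 8 by norm_num]
  have h1 : 12 * M = (12 * 10 ^ 8) * (M / 10 ^ 8) := by ring
  rw [h1, Real.log_mul (by norm_num) (by positivity)]
  have h2 : Real.log (12 * 10 ^ 8) ≤ 31 := by
    rw [Real.log_le_iff_le_exp (by norm_num)]
    have h3 : Real.exp 31 = Real.exp 1 ^ 31 := by rw [← Real.exp_nat_mul]; norm_num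
    rw [h3]
    have h4 : (2 : ℝ) ≤ Real.exp 1 := by linarith [Real.exp_one_gt_d9]
    calc (12 * 10 ^ 8 : ℝ) ≤ 2 ^ 31 := by norm_num
      _ ≤ _ := by gcongr
  have h5 := Real.log_le_sub_one_of_pos (show (0 : ℝ) < M / 10 ^ 8 by positivity)
  have h6 : (1 : ℝ) ≤ M / 10 ^ 8 := by
    rw [le_div_iff₀ (by norm_num)]
    linarith
  have h7 : 31 / 10 ^ 8 * M = 31 * (M / 10 ^ 8) := by ring
  rw [h7]
  calc Real.log (12 * 10 ^ 8) + Real.log (M / 10 ^ 8) ≤ 31 + (M / 10 ^ 8 - 1) := add_le_add h2 h5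
    _ ≤ 31 * (M / 10 ^ 8) := by linarith

/-- elements of `S` -/
theorem ext1_enum (S : Finset ℕ) (m : ℕ) (h : m ≤ S.card) :
    ∃ x : Fin m → ℕ, Function.Injective x ∧ ∀ l, x l ∈ S := by
  obtain ⟨T, hT, hc⟩ := Finset.exists_subset_card_eq h
  exact ⟨T.orderEmbOfFin hc, (T.orderEmbOfFin hc).injective,
    fun l => hT (Finset.orderEmbOfFin_mem T hc l)⟩

/-- the numerical facts -/
structure Ext1Num (H R lam kap y D M κ : ℝ) : Prop where
  H1 : 1 ≤ H
  HR : H < R
  y1 : 9 * 10 ^ 13 ≤ y
  M1 : 10 ^ 8 ≤ M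
  D1 : 10 ^ 6 ≤ D
  My : M ≤ 1051 / 10 ^ 9 * y
  a1 : 105 / 100 * y ≤ M * D
  a2 : M * D ≤ 1051 / 1000 * y
  MH : M ≤ H
  k1 : 1 + Real.log 4 + Real.log (H / M) ≤ κ
  k2 : M * κ ≤ 1 / 10 ^ 8 * y
  k0 : 1 ≤ 1 + Real.log (H / M)
  R2 : Real.log (2 * R) ≤ 4 * D
  RH : Real.log R = Real.log H + D
  HR4 : 4 * H ≤ R
  g1 : lam * R ≤ y / 10 ^ 4
  g2 : kap ≤ M / 10 ^ 5

theorem ext1_num (S : Finset ℕ) (H R lam kap y E : ℝ) (m : ℕ) (g : ℂ → ℂ) (a : ℕ → ℤ)
    (h : G1 S H R lam kap y E m g a) :
    Ext1Num H R lam kap y (Real.log (R / H)) m (Real.log (11 * H / m)) := by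
  have hH := h.hH
  have hR := h.hR
  have hH0 : 0 < H := by linarith
  have hR0 : 0 < R := by linarith
  have hM : (10 : ℝ) ^ 8 ≤ m := by exact_mod_cast h.h5
  have hM0 : (0 : ℝ) < m := lt_of_lt_of_le (by norm_num) hM
  set D := Real.log (R / H) with hD_def
  have hD := h.h4
  have ha2 := h.h1'
  have hMD : (m : ℝ) * 1000000 ≤ m * D := by
    norm_num at hD
    gcongr
  have hM' : (100000000 : ℝ) ≤ m := by exact_mod_cast (by simpa using h.h5)
  have hlog4 : 1 + Real.log 4 ≤ Real.log 11 := by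
    rw [Real.le_log_iff_exp_le (by norm_num), Real.exp_add, Real.exp_log (by norm_num)]
    linarith [Real.exp_one_lt_d9]
  have hHM : (1 : ℝ) ≤ H / m := by
    rw [le_div_iff₀ hM0]
    linarith [h.h2']
  have hlogHM : 0 ≤ Real.log (H / m) := Real.log_nonneg hHM
  have hκ : Real.log (11 * H / m) = Real.log 11 + Real.log (H / m) := by
    rw [mul_div_assoc, Real.log_mul (by norm_num) (by positivity)]
  have hRH : R = H * Real.exp D := by
    rw [hD_def, Real.exp_log (by positivity)]
    field_simp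
  refine ⟨hH, hR, ?_, hM, hD, ?_, h.h1, ha2, h.h2', ?_, ?_, ?_, h.h3, ?_, ?_, h.h7, h.h6⟩
  · rw [← hD_def] at ha2
    norm_num
    linarith
  · rw [← hD_def] at ha2
    norm_num
    linarith
  · rw [hκ]
    linarith
  · have h2 := h.h2
    calc (m : ℝ) * Real.log (11 * H / m) ≤ m * (1 / 10 ^ 9 * D) := by gcongr
      _ = 1 / 10 ^ 9 * (m * D) := by ring
      _ ≤ 1 / 10 ^ 9 * (1051 / 1000 * y) := by gcongr
      _ ≤ 1 / 10 ^ 8 * y := by
        have hy := h.hy
        nlinarith
  · linarith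
  · rw [hD_def, Real.log_div hR0.ne' hH0.ne']
    ring
  · rw [hRH]
    have h4 : (4 : ℝ) ≤ Real.exp D := by
      have := Real.add_one_le_exp D
      norm_num at hD
      linarith
    nlinarith

theorem ext1 (S : Finset ℕ) (H R lam kap y E : ℝ) (m : ℕ) (g : ℂ → ℂ) (a : ℕ → ℤ)
    (h : G1 S H R lam kap y E m g a) (hS : m ≤ S.card) :
    ∃ (J : ℕ) (q : Fin J → ℤ) (P : Polynomial ℂ), 1 ≤ J ∧ (J : ℝ) ≤ (501 / 10 ^ 8) * m ∧ q ≠ 0 ∧
      P.degree < (m : WithBot ℕ) ∧
      (∀ w : ℂ, ‖w‖ ≤ R → ‖(binPoly q).eval w‖ ≤ Real.exp (y / 2000)) ∧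
      (∀ x ∈ S, P.eval (x : ℂ) + (binPoly q).eval (x : ℂ) * (a x : ℤ) = 0) ∧
      (∀ w : ℂ, ‖w‖ ≤ R / 2 → ‖P.eval w + (binPoly q).eval w * g w‖ ≤
        Real.exp ((1 + 1 / 1000) * y)) := by
  have N := ext1_num S H R lam kap y E m g a h
  set D := Real.log (R / H) with hD_def
  set κ := Real.log (11 * H / m) with hκ_def
  set M : ℝ := (m : ℝ) with hM_def
  have hm1 : 1 ≤ m := by
    have := h.h5
    omega
  have hM0 : (0 : ℝ) < M := lt_of_lt_of_le (by norm_num) N.M1
  have hH0 : 0 < H := by linarith [N.H1]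
  have hR0 : 0 < R := by linarith [N.HR]
  have hy0 : 0 < y := h.hy
  have hD0 : 0 < D := lt_of_lt_of_le (by norm_num) N.D1
  have hl12 := ext1_log12 M N.M1
  have h12 : 12 * M ≤ Real.exp (31 / 10 ^ 8 * M) := by
    rw [← Real.log_le_iff_le_exp (by positivity)]
    exact hl12
  have hl4 : 0 ≤ Real.log 4 := Real.log_nonneg (by norm_num)
  set κ' : ℝ := 1 + Real.log (H / M) with hκ'_def
  have hκ' : κ' ≤ κ := by linarith [N.k1]
  have hκ'0 : 1 ≤ κ' := N.k0
  -- the number of unknowns
  obtain ⟨J, hJ_def⟩ : ∃ J : ℕ, J = ⌈M / 200000⌉₊ := ⟨_, rfl⟩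
  have hJlow : M / 200000 ≤ J := by rw [hJ_def]; exact Nat.le_ceil _
  have hJup : (J : ℝ) ≤ 501 / 10 ^ 8 * M := by
    have h1 : (J : ℝ) < M / 200000 + 1 := by
      rw [hJ_def]
      exact Nat.ceil_lt_add_one (by positivity)
    have := N.M1
    norm_num at this ⊢
    linarith
  have hJ1 : 1 ≤ J := by
    have : (0 : ℝ) < J := lt_of_lt_of_le (by positivity) hJlow
    exact_mod_cast this
  have hJ0 : (0 : ℝ) < J := by exact_mod_cast hJ1
  have hJm : (J : ℝ) ≤ M := by
    refine hJup.trans ?_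
    nlinarith
  have hJm' : J ≤ m := by
    have h1 : (J : ℝ) ≤ (m : ℝ) := hJm
    exact_mod_cast h1
  -- the bound for the binomial coefficients
  obtain ⟨β, hβ_def⟩ : ∃ β : ℕ, β = ⌈Real.exp (M * κ')⌉₊ := ⟨_, rfl⟩
  have hβlow : Real.exp (M * κ') ≤ β := by rw [hβ_def]; exact Nat.le_ceil _
  have hβup : (β : ℝ) ≤ 2 * Real.exp (M * κ') := by
    have h1 : (β : ℝ) < Real.exp (M * κ') + 1 := by
      rw [hβ_def]
      exact Nat.ceil_lt_add_one (Real.exp_pos _).le
    have h2 : 1 ≤ Real.exp (M * κ') := Real.one_le_exp (by positivity)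
    linarith
  have hβ1 : 1 ≤ β := by
    have : (0 : ℝ) < β := lt_of_lt_of_le (Real.exp_pos _) hβlow
    exact_mod_cast this
  -- the size of the coefficients
  obtain ⟨L, hL_def⟩ : ∃ L : ℝ, L = M / J * (Real.log (12 * M) + M * κ') := ⟨_, rfl⟩
  have hlog0 : 0 ≤ Real.log (12 * M) := Real.log_nonneg (by linarith [N.M1, show (1 : ℝ) ≤ 10 ^ 8 by norm_num])
  have hL0 : 0 ≤ L := by rw [hL_def]; positivity
  have hL : L ≤ 211 / 10 ^ 6 * y + 62 / 1000 * M := by
    have h1 : M / J ≤ 200000 := by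
      rw [div_le_iff₀ hJ0]
      rw [div_le_iff₀ (by norm_num)] at hJlow
      linarith
    have h2 : M * κ' ≤ M * (1 / 10 ^ 9 * D) := by
      have := h.h2
      gcongr
      linarith
    have h3 : M * (1 / 10 ^ 9 * D) ≤ 1051 / 10 ^ 12 * y := by
      have := N.a2
      nlinarith
    rw [hL_def]
    calc M / J * (Real.log (12 * M) + M * κ') ≤
          200000 * (31 / 10 ^ 8 * M + 1051 / 10 ^ 12 * y) := by
            apply mul_le_mul h1 _ (by positivity) (by norm_num)
            linarith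
      _ ≤ 211 / 10 ^ 6 * y + 62 / 1000 * M := by
            norm_num
            linarith
  obtain ⟨X, hX_def⟩ : ∃ X : ℕ, X = ⌈Real.exp L⌉₊ := ⟨_, rfl⟩
  have hXlow : Real.exp L ≤ X := by rw [hX_def]; exact Nat.le_ceil _
  have hXup : (X : ℝ) ≤ 2 * Real.exp L := by
    have h1 : (X : ℝ) < Real.exp L + 1 := by
      rw [hX_def]
      exact Nat.ceil_lt_add_one (Real.exp_pos _).le
    have h2 : 1 ≤ Real.exp L := Real.one_le_exp hL0
    linarith
  have hX1 : 1 ≤ X := by
    have : (0 : ℝ) < X := lt_of_lt_of_le (Real.exp_pos _) hXlow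
    exact_mod_cast this
  obtain ⟨x, hx, hxS⟩ := ext1_enum S m hS
  have hxH : ∀ l, (x l : ℝ) ≤ H := fun l => h.hS _ (hxS l)
  obtain ⟨p, q, hq, hqX, hpq⟩ := pig m J X ((∑ l, |a (x l)|).toNat + 1) β hm1 hJ1 hX1 (by omega) hβ1
    x hx (fun l => a (x l))
    (by
      intro l
      have h1 : |a (x l)| ≤ ∑ l, |a (x l)| :=
        Finset.single_le_sum (f := fun l => |a (x l)|) (fun l _ => abs_nonneg _)
          (Finset.mem_univ l)
      have h2 := Int.self_le_toNat (∑ l, |a (x l)|)
      push_cast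
      linarith)
    (by
      intro l i hi
      rw [max_eq_left hJm'] at hi
      have := ext1_choose m H hm1 N.MH (x l) (hxH l) i hi.le
      have h2 : (((x l).choose i : ℕ) : ℝ) ≤ β := this.trans hβlow
      exact_mod_cast h2)
    (by
      have h1 : ((3 * (m + J) * β : ℕ) : ℝ) ≤ 12 * M * Real.exp (M * κ') := by
        push_cast
        calc 3 * (M + J) * β ≤ 3 * (M + M) * (2 * Real.exp (M * κ')) := by gcongr
          _ = _ := by ring
      have h2 : (((3 * (m + J) * β) ^ m : ℕ) : ℝ) ≤ ((X ^ J : ℕ) : ℝ) := by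
        rw [Nat.cast_pow, Nat.cast_pow]
        calc ((3 * (m + J) * β : ℕ) : ℝ) ^ m ≤ (12 * M * Real.exp (M * κ')) ^ m := by gcongr
          _ = Real.exp L ^ J := by
            rw [← Real.exp_nat_mul, hL_def]
            have h3 : (J : ℝ) * (M / J * (Real.log (12 * M) + M * κ')) =
                m * (Real.log (12 * M) + M * κ') := by
              rw [hM_def]
              field_simp
            rw [h3, Real.exp_nat_mul (Real.log (12 * M) + M * κ') m,
              Real.exp_add (Real.log (12 * M)) (M * κ'), Real.exp_log (by positivity)]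
          _ ≤ (X : ℝ) ^ J := by gcongr
      exact_mod_cast h2)
  -- the polynomials
  set Q := binPoly q with hQ_def
  set P := binPoly p with hP_def
  have hQ3 : ∀ w : ℂ, ‖w‖ ≤ R → ‖Q.eval w‖ ≤ Real.exp (3 / 10 ^ 4 * y) := by
    intro w hw
    have h1 := binPoly_norm q X (fun j => by
      have := hqX j
      exact_mod_cast this) R (by linarith [N.MH, N.HR]) (by linarith [N.H1, N.HR]) w hw
    refine h1.trans ?_
    have h2 : (2 * R) ^ J = Real.exp (J * Real.log (2 * R)) := by
      rw [← Real.log_pow, Real.exp_log (by positivity)]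
    have h3 : (J : ℝ) * Real.log (2 * R) ≤ 22 / 10 ^ 6 * y := by
      calc (J : ℝ) * Real.log (2 * R) ≤ J * (4 * D) := by
            gcongr
            exact N.R2
        _ ≤ (501 / 10 ^ 8 * M) * (4 * D) := by
            have := N.D1
            gcongr
        _ = 2004 / 10 ^ 8 * (M * D) := by ring
        _ ≤ 2004 / 10 ^ 8 * (1051 / 1000 * y) :=
            mul_le_mul_of_nonneg_left N.a2 (by norm_num)
        _ ≤ 22 / 10 ^ 6 * y := by
            norm_num
            linarith
    calc (J : ℝ) * X * (2 * R) ^ J ≤ M * (2 * Real.exp L) * Real.exp (22 / 10 ^ 6 * y) := by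
          rw [h2]
          gcongr
      _ ≤ (12 * M) * Real.exp L * Real.exp (22 / 10 ^ 6 * y) := by
          have : M * (2 * Real.exp L) ≤ 12 * M * Real.exp L := by
            nlinarith [Real.exp_pos L]
          gcongr
      _ ≤ Real.exp (31 / 10 ^ 8 * M) * Real.exp L * Real.exp (22 / 10 ^ 6 * y) := by gcongr
      _ = Real.exp (31 / 10 ^ 8 * M + L + 22 / 10 ^ 6 * y) := by
          rw [Real.exp_add, Real.exp_add]
      _ ≤ Real.exp (3 / 10 ^ 4 * y) := by
          apply Real.exp_le_exp.mpr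
          have := N.My
          norm_num at hL this ⊢
          linarith
  have hE0 : ∀ x ∈ S, ‖((a x : ℤ) : ℂ) - g x‖ ≤ Real.exp (-(13 / 100) * y) := fun x hx =>
    (h.hE x hx).trans h.hE1
  have hf : DiffContOnCl ℂ (fun w => Q.eval w * g w) (Metric.ball 0 R) :=
    (Q.differentiable.diffContOnCl).smul h.hg
  have hB : ∀ w : ℂ, ‖w‖ ≤ R → ‖Q.eval w * g w‖ ≤ Real.exp ((1 + 402 / 10 ^ 6) * y) := by
    intro w hw
    rw [norm_mul]
    have h1 := h.hup w hw
    have h2 : Real.exp (y + lam * w.re + kap) ≤ Real.exp ((1 + 102 / 10 ^ 6) * y) := by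
      apply Real.exp_le_exp.mpr
      have h3 : lam * w.re ≤ lam * R := by
        have := h.hlam
        gcongr
        exact (Complex.re_le_norm w).trans hw
      have h4 := N.g1
      have h5 := N.g2
      have h6 := N.My
      norm_num at h4 h5 h6 ⊢
      linarith
    calc ‖Q.eval w‖ * ‖g w‖ ≤ Real.exp (3 / 10 ^ 4 * y) * Real.exp ((1 + 102 / 10 ^ 6) * y) := by
          gcongr
          · exact hQ3 w hw
          · exact h1.trans h2
      _ = Real.exp ((1 + 402 / 10 ^ 6) * y) := by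
          rw [← Real.exp_add]
          congr 1
          ring
  obtain ⟨pf, hpf, hpfx, hpfw⟩ := newton R H hH0.le N.HR m (fun l => (x l : ℂ))
    (fun l l' hll => hx (by
      have h1 : ((x l : ℕ) : ℂ) = ((x l' : ℕ) : ℂ) := hll
      exact_mod_cast h1)) (fun l => by
      rw [Complex.norm_natCast]
      exact hxH l) (fun w => Q.eval w * g w) hf _ hB
  have hpe : ∀ w : ℂ, ‖(P + pf).eval w‖ ≤ M * (Real.exp (3 / 10 ^ 4 * y) *
      Real.exp (-(13 / 100) * y)) * (2 * (‖w‖ + H)) ^ (m - 1) / (m - 1).factorial := by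
    intro w
    refine node m hm1 x hx H hxH (P + pf) ?_ _ ?_ w
    · exact lt_of_le_of_lt (Polynomial.degree_add_le _ _) (max_lt (binPoly_degree p) hpf)
    · intro l
      have h1 : (P + pf).eval ((x l : ℕ) : ℂ) =
          -(Q.eval ((x l : ℕ) : ℂ) * (((a (x l) : ℤ) : ℂ) - g (x l))) := by
        rw [Polynomial.eval_add, hpfx l]
        have h2 : P.eval ((x l : ℕ) : ℂ) + Q.eval ((x l : ℕ) : ℂ) * ((a (x l) : ℤ) : ℂ) = 0 := by
          rw [hP_def, hQ_def, binPoly_eval_nat, binPoly_eval_nat]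
          exact_mod_cast hpq l
        linear_combination h2
      rw [h1, norm_neg, norm_mul]
      gcongr
      · apply hQ3
        rw [Complex.norm_natCast]
        linarith [hxH l, N.HR]
      · exact hE0 _ (hxS l)
  -- a cleaner form of the bound
  have hpe2 : ∀ (w : ℂ) (Z c : ℝ), 1 ≤ Z → 2 * (‖w‖ + H) ≤ Z →
      M * (1 + Real.log (Z / M)) ≤ c * y →
      ‖(P + pf).eval w‖ ≤ Real.exp ((c - 129 / 1000) * y) := by
    intro w Z c hZ1 hZ hc
    refine (hpe w).trans ?_
    have h0 : 0 ≤ 2 * (‖w‖ + H) := by positivity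
    have h1 : (2 * (‖w‖ + H)) ^ (m - 1) / ((m - 1).factorial : ℝ) ≤ M * Real.exp (c * y) := by
      have h2 : (m.factorial : ℝ) = M * ((m - 1).factorial : ℝ) := by
        rw [hM_def]
        exact_mod_cast (Nat.mul_factorial_pred (by omega)).symm
      have h3 := ext1_fac m hm1 Z (by linarith)
      calc (2 * (‖w‖ + H)) ^ (m - 1) / ((m - 1).factorial : ℝ) ≤
            Z ^ m / ((m - 1).factorial : ℝ) := by
              gcongr ?_ / _
              calc (2 * (‖w‖ + H)) ^ (m - 1) ≤ Z ^ (m - 1) := by gcongr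
                _ ≤ Z ^ m := pow_le_pow_right₀ hZ1 (by omega)
        _ = M * (Z ^ m / (m.factorial : ℝ)) := by
              rw [h2]
              field_simp
        _ ≤ M * Real.exp (c * y) := by
              gcongr
              exact h3.trans (Real.exp_le_exp.mpr hc)
    have h4 : M ≤ Real.exp (31 / 10 ^ 8 * M) := le_trans (by linarith) h12
    calc M * (Real.exp (3 / 10 ^ 4 * y) * Real.exp (-(13 / 100) * y)) *
          (2 * (‖w‖ + H)) ^ (m - 1) / (m - 1).factorial
        = M * (Real.exp (3 / 10 ^ 4 * y) * Real.exp (-(13 / 100) * y)) *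
          ((2 * (‖w‖ + H)) ^ (m - 1) / ((m - 1).factorial : ℝ)) := by ring
      _ ≤ Real.exp (31 / 10 ^ 8 * M) * (Real.exp (3 / 10 ^ 4 * y) *
            Real.exp (-(13 / 100) * y)) * (Real.exp (31 / 10 ^ 8 * M) * Real.exp (c * y)) := by
          gcongr
          exact h1.trans (by gcongr)
      _ = Real.exp (31 / 10 ^ 8 * M + (3 / 10 ^ 4 * y + -(13 / 100) * y) +
            (31 / 10 ^ 8 * M + c * y)) := by
          rw [Real.exp_add, Real.exp_add, Real.exp_add, Real.exp_add]
      _ ≤ Real.exp ((c - 129 / 1000) * y) := by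
          apply Real.exp_le_exp.mpr
          have := N.My
          norm_num at this ⊢
          linarith
  have hRH0 : 0 < R - H := by linarith [N.HR]
  refine ⟨J, q, P, hJ1, hJup, hq, binPoly_degree p, ?_, ?_, ?_⟩
  · intro w hw
    refine (hQ3 w hw).trans (Real.exp_le_exp.mpr ?_)
    norm_num
    linarith
  · intro z hz
    have hzH := h.hS z hz
    have hz0 : (0 : ℝ) ≤ z := Nat.cast_nonneg z
    have hint : ∃ n : ℤ, P.eval (z : ℂ) + Q.eval (z : ℂ) * (a z : ℤ) = (n : ℂ) := by
      refine ⟨(∑ i : Fin m, p i * ((z.choose (i : ℕ) : ℕ) : ℤ)) +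
        (∑ j : Fin J, q j * ((z.choose (j : ℕ) : ℕ) : ℤ)) * a z, ?_⟩
      rw [hP_def, hQ_def, binPoly_eval_nat, binPoly_eval_nat]
      push_cast
      ring
    obtain ⟨n, hn⟩ := hint
    have hsplit : (n : ℂ) = -((Q.eval (z : ℂ) * g z) - pf.eval (z : ℂ)) * (-1) +
        (P + pf).eval (z : ℂ) + Q.eval (z : ℂ) * (((a z : ℤ) : ℂ) - g z) := by
      rw [← hn, Polynomial.eval_add]
      ring
    have hznorm : ‖(z : ℂ)‖ = z := Complex.norm_natCast z
    have hzR : ‖(z : ℂ)‖ ≤ R := by rw [hznorm]; linarith [N.HR]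
    -- first part
    have e1 : ‖(Q.eval (z : ℂ) * g z) - pf.eval (z : ℂ)‖ ≤ Real.exp (-(49 / 1000) * y) := by
      have h1 := hpfw z hzR
      refine h1.trans ?_
      have h2 : (∏ l, ‖(z : ℂ) - (x l : ℂ)‖) ≤ H ^ m := by
        calc (∏ l, ‖(z : ℂ) - (x l : ℂ)‖) ≤ ∏ l : Fin m, H := by
              apply Finset.prod_le_prod
              · intro l _
                positivity
              · intro l _
                have h3 : (z : ℂ) - (x l : ℂ) = (((z : ℝ) - (x l : ℝ) : ℝ) : ℂ) := by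
                  push_cast
                  ring
                rw [h3, Complex.norm_real, Real.norm_eq_abs, abs_le]
                have := hxH l
                have h0 : (0 : ℝ) ≤ x l := Nat.cast_nonneg _
                constructor <;> linarith
          _ = H ^ m := by simp
      have h4 : H * (2 / (R - H)) ≤ Real.exp (1 - D) := by
        have h5 : Real.exp (1 - D) = Real.exp 1 * H / R := by
          rw [Real.exp_sub, hD_def, Real.exp_log (by positivity)]
          field_simp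
        rw [h5, mul_div_assoc', div_le_div_iff₀ hRH0 hR0]
        have h6 := Real.exp_one_gt_d9
        have h7 : (27 / 10) * (R - H) ≥ 2 * R := by linarith [N.HR4]
        have h8 : H * 2 * R ≤ (27 / 10) * H * (R - H) := by nlinarith
        refine h8.trans ?_
        gcongr
        linarith
      calc (∏ l, ‖(z : ℂ) - (x l : ℂ)‖) * (2 / (R - H)) ^ m *
            Real.exp ((1 + 402 / 10 ^ 6) * y)
          ≤ H ^ m * (2 / (R - H)) ^ m * Real.exp ((1 + 402 / 10 ^ 6) * y) := by gcongr
        _ = (H * (2 / (R - H))) ^ m * Real.exp ((1 + 402 / 10 ^ 6) * y) := by rw [mul_pow]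
        _ ≤ Real.exp (1 - D) ^ m * Real.exp ((1 + 402 / 10 ^ 6) * y) := by gcongr
        _ = Real.exp (m * (1 - D) + (1 + 402 / 10 ^ 6) * y) := by
            rw [← Real.exp_nat_mul, ← Real.exp_add]
        _ ≤ Real.exp (-(49 / 1000) * y) := by
            apply Real.exp_le_exp.mpr
            have h9 := N.a1
            have h10 := N.My
            have h11 : (m : ℝ) * (1 - D) = M - M * D := by rw [hM_def]; ring
            rw [h11]
            norm_num at h10 ⊢
            linarith
    have e2 : ‖(P + pf).eval (z : ℂ)‖ ≤ Real.exp (-(128 / 1000) * y) := by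
      have h1 := hpe2 z (4 * H) (1 / 10 ^ 8) (by linarith [N.H1]) (by rw [hznorm]; linarith) (by
        have h2 : Real.log (4 * H / M) = Real.log 4 + Real.log (H / M) := by
          rw [mul_div_assoc, Real.log_mul (by norm_num) (by positivity)]
        rw [h2]
        refine le_trans ?_ N.k2
        gcongr
        linarith [N.k1])
      refine h1.trans (Real.exp_le_exp.mpr ?_)
      norm_num
      linarith
    have e3 : ‖Q.eval (z : ℂ) * (((a z : ℤ) : ℂ) - g z)‖ ≤ Real.exp (-(129 / 1000) * y) := by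
      rw [norm_mul]
      calc ‖Q.eval (z : ℂ)‖ * ‖((a z : ℤ) : ℂ) - g z‖ ≤
            Real.exp (3 / 10 ^ 4 * y) * Real.exp (-(13 / 100) * y) := by
              gcongr
              · exact hQ3 z hzR
              · exact hE0 z hz
        _ = Real.exp (3 / 10 ^ 4 * y + -(13 / 100) * y) := by rw [Real.exp_add]
        _ ≤ _ := by
            apply Real.exp_le_exp.mpr
            norm_num
            linarith
    have hsmall : ∀ c : ℝ, 1 / 100 ≤ c → Real.exp (-c * y) < 1 / 4 := by
      intro c hc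
      have h1 : Real.exp (-c * y) ≤ Real.exp (-2) := by
        apply Real.exp_le_exp.mpr
        have := N.y1
        norm_num at this
        nlinarith
      have h2 : Real.exp (-2) < 1 / 4 := by
        rw [Real.exp_neg, show (2 : ℝ) = 1 + 1 by norm_num, Real.exp_add]
        have h3 := Real.exp_one_gt_d9
        rw [inv_lt_comm₀ (by positivity) (by norm_num)]
        nlinarith
      linarith
    have hlt : ‖(n : ℂ)‖ < 1 := by
      rw [hsplit]
      have h1 := norm_add_le (-((Q.eval (z : ℂ) * g z) - pf.eval (z : ℂ)) * (-1) +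
        (P + pf).eval (z : ℂ)) (Q.eval (z : ℂ) * (((a z : ℤ) : ℂ) - g z))
      have h2 := norm_add_le (-((Q.eval (z : ℂ) * g z) - pf.eval (z : ℂ)) * (-1))
        ((P + pf).eval (z : ℂ))
      have h3 : ‖-((Q.eval (z : ℂ) * g z) - pf.eval (z : ℂ)) * (-1)‖ =
          ‖(Q.eval (z : ℂ) * g z) - pf.eval (z : ℂ)‖ := by
        rw [norm_mul, norm_neg, norm_neg, norm_one, mul_one]
      rw [h3] at h2
      have s1 := hsmall (49 / 1000) (by norm_num)
      have s2 := hsmall (128 / 1000) (by norm_num)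
      have s3 := hsmall (129 / 1000) (by norm_num)
      linarith
    rw [Complex.norm_intCast] at hlt
    have hn0 : n = 0 := by
      have h1 : |n| < 1 := by exact_mod_cast hlt
      exact Int.abs_lt_one_iff.mp h1
    rw [hn, hn0, Int.cast_zero]
  · intro w hw
    have hwR : ‖w‖ ≤ R := by linarith
    have hsplit : P.eval w + Q.eval w * g w =
        ((Q.eval w * g w) - pf.eval w) + (P + pf).eval w := by
      rw [Polynomial.eval_add]
      ring
    rw [hsplit]
    have e1 : ‖(Q.eval w * g w) - pf.eval w‖ ≤ Real.exp ((1 + 405 / 10 ^ 6) * y) := by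
      refine (hpfw w hwR).trans ?_
      have h2 : (∏ l, ‖w - (x l : ℂ)‖) ≤ (R / 2 + H) ^ m := by
        calc (∏ l, ‖w - (x l : ℂ)‖) ≤ ∏ l : Fin m, (R / 2 + H) := by
              apply Finset.prod_le_prod
              · intro l _
                positivity
              · intro l _
                refine (norm_sub_le _ _).trans ?_
                rw [Complex.norm_natCast]
                linarith [hxH l]
          _ = _ := by simp
      have h4 : (R / 2 + H) * (2 / (R - H)) ≤ Real.exp 1 := by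
        rw [mul_div_assoc', div_le_iff₀ hRH0]
        have h6 := Real.exp_one_gt_d9
        have h7 : (R / 2 + H) * 2 ≤ (27 / 10) * (R - H) := by linarith [N.HR4]
        refine h7.trans ?_
        gcongr
        linarith
      calc (∏ l, ‖w - (x l : ℂ)‖) * (2 / (R - H)) ^ m * Real.exp ((1 + 402 / 10 ^ 6) * y)
          ≤ (R / 2 + H) ^ m * (2 / (R - H)) ^ m * Real.exp ((1 + 402 / 10 ^ 6) * y) := by gcongr
        _ = ((R / 2 + H) * (2 / (R - H))) ^ m * Real.exp ((1 + 402 / 10 ^ 6) * y) := by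
            rw [mul_pow]
        _ ≤ Real.exp 1 ^ m * Real.exp ((1 + 402 / 10 ^ 6) * y) := by gcongr
        _ = Real.exp (m * 1 + (1 + 402 / 10 ^ 6) * y) := by
            rw [← Real.exp_nat_mul, ← Real.exp_add]
        _ ≤ Real.exp ((1 + 405 / 10 ^ 6) * y) := by
            apply Real.exp_le_exp.mpr
            have h10 := N.My
            rw [mul_one]
            norm_num at h10 ⊢
            linarith
    have e2 : ‖(P + pf).eval w‖ ≤ Real.exp (93 / 100 * y) := by
      have h1 := hpe2 w (2 * R) (1052 / 1000) (by linarith [N.H1, N.HR])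
        (by linarith [N.HR4]) (by
        have h2 : Real.log (2 * R / M) = Real.log 2 + (Real.log (H / M) + D) := by
          rw [mul_div_assoc, Real.log_mul (by norm_num) (by positivity),
            Real.log_div hR0.ne' hM0.ne', Real.log_div hH0.ne' hM0.ne', N.RH]
          ring
        have h3 : Real.log 2 ≤ Real.log 4 := Real.log_le_log (by norm_num) (by norm_num)
        have h4 : 1 + Real.log (2 * R / M) ≤ κ + D := by
          rw [h2]
          linarith [N.k1]
        calc M * (1 + Real.log (2 * R / M)) ≤ M * (κ + D) := by gcongr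
          _ = M * κ + M * D := by ring
          _ ≤ 1 / 10 ^ 8 * y + 1051 / 1000 * y := by linarith [N.k2, N.a2]
          _ ≤ 1052 / 1000 * y := by
              norm_num
              linarith)
      refine h1.trans (Real.exp_le_exp.mpr ?_)
      norm_num
      linarith
    calc ‖((Q.eval w * g w) - pf.eval w) + (P + pf).eval w‖
        ≤ Real.exp ((1 + 405 / 10 ^ 6) * y) + Real.exp (93 / 100 * y) :=
          (norm_add_le _ _).trans (add_le_add e1 e2)
      _ ≤ 2 * Real.exp ((1 + 405 / 10 ^ 6) * y) := by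
          have : Real.exp (93 / 100 * y) ≤ Real.exp ((1 + 405 / 10 ^ 6) * y) := by
            apply Real.exp_le_exp.mpr
            norm_num
            linarith
          linarith
      _ ≤ Real.exp 1 * Real.exp ((1 + 405 / 10 ^ 6) * y) := by
          gcongr
          linarith [Real.exp_one_gt_d9]
      _ = Real.exp (1 + (1 + 405 / 10 ^ 6) * y) := by rw [Real.exp_add]
      _ ≤ Real.exp ((1 + 1 / 1000) * y) := by
          apply Real.exp_le_exp.mpr
          have := N.y1
          norm_num at this ⊢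
          linarith

end Pool.Agent.MP7629b0
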