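import Pool.Agent.Lib.MP_7629b0_nt.Defs
import Pool.Agent.Lib.MP_7629b0_nt.PLC

/-! PPP (MP_7629b0_nt), module PAR3: values with a tiny base. -/

namespace Pool.Agent.MP7629b0

open Complex

theorem PAR3_ev (A η α β : ℝ) (hη : 0 < η) (h : α < β) :
    ∀ᶠ N : ℕ in Filter.atTop, A * (N : ℝ) ^ α ≤ η * (N : ℝ) ^ β := by
  have h1 : Filter.Tendsto (fun N : ℕ => (N : ℝ) ^ (β - α)) Filter.atTop Filter.atTop :=
    (tendsto_rpow_atTop (sub_pos.2 h)).comp tendsto_natCast_atTop_atTop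
  filter_upwards [h1.eventually_ge_atTop (A / η), Filter.eventually_gt_atTop 0] with N hN hN0
  have hNpos : (0 : ℝ) < N := by exact_mod_cast hN0
  have h2 : A ≤ η * (N : ℝ) ^ (β - α) := by
    rw [div_le_iff₀ hη] at hN
    linarith
  have h3 : (N : ℝ) ^ β = (N : ℝ) ^ (β - α) * (N : ℝ) ^ α := by
    rw [← Real.rpow_add hNpos]
    congr 1
    ring
  rw [h3, ← mul_assoc]
  exact mul_le_mul_of_nonneg_right h2 (Real.rpow_nonneg hNpos.le _)

theorem PAR3_log : ∀ᶠ N : ℕ in Filter.atTop, Real.log N ≤ (N : ℝ) ^ ((1 : ℝ) / 3 - 1 / 10 ^ 10) := by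
  have h := (isLittleO_log_rpow_atTop (r := (1 : ℝ) / 3 - 1 / 10 ^ 10) (by norm_num)).comp_tendsto
    tendsto_natCast_atTop_atTop
  filter_upwards [h.bound (c := 1) one_pos, Filter.eventually_ge_atTop 1] with N hN hN1
  have h1 : (1 : ℝ) ≤ N := by exact_mod_cast hN1
  simp only [Function.comp_apply, one_mul] at hN
  rwa [Real.norm_of_nonneg (Real.log_nonneg h1),
    Real.norm_of_nonneg (Real.rpow_nonneg (by linarith) _)] at hN

/-- cube roots -/
theorem PAR3_cube (y C : ℝ) (hy : 0 ≤ y) (h : y ^ 3 ≤ C) : y ≤ max 1 C := by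
  rcases le_or_gt y 1 with h1 | h1
  · exact h1.trans (le_max_left _ _)
  · refine le_trans ?_ (le_max_right 1 C)
    refine le_trans ?_ h
    have : 1 ≤ y ^ 2 := one_le_pow₀ h1.le
    nlinarith

theorem PAR3_Hn_le (N : ℕ) : (Hn N : ℝ) ≤ (N : ℝ) ^ ((2 : ℝ) / 3 + 1 / 10 ^ 10) :=
  Nat.floor_le (Real.rpow_nonneg (Nat.cast_nonneg N) _)

theorem PAR3_strict {m n : ℕ} (hm : 1 ≤ m) (h : m < n) : pl m < pl n := by
  induction n, h using Nat.le_induction with
  | base => exact pl_strict m hm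
  | succ n hn ih => exact ih.trans (pl_strict n (by omega))

theorem PAR3_inj {m n : ℕ} (hm : 1 ≤ m) (hn : 1 ≤ n) (h : pl m = pl n) : m = n := by
  rcases lt_trichotomy m n with h1 | h1 | h1
  · exact absurd h (PAR3_strict hm h1).ne
  · exact h1
  · exact absurd h.symm (PAR3_strict hn h1).ne

theorem count_tiny (c C K : ℝ) (hc : 0 < c) (hC : 0 < C) (hK : 1 ≤ K) :
    ∃ N0 : ℕ, ∀ N r : ℕ, N0 ≤ N → ∀ (t : ℝ) (h : ℂ → ℂ), AD c C K N r t h →
        (Set.ncard {x : ℕ | x ≤ Hn N ∧ (N + x) % 2 = r ∧ ∃ a b : ℕ, 1 < a ∧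
          8 * (h 0).re < b * Real.log N ∧ pl (N + x) = a ^ b} : ℝ) ≤ (N : ℝ) ^ ((1 : ℝ) / 2) := by
  classical
  set D : ℝ := max 1 C with hD
  have hD1 : 1 ≤ D := le_max_left _ _
  have hD0 : 0 < D := by linarith
  set η : ℝ := c / D ^ 2 / 200 with hη
  have hη0 : 0 < η := by positivity
  -- the conditions on N
  have e1 := PAR3_ev D η (1 / 3 + 1 / 10 ^ 10) (2 / 3) hη0 (by norm_num)
  have e2 := PAR3_ev (C + 1) η 0 (2 / 3) hη0 (by norm_num)
  have e3 := PAR3_ev (C * D ^ 4) η (2 / 10 ^ 10) (2 / 3) hη0 (by norm_num)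
  have e4 := PAR3_ev 4 η 0 (2 / 3) hη0 (by norm_num)
  have e5 := PAR3_ev (2 * D) (1 / 4) (13 / 100 + (1 / 3 + 1 / 10 ^ 10)) (1 / 2) (by norm_num)
    (by norm_num)
  have e6 := PAR3_ev (4 * C + 5) (1 / 4) (13 / 100) (1 / 2) (by norm_num) (by norm_num)
  have e7 := PAR3_ev (4 * C * D ^ 4) (1 / 4) (13 / 100 + 2 / 10 ^ 10) (1 / 2) (by norm_num)
    (by norm_num)
  obtain ⟨N0, hN0⟩ := Filter.eventually_atTop.1 (e1.and (e2.and (e3.and (e4.and (e5.and (e6.and
    (e7.and (PAR3_log.and (Filter.eventually_ge_atTop 3)))))))))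
  refine ⟨N0, ?_⟩
  intro N r hN t h hAD
  obtain ⟨f1, f2, f3, f4, f5, f6, f7, flog, f9⟩ := hN0 N hN
  have hNge : (3 : ℝ) ≤ N := by exact_mod_cast f9
  have hNpos : (0 : ℝ) < N := by linarith
  have hlogN : 0 < Real.log N := Real.log_pos (by linarith)
  simp only [Real.rpow_zero, mul_one] at f2 f4
  -- notation
  set u : ℝ := (N : ℝ) ^ ((1 : ℝ) / 3) with hu
  have hu0 : 0 < u := Real.rpow_pos_of_pos hNpos _
  have hu3 : u ^ 3 = N := by
    rw [hu, ← Real.rpow_natCast, ← Real.rpow_mul hNpos.le]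
    norm_num
  have hu2 : u ^ 2 = (N : ℝ) ^ ((2 : ℝ) / 3) := by
    rw [hu, ← Real.rpow_natCast, ← Real.rpow_mul hNpos.le]
    norm_num
  set e : ℝ := (N : ℝ) ^ ((1 : ℝ) / 10 ^ 10) with he
  have he0 : 0 < e := Real.rpow_pos_of_pos hNpos _
  have hue : u * e = (N : ℝ) ^ ((1 : ℝ) / 3 + 1 / 10 ^ 10) := by
    rw [hu, he, ← Real.rpow_add hNpos]
  have he2 : e ^ 2 = (N : ℝ) ^ ((2 : ℝ) / 10 ^ 10) := by
    rw [he, ← Real.rpow_natCast, ← Real.rpow_mul hNpos.le]
    norm_num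
  have hHn : (Hn N : ℝ) ≤ u ^ 2 * e := by
    refine (PAR3_Hn_le N).trans (le_of_eq ?_)
    rw [hu2, he, ← Real.rpow_add hNpos]
  have ht0 := hAD.ht
  have htu : t * u ≤ D := by
    apply PAR3_cube _ _ (by positivity)
    rw [mul_pow, hu3]
    linarith [hAD.hN']
  have ht2 : u ^ 2 / D ^ 2 ≤ 1 / t ^ 2 := by
    rw [div_le_div_iff₀ (by positivity) (by positivity)]
    have : (t * u) ^ 2 ≤ D ^ 2 := pow_le_pow_left₀ (by positivity) htu 2
    nlinarith
  have hh0 : c * (u ^ 2 / D ^ 2) ≤ (h 0).re := by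
    have h1 := hAD.h0
    have h2 : c / t ^ 2 = c * (1 / t ^ 2) := by ring
    rw [h2] at h1
    exact (mul_le_mul_of_nonneg_left ht2 hc.le).trans h1
  have hηu : 200 * η * u ^ 2 ≤ (h 0).re := by
    have : 200 * η * u ^ 2 = c * (u ^ 2 / D ^ 2) := by rw [hη]; ring
    linarith
  have hh0pos : 0 < (h 0).re := lt_of_lt_of_le (by positivity) hηu
  -- bounds for x in the window
  set H : ℝ := (Hn N : ℝ) with hH
  have hH0 : 0 ≤ H := Nat.cast_nonneg _
  have hHR : H ≤ K * N / Real.log N := by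
    have h1 : H ≤ N / Real.log N := by
      rw [le_div_iff₀ hlogN]
      calc H * Real.log N ≤ (N : ℝ) ^ ((2 : ℝ) / 3 + 1 / 10 ^ 10) *
            (N : ℝ) ^ ((1 : ℝ) / 3 - 1 / 10 ^ 10) :=
            mul_le_mul (PAR3_Hn_le N) flog hlogN.le (Real.rpow_nonneg hNpos.le _)
        _ = N := by
            rw [← Real.rpow_add hNpos]
            norm_num
    refine h1.trans ?_
    rw [div_le_div_iff_of_pos_right hlogN]
    nlinarith
  have htH : t * H ≤ D * (u * e) := by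
    calc t * H ≤ t * (u ^ 2 * e) := mul_le_mul_of_nonneg_left hHn ht0.le
      _ = (t * u) * (u * e) := by ring
      _ ≤ D * (u * e) := mul_le_mul_of_nonneg_right htu (by positivity)
  have hH4 : H ^ 2 * t ^ 4 ≤ D ^ 4 * e ^ 2 := by
    calc H ^ 2 * t ^ 4 ≤ (u ^ 2 * e) ^ 2 * t ^ 4 := by
          have := pow_le_pow_left₀ hH0 hHn 2
          exact mul_le_mul_of_nonneg_right this (by positivity)
      _ = (t * u) ^ 4 * e ^ 2 := by ring
      _ ≤ D ^ 4 * e ^ 2 :=
          mul_le_mul_of_nonneg_right (pow_le_pow_left₀ (by positivity) htu 4) (by positivity)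
  set W1 : ℝ := C * (1 + D ^ 4 * e ^ 2) + 1 with hW1
  set Lo : ℝ := (h 0).re - W1 with hLo
  set Up : ℝ := (h 0).re + D * (u * e) + W1 with hUp
  have hexp : Real.exp (-(57 / 100) * (h 0).re) ≤ 1 / 2 := by
    have h1 : 4 ≤ (h 0).re := by
      rw [← hu2] at f4
      nlinarith
    have h2 : Real.exp (-(57 / 100) * (h 0).re) ≤ Real.exp (-1) := by
      apply Real.exp_le_exp.2
      linarith
    refine h2.trans ?_
    rw [Real.exp_neg, inv_eq_one_div]
    apply one_div_le_one_div_of_le (by norm_num)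
    have := Real.add_one_le_exp (1 : ℝ)
    linarith
  have hkey : ∀ x : ℕ, x ≤ Hn N → (N + x) % 2 = r →
      0 < pl (N + x) ∧ Lo ≤ Real.log (pl (N + x)) ∧ Real.log (pl (N + x)) ≤ Up := by
    intro x hx hxr
    have hxH : (x : ℝ) ≤ H := Nat.cast_le.2 hx
    have hx0 : (0 : ℝ) ≤ x := Nat.cast_nonneg x
    have hxR : (x : ℝ) ≤ K * N / Real.log N := hxH.trans hHR
    have h1 := hAD.hre (x : ℂ) (by simpa using hxR)
    have h2 := hAD.hpl x hxR hxr
    have hnorm : ‖(x : ℂ)‖ = x := by simp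
    rw [hnorm] at h1
    simp only [Complex.natCast_re] at h1
    have h3 : C * (1 + (x : ℝ) ^ 2 * t ^ 4) ≤ W1 - 1 := by
      have : (x : ℝ) ^ 2 * t ^ 4 ≤ H ^ 2 * t ^ 4 :=
        mul_le_mul_of_nonneg_right (pow_le_pow_left₀ hx0 hxH 2) (by positivity)
      have h4 : (x : ℝ) ^ 2 * t ^ 4 ≤ D ^ 4 * e ^ 2 := this.trans hH4
      rw [hW1]
      nlinarith
    have h5 := abs_le.1 (h1.trans h3)
    have h6 : t * x ≤ D * (u * e) := (mul_le_mul_of_nonneg_left hxH ht0.le).trans htH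
    have h7 : 0 ≤ t * (x : ℝ) := by positivity
    set E : ℝ := Real.exp (h x).re with hE
    have hE0 : 0 < E := Real.exp_pos _
    have h8 : |(pl (N + x) : ℝ) - E| ≤ E / 2 := by
      refine h2.trans ?_
      have := mul_le_mul_of_nonneg_right hexp hE0.le
      linarith
    have h9 := abs_le.1 h8
    have hp : (0 : ℝ) < pl (N + x) := by linarith
    have hlogE : Real.log E = (h x).re := Real.log_exp _
    have hlog2 : Real.log 2 ≤ 1 := by
      have := Real.log_two_lt_d9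
      linarith
    refine ⟨by exact_mod_cast hp, ?_, ?_⟩
    · have h10 : Real.log (E / 2) ≤ Real.log (pl (N + x)) :=
        Real.log_le_log (by positivity) (by linarith)
      rw [Real.log_div hE0.ne' (by norm_num), hlogE] at h10
      rw [hLo]
      linarith
    · have h10 : Real.log (pl (N + x)) ≤ Real.log (E * 2) :=
        Real.log_le_log hp (by linarith)
      rw [Real.log_mul hE0.ne' (by norm_num), hlogE] at h10
      rw [hUp]
      linarith
  have hUp' : Up ≤ (104 / 100) * (h 0).re := by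
    rw [← hue, ← hu2] at f1
    rw [← he2, ← hu2] at f3
    rw [← hu2] at f2
    have : D * (u * e) + W1 ≤ 3 * η * u ^ 2 := by
      rw [hW1]
      nlinarith
    rw [hUp]
    nlinarith
  -- the finite set of pairs
  set A : ℕ := ⌊(N : ℝ) ^ ((13 : ℝ) / 100)⌋₊ with hA
  set F : Finset (ℕ × ℕ) := (Finset.Icc 2 A).biUnion fun a =>
    (Finset.Icc ⌈Lo / Real.log a⌉₊ ⌊Up / Real.log a⌋₊).image fun b => (a, b) with hF
  set S : Set ℕ := {x : ℕ | x ≤ Hn N ∧ (N + x) % 2 = r ∧ ∃ a b : ℕ, 1 < a ∧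
          8 * (h 0).re < b * Real.log N ∧ pl (N + x) = a ^ b} with hS
  have hmap : ∀ x ∈ S, ∃ p ∈ F, pl (N + x) = p.1 ^ p.2 := by
    rintro x ⟨hx, hxr, a, b, ha, hb, hab⟩
    obtain ⟨hp, hlo, hup⟩ := hkey x hx hxr
    have ha' : (1 : ℝ) < a := by exact_mod_cast ha
    have hloga : 0 < Real.log a := Real.log_pos ha'
    have hlog : Real.log (pl (N + x)) = b * Real.log a := by
      rw [hab]
      push_cast
      rw [Real.log_pow]
    have hb0 : (0 : ℝ) < b := by
      by_contra hneg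
      have : (b : ℝ) = 0 := le_antisymm (not_lt.1 hneg) (Nat.cast_nonneg b)
      rw [this, zero_mul] at hb
      linarith
    refine ⟨(a, b), ?_, hab⟩
    rw [hF]
    refine Finset.mem_biUnion.2 ⟨a, Finset.mem_Icc.2 ⟨ha, ?_⟩, Finset.mem_image.2 ⟨b,
      Finset.mem_Icc.2 ⟨?_, ?_⟩, rfl⟩⟩
    · -- a ≤ A
      apply Nat.le_floor
      have h1 : (b : ℝ) * Real.log a ≤ (104 / 100) * (h 0).re := by
        rw [← hlog]
        exact hup.trans hUp'
      have h2 : (b : ℝ) * Real.log a ≤ b * ((13 / 100) * Real.log N) := by nlinarith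
      have h3 : Real.log a ≤ (13 / 100) * Real.log N := le_of_mul_le_mul_left h2 hb0
      rw [Real.le_rpow_iff_log_le (by linarith) hNpos]
      exact h3
    · apply Nat.ceil_le.2
      rw [div_le_iff₀ hloga, ← hlog]
      exact hlo
    · apply Nat.le_floor
      rw [le_div_iff₀ hloga, ← hlog]
      exact hup
  choose! p hpF hpl using hmap
  have hinj : Set.InjOn p S := by
    intro x hx y hy hxy
    have h1 := hpl x hx
    have h2 := hpl y hy
    rw [hxy] at h1
    have := PAR3_inj (by omega) (by omega) (h1.trans h2.symm)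
    omega
  have hcard : S.ncard ≤ F.card := by
    have h1 : (p '' S).ncard = S.ncard := Set.InjOn.ncard_image hinj
    rw [← h1, ← Set.ncard_coe_finset F]
    refine Set.ncard_le_ncard ?_ F.finite_toSet
    rintro _ ⟨x, hx, rfl⟩
    exact hpF x hx
  have hW0 : 0 ≤ Up - Lo := by
    rw [hUp, hLo, hW1]
    have : 0 ≤ C * (1 + D ^ 4 * e ^ 2) := by positivity
    have : 0 ≤ D * (u * e) := by positivity
    linarith
  have hFcard : (F.card : ℝ) ≤ A * (2 * (Up - Lo) + 1) := by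
    have h1 : F.card ≤ ∑ a ∈ Finset.Icc 2 A, ((Finset.Icc ⌈Lo / Real.log a⌉₊
        ⌊Up / Real.log a⌋₊).image fun b => (a, b)).card := Finset.card_biUnion_le
    have h2 : (F.card : ℝ) ≤ ∑ a ∈ Finset.Icc 2 A, (((Finset.Icc ⌈Lo / Real.log a⌉₊
        ⌊Up / Real.log a⌋₊).image fun b => (a, b)).card : ℝ) := by exact_mod_cast h1
    refine h2.trans ?_
    have h3 : ∀ a ∈ Finset.Icc 2 A, (((Finset.Icc ⌈Lo / Real.log a⌉₊
        ⌊Up / Real.log a⌋₊).image fun b => (a, b)).card : ℝ) ≤ 2 * (Up - Lo) + 1 := by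
      intro a ha
      have ha2 : (2 : ℝ) ≤ a := by exact_mod_cast (Finset.mem_Icc.1 ha).1
      have hloga : 1 / 2 ≤ Real.log a := by
        have h4 : Real.log 2 ≤ Real.log a := Real.log_le_log (by norm_num) ha2
        have := Real.log_two_gt_d9
        linarith
      have h5 : (((Finset.Icc ⌈Lo / Real.log a⌉₊ ⌊Up / Real.log a⌋₊).image
          fun b => (a, b)).card : ℝ) ≤ ((Finset.Icc ⌈Lo / Real.log a⌉₊ ⌊Up / Real.log a⌋₊).card : ℝ) := by
        exact_mod_cast Finset.card_image_le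
      refine h5.trans ?_
      rw [Nat.card_Icc]
      rcases le_or_gt ⌈Lo / Real.log a⌉₊ (⌊Up / Real.log a⌋₊ + 1) with h6 | h6
      · rw [Nat.cast_sub h6]
        push_cast
        have h7 : Lo / Real.log a ≤ (⌈Lo / Real.log a⌉₊ : ℝ) := Nat.le_ceil _
        have h8 : (⌊Up / Real.log a⌋₊ : ℝ) ≤ Up / Real.log a := by
          apply Nat.floor_le
          have : 0 ≤ Up := by
            rw [hUp, hW1]
            have : 0 ≤ C * (1 + D ^ 4 * e ^ 2) := by positivity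
            have : 0 ≤ D * (u * e) := by positivity
            linarith
          exact div_nonneg this (by linarith)
        have h9 : Up / Real.log a - Lo / Real.log a ≤ 2 * (Up - Lo) := by
          rw [← sub_div, div_le_iff₀ (by linarith)]
          nlinarith
        linarith
      · have : ⌊Up / Real.log a⌋₊ + 1 - ⌈Lo / Real.log a⌉₊ = 0 := by omega
        rw [this, Nat.cast_zero]
        linarith
    refine (Finset.sum_le_sum h3).trans ?_
    rw [Finset.sum_const, nsmul_eq_mul, Nat.card_Icc]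
    refine mul_le_mul_of_nonneg_right ?_ (by linarith)
    exact_mod_cast (by omega : A + 1 - 2 ≤ A)
  have hA' : (A : ℝ) ≤ (N : ℝ) ^ ((13 : ℝ) / 100) := Nat.floor_le (Real.rpow_nonneg hNpos.le _)
  have hfin : (N : ℝ) ^ ((13 : ℝ) / 100) * (2 * (Up - Lo) + 1) ≤ (N : ℝ) ^ ((1 : ℝ) / 2) := by
    rw [Real.rpow_add hNpos, ← hue] at f5
    rw [Real.rpow_add hNpos, ← he2] at f7
    have : 2 * (Up - Lo) + 1 = 2 * D * (u * e) + (4 * C + 5) + 4 * C * D ^ 4 * e ^ 2 := by
      rw [hUp, hLo, hW1]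
      ring
    rw [this]
    set X : ℝ := (N : ℝ) ^ ((13 : ℝ) / 100) with hX
    have hX0 : 0 < X := Real.rpow_pos_of_pos hNpos _
    have hY0 : 0 < (N : ℝ) ^ ((1 : ℝ) / 2) := Real.rpow_pos_of_pos hNpos _
    nlinarith
  calc (S.ncard : ℝ) ≤ F.card := by exact_mod_cast hcard
    _ ≤ A * (2 * (Up - Lo) + 1) := hFcard
    _ ≤ (N : ℝ) ^ ((13 : ℝ) / 100) * (2 * (Up - Lo) + 1) :=
        mul_le_mul_of_nonneg_right hA' (by linarith)
    _ ≤ _ := hfin

end Pool.Agent.MP7629b0
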