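import Pool.Agent.Lib.MP_7629b0_nt.Defs
import Pool.Agent.Lib.MP_7629b0_nt.AIN
import Pool.Agent.Lib.MP_7629b0_nt.CountSmall
import Pool.Agent.Lib.MP_7629b0_nt.PAR2
import Pool.Agent.Lib.MP_7629b0_nt.PAR3

/-!
# The final count
-/

namespace Pool.Agent.MP7629b0

open Complex

theorem FIN_harm (B : ℕ) : ∑ b ∈ Finset.Icc 2 B, (1 : ℝ) / b ≤ 1 + Real.log B := by
  have h1 : ∑ b ∈ Finset.Icc 2 B, (1 : ℝ) / b ≤ ∑ b ∈ Finset.Icc 1 B, (1 : ℝ) / b := by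
    refine Finset.sum_le_sum_of_subset_of_nonneg ?_ ?_
    · intro b hb
      rw [Finset.mem_Icc] at hb ⊢
      omega
    · intro b _ _
      positivity
  have h2 := harmonic_le_one_add_log B
  rw [harmonic_eq_sum_Icc] at h2
  push_cast at h2
  simp only [one_div] at h1 ⊢
  exact h1.trans h2

theorem FIN_fin (N : ℕ) (P : ℕ → Prop) : {x : ℕ | x ≤ Hn N ∧ P x}.Finite :=
  (Set.finite_Iic (Hn N)).subset fun _ hx => hx.1

theorem FIN_row (N r : ℕ) (h0 D : ℝ) (hD : 0 ≤ D) (hN : 3 ≤ N)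
    (hB : 1 + Real.log (⌊8 * h0 / Real.log N⌋₊ : ℕ) ≤ 2 * Real.log N)
    (h1 : ∀ b : ℕ, 2 ≤ b → b * Real.log N ≤ 8 * h0 →
      (Set.ncard {x : ℕ | x ≤ Hn N ∧ (N + x) % 2 = r ∧ ∃ a : ℕ, pl (N + x) = a ^ b} : ℝ) ≤
        D * (N : ℝ) ^ ((2 : ℝ) / 3) / (b * Real.log N))
    (h2 : (Set.ncard {x : ℕ | x ≤ Hn N ∧ (N + x) % 2 = r ∧ ∃ a b : ℕ, 1 < a ∧
          8 * h0 < b * Real.log N ∧ pl (N + x) = a ^ b} : ℝ) ≤ (N : ℝ) ^ ((1 : ℝ) / 2)) :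
    (Set.ncard {x : ℕ | x ≤ Hn N ∧ (N + x) % 2 = r ∧
      ∃ a b : ℕ, 1 < a ∧ 1 < b ∧ pl (N + x) = a ^ b} : ℝ) ≤
      2 * D * (N : ℝ) ^ ((2 : ℝ) / 3) + (N : ℝ) ^ ((1 : ℝ) / 2) := by
  set B := ⌊8 * h0 / Real.log N⌋₊ with hBdef
  have hlog : 0 < Real.log N := Real.log_pos (by exact_mod_cast (by omega : 1 < N))
  set T : ℕ → Set ℕ := fun b =>
    {x : ℕ | x ≤ Hn N ∧ (N + x) % 2 = r ∧ ∃ a : ℕ, pl (N + x) = a ^ b} with hT
  set U : Set ℕ := {x : ℕ | x ≤ Hn N ∧ (N + x) % 2 = r ∧ ∃ a b : ℕ, 1 < a ∧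
          8 * h0 < b * Real.log N ∧ pl (N + x) = a ^ b} with hU
  set W : Set ℕ := {x : ℕ | x ≤ Hn N ∧ (N + x) % 2 = r ∧
      ∃ a b : ℕ, 1 < a ∧ 1 < b ∧ pl (N + x) = a ^ b} with hW
  have hsub : W ⊆ (⋃ b ∈ Finset.Icc 2 B, T b) ∪ U := by
    rintro x ⟨hx1, hx2, a, b, ha, hb, hab⟩
    by_cases hc : 8 * h0 < b * Real.log N
    · exact Or.inr ⟨hx1, hx2, a, b, ha, hc, hab⟩
    · left
      push Not at hc
      simp only [Set.mem_iUnion]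
      refine ⟨b, ?_, hx1, hx2, a, hab⟩
      rw [Finset.mem_Icc]
      refine ⟨hb, ?_⟩
      rw [hBdef]
      refine Nat.le_floor ?_
      rw [le_div_iff₀ hlog]
      exact hc
  have hfinT : (⋃ b ∈ Finset.Icc 2 B, T b).Finite := by
    refine (Finset.finite_toSet _).biUnion ?_
    intro b _
    exact FIN_fin N _
  have hn1 : W.ncard ≤ (⋃ b ∈ Finset.Icc 2 B, T b).ncard + U.ncard :=
    (Set.ncard_le_ncard hsub (hfinT.union (FIN_fin N _))).trans (Set.ncard_union_le _ _)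
  have hn2 : (⋃ b ∈ Finset.Icc 2 B, T b).ncard ≤ ∑ b ∈ Finset.Icc 2 B, (T b).ncard :=
    Finset.set_ncard_biUnion_le _ _
  have hn3 : ((∑ b ∈ Finset.Icc 2 B, (T b).ncard : ℕ) : ℝ) ≤ 2 * D * (N : ℝ) ^ ((2 : ℝ) / 3) := by
    push_cast
    calc ∑ b ∈ Finset.Icc 2 B, ((T b).ncard : ℝ)
        ≤ ∑ b ∈ Finset.Icc 2 B, D * (N : ℝ) ^ ((2 : ℝ) / 3) / (b * Real.log N) := by
          refine Finset.sum_le_sum fun b hb => ?_
          rw [Finset.mem_Icc] at hb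
          refine h1 b hb.1 ?_
          rw [← le_div_iff₀ hlog]
          exact (Nat.le_floor_iff' (by omega)).1 hb.2
      _ = (D * (N : ℝ) ^ ((2 : ℝ) / 3) / Real.log N) * ∑ b ∈ Finset.Icc 2 B, (1 : ℝ) / b := by
          rw [Finset.mul_sum]
          refine Finset.sum_congr rfl fun b _ => ?_
          rw [div_mul_div_comm, mul_one, mul_comm (Real.log N)]
      _ ≤ (D * (N : ℝ) ^ ((2 : ℝ) / 3) / Real.log N) * (2 * Real.log N) := by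
          refine mul_le_mul_of_nonneg_left ((FIN_harm B).trans hB) ?_
          positivity
      _ = 2 * D * (N : ℝ) ^ ((2 : ℝ) / 3) := by
          field_simp
  have hn4 : (W.ncard : ℝ) ≤ ((∑ b ∈ Finset.Icc 2 B, (T b).ncard : ℕ) : ℝ) + (U.ncard : ℝ) := by
    exact_mod_cast hn1.trans (Nat.add_le_add_right hn2 _)
  linarith

theorem FIN_t (c C t h0 : ℝ) (N : ℕ) (hc : 0 < c) (hC : 0 < C) (ht : 0 < t) (hN : 3 ≤ N)
    (hNt : c ≤ N * t ^ 3) (hh : h0 ≤ C / t ^ 2)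
    (hbig : Real.exp 1 * (8 * C * (1 + 1 / c)) ≤ N) :
    1 + Real.log (⌊8 * h0 / Real.log N⌋₊ : ℕ) ≤ 2 * Real.log N := by
  have hN1 : (1 : ℝ) ≤ N := by exact_mod_cast (by omega : 1 ≤ N)
  have hN0 : (0 : ℝ) < N := by linarith
  have hlog1 : 1 ≤ Real.log N := by
    rw [Real.le_log_iff_exp_le hN0]
    have h3 : (3 : ℝ) ≤ N := by exact_mod_cast hN
    linarith [Real.exp_one_lt_d9]
  have ht2 : 1 / t ^ 2 ≤ N * (1 + 1 / c) := by
    have hc1 : 0 < 1 / c := by positivity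
    rcases le_total 1 t with h | h
    · have h2 : 1 ≤ t ^ 2 := by nlinarith
      have h3 : 1 / t ^ 2 ≤ 1 := by
        rw [div_le_one (by positivity)]
        exact h2
      nlinarith
    · have h2 : t ^ 3 ≤ t ^ 2 := by nlinarith [sq_nonneg t]
      have h3 : c ≤ N * t ^ 2 := hNt.trans (by gcongr)
      have h4 : 1 / t ^ 2 ≤ N * (1 / c) := by
        rw [mul_one_div, div_le_div_iff₀ (by positivity) hc]
        linarith
      nlinarith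
  set B := ⌊8 * h0 / Real.log N⌋₊ with hB
  rcases Nat.eq_zero_or_pos B with h | h
  · rw [h, Nat.cast_zero, Real.log_zero]
    linarith
  · have hBle : (B : ℝ) ≤ 8 * h0 / Real.log N := (Nat.le_floor_iff' (by omega)).1 le_rfl
    have hh0 : 0 ≤ h0 := by
      by_contra hneg
      push Not at hneg
      have h5 : 8 * h0 / Real.log N < 0 := div_neg_of_neg_of_pos (by linarith) (by linarith)
      have h6 : (0 : ℝ) ≤ B := Nat.cast_nonneg _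
      linarith
    have hB2 : (B : ℝ) ≤ 8 * C * (1 + 1 / c) * N := by
      calc (B : ℝ) ≤ 8 * h0 / Real.log N := hBle
        _ ≤ 8 * h0 := div_le_self (by linarith) hlog1
        _ ≤ 8 * (C * (1 / t ^ 2)) := by rw [mul_one_div]; linarith
        _ ≤ 8 * (C * (N * (1 + 1 / c))) := by gcongr
        _ = _ := by ring
    have h7 : 1 + Real.log B = Real.log (Real.exp 1 * B) := by
      rw [Real.log_mul (Real.exp_ne_zero _) (by positivity), Real.log_exp]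
    rw [h7, show 2 * Real.log N = Real.log ((N : ℝ) ^ 2) by rw [Real.log_pow]; norm_num]
    refine Real.log_le_log (by positivity) ?_
    calc Real.exp 1 * B ≤ Real.exp 1 * (8 * C * (1 + 1 / c) * N) := by gcongr
      _ = Real.exp 1 * (8 * C * (1 + 1 / c)) * N := by ring
      _ ≤ N * N := by gcongr
      _ = (N : ℝ) ^ 2 := by ring

theorem FIN_half (N : ℕ) (hN : 3 ≤ N) : (N : ℝ) ^ ((1 : ℝ) / 2) ≤ (N : ℝ) ^ ((2 : ℝ) / 3) := by
  refine Real.rpow_le_rpow_of_exponent_le ?_ (by norm_num)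
  exact_mod_cast (by omega : 1 ≤ N)

theorem window : ∃ C : ℝ, ∀ᶠ N : ℕ in Filter.atTop,
    (Set.ncard {x : ℕ | x ≤ Hn N ∧ ∃ a b : ℕ, 1 < a ∧ 1 < b ∧ pl (N + x) = a ^ b} : ℝ) ≤
      C * (N : ℝ) ^ ((2 : ℝ) / 3) := by
  obtain ⟨c, C, hc, hC, hain⟩ := analytic_input
  obtain ⟨K1, hK1⟩ := count_small c C hc hC
  obtain ⟨K2, hK2⟩ := count_large c C hc hC
  set K := max 1 (max K1 K2) with hK
  have hK1le : K1 ≤ K := (le_max_left _ _).trans (le_max_right _ _)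
  have hK2le : K2 ≤ K := (le_max_right _ _).trans (le_max_right _ _)
  have hKone : 1 ≤ K := le_max_left _ _
  obtain ⟨N0, hN0⟩ := hain K hKone
  obtain ⟨C1, N1, hN1⟩ := hK1 K hK1le
  obtain ⟨C2, N2, hN2⟩ := hK2 K hK2le
  obtain ⟨N3, hN3⟩ := count_tiny c C K hc hC hKone
  set D := |C1| + |C2| with hD
  refine ⟨4 * D + 2, ?_⟩
  rw [Filter.eventually_atTop]
  refine ⟨N0 + N1 + N2 + N3 + 3 + ⌈Real.exp 1 * (8 * C * (1 + 1 / c))⌉₊, ?_⟩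
  intro N hN
  have hN3' : 3 ≤ N := by omega
  have hbig : Real.exp 1 * (8 * C * (1 + 1 / c)) ≤ N := by
    refine (Nat.le_ceil _).trans ?_
    exact_mod_cast (by omega : ⌈Real.exp 1 * (8 * C * (1 + 1 / c))⌉₊ ≤ N)
  obtain ⟨t, ht⟩ := hN0 N (by omega)
  have hpow : (0 : ℝ) ≤ (N : ℝ) ^ ((2 : ℝ) / 3) := by positivity
  have hlog : 0 < Real.log N := Real.log_pos (by exact_mod_cast (by omega : 1 < N))
  have hrow : ∀ r : ℕ, r < 2 → (Set.ncard {x : ℕ | x ≤ Hn N ∧ (N + x) % 2 = r ∧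
      ∃ a b : ℕ, 1 < a ∧ 1 < b ∧ pl (N + x) = a ^ b} : ℝ) ≤
      2 * D * (N : ℝ) ^ ((2 : ℝ) / 3) + (N : ℝ) ^ ((1 : ℝ) / 2) := by
    intro r hr
    obtain ⟨h, hAD⟩ := ht r hr
    refine FIN_row N r (h 0).re D (by positivity) hN3'
      (FIN_t c C t (h 0).re N hc hC hAD.ht hN3' hAD.hN hAD.h0' hbig) ?_ ?_
    · intro b hb hb2
      rcases le_total (b : ℝ) ((N : ℝ) ^ ((1 : ℝ) / 10 ^ 10)) with hcase | hcase
      · refine (hN1 N r (by omega) t h hAD b hb hcase).trans ?_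
        have : C1 ≤ D := (le_abs_self _).trans (le_add_of_nonneg_right (abs_nonneg _))
        gcongr
      · refine (hN2 N r (by omega) t h hAD b hcase hb2).trans ?_
        have : C2 ≤ D := (le_abs_self _).trans (le_add_of_nonneg_left (abs_nonneg _))
        gcongr
    · exact hN3 N r (by omega) t h hAD
  have hsub : {x : ℕ | x ≤ Hn N ∧ ∃ a b : ℕ, 1 < a ∧ 1 < b ∧ pl (N + x) = a ^ b} ⊆
      {x : ℕ | x ≤ Hn N ∧ (N + x) % 2 = 0 ∧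
        ∃ a b : ℕ, 1 < a ∧ 1 < b ∧ pl (N + x) = a ^ b} ∪
      {x : ℕ | x ≤ Hn N ∧ (N + x) % 2 = 1 ∧
        ∃ a b : ℕ, 1 < a ∧ 1 < b ∧ pl (N + x) = a ^ b} := by
    rintro x ⟨hx, hx2⟩
    rcases Nat.mod_two_eq_zero_or_one (N + x) with h | h
    · exact Or.inl ⟨hx, h, hx2⟩
    · exact Or.inr ⟨hx, h, hx2⟩
  have hcard := (Set.ncard_le_ncard hsub ((FIN_fin N _).union (FIN_fin N _))).trans
    (Set.ncard_union_le _ _)
  have hcard' : (Set.ncard {x : ℕ | x ≤ Hn N ∧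
      ∃ a b : ℕ, 1 < a ∧ 1 < b ∧ pl (N + x) = a ^ b} : ℝ) ≤
      (Set.ncard {x : ℕ | x ≤ Hn N ∧ (N + x) % 2 = 0 ∧
        ∃ a b : ℕ, 1 < a ∧ 1 < b ∧ pl (N + x) = a ^ b} : ℝ) +
      (Set.ncard {x : ℕ | x ≤ Hn N ∧ (N + x) % 2 = 1 ∧
        ∃ a b : ℕ, 1 < a ∧ 1 < b ∧ pl (N + x) = a ^ b} : ℝ) := by
    exact_mod_cast hcard
  have h0 := hrow 0 (by norm_num)
  have h1 := hrow 1 (by norm_num)
  have h2 := FIN_half N hN3'
  nlinarith

theorem FIN_Hn_mono {M N : ℕ} (h : M ≤ N) : Hn M ≤ Hn N := by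
  unfold Hn
  refine Nat.floor_mono ?_
  refine Real.rpow_le_rpow (Nat.cast_nonneg _) (by exact_mod_cast h) (by norm_num)

theorem FIN_step (X : ℕ) (hX : 10 ≤ X) :
    ∃ l : ℕ, l ≤ Hn (X - l) ∧ l ≤ X / 2 ∧
      (X : ℝ) ^ ((2 : ℝ) / 3 + 1 / 10 ^ 10) / 3 ≤ ((l + 1 : ℕ) : ℝ) := by
  have hX1 : (1 : ℝ) ≤ X := by exact_mod_cast (by omega : 1 ≤ X)
  refine ⟨min (Hn (X / 2)) (X / 2), ?_, min_le_right _ _, ?_⟩
  · refine (min_le_left _ _).trans (FIN_Hn_mono ?_)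
    have := min_le_right (Hn (X / 2)) (X / 2)
    omega
  · have h3 : (X : ℝ) ≤ 3 * ((X / 2 : ℕ) : ℝ) := by
      exact_mod_cast (by omega : X ≤ 3 * (X / 2))
    rcases min_choice (Hn (X / 2)) (X / 2) with h | h
    · rw [h]
      have h1 : (((X / 2 : ℕ) : ℝ)) ^ ((2 : ℝ) / 3 + 1 / 10 ^ 10) < ((Hn (X / 2) + 1 : ℕ) : ℝ) := by
        unfold Hn
        push_cast
        exact Nat.lt_floor_add_one _
      refine le_trans ?_ h1.le
      have h4 : (X : ℝ) ^ ((2 : ℝ) / 3 + 1 / 10 ^ 10) ≤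
          3 * ((X / 2 : ℕ) : ℝ) ^ ((2 : ℝ) / 3 + 1 / 10 ^ 10) := by
        calc (X : ℝ) ^ ((2 : ℝ) / 3 + 1 / 10 ^ 10)
            ≤ (3 * ((X / 2 : ℕ) : ℝ)) ^ ((2 : ℝ) / 3 + 1 / 10 ^ 10) :=
              Real.rpow_le_rpow (by positivity) h3 (by norm_num)
          _ = 3 ^ ((2 : ℝ) / 3 + 1 / 10 ^ 10) * ((X / 2 : ℕ) : ℝ) ^ ((2 : ℝ) / 3 + 1 / 10 ^ 10) :=
              Real.mul_rpow (by norm_num) (Nat.cast_nonneg _)
          _ ≤ 3 * ((X / 2 : ℕ) : ℝ) ^ ((2 : ℝ) / 3 + 1 / 10 ^ 10) := by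
              refine mul_le_mul_of_nonneg_right ?_ (by positivity)
              calc (3 : ℝ) ^ ((2 : ℝ) / 3 + 1 / 10 ^ 10) ≤ (3 : ℝ) ^ (1 : ℝ) :=
                    Real.rpow_le_rpow_of_exponent_le (by norm_num) (by norm_num)
                _ = 3 := Real.rpow_one 3
      linarith
    · rw [h]
      have h5 : (X : ℝ) ^ ((2 : ℝ) / 3 + 1 / 10 ^ 10) ≤ X := by
        calc (X : ℝ) ^ ((2 : ℝ) / 3 + 1 / 10 ^ 10) ≤ (X : ℝ) ^ (1 : ℝ) :=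
              Real.rpow_le_rpow_of_exponent_le hX1 (by norm_num)
          _ = X := Real.rpow_one _
      push_cast
      linarith

theorem FIN_conc (X k : ℕ) (hk : k ≤ X) (hX : 10 ≤ X)
    (h : (X : ℝ) ^ ((2 : ℝ) / 3 + 1 / 10 ^ 10) / 3 ≤ (k : ℝ)) :
    ((X - k : ℕ) : ℝ) ^ (1 - (1 : ℝ) / 10 ^ 10) ≤
      (X : ℝ) ^ (1 - (1 : ℝ) / 10 ^ 10) - (X : ℝ) ^ ((2 : ℝ) / 3) / 6 := by
  have hX0 : (0 : ℝ) < X := by exact_mod_cast (by omega : 0 < X)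
  have hkX : (k : ℝ) ≤ X := by exact_mod_cast hk
  have e1 : ((X - k : ℕ) : ℝ) = X * (1 + -(k / X)) := by
    rw [Nat.cast_sub hk]
    field_simp
    ring
  have hs : (-1 : ℝ) ≤ -((k : ℝ) / X) := by
    have : (k : ℝ) / X ≤ 1 := (div_le_one hX0).2 hkX
    linarith
  rw [e1, Real.mul_rpow hX0.le (by linarith)]
  have h1 := rpow_one_add_le_one_add_mul_self hs (p := 1 - (1 : ℝ) / 10 ^ 10) (by norm_num)
    (by norm_num)
  have h2 : (X : ℝ) ^ (1 - (1 : ℝ) / 10 ^ 10) * (X : ℝ) ^ ((2 : ℝ) / 3 + 1 / 10 ^ 10) =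
      (X : ℝ) ^ ((2 : ℝ) / 3) * X := by
    rw [← Real.rpow_add hX0]
    nth_rewrite 3 [← Real.rpow_one (X : ℝ)]
    rw [← Real.rpow_add hX0]
    congr 1
    norm_num
  have hp : (0 : ℝ) < (X : ℝ) ^ (1 - (1 : ℝ) / 10 ^ 10) := Real.rpow_pos_of_pos hX0 _
  have hq : (0 : ℝ) < (X : ℝ) ^ ((2 : ℝ) / 3) := Real.rpow_pos_of_pos hX0 _
  have h3 : (X : ℝ) ^ ((2 : ℝ) / 3) / 3 ≤ (X : ℝ) ^ (1 - (1 : ℝ) / 10 ^ 10) * (k / X) := by
    rw [← mul_div_assoc, le_div_iff₀ hX0]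
    calc (X : ℝ) ^ ((2 : ℝ) / 3) / 3 * X = ((X : ℝ) ^ ((2 : ℝ) / 3) * X) / 3 := by ring
      _ = (X : ℝ) ^ (1 - (1 : ℝ) / 10 ^ 10) *
          ((X : ℝ) ^ ((2 : ℝ) / 3 + 1 / 10 ^ 10) / 3) := by rw [← h2]; ring
      _ ≤ _ := mul_le_mul_of_nonneg_left h hp.le
  calc (X : ℝ) ^ (1 - (1 : ℝ) / 10 ^ 10) * (1 + -(k / X)) ^ (1 - (1 : ℝ) / 10 ^ 10)
      ≤ (X : ℝ) ^ (1 - (1 : ℝ) / 10 ^ 10) * (1 + (1 - (1 : ℝ) / 10 ^ 10) * -(k / X)) :=
        mul_le_mul_of_nonneg_left h1 hp.le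
    _ = (X : ℝ) ^ (1 - (1 : ℝ) / 10 ^ 10) -
        (1 - (1 : ℝ) / 10 ^ 10) * ((X : ℝ) ^ (1 - (1 : ℝ) / 10 ^ 10) * (k / X)) := by ring
    _ ≤ (X : ℝ) ^ (1 - (1 : ℝ) / 10 ^ 10) - (1 / 2) * ((X : ℝ) ^ ((2 : ℝ) / 3) / 3) := by
        have h4 : (1 / 2 : ℝ) * ((X : ℝ) ^ ((2 : ℝ) / 3) / 3) ≤
            (1 - (1 : ℝ) / 10 ^ 10) * ((X : ℝ) ^ (1 - (1 : ℝ) / 10 ^ 10) * (k / X)) :=
          mul_le_mul (by norm_num) h3 (by positivity) (by norm_num)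
        linarith
    _ = _ := by ring

theorem density : ∃ C : ℝ, ∀ X : ℕ, 1 ≤ X →
    (Set.ncard {n : ℕ | n ≤ X ∧ ∃ a b : ℕ, 1 < a ∧ 1 < b ∧ pl n = a ^ b} : ℝ) ≤
      C * (X : ℝ) ^ (1 - (1 : ℝ) / 10 ^ 10) := by
  obtain ⟨C, hC⟩ := window
  rw [Filter.eventually_atTop] at hC
  obtain ⟨N0, hN0⟩ := hC
  set A : ℝ := 6 * |C| + (2 * N0 + 10 + 1 : ℕ) with hA
  have hA0 : 0 ≤ A := by positivity
  refine ⟨A, ?_⟩
  intro X
  induction X using Nat.strong_induction_on with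
  | _ X ih =>
    intro hX1
    have hXr : (1 : ℝ) ≤ X := by exact_mod_cast hX1
    by_cases hsmall : X ≤ 2 * N0 + 10
    · have h1 : Set.ncard {n : ℕ | n ≤ X ∧ ∃ a b : ℕ, 1 < a ∧ 1 < b ∧ pl n = a ^ b} ≤ X + 1 := by
        have h2 : {n : ℕ | n ≤ X ∧ ∃ a b : ℕ, 1 < a ∧ 1 < b ∧ pl n = a ^ b} ⊆
            ((Finset.range (X + 1) : Finset ℕ) : Set ℕ) := by
          intro n hn
          rw [Finset.mem_coe, Finset.mem_range]
          exact Nat.lt_succ_of_le hn.1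
        have h3 := Set.ncard_le_ncard h2 (Finset.finite_toSet _)
        rwa [Set.ncard_coe_finset, Finset.card_range] at h3
      have h4 : (1 : ℝ) ≤ (X : ℝ) ^ (1 - (1 : ℝ) / 10 ^ 10) :=
        Real.one_le_rpow hXr (by norm_num)
      calc (Set.ncard {n : ℕ | n ≤ X ∧ ∃ a b : ℕ, 1 < a ∧ 1 < b ∧ pl n = a ^ b} : ℝ)
          ≤ ((X + 1 : ℕ) : ℝ) := by exact_mod_cast h1
        _ ≤ ((2 * N0 + 10 + 1 : ℕ) : ℝ) := by exact_mod_cast (by omega : X + 1 ≤ 2 * N0 + 10 + 1)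
        _ ≤ A := by
          rw [hA]
          have := abs_nonneg C
          linarith
        _ = A * 1 := (mul_one _).symm
        _ ≤ A * (X : ℝ) ^ (1 - (1 : ℝ) / 10 ^ 10) := mul_le_mul_of_nonneg_left h4 hA0
    · push Not at hsmall
      obtain ⟨l, hl1, hl2, hl3⟩ := FIN_step X (by omega)
      have hih := ih (X - (l + 1)) (by omega) (by omega)
      have hconc := FIN_conc X (l + 1) (by omega) (by omega) hl3
      have hwin := hN0 (X - l) (by omega)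
      set Q : Set ℕ := {n : ℕ | n ≤ X ∧ ∃ a b : ℕ, 1 < a ∧ 1 < b ∧ pl n = a ^ b} with hQ
      set Q1 : Set ℕ := {n : ℕ | n ≤ X - (l + 1) ∧ ∃ a b : ℕ, 1 < a ∧ 1 < b ∧ pl n = a ^ b}
        with hQ1
      set Q2 : Set ℕ := {x : ℕ | x ≤ Hn (X - l) ∧
        ∃ a b : ℕ, 1 < a ∧ 1 < b ∧ pl (X - l + x) = a ^ b} with hQ2
      have hsub : Q ⊆ Q1 ∪ (fun x => X - l + x) '' Q2 := by
        rintro n ⟨hn, hn2⟩
        by_cases hc : n ≤ X - (l + 1)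
        · exact Or.inl ⟨hc, hn2⟩
        · right
          push Not at hc
          refine ⟨n - (X - l), ⟨?_, ?_⟩, ?_⟩
          · omega
          · have e : X - l + (n - (X - l)) = n := by omega
            rw [e]
            exact hn2
          · show X - l + (n - (X - l)) = n
            omega
      have hfin1 : Q1.Finite := (Set.finite_Iic (X - (l + 1))).subset fun _ hx => hx.1
      have hfin2 : Q2.Finite := FIN_fin (X - l) _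
      have hcard : Q.ncard ≤ Q1.ncard + Q2.ncard :=
        ((Set.ncard_le_ncard hsub (hfin1.union (hfin2.image _))).trans
          (Set.ncard_union_le _ _)).trans (Nat.add_le_add_left (Set.ncard_image_le hfin2) _)
      have hcard' : (Q.ncard : ℝ) ≤ Q1.ncard + Q2.ncard := by exact_mod_cast hcard
      have h5 : ((X - l : ℕ) : ℝ) ^ ((2 : ℝ) / 3) ≤ (X : ℝ) ^ ((2 : ℝ) / 3) := by
        refine Real.rpow_le_rpow (Nat.cast_nonneg _) ?_ (by norm_num)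
        exact_mod_cast Nat.sub_le _ _
      have h6 : C * ((X - l : ℕ) : ℝ) ^ ((2 : ℝ) / 3) ≤ |C| * (X : ℝ) ^ ((2 : ℝ) / 3) := by
        refine mul_le_mul (le_abs_self _) h5 (by positivity) (abs_nonneg _)
      have h7 : A * ((X - (l + 1) : ℕ) : ℝ) ^ (1 - (1 : ℝ) / 10 ^ 10) ≤
          A * ((X : ℝ) ^ (1 - (1 : ℝ) / 10 ^ 10) - (X : ℝ) ^ ((2 : ℝ) / 3) / 6) :=
        mul_le_mul_of_nonneg_left hconc hA0
      have h8 : |C| * (X : ℝ) ^ ((2 : ℝ) / 3) ≤ A * ((X : ℝ) ^ ((2 : ℝ) / 3) / 6) := by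
        have h9 : 0 ≤ (X : ℝ) ^ ((2 : ℝ) / 3) := by positivity
        have h10 : 6 * |C| ≤ A := by
          rw [hA]
          have : (0 : ℝ) ≤ ((2 * N0 + 10 + 1 : ℕ) : ℝ) := Nat.cast_nonneg _
          linarith
        nlinarith
      linarith

end Pool.Agent.MP7629b0
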