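import Pool.Agent.Lib.MP_7629b0_nt.Defs

/-! PPP (MP_7629b0_nt), module TAY: splitting of the Taylor series. -/

namespace Pool.Agent.MP7629b0

open Complex

theorem TAY_iteratedDeriv_poly (P : Polynomial ℂ) (n : ℕ) :
    iteratedDeriv n (fun x => P.eval x) = fun x => (Polynomial.derivative^[n] P).eval x := by
  induction n with
  | zero => simp
  | succ n ih =>
    rw [iteratedDeriv_succ, ih]
    funext x
    rw [Polynomial.deriv, Function.iterate_succ_apply']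

theorem tay (G Φ : ℂ → ℂ) (P : Polynomial ℂ) (m m2 : ℕ) (hP : P.degree < (m : WithBot ℕ))
    (hm : m ≤ m2) (r ρ1 ρ2 B1 B2 Ψ : ℝ) (hr : 0 < r) (hρ1 : 0 < ρ1) (h12 : ρ1 < ρ2) (hr2 : r ≤ ρ2)
    (hG : DiffContOnCl ℂ G (Metric.ball 0 ρ2)) (hΦ : ∀ w : ℂ, ‖w‖ ≤ r → Φ w = P.eval w + G w)
    (hB1 : ∀ w : ℂ, ‖w‖ ≤ ρ1 → ‖G w‖ ≤ B1) (hB2 : ∀ w : ℂ, ‖w‖ ≤ ρ2 → ‖G w‖ ≤ B2)
    (hΨ : ∀ w : ℂ, ‖w‖ ≤ r → ‖Φ w‖ ≤ Ψ) (w : ℂ) (hw1 : ρ1 ≤ ‖w‖) (hwr : r ≤ ‖w‖)
    (hw2 : ‖w‖ < ρ2) :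
    ‖G w‖ ≤ m * B1 * (‖w‖ / ρ1) ^ m + m2 * Ψ * (‖w‖ / r) ^ m2 +
      B2 * (‖w‖ / ρ2) ^ m2 / (1 - ‖w‖ / ρ2) := by
  have hρ2 : 0 < ρ2 := hρ1.trans h12
  have hB10 : 0 ≤ B1 := (norm_nonneg (G 0)).trans (hB1 0 (by simpa using hρ1.le))
  have hB20 : 0 ≤ B2 := (norm_nonneg (G 0)).trans (hB2 0 (by simpa using hρ2.le))
  have hΨ0 : 0 ≤ Ψ := (norm_nonneg (Φ 0)).trans (hΨ 0 (by simpa using hr.le))
  have hw0 : 0 < ‖w‖ := hr.trans_le hwr
  set A : ℕ → ℂ := fun n => (n.factorial : ℂ)⁻¹ * (w ^ n * iteratedDeriv n G 0) with hA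
  have hsum : HasSum A (G w) := by
    have h := Complex.hasSum_taylorSeries_on_ball (f := G) (c := 0) (r := ρ2)
      hG.differentiableOn (z := w) (by simpa using hw2)
    simpa [hA, smul_eq_mul] using h
  have hfac : ∀ n : ℕ, (0 : ℝ) < n.factorial := fun n => by exact_mod_cast n.factorial_pos
  have hterm : ∀ (n : ℕ) (ρ B : ℝ), 0 < ρ → ‖iteratedDeriv n G 0‖ ≤ n.factorial * B / ρ ^ n →
      ‖A n‖ ≤ B * (‖w‖ / ρ) ^ n := by
    intro n ρ B hρ hb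
    have h1 : ‖A n‖ = (n.factorial : ℝ)⁻¹ * (‖w‖ ^ n * ‖iteratedDeriv n G 0‖) := by
      simp [hA]
    rw [h1]
    have h2 : (n.factorial : ℝ)⁻¹ * (‖w‖ ^ n * ‖iteratedDeriv n G 0‖) ≤
        (n.factorial : ℝ)⁻¹ * (‖w‖ ^ n * (n.factorial * B / ρ ^ n)) := by
      have := hfac n
      gcongr
    refine h2.trans (le_of_eq ?_)
    have := (hfac n).ne'
    rw [div_pow]
    field_simp
  -- first range
  have hT1 : ∀ n : ℕ, n < m → ‖A n‖ ≤ B1 * (‖w‖ / ρ1) ^ m := by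
    intro n hn
    have h1 : ‖iteratedDeriv n G 0‖ ≤ n.factorial * B1 / ρ1 ^ n :=
      Complex.norm_iteratedDeriv_le_of_forall_mem_sphere_norm_le n hρ1
        (hG.mono (Metric.ball_subset_ball h12.le)) fun z hz => hB1 z (by
          have := mem_sphere_zero_iff_norm.1 hz
          exact this.le)
    refine (hterm n ρ1 B1 hρ1 h1).trans ?_
    have h2 : 1 ≤ ‖w‖ / ρ1 := (one_le_div hρ1).2 hw1
    exact mul_le_mul_of_nonneg_left (pow_le_pow_right₀ h2 hn.le) hB10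
  -- second range
  have hT2 : ∀ n : ℕ, m ≤ n → n < m2 → ‖A n‖ ≤ Ψ * (‖w‖ / r) ^ m2 := by
    intro n hmn hn
    set Φ' : ℂ → ℂ := fun z => P.eval z + G z with hΦ'
    have hPd : DiffContOnCl ℂ (fun z => P.eval z) (Metric.ball 0 r) :=
      (P.differentiable).diffContOnCl
    have hGr : DiffContOnCl ℂ G (Metric.ball 0 r) := hG.mono (Metric.ball_subset_ball hr2)
    have hΦd : DiffContOnCl ℂ Φ' (Metric.ball 0 r) := hPd.add hGr
    have h1 : ‖iteratedDeriv n Φ' 0‖ ≤ n.factorial * Ψ / r ^ n :=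
      Complex.norm_iteratedDeriv_le_of_forall_mem_sphere_norm_le n hr hΦd fun z hz => by
        have h2 : ‖z‖ ≤ r := (mem_sphere_zero_iff_norm.1 hz).le
        have h3 := hΨ z h2
        rwa [hΦ z h2] at h3
    have hGan : AnalyticAt ℂ G 0 :=
      (hG.differentiableOn.analyticAt (Metric.ball_mem_nhds 0 hρ2))
    have h4 : iteratedDeriv n Φ' 0 = iteratedDeriv n G 0 := by
      have h5 : iteratedDeriv n ((fun z => P.eval z) + G) 0 =
          iteratedDeriv n (fun z => P.eval z) 0 + iteratedDeriv n G 0 :=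
        iteratedDeriv_add (P.differentiable.contDiff.contDiffAt) (hGan.contDiffAt)
      have h6 : Φ' = (fun z => P.eval z) + G := rfl
      rw [h6, h5, TAY_iteratedDeriv_poly]
      have h7 : Polynomial.derivative^[n] P = 0 := by
        rcases eq_or_ne P 0 with h8 | h8
        · rw [h8]; simp
        · apply Polynomial.iterate_derivative_eq_zero
          have h9 := (Polynomial.natDegree_lt_iff_degree_lt h8).2 hP
          omega
      simp only [h7, Polynomial.eval_zero, zero_add]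
    rw [h4] at h1
    refine (hterm n r Ψ hr h1).trans ?_
    have h2 : 1 ≤ ‖w‖ / r := (one_le_div hr).2 hwr
    exact mul_le_mul_of_nonneg_left (pow_le_pow_right₀ h2 hn.le) hΨ0
  -- third range
  set x : ℝ := ‖w‖ / ρ2 with hx
  have hx0 : 0 ≤ x := by positivity
  have hx1 : x < 1 := (div_lt_one hρ2).2 hw2
  have hT3 : ∀ n : ℕ, ‖A n‖ ≤ B2 * x ^ n := by
    intro n
    have h1 : ‖iteratedDeriv n G 0‖ ≤ n.factorial * B2 / ρ2 ^ n :=
      Complex.norm_iteratedDeriv_le_of_forall_mem_sphere_norm_le n hρ2 hG fun z hz =>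
        hB2 z (mem_sphere_zero_iff_norm.1 hz).le
    exact hterm n ρ2 B2 hρ2 h1
  have hsplit : G w = ∑ n ∈ Finset.range m2, A n + ∑' n, A (n + m2) := by
    rw [← hsum.tsum_eq]
    exact (hsum.summable.sum_add_tsum_nat_add m2).symm
  have htail : ‖∑' n, A (n + m2)‖ ≤ B2 * x ^ m2 / (1 - x) := by
    have h1 : HasSum (fun n : ℕ => B2 * x ^ m2 * x ^ n) (B2 * x ^ m2 * (1 - x)⁻¹) :=
      (hasSum_geometric_of_lt_one hx0 hx1).mul_left _
    rw [div_eq_mul_inv]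
    refine tsum_of_norm_bounded h1 fun n => ?_
    refine (hT3 (n + m2)).trans (le_of_eq ?_)
    rw [pow_add]
    ring
  have hhead : ‖∑ n ∈ Finset.range m2, A n‖ ≤
      m * B1 * (‖w‖ / ρ1) ^ m + m2 * Ψ * (‖w‖ / r) ^ m2 := by
    refine (norm_sum_le _ _).trans ?_
    rw [Finset.range_eq_Ico, ← Finset.sum_Ico_consecutive _ (Nat.zero_le m) hm]
    refine add_le_add ?_ ?_
    · calc ∑ n ∈ Finset.Ico 0 m, ‖A n‖ ≤ ∑ n ∈ Finset.Ico 0 m, B1 * (‖w‖ / ρ1) ^ m :=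
            Finset.sum_le_sum fun n hn => hT1 n (Finset.mem_Ico.1 hn).2
        _ = m * B1 * (‖w‖ / ρ1) ^ m := by
            rw [Finset.sum_const, Nat.card_Ico, nsmul_eq_mul, Nat.sub_zero]
            ring
    · calc ∑ n ∈ Finset.Ico m m2, ‖A n‖ ≤ ∑ n ∈ Finset.Ico m m2, Ψ * (‖w‖ / r) ^ m2 :=
            Finset.sum_le_sum fun n hn => hT2 n (Finset.mem_Ico.1 hn).1 (Finset.mem_Ico.1 hn).2
        _ = ((m2 - m : ℕ) : ℝ) * (Ψ * (‖w‖ / r) ^ m2) := by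
            rw [Finset.sum_const, Nat.card_Ico, nsmul_eq_mul]
        _ ≤ (m2 : ℝ) * (Ψ * (‖w‖ / r) ^ m2) := by
            refine mul_le_mul_of_nonneg_right ?_ (by positivity)
            exact_mod_cast Nat.sub_le m2 m
        _ = m2 * Ψ * (‖w‖ / r) ^ m2 := by ring
  rw [hsplit]
  exact (norm_add_le _ _).trans (add_le_add hhead htail)

end Pool.Agent.MP7629b0
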