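import Pool.Agent.Lib.MP_7629b0_nt.Defs
import Pool.Agent.Lib.MP_7629b0_nt.BP
import Pool.Agent.Lib.MP_7629b0_nt.NEWT
import Pool.Agent.Lib.MP_7629b0_nt.NODE
import Pool.Agent.Lib.MP_7629b0_nt.BW
import Pool.Agent.Lib.MP_7629b0_nt.TAY

/-!
# PPP (MP_7629b0_nt), module NA1: the contradiction for small exponents
-/

namespace Pool.Agent.MP7629b0

open Complex

/-- consequences of the hypotheses, numerical part -/
structure NA1num (H R lam kap y : ℝ) (m : ℕ) (D : ℝ) : Prop where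
  hD : D = Real.log (R / H)
  D6 : 10 ^ 6 ≤ D
  m8 : (10 : ℝ) ^ 8 ≤ m
  mD : m * D ≤ 1.051 * y
  mD' : 1.05 * y ≤ m * D
  my : (m : ℝ) ≤ 1.051 * y / 10 ^ 6
  Dy : D ≤ 1.051 * y / 10 ^ 8
  RH : R = H * Real.exp D
  R16 : 16 * H ≤ R

theorem NA1_num {S : Finset ℕ} {H R lam kap y E : ℝ} {m : ℕ} {g : ℂ → ℂ} {a : ℕ → ℤ}
    (h : G1 S H R lam kap y E m g a) : NA1num H R lam kap y m (Real.log (R / H)) := by
  have hH : 0 < H := lt_of_lt_of_le one_pos h.hH
  have hR : 0 < R := hH.trans h.hR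
  have hD := h.h4
  have hm : (10 : ℝ) ^ 8 ≤ m := by exact_mod_cast h.h5
  have h1 := h.h1
  have h2 := h.h1'
  refine ⟨rfl, hD, hm, by linarith, by linarith, ?_, ?_, ?_, ?_⟩
  · have : (m : ℝ) * 10 ^ 6 ≤ m * Real.log (R / H) := by
      apply mul_le_mul_of_nonneg_left hD (by positivity)
    rw [le_div_iff₀ (by positivity)]
    linarith
  · have : (10 : ℝ) ^ 8 * Real.log (R / H) ≤ m * Real.log (R / H) := by
      apply mul_le_mul_of_nonneg_right hm (by linarith)
    rw [le_div_iff₀ (by positivity)]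
    linarith
  · rw [Real.exp_log (by positivity)]
    field_simp
  · have h3 : Real.exp 3 ≤ R / H := by
      rw [← Real.log_le_log_iff (Real.exp_pos _) (by positivity), Real.log_exp]
      linarith
    have h4 : (16 : ℝ) ≤ Real.exp 3 := by
      have := Real.exp_one_gt_d9
      have h5 : Real.exp 3 = Real.exp 1 ^ 3 := by rw [← Real.exp_nat_mul]; norm_num
      rw [h5]
      nlinarith [pow_le_pow_left₀ (by norm_num) this.le 3]
    rw [le_div_iff₀ hH] at h3
    nlinarith

/-- `(4H)^n / n!` is small on our scale -/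
theorem NA1_fact {H D : ℝ} {m n : ℕ} (hH : 0 < H) (hm : 0 < m) (hn : m ≤ n)
    (h2 : Real.log (11 * H / m) ≤ 1 / 10 ^ 9 * D) :
    (4 * H) ^ n / n.factorial ≤ Real.exp (n * (1 / 10 ^ 9 * D)) := by
  have hm' : (0 : ℝ) < m := by exact_mod_cast hm
  have hn' : (0 : ℝ) < n := lt_of_lt_of_le hm' (by exact_mod_cast hn)
  have h1 : (n : ℝ) ^ n / n.factorial ≤ Real.exp n := Real.pow_div_factorial_le_exp n hn'.le n
  have h3 : (4 * H) ^ n / n.factorial = (4 * H / n) ^ n * ((n : ℝ) ^ n / n.factorial) := by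
    rw [div_pow]
    field_simp
  rw [h3]
  have h4 : 4 * H / n * Real.exp 1 ≤ 11 * H / m := by
    have h5 := Real.exp_one_lt_d9
    have h6 : 4 * H / n ≤ 4 * H / m := by
      apply div_le_div_of_nonneg_left (by positivity) hm' (by exact_mod_cast hn)
    calc 4 * H / n * Real.exp 1 ≤ 4 * H / m * Real.exp 1 := by gcongr
      _ ≤ 4 * H / m * (11 / 4) := by gcongr; linarith
      _ = 11 * H / m := by ring
  calc (4 * H / n) ^ n * ((n : ℝ) ^ n / n.factorial) ≤ (4 * H / n) ^ n * Real.exp n := by gcongr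
    _ = (4 * H / n * Real.exp 1) ^ n := by
        rw [mul_pow, ← Real.exp_nat_mul, mul_one]
    _ ≤ (11 * H / m) ^ n := by gcongr
    _ = Real.exp (n * Real.log (11 * H / m)) := by
        rw [Real.exp_nat_mul, Real.exp_log (by positivity)]
    _ ≤ _ := by
        apply Real.exp_le_exp.mpr
        gcongr

/-- `Φ = P + Q g` is very small on `|w| ≤ H` -/
theorem NA1_psi (S : Finset ℕ) (H R lam kap y E : ℝ) (m : ℕ) (g : ℂ → ℂ) (a : ℕ → ℤ)
    (h : G1 S H R lam kap y E m g a) (hS : (107 / 100 : ℝ) * m < S.card)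
    (Q P : Polynomial ℂ)
    (hQ : ∀ w : ℂ, ‖w‖ ≤ R → ‖Q.eval w‖ ≤ Real.exp (y / 2000))
    (hPQ : ∀ x ∈ S, P.eval (x : ℂ) + Q.eval (x : ℂ) * (a x : ℤ) = 0)
    (hΦ : ∀ w : ℂ, ‖w‖ ≤ R / 2 → ‖P.eval w + Q.eval w * g w‖ ≤
      Real.exp ((1 + 1 / 1000) * y)) :
    ∀ w : ℂ, ‖w‖ ≤ H → ‖P.eval w + Q.eval w * g w‖ ≤
      Real.exp (-(129 / 1000) * y) +
        Real.exp (1.06 * m * (3 - Real.log (R / H)) + 1.001 * y) := by
  have hnum := NA1_num h
  set D := Real.log (R / H) with hD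
  have hH : 0 < H := lt_of_lt_of_le one_pos h.hH
  have hR : 0 < R := hH.trans h.hR
  have hy := h.hy
  have hm8 := hnum.m8
  have hm0 : (0 : ℝ) < m := lt_of_lt_of_le (by norm_num) hm8
  set m3 : ℕ := ⌈1.06 * (m : ℝ)⌉₊ with hm3
  have h31 : 1.06 * (m : ℝ) ≤ m3 := Nat.le_ceil _
  have h32 : (m3 : ℝ) < 1.06 * m + 1 := Nat.ceil_lt_add_one (by positivity)
  have h33 : m3 ≤ S.card := by
    have : (m3 : ℝ) < S.card := by
      have : (107 / 100 : ℝ) * m = 1.06 * m + 0.01 * m := by ring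
      nlinarith
    exact_mod_cast this.le
  have h34 : 1 ≤ m3 := by
    have : (1 : ℝ) ≤ m3 := by nlinarith
    exact_mod_cast this
  set x : Fin m3 → ℕ := fun l => S.orderEmbOfCardLe h33 l with hx
  have hxS : ∀ l, x l ∈ S := fun l => S.orderEmbOfCardLe_mem h33 l
  have hxinj : Function.Injective x := (S.orderEmbOfCardLe h33).injective
  have hxH : ∀ l, (x l : ℝ) ≤ H := fun l => h.hS _ (hxS l)
  have hR16 := hnum.R16
  have hHR2 : H < R / 2 := by linarith
  set Φ : ℂ → ℂ := fun w => P.eval w + Q.eval w * g w with hΦd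
  have hgd : DiffContOnCl ℂ g (Metric.ball 0 (R / 2)) :=
    h.hg.mono (Metric.ball_subset_ball (by linarith))
  have hΦdiff : DiffContOnCl ℂ Φ (Metric.ball 0 (R / 2)) := by
    refine DiffContOnCl.add (P.differentiable.diffContOnCl) ?_
    exact (Q.differentiable.diffContOnCl).smul hgd
  obtain ⟨p, hp1, hp2, hp3⟩ := newton (R / 2) H hH.le hHR2 m3 (fun l => ((x l : ℕ) : ℂ))
    (fun i j hij => hxinj (Nat.cast_injective hij)) (fun l => by
      rw [Complex.norm_natCast]; exact hxH l) Φ hΦdiff (Real.exp ((1 + 1 / 1000) * y)) hΦ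
  have hE0 : 0 ≤ E := by
    have h1 := h.hE (x ⟨0, h34⟩) (hxS _)
    exact (norm_nonneg _).trans h1
  have hval : ∀ l, ‖p.eval ((x l : ℕ) : ℂ)‖ ≤ Real.exp (y / 2000) * E := by
    intro l
    rw [hp2 l]
    have h1 : Φ ((x l : ℕ) : ℂ) = -(Q.eval ((x l : ℕ) : ℂ) * (((a (x l) : ℤ) : ℂ) - g (x l))) := by
      have h2 := hPQ (x l) (hxS l)
      simp only [hΦd]
      linear_combination h2
    rw [h1, norm_neg, norm_mul]
    refine mul_le_mul (hQ _ ?_) (h.hE _ (hxS l)) (norm_nonneg _) (Real.exp_pos _).le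
    rw [Complex.norm_natCast]
    linarith [hxH l]
  intro w hw
  have hnode := node m3 h34 x hxinj H hxH p hp1 (Real.exp (y / 2000) * E) hval w
  have hnewt := hp3 w (hw.trans hHR2.le)
  have htri : ‖Φ w‖ ≤ ‖Φ w - p.eval w‖ + ‖p.eval w‖ := by
    calc ‖Φ w‖ = ‖(Φ w - p.eval w) + p.eval w‖ := by ring_nf
      _ ≤ _ := norm_add_le _ _
  -- the node part
  have hlogm : Real.log m3 ≤ 1.2 * y / 10 ^ 6 := by
    have h1 : Real.log m3 ≤ m3 - 1 := Real.log_le_sub_one_of_pos (by exact_mod_cast h34)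
    have h2 := hnum.my
    have h3 : (m3 : ℝ) - 1 ≤ 1.06 * m := by linarith
    nlinarith
  have hA : ‖p.eval w‖ ≤ Real.exp (-(129 / 1000) * y) := by
    refine hnode.trans ?_
    have hn : m ≤ m3 - 1 := by
      have h1 : (m : ℝ) + 1 ≤ m3 := by nlinarith
      have h2 : m + 1 ≤ m3 := by exact_mod_cast h1
      omega
    have hf := NA1_fact (D := D) hH (by exact_mod_cast hm0) hn h.h2
    have hc : ((m3 - 1 : ℕ) : ℝ) = m3 - 1 := by
      push_cast [Nat.cast_sub h34]
      ring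
    have h5 : (2 * (‖w‖ + H)) ^ (m3 - 1) / (m3 - 1).factorial ≤
        Real.exp (2 * y / 10 ^ 9) := by
      calc (2 * (‖w‖ + H)) ^ (m3 - 1) / (m3 - 1).factorial
          ≤ (4 * H) ^ (m3 - 1) / (m3 - 1).factorial := by
            have h51 : 2 * (‖w‖ + H) ≤ 4 * H := by linarith
            have h52 : 0 ≤ 2 * (‖w‖ + H) := by positivity
            exact div_le_div_of_nonneg_right (pow_le_pow_left₀ h52 h51 _) (by positivity)
        _ ≤ _ := hf
        _ ≤ _ := by
            apply Real.exp_le_exp.mpr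
            rw [hc]
            have h6 := hnum.mD
            have h7 : ((m3 : ℝ) - 1) * D ≤ 1.06 * m * D := by
              have : 0 ≤ D := by linarith [hnum.D6]
              gcongr
              linarith
            nlinarith
    have h6 : (m3 : ℝ) = Real.exp (Real.log m3) := by
      rw [Real.exp_log (by exact_mod_cast h34)]
    calc m3 * (Real.exp (y / 2000) * E) * (2 * (‖w‖ + H)) ^ (m3 - 1) / (m3 - 1).factorial
        = m3 * (Real.exp (y / 2000) * E) * ((2 * (‖w‖ + H)) ^ (m3 - 1) / (m3 - 1).factorial) := by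
          ring
      _ ≤ Real.exp (1.2 * y / 10 ^ 6) * (Real.exp (y / 2000) * Real.exp (-(13 / 100) * y)) *
          Real.exp (2 * y / 10 ^ 9) := by
          gcongr
          · rw [h6]
            exact Real.exp_le_exp.mpr hlogm
          · exact h.hE1
      _ = Real.exp (1.2 * y / 10 ^ 6 + (y / 2000 + -(13 / 100) * y) + 2 * y / 10 ^ 9) := by
          rw [Real.exp_add, Real.exp_add, Real.exp_add]
      _ ≤ _ := by
          apply Real.exp_le_exp.mpr
          nlinarith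
  -- the Newton part
  have hB : ‖Φ w - p.eval w‖ ≤ Real.exp (1.06 * m * (3 - D) + 1.001 * y) := by
    refine hnewt.trans ?_
    have h5 : ∏ l, ‖w - ((x l : ℕ) : ℂ)‖ ≤ (2 * H) ^ m3 := by
      calc ∏ l, ‖w - ((x l : ℕ) : ℂ)‖ ≤ ∏ _l : Fin m3, (2 * H) := by
            apply Finset.prod_le_prod (fun _ _ => norm_nonneg _)
            intro l _
            calc ‖w - ((x l : ℕ) : ℂ)‖ ≤ ‖w‖ + ‖((x l : ℕ) : ℂ)‖ := norm_sub_le _ _
              _ ≤ H + H := by
                  rw [Complex.norm_natCast]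
                  exact add_le_add hw (hxH l)
              _ = 2 * H := by ring
        _ = (2 * H) ^ m3 := by simp
    have h6 : 2 / (R / 2 - H) ≤ 8 / R := by
      rw [div_le_div_iff₀ (by linarith) hR]
      nlinarith
    have h7 : 2 * H * (8 / R) ≤ Real.exp (3 - D) := by
      rw [Real.exp_sub]
      have h8 : (16 : ℝ) ≤ Real.exp 3 := by
        have := Real.exp_one_gt_d9
        have h5 : Real.exp 3 = Real.exp 1 ^ 3 := by rw [← Real.exp_nat_mul]; norm_num
        rw [h5]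
        nlinarith [pow_le_pow_left₀ (by norm_num) this.le 3]
      have h9 : Real.exp D = R / H := by
        rw [hD, Real.exp_log (by positivity)]
      rw [h9]
      calc 2 * H * (8 / R) = 16 / (R / H) := by field_simp; ring
        _ ≤ _ := by gcongr
    have h34' : 0 ≤ 2 / (R / 2 - H) := by
      apply div_nonneg (by norm_num); linarith
    calc (∏ l, ‖w - ((x l : ℕ) : ℂ)‖) * (2 / (R / 2 - H)) ^ m3 * Real.exp ((1 + 1 / 1000) * y)
        ≤ (2 * H) ^ m3 * (8 / R) ^ m3 * Real.exp ((1 + 1 / 1000) * y) := by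
          gcongr
      _ = (2 * H * (8 / R)) ^ m3 * Real.exp ((1 + 1 / 1000) * y) := by rw [mul_pow (2 * H)]
      _ ≤ (Real.exp (3 - D)) ^ m3 * Real.exp ((1 + 1 / 1000) * y) := by gcongr
      _ = Real.exp (m3 * (3 - D) + (1 + 1 / 1000) * y) := by
          rw [← Real.exp_nat_mul, Real.exp_add]
      _ ≤ _ := by
          apply Real.exp_le_exp.mpr
          have h8 := hnum.D6
          have : (m3 : ℝ) * (3 - D) ≤ 1.06 * m * (3 - D) :=
            mul_le_mul_of_nonpos_right h31 (by linarith)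
          linarith
  show ‖Φ w‖ ≤ _
  linarith

theorem NA1_exp1 : (1.02506 : ℝ) ≤ Real.exp 0.02476 := by
  have := Real.quadratic_le_exp_of_nonneg (x := 0.02476) (by norm_num)
  refine le_trans ?_ this
  norm_num

theorem NA1_exp2 : (0.97624 : ℝ) ≤ Real.exp (-0.024) := by
  have h1 : (0.997 : ℝ) ≤ Real.exp (-0.003) := by
    have := Real.add_one_le_exp (-0.003 : ℝ)
    linarith
  have h2 : Real.exp (-0.024) = Real.exp (-0.003) ^ 8 := by
    rw [← Real.exp_nat_mul]
    norm_num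
  rw [h2]
  refine le_trans ?_ (pow_le_pow_left₀ (by norm_num) h1 8)
  norm_num

theorem NA1_logm (m : ℝ) (hm8 : (10:ℝ)^8 ≤ m) : Real.log m ≤ 2e-6 * m := by
  have hm0 : 0 < m := lt_of_lt_of_le (by norm_num) hm8
  have h1 := Real.log_le_sub_one_of_pos (x := m / 10 ^ 6) (by positivity)
  rw [Real.log_div (by positivity) (by norm_num)] at h1
  have h2 : Real.log ((10 : ℝ) ^ 6) ≤ 20 := by
    rw [Real.log_le_iff_le_exp (by norm_num)]
    have := Real.exp_one_gt_d9
    have h5 : Real.exp 20 = Real.exp 1 ^ 20 := by rw [← Real.exp_nat_mul]; norm_num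
    rw [h5]
    refine le_trans ?_ (pow_le_pow_left₀ (by norm_num) this.le 20)
    norm_num
  generalize Real.log ((10 : ℝ) ^ 6) = L at h1 h2
  have h3 : m / 10 ^ 6 - 1 + 20 ≤ 2e-6 * m := by
    norm_num at hm8 ⊢
    linarith only [hm8]
  linarith only [h1, h2, h3]

theorem na1 (S : Finset ℕ) (H R lam kap y E : ℝ) (m : ℕ) (g : ℂ → ℂ) (a : ℕ → ℤ)
    (h : G1 S H R lam kap y E m g a) (hS : (107 / 100 : ℝ) * m < S.card)
    (J : ℕ) (q : Fin J → ℤ) (P : Polynomial ℂ) (hJ1 : 1 ≤ J) (hJ : (J : ℝ) ≤ (501 / 10 ^ 8) * m)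
    (hq : q ≠ 0) (hP : P.degree < (m : WithBot ℕ))
    (hQ : ∀ w : ℂ, ‖w‖ ≤ R → ‖(binPoly q).eval w‖ ≤ Real.exp (y / 2000))
    (hPQ : ∀ x ∈ S, P.eval (x : ℂ) + (binPoly q).eval (x : ℂ) * (a x : ℤ) = 0)
    (hΦ : ∀ w : ℂ, ‖w‖ ≤ R / 2 → ‖P.eval w + (binPoly q).eval w * g w‖ ≤
      Real.exp ((1 + 1 / 1000) * y)) : False := by
  have hnum := NA1_num h
  have hΨ := NA1_psi S H R lam kap y E m g a h hS (binPoly q) P hQ hPQ hΦ
  set D := Real.log (R / H) with hD
  have hH : 0 < H := lt_of_lt_of_le one_pos h.hH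
  have hR : 0 < R := hH.trans h.hR
  have hy := h.hy
  have hlam := h.hlam
  have hkap := h.hkap
  have hm8 := hnum.m8
  have hm0 : (0 : ℝ) < m := lt_of_lt_of_le (by norm_num) hm8
  have h6 := h.h6
  have h8 := h.h8
  have h9 := h.h9
  have h2' := h.h2'
  set Q := binPoly q with hQd
  set m2 : ℕ := ⌈1.05 * (m : ℝ)⌉₊ with hm2
  have h21 : 1.05 * (m : ℝ) ≤ m2 := Nat.le_ceil _
  have h22 : (m2 : ℝ) ≤ 1.0500001 * m := by
    have : (m2 : ℝ) < 1.05 * m + 1 := Nat.ceil_lt_add_one (by positivity)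
    nlinarith
  have hm2pos : (0 : ℝ) < m2 := by nlinarith
  have hmm2 : m ≤ m2 := by
    have : (m : ℝ) ≤ m2 := by nlinarith
    exact_mod_cast this
  set ρ1 : ℝ := m / lam with hρ1
  set ρ2 : ℝ := m2 / lam with hρ2
  have hρ1pos : 0 < ρ1 := by positivity
  have hρ2pos : 0 < ρ2 := by positivity
  have h12 : ρ1 < ρ2 := by
    rw [hρ1, hρ2]
    exact div_lt_div_of_pos_right (by linarith) hlam
  have hHρ : 2 * H ≤ ρ1 := by
    rw [hρ1, le_div_iff₀ hlam]
    linarith
  have hρR : ρ2 ≤ R / 2 := by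
    rw [hρ2, div_le_iff₀ hlam]
    nlinarith
  set c0 : ℝ := 1.025 * m / lam with hc0
  have hc0pos : 0 < c0 := by positivity
  set ε : ℝ := 0.00005 * c0 with hε
  have hεpos : 0 < ε := by positivity
  obtain ⟨v, hv1, hv2, hv3⟩ := bw_exists J Q (binPoly_degree q) (c0 : ℂ) ε hεpos
  have hnc0 : ‖(c0 : ℂ)‖ = c0 := by
    rw [Complex.norm_real, Real.norm_of_nonneg hc0pos.le]
  -- size of v
  have hvlo : c0 * (1 - 0.00005) ≤ ‖v‖ := by
    have h1 : ‖(c0 : ℂ)‖ ≤ ‖v‖ + ‖v - c0‖ := by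
      calc ‖(c0 : ℂ)‖ = ‖v - (v - c0)‖ := by ring_nf
        _ ≤ _ := norm_sub_le _ _
    rw [hnc0] at h1
    rw [hε] at hv1
    linarith
  have hvhi : ‖v‖ ≤ c0 * (1 + 0.00005) := by
    have h1 : ‖v‖ ≤ ‖(c0 : ℂ)‖ + ‖v - c0‖ := by
      calc ‖v‖ = ‖(c0 : ℂ) + (v - c0)‖ := by ring_nf
        _ ≤ _ := norm_add_le _ _
    rw [hnc0] at h1
    rw [hε] at hv1
    linarith
  have hvre : c0 * (1 - 0.00005) ≤ v.re := by
    have h1 : |(v - c0).re| ≤ ‖v - c0‖ := Complex.abs_re_le_norm _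
    have h2 : (v - c0).re = v.re - c0 := by simp
    rw [h2] at h1
    have h3 := (abs_le.mp (h1.trans hv1)).1
    rw [hε] at h3
    linarith
  have hlc : lam * c0 = 1.025 * m := by rw [hc0]; field_simp
  have hv_ρ1 : ρ1 ≤ ‖v‖ := by
    refine le_trans ?_ hvlo
    have h5 : ρ1 = c0 * (1 / 1.025) := by rw [hc0, hρ1]; field_simp
    rw [h5]
    exact mul_le_mul_of_nonneg_left (by norm_num) hc0pos.le
  have hv_ρ2 : ‖v‖ < ρ2 := by
    refine lt_of_le_of_lt hvhi ?_
    rw [hρ2, lt_div_iff₀ hlam]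
    have h5 : c0 * (1 + 0.00005) * lam = lam * c0 * (1 + 0.00005) := by ring
    rw [h5, hlc]
    linarith
  have hv_R : ‖v‖ ≤ R := by linarith
  -- comparison of Q with its value at v
  set q1 : ℝ := ‖Q.eval v‖ with hq1
  have hq10 : 0 ≤ q1 := norm_nonneg _
  have hJr : (1 : ℝ) ≤ J := by exact_mod_cast hJ1
  set qs : ℝ := J * 42000 ^ J with hqs
  have hqs1 : 1 ≤ qs := by
    have : (1 : ℝ) ≤ 42000 ^ J := one_le_pow₀ (by norm_num)
    nlinarith
  have hqv : ∀ w : ℂ, ‖w‖ ≤ ρ2 → ‖Q.eval w‖ ≤ qs * q1 := by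
    intro w hw
    rcases le_total ‖w - c0‖ ε with h1 | h1
    · exact (hv2 w h1).trans (le_mul_of_one_le_left hq10 hqs1)
    · refine (hv3 w h1).trans ?_
      have h2 : ‖w - c0‖ / ε ≤ 42000 := by
        rw [div_le_iff₀ hεpos]
        have h3 : ‖w - c0‖ ≤ ρ2 + c0 := by
          refine (norm_sub_le _ _).trans ?_
          rw [hnc0]
          linarith
        refine h3.trans ?_
        have h4 : ρ2 ≤ 1.0500001 * m / lam := by
          rw [hρ2]
          exact div_le_div_of_nonneg_right h22 hlam.le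
        have h5 : (m : ℝ) / lam = c0 / 1.025 := by rw [hc0]; field_simp
        have h6 : 1.0500001 * (m : ℝ) / lam = 1.0500001 * (c0 / 1.025) := by
          rw [← h5]; ring
        rw [h6] at h4
        rw [hε]
        linarith
      have h3 : (J : ℝ) * (‖w - c0‖ / ε) ^ J ≤ qs := by
        rw [hqs]
        gcongr
      exact mul_le_mul_of_nonneg_right h3 hq10
  have hq1one : 1 ≤ qs * q1 := by
    obtain ⟨x0, hx0, hx1⟩ := binPoly_one q hq
    refine hx1.trans (hqv _ ?_)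
    rw [Complex.norm_natCast]
    have h3 : (x0 : ℝ) ≤ J := by exact_mod_cast hx0.le
    nlinarith
  have hq1pos : 0 < q1 := by
    by_contra hc
    have : q1 = 0 := le_antisymm (not_lt.mp hc) hq10
    rw [this, mul_zero] at hq1one
    linarith
  have hlogqs : Real.log qs ≤ 5.4e-5 * m := by
    rw [hqs, Real.log_mul (by positivity) (by positivity), Real.log_pow]
    have h1 : Real.log J ≤ J / 1000 + 10 := by
      have h2 := Real.log_le_sub_one_of_pos (x := (J : ℝ) / 1000) (by positivity)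
      rw [Real.log_div (by positivity) (by norm_num)] at h2
      have h3 : Real.log 1000 ≤ 10 := by
        rw [Real.log_le_iff_le_exp (by norm_num)]
        have := Real.exp_one_gt_d9
        have h5 : Real.exp 10 = Real.exp 1 ^ 10 := by rw [← Real.exp_nat_mul]; norm_num
        rw [h5]
        refine le_trans ?_ (pow_le_pow_left₀ (by norm_num) this.le 10)
        norm_num
      linarith
    have h2 : Real.log 42000 ≤ 10.7 := by
      rw [Real.log_le_iff_le_exp (by norm_num)]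
      have := Real.exp_one_gt_d9
      have h5 : Real.exp 10.7 = Real.exp 1 ^ 10 * Real.exp 0.7 := by
        rw [← Real.exp_nat_mul, ← Real.exp_add]; norm_num
      have h6 := Real.quadratic_le_exp_of_nonneg (x := 0.7) (by norm_num)
      have h7 : (2.7182818283 : ℝ) ^ 10 ≤ Real.exp 1 ^ 10 := pow_le_pow_left₀ (by norm_num) this.le 10
      rw [h5]
      have h8 : (1.945 : ℝ) ≤ Real.exp 0.7 := by norm_num at h6 ⊢; linarith
      calc (42000 : ℝ) ≤ 2.7182818283 ^ 10 * 1.945 := by norm_num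
        _ ≤ _ := by gcongr
    nlinarith
  -- Taylor splitting
  set G : ℂ → ℂ := fun w => Q.eval w * g w with hG
  have hGd : DiffContOnCl ℂ G (Metric.ball 0 ρ2) :=
    (Q.differentiable.diffContOnCl).smul (h.hg.mono (Metric.ball_subset_ball (by linarith)))
  have hGb : ∀ (ρ : ℝ), ρ ≤ ρ2 → ∀ w : ℂ, ‖w‖ ≤ ρ → ‖G w‖ ≤ qs * q1 * Real.exp (y + lam * ρ + kap) := by
    intro ρ hρ w hw
    simp only [hG, norm_mul]
    refine mul_le_mul (hqv w (hw.trans hρ)) ?_ (norm_nonneg _) (by positivity)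
    refine (h.hup w (by linarith)).trans ?_
    apply Real.exp_le_exp.mpr
    have h1 : w.re ≤ ρ := (Complex.re_le_norm w).trans hw
    have h2 : lam * w.re ≤ lam * ρ := by gcongr
    linarith
  set Ψ : ℝ := Real.exp (-(129 / 1000) * y) + Real.exp (1.06 * m * (3 - D) + 1.001 * y) with hΨd
  have htay := tay G (fun w => P.eval w + G w) P m m2 hP hmm2 H ρ1 ρ2
    (qs * q1 * Real.exp (y + lam * ρ1 + kap)) (qs * q1 * Real.exp (y + lam * ρ2 + kap)) Ψ hH hρ1pos
    h12 (by linarith) hGd (fun w _ => rfl) (hGb ρ1 h12.le) (hGb ρ2 le_rfl)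
    (fun w hw => hΨ w hw) v hv_ρ1 (by linarith) hv_ρ2
  have hlow : q1 * Real.exp (y + 1.0249 * m - kap) ≤ ‖G v‖ := by
    simp only [hG, norm_mul, ← hq1]
    refine mul_le_mul_of_nonneg_left (le_trans ?_ (h.hlo v hv_R)) hq10
    apply Real.exp_le_exp.mpr
    have h1 : lam * (c0 * (1 - 0.00005)) ≤ lam * v.re := by gcongr
    have h2 : lam * (c0 * (1 - 0.00005)) = 1.025 * m * (1 - 0.00005) := by
      rw [← mul_assoc, hlc]
    rw [h2] at h1
    linarith only [h1, hm0]
  -- the three terms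
  have hlogm : Real.log m ≤ 2e-6 * m := NA1_logm m hm8
  have hm_exp : (m : ℝ) = Real.exp (Real.log m) := (Real.exp_log hm0).symm
  have hqs_exp : qs = Real.exp (Real.log qs) := (Real.exp_log (by linarith)).symm
  have h4e : (4 : ℝ) ≤ Real.exp 2 := by
    have := Real.exp_one_gt_d9
    have h5 : Real.exp 2 = Real.exp 1 ^ 2 := by rw [← Real.exp_nat_mul]; norm_num
    rw [h5]
    nlinarith
  have hlρ1 : lam * ρ1 = m := by rw [hρ1]; field_simp
  have hlρ2 : lam * ρ2 = m2 := by rw [hρ2]; field_simp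
  have hT1 : m * (qs * q1 * Real.exp (y + lam * ρ1 + kap)) * (‖v‖ / ρ1) ^ m * 4 ≤
      q1 * Real.exp (y + 1.0249 * m - kap) := by
    have h1 : ‖v‖ / ρ1 ≤ Real.exp 0.02476 := by
      refine le_trans ?_ NA1_exp1
      rw [div_le_iff₀ hρ1pos]
      have h5 : c0 = 1.025 * ρ1 := by rw [hc0, hρ1]; ring
      rw [h5] at hvhi
      linarith
    have h2 : (‖v‖ / ρ1) ^ m ≤ Real.exp (m * 0.02476) := by
      rw [Real.exp_nat_mul]
      exact pow_le_pow_left₀ (by positivity) h1 m
    rw [hlρ1]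
    calc m * (qs * q1 * Real.exp (y + m + kap)) * (‖v‖ / ρ1) ^ m * 4
        ≤ m * (qs * q1 * Real.exp (y + m + kap)) * Real.exp (m * 0.02476) * Real.exp 2 := by
          gcongr
      _ = q1 * (m * qs * Real.exp (y + m + kap) * Real.exp (m * 0.02476) * Real.exp 2) := by ring
      _ = q1 * Real.exp (Real.log m + Real.log qs + (y + m + kap) + m * 0.02476 + 2) := by
          rw [Real.exp_add (Real.log m + Real.log qs + (y + m + kap) + m * 0.02476) 2,
            Real.exp_add (Real.log m + Real.log qs + (y + m + kap)) (m * 0.02476),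
            Real.exp_add (Real.log m + Real.log qs) (y + m + kap),
            Real.exp_add (Real.log m) (Real.log qs), ← hm_exp, ← hqs_exp]
      _ ≤ _ := by
          refine mul_le_mul_of_nonneg_left (Real.exp_le_exp.mpr ?_) hq10
          linarith only [hlogm, hlogqs, h6, hm8]
  have hT3 : qs * q1 * Real.exp (y + lam * ρ2 + kap) * (‖v‖ / ρ2) ^ m2 / (1 - ‖v‖ / ρ2) * 4 ≤
      q1 * Real.exp (y + 1.0249 * m - kap) := by
    have h0 : ‖v‖ / ρ2 ≤ 0.97624 := by
      rw [div_le_iff₀ hρ2pos]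
      have h5 : c0 = 1.025 * (m / lam) := by rw [hc0]; ring
      have h6 : 1.05 * (m / lam) ≤ ρ2 := by
        rw [hρ2, ← mul_div_assoc]
        exact div_le_div_of_nonneg_right h21 hlam.le
      rw [h5] at hvhi
      linarith
    have h1 : ‖v‖ / ρ2 ≤ Real.exp (-0.024) := h0.trans NA1_exp2
    have h2 : (‖v‖ / ρ2) ^ m2 ≤ Real.exp (m2 * (-0.024)) := by
      rw [Real.exp_nat_mul]
      exact pow_le_pow_left₀ (by positivity) h1 m2
    have h3 : 1 / (1 - ‖v‖ / ρ2) * 4 ≤ Real.exp 6 := by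
      have h4 : 1 / (1 - ‖v‖ / ρ2) ≤ 1 / (1 - 0.97624) := by
        apply one_div_le_one_div_of_le (by norm_num)
        linarith
      have := Real.exp_one_gt_d9
      have h5 : Real.exp 6 = Real.exp 1 ^ 6 := by rw [← Real.exp_nat_mul]; norm_num
      have h6 : (2.7182818283 : ℝ) ^ 6 ≤ Real.exp 1 ^ 6 := pow_le_pow_left₀ (by norm_num) this.le 6
      rw [h5]
      refine le_trans ?_ h6
      calc 1 / (1 - ‖v‖ / ρ2) * 4 ≤ 1 / (1 - 0.97624) * 4 := by gcongr
        _ ≤ _ := by norm_num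
    have h30 : 0 ≤ 1 / (1 - ‖v‖ / ρ2) * 4 := by
      have : 0 < 1 - ‖v‖ / ρ2 := by linarith only [h0]
      positivity
    rw [hlρ2]
    calc qs * q1 * Real.exp (y + m2 + kap) * (‖v‖ / ρ2) ^ m2 / (1 - ‖v‖ / ρ2) * 4
        = qs * q1 * Real.exp (y + m2 + kap) * (‖v‖ / ρ2) ^ m2 * (1 / (1 - ‖v‖ / ρ2) * 4) := by ring
      _ ≤ qs * q1 * Real.exp (y + m2 + kap) * Real.exp (m2 * (-0.024)) * Real.exp 6 := by
          gcongr
      _ = q1 * (qs * Real.exp (y + m2 + kap) * Real.exp (m2 * (-0.024)) * Real.exp 6) := by ring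
      _ = q1 * Real.exp (Real.log qs + (y + m2 + kap) + m2 * (-0.024) + 6) := by
          rw [Real.exp_add (Real.log qs + (y + m2 + kap) + m2 * (-0.024)) 6,
            Real.exp_add (Real.log qs + (y + m2 + kap)) (m2 * (-0.024)),
            Real.exp_add (Real.log qs) (y + m2 + kap), ← hqs_exp]
      _ ≤ _ := by
          refine mul_le_mul_of_nonneg_left (Real.exp_le_exp.mpr ?_) hq10
          linarith only [hlogqs, h6, hm8, h22]
  have hT2 : m2 * Ψ * (‖v‖ / H) ^ m2 * 4 ≤ q1 * Real.exp (y + 1.0249 * m - kap) := by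
    have h1 : ‖v‖ / H ≤ Real.exp D := by
      rw [hD, Real.exp_log (by positivity)]
      exact div_le_div_of_nonneg_right hv_R hH.le
    have h2 : (‖v‖ / H) ^ m2 ≤ Real.exp (m2 * D) := by
      rw [Real.exp_nat_mul]
      exact pow_le_pow_left₀ (by positivity) h1 m2
    have hmD := hnum.mD
    have hmD' := hnum.mD'
    have hDy := hnum.Dy
    have hD6 := hnum.D6
    have hmy := hnum.my
    have h3 : (m2 : ℝ) * D ≤ 1.05 * (m * D) + D := by
      have h5 : (m2 : ℝ) ≤ 1.05 * m + 1 := (Nat.ceil_lt_add_one (by positivity)).le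
      have h6 : (m2 : ℝ) * D ≤ (1.05 * m + 1) * D :=
        mul_le_mul_of_nonneg_right h5 (by linarith only [hD6])
      linarith only [h6]
    have hlogm2 : Real.log m2 ≤ 1.06 * m := by
      have h5 := Real.log_le_sub_one_of_pos hm2pos
      linarith only [h5, h22, hm0]
    have hm2_exp : (m2 : ℝ) = Real.exp (Real.log m2) := (Real.exp_log hm2pos).symm
    have h8 : (8 : ℝ) ≤ Real.exp 3 := by
      have := Real.exp_one_gt_d9
      have h5 : Real.exp 3 = Real.exp 1 ^ 3 := by rw [← Real.exp_nat_mul]; norm_num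
      rw [h5]
      nlinarith [pow_le_pow_left₀ (by norm_num) this.le 3]
    have hkey : ∀ t : ℝ, t + m2 * D + 1.07 * m + 3 ≤ y →
        m2 * Real.exp t * Real.exp (m2 * D) * qs * 8 ≤ Real.exp y := by
      intro t ht
      calc m2 * Real.exp t * Real.exp (m2 * D) * qs * 8
          ≤ m2 * Real.exp t * Real.exp (m2 * D) * qs * Real.exp 3 := by gcongr
        _ = Real.exp (Real.log m2 + t + m2 * D + Real.log qs + 3) := by
            rw [Real.exp_add (Real.log m2 + t + m2 * D + Real.log qs) 3,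
              Real.exp_add (Real.log m2 + t + m2 * D) (Real.log qs),
              Real.exp_add (Real.log m2 + t) (m2 * D),
              Real.exp_add (Real.log m2) t, ← hm2_exp, ← hqs_exp]
        _ ≤ _ := by
            apply Real.exp_le_exp.mpr
            linarith only [ht, hlogm2, hlogqs, hm0]
    have hk1 := hkey (-(129 / 1000) * y) (by linarith only [h3, hmD, hDy, hmy, hm8])
    have hk2 := hkey (1.06 * m * (3 - D) + 1.001 * y) (by
      linarith only [h3, hmD', hDy, hmy, hm8])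
    have h5 : m2 * Ψ * Real.exp (m2 * D) * qs * 4 ≤ Real.exp y := by
      have h6 : m2 * Ψ * Real.exp (m2 * D) * qs * 4 =
          (m2 * Real.exp (-(129 / 1000) * y) * Real.exp (m2 * D) * qs * 8) / 2 +
          (m2 * Real.exp (1.06 * m * (3 - D) + 1.001 * y) * Real.exp (m2 * D) * qs * 8) / 2 := by
        rw [hΨd]; ring
      rw [h6]
      linarith only [hk1, hk2]
    have hΨ0 : 0 ≤ Ψ := by positivity
    calc m2 * Ψ * (‖v‖ / H) ^ m2 * 4 ≤ m2 * Ψ * Real.exp (m2 * D) * 4 := by gcongr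
      _ ≤ (m2 * Ψ * Real.exp (m2 * D) * 4) * (qs * q1) :=
          le_mul_of_one_le_right (by positivity) hq1one
      _ = q1 * (m2 * Ψ * Real.exp (m2 * D) * qs * 4) := by ring
      _ ≤ q1 * Real.exp y := by gcongr
      _ ≤ _ := by
          refine mul_le_mul_of_nonneg_left (Real.exp_le_exp.mpr ?_) hq10
          linarith only [h6, hm0]
  have hLB : 0 < q1 * Real.exp (y + 1.0249 * m - kap) := by positivity
  linarith only [hLB, hT1, hT2, hT3, hlow, htay]

end Pool.Agent.MP7629b0
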