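import Pool.Agent.Lib.MP_7629b0_nt.EXT1
import Pool.Agent.Lib.MP_7629b0_nt.NA1

/-!
# PPP (MP_7629b0_nt), module GT1: the counting theorem for small exponents
-/

namespace Pool.Agent.MP7629b0

open Complex

theorem gt1 (S : Finset ℕ) (H R lam kap y E : ℝ) (m : ℕ) (g : ℂ → ℂ) (a : ℕ → ℤ)
    (h : G1 S H R lam kap y E m g a) : (S.card : ℝ) ≤ (107 / 100) * m := by
  by_contra hc
  push Not at hc
  have hm : (m : ℝ) ≤ S.card := by
    have : (0 : ℝ) ≤ m := Nat.cast_nonneg m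
    linarith
  obtain ⟨J, q, P, hJ1, hJ, hq, hP, hQ, hPQ, hΦ⟩ := ext1 S H R lam kap y E m g a h
    (by exact_mod_cast hm)
  exact na1 S H R lam kap y E m g a h hc J q P hJ1 hJ hq hP hQ hPQ hΦ

end Pool.Agent.MP7629b0
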