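import Pool.Agent.Lib.MP_7629b0_nt.MacDefs

/-!
# MacMahon's theorem, module MA: the local rule

For finitely supported `μ, μ'` the `ν` interlacing above both are in bijection with pairs
(natural number, `κ` interlacing below both), by reflecting every interval.
-/

namespace Pool.Agent.MP7629b0.Mac

open scoped ENNReal

/-- the size as a sum over any range beyond the support -/
theorem MA_sz_eq (ρ : ℕ →₀ ℕ) (L : ℕ) (h : ∀ i, L ≤ i → ρ i = 0) :
    sz ρ = ∑ i ∈ Finset.range L, ρ i := by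
  unfold sz
  rw [Finsupp.sum]
  apply Finset.sum_subset
  · intro i hi
    rw [Finset.mem_range]
    by_contra hc
    exact (Finsupp.mem_support_iff.1 hi) (h i (by omega))
  · intro i _ hi
    exact Finsupp.notMem_support_iff.1 hi

/-- a finitely supported function vanishes from some index on -/
theorem MA_exists_bound (ρ : ℕ →₀ ℕ) : ∃ L, ∀ i, L ≤ i → ρ i = 0 := by
  refine ⟨ρ.support.sup id + 1, ?_⟩
  intro i hi
  by_contra hc
  have h1 := Finset.le_sup (f := id) (Finsupp.mem_support_iff.2 hc)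
  simp only [id_eq] at h1
  omega

theorem local_rule (μ μ' : ℕ →₀ ℕ) :
    ∃ e : {ν : ℕ →₀ ℕ // Inter μ ν ∧ Inter μ' ν} ≃ ℕ × {κ : ℕ →₀ ℕ // Inter κ μ ∧ Inter κ μ'},
      ∀ ν, sz ν.1 + sz (e ν).2.1 = (e ν).1 + sz μ + sz μ' := by
  obtain ⟨L1, hL1⟩ := MA_exists_bound μ
  obtain ⟨L2, hL2⟩ := MA_exists_bound μ'
  obtain ⟨L, hL, hL'⟩ : ∃ L, (∀ i, L ≤ i → μ i = 0) ∧ (∀ i, L ≤ i → μ' i = 0) :=
    ⟨max L1 L2, fun i hi => hL1 i (by omega), fun i hi => hL2 i (by omega)⟩
  -- the reflected function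
  let κf : (ℕ →₀ ℕ) → ℕ → ℕ := fun ν i =>
    max (μ (i + 1)) (μ' (i + 1)) + min (μ i) (μ' i) - ν (i + 1)
  have hκs : ∀ ν : ℕ →₀ ℕ, ∀ i, κf ν i ≠ 0 → i ∈ Finset.range L := by
    intro ν i hi
    rw [Finset.mem_range]
    by_contra hc
    apply hi
    simp only [κf]
    rw [hL i (by omega), hL (i + 1) (by omega), hL' i (by omega), hL' (i + 1) (by omega)]
    simp
  let K : (ℕ →₀ ℕ) → (ℕ →₀ ℕ) := fun ν => Finsupp.onFinset (Finset.range L) (κf ν) (hκs ν)
  have hK : ∀ ν i, K ν i = max (μ (i + 1)) (μ' (i + 1)) + min (μ i) (μ' i) - ν (i + 1) := by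
    intro ν i
    rfl
  let νf : ℕ → (ℕ →₀ ℕ) → ℕ → ℕ := fun m κ i =>
    match i with
    | 0 => m + max (μ 0) (μ' 0)
    | i + 1 => max (μ (i + 1)) (μ' (i + 1)) + min (μ i) (μ' i) - κ i
  have hνs : ∀ m (κ : ℕ →₀ ℕ), ∀ i, νf m κ i ≠ 0 → i ∈ Finset.range (L + 1) := by
    intro m κ i hi
    rw [Finset.mem_range]
    by_contra hc
    apply hi
    obtain ⟨j, rfl⟩ : ∃ j, i = j + 1 := ⟨i - 1, by omega⟩
    simp only [νf]
    rw [hL j (by omega), hL (j + 1) (by omega), hL' j (by omega), hL' (j + 1) (by omega)]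
    simp
  let N : ℕ → (ℕ →₀ ℕ) → (ℕ →₀ ℕ) := fun m κ =>
    Finsupp.onFinset (Finset.range (L + 1)) (νf m κ) (hνs m κ)
  have hN0 : ∀ m κ, N m κ 0 = m + max (μ 0) (μ' 0) := by
    intro m κ
    rfl
  have hN1 : ∀ m κ i, N m κ (i + 1) =
      max (μ (i + 1)) (μ' (i + 1)) + min (μ i) (μ' i) - κ i := by
    intro m κ i
    rfl
  have hKI : ∀ ν, Inter μ ν → Inter μ' ν → Inter (K ν) μ ∧ Inter (K ν) μ' := by
    intro ν h1 h2
    constructor
    · intro i
      rw [hK]
      have a1 := h1 i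
      have a2 := h2 i
      have a3 := h1 (i + 1)
      have a4 := h2 (i + 1)
      omega
    · intro i
      rw [hK]
      have a1 := h1 i
      have a2 := h2 i
      have a3 := h1 (i + 1)
      have a4 := h2 (i + 1)
      omega
  have hNI : ∀ m κ, Inter κ μ → Inter κ μ' → Inter μ (N m κ) ∧ Inter μ' (N m κ) := by
    intro m κ h1 h2
    constructor
    · intro i
      rw [hN1]
      have a1 := h1 i
      have a2 := h2 i
      refine ⟨by omega, ?_⟩
      rcases i with _ | j
      · rw [hN0]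
        omega
      · rw [hN1]
        have a3 := h1 j
        have a4 := h2 j
        omega
    · intro i
      rw [hN1]
      have a1 := h1 i
      have a2 := h2 i
      refine ⟨by omega, ?_⟩
      rcases i with _ | j
      · rw [hN0]
        omega
      · rw [hN1]
        have a3 := h1 j
        have a4 := h2 j
        omega
  refine ⟨{
    toFun := fun ν => (ν.1 0 - max (μ 0) (μ' 0), ⟨K ν.1, hKI ν.1 ν.2.1 ν.2.2⟩)
    invFun := fun p => ⟨N p.1 p.2.1, hNI p.1 p.2.1 p.2.2.1 p.2.2.2⟩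
    left_inv := ?_
    right_inv := ?_ }, ?_⟩
  · rintro ⟨ν, h1, h2⟩
    apply Subtype.ext
    ext i
    simp only
    rcases i with _ | j
    · rw [hN0]
      have a1 := h1 0
      have a2 := h2 0
      omega
    · rw [hN1, hK]
      have a1 := h1 j
      have a2 := h2 j
      have a3 := h1 (j + 1)
      have a4 := h2 (j + 1)
      omega
  · rintro ⟨m, κ, h1, h2⟩
    refine Prod.ext ?_ (Subtype.ext ?_)
    · simp only
      rw [hN0]
      omega
    · ext i
      simp only
      rw [hK, hN1]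
      have a1 := h1 i
      have a2 := h2 i
      omega
  · rintro ⟨ν, h1, h2⟩
    simp only [Equiv.coe_fn_mk]
    have hν : ∀ i, L + 1 ≤ i → ν i = 0 := by
      intro i hi
      obtain ⟨j, rfl⟩ : ∃ j, i = j + 1 := ⟨i - 1, by omega⟩
      have a1 := (h1 j).1
      rw [hL j (by omega)] at a1
      omega
    have hκ : ∀ i, L ≤ i → K ν i = 0 := by
      intro i hi
      rw [hK, hL i hi, hL' i hi, hL (i + 1) (by omega), hL' (i + 1) (by omega)]
      simp
    rw [MA_sz_eq ν (L + 1) hν, MA_sz_eq (K ν) L hκ, MA_sz_eq μ L hL, MA_sz_eq μ' L hL',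
      Finset.sum_range_succ']
    have s1 : ∑ i ∈ Finset.range L, ν (i + 1) + ∑ i ∈ Finset.range L, K ν i =
        ∑ i ∈ Finset.range L, max (μ (i + 1)) (μ' (i + 1)) +
          ∑ i ∈ Finset.range L, min (μ i) (μ' i) := by
      rw [← Finset.sum_add_distrib, ← Finset.sum_add_distrib]
      refine Finset.sum_congr rfl fun i _ => ?_
      rw [hK]
      have a1 := h1 i
      have a2 := h2 i
      omega
    have s2 : ∑ i ∈ Finset.range L, max (μ (i + 1)) (μ' (i + 1)) + max (μ 0) (μ' 0) =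
        ∑ i ∈ Finset.range L, max (μ i) (μ' i) := by
      rw [← Finset.sum_range_succ' (fun i => max (μ i) (μ' i)) L, Finset.sum_range_succ,
        hL L le_rfl, hL' L le_rfl]
      simp
    have s3 : ∑ i ∈ Finset.range L, max (μ i) (μ' i) + ∑ i ∈ Finset.range L, min (μ i) (μ' i) =
        ∑ i ∈ Finset.range L, μ i + ∑ i ∈ Finset.range L, μ' i := by
      rw [← Finset.sum_add_distrib, ← Finset.sum_add_distrib]
      refine Finset.sum_congr rfl fun i _ => ?_
      omega
    have a1 := (h1 0).2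
    have a2 := (h2 0).2
    omega

end Pool.Agent.MP7629b0.Mac
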