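import Pool.Agent.Lib.MP_7629b0_nt.MacA

/-!
# MacMahon's theorem: the eigenvector lemma
-/

namespace Pool.Agent.MP7629b0.Mac

open scoped ENNReal

open Classical in
theorem eigen_sub (p : (ℕ →₀ ℕ) → Prop) (f : (ℕ →₀ ℕ) → ℝ≥0∞) :
    ∑' ν : {ν : ℕ →₀ ℕ // p ν}, f ν.1 = ∑' ν, if p ν then f ν else 0 := by
  have h := tsum_subtype {ν : ℕ →₀ ℕ | p ν} f
  simp only [Set.indicator_apply, Set.mem_ofPred_eq] at h
  exact h

theorem eigen_sz_mono {κ ν : ℕ →₀ ℕ} (h : Inter κ ν) : sz κ ≤ sz ν := by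
  have hle : κ ≤ ν := fun i => (h i).2
  have hsub : κ.support ⊆ ν.support := Finsupp.support_mono hle
  unfold sz Finsupp.sum
  calc ∑ i ∈ κ.support, κ i ≤ ∑ i ∈ κ.support, ν i := Finset.sum_le_sum fun i _ => hle i
    _ ≤ ∑ i ∈ ν.support, ν i := Finset.sum_le_sum_of_subset hsub

open Classical in
theorem eigen_swap (P Q : (ℕ →₀ ℕ) → Prop) (R S : (ℕ →₀ ℕ) → (ℕ →₀ ℕ) → Prop)
    (f : (ℕ →₀ ℕ) → (ℕ →₀ ℕ) → ℝ≥0∞) (h : ∀ a b, P a ∧ R a b ↔ Q b ∧ S b a) :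
    ∑' a : {a : ℕ →₀ ℕ // P a}, ∑' b : {b : ℕ →₀ ℕ // R a.1 b}, f a.1 b.1 =
      ∑' b : {b : ℕ →₀ ℕ // Q b}, ∑' a : {a : ℕ →₀ ℕ // S b.1 a}, f a.1 b.1 := by
  have h1 : ∑' a : {a : ℕ →₀ ℕ // P a}, ∑' b : {b : ℕ →₀ ℕ // R a.1 b}, f a.1 b.1 =
      ∑' a, ∑' b, if P a ∧ R a b then f a b else 0 := by
    rw [eigen_sub P (fun a => ∑' b : {b : ℕ →₀ ℕ // R a b}, f a b.1)]
    refine tsum_congr fun a => ?_
    by_cases ha : P a
    · simp only [ha, if_true, true_and]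
      exact eigen_sub (R a) (f a)
    · simp [ha]
  have h2 : ∑' b : {b : ℕ →₀ ℕ // Q b}, ∑' a : {a : ℕ →₀ ℕ // S b.1 a}, f a.1 b.1 =
      ∑' b, ∑' a, if Q b ∧ S b a then f a b else 0 := by
    rw [eigen_sub Q (fun b => ∑' a : {a : ℕ →₀ ℕ // S b a}, f a.1 b)]
    refine tsum_congr fun b => ?_
    by_cases hb : Q b
    · simp only [hb, if_true, true_and]
      exact eigen_sub (S b) (fun a => f a b)
    · simp [hb]
  rw [h1, h2, ENNReal.tsum_comm]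
  refine tsum_congr fun b => tsum_congr fun a => ?_
  by_cases hh : P a ∧ R a b
  · rw [if_pos hh, if_pos ((h a b).1 hh)]
  · rw [if_neg hh, if_neg fun h' => hh ((h a b).2 h')]

theorem eigen_inner (q : ℝ≥0∞) (x y : ℕ) (κ μ : ℕ →₀ ℕ) :
    ∑' ν : {ν : ℕ →₀ ℕ // Inter κ ν ∧ Inter μ ν},
        q ^ (x * (sz ν.1 - sz κ)) * q ^ (y * (sz ν.1 - sz μ)) =
      G q (x + y) * ∑' ρ : {ρ : ℕ →₀ ℕ // Inter ρ κ ∧ Inter ρ μ},
        q ^ (x * (sz μ - sz ρ.1)) * q ^ (y * (sz κ - sz ρ.1)) := by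
  obtain ⟨e, he⟩ := local_rule κ μ
  have h1 : ∀ ν : {ν : ℕ →₀ ℕ // Inter κ ν ∧ Inter μ ν},
      q ^ (x * (sz ν.1 - sz κ)) * q ^ (y * (sz ν.1 - sz μ)) =
      q ^ ((x + y) * (e ν).1) *
        (q ^ (x * (sz μ - sz (e ν).2.1)) * q ^ (y * (sz κ - sz (e ν).2.1))) := by
    intro ν
    have h2 := he ν
    have h3 := eigen_sz_mono (e ν).2.2.1
    have h4 := eigen_sz_mono (e ν).2.2.2
    have h5 : sz ν.1 - sz κ = (e ν).1 + (sz μ - sz (e ν).2.1) := by omega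
    have h6 : sz ν.1 - sz μ = (e ν).1 + (sz κ - sz (e ν).2.1) := by omega
    rw [h5, h6]
    ring
  rw [tsum_congr h1]
  rw [e.tsum_eq (fun p : ℕ × {ρ : ℕ →₀ ℕ // Inter ρ κ ∧ Inter ρ μ} => q ^ ((x + y) * p.1) *
        (q ^ (x * (sz μ - sz p.2.1)) * q ^ (y * (sz κ - sz p.2.1))))]
  refine (ENNReal.tsum_prod (f := fun (m : ℕ) (ρ : {ρ : ℕ →₀ ℕ // Inter ρ κ ∧ Inter ρ μ}) =>
    q ^ ((x + y) * m) * (q ^ (x * (sz μ - sz ρ.1)) * q ^ (y * (sz κ - sz ρ.1))))).trans ?_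
  simp only [ENNReal.tsum_mul_left, ENNReal.tsum_mul_right]
  rfl

theorem eigen (q : ℝ≥0∞) (l : List ℕ) (x : ℕ) (κ : ℕ →₀ ℕ) :
    ∑' ν : {ν : ℕ →₀ ℕ // Inter κ ν}, q ^ (x * (sz ν.1 - sz κ)) * PP q l ν.1 =
      (l.map fun y => G q (x + y)).prod * PP q l κ := by
  induction l generalizing κ with
  | nil =>
    simp only [List.map_nil, List.prod_nil, one_mul]
    by_cases hκ : κ = 0
    · subst hκ
      have h0 : Inter (0 : ℕ →₀ ℕ) 0 := fun i => ⟨le_rfl, le_rfl⟩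
      rw [tsum_eq_single (⟨0, h0⟩ : {ν : ℕ →₀ ℕ // Inter 0 ν})]
      · simp [PP]
      · intro ν hν
        have : ν.1 ≠ 0 := fun h => hν (Subtype.ext h)
        simp [PP, this]
    · have h1 : ∀ ν : {ν : ℕ →₀ ℕ // Inter κ ν}, q ^ (x * (sz ν.1 - sz κ)) * PP q [] ν.1 = 0 := by
        intro ν
        have : ν.1 ≠ 0 := by
          intro h
          apply hκ
          ext i
          have := (ν.2 i).2
          rw [h] at this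
          simpa using this
        simp [PP, this]
      rw [tsum_congr h1]
      simp [PP, hκ]
  | cons y l ih =>
    have h1 : ∑' ν : {ν : ℕ →₀ ℕ // Inter κ ν}, q ^ (x * (sz ν.1 - sz κ)) * PP q (y :: l) ν.1 =
        ∑' ν : {ν : ℕ →₀ ℕ // Inter κ ν}, ∑' μ : {μ : ℕ →₀ ℕ // Inter μ ν.1},
          (q ^ (x * (sz ν.1 - sz κ)) * q ^ (y * (sz ν.1 - sz μ.1))) * PP q l μ.1 := by
      refine tsum_congr fun ν => ?_
      simp only [PP, ← ENNReal.tsum_mul_left, mul_assoc]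
    have h2 : ∑' ν : {ν : ℕ →₀ ℕ // Inter κ ν}, ∑' μ : {μ : ℕ →₀ ℕ // Inter μ ν.1},
          (q ^ (x * (sz ν.1 - sz κ)) * q ^ (y * (sz ν.1 - sz μ.1))) * PP q l μ.1 =
        ∑' μ : {μ : ℕ →₀ ℕ // True}, ∑' ν : {ν : ℕ →₀ ℕ // Inter κ ν ∧ Inter μ.1 ν},
          (q ^ (x * (sz ν.1 - sz κ)) * q ^ (y * (sz ν.1 - sz μ.1))) * PP q l μ.1 :=
      eigen_swap (fun ν => Inter κ ν) (fun _ => True) (fun ν μ => Inter μ ν)
        (fun μ ν => Inter κ ν ∧ Inter μ ν)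
        (fun ν μ => (q ^ (x * (sz ν - sz κ)) * q ^ (y * (sz ν - sz μ))) * PP q l μ)
        (fun a b => by simp)
    have h3 : ∑' μ : {μ : ℕ →₀ ℕ // True}, ∑' ν : {ν : ℕ →₀ ℕ // Inter κ ν ∧ Inter μ.1 ν},
          (q ^ (x * (sz ν.1 - sz κ)) * q ^ (y * (sz ν.1 - sz μ.1))) * PP q l μ.1 =
        G q (x + y) * ∑' μ : {μ : ℕ →₀ ℕ // True},
          ∑' ρ : {ρ : ℕ →₀ ℕ // Inter ρ κ ∧ Inter ρ μ.1},
          (q ^ (x * (sz μ.1 - sz ρ.1)) * q ^ (y * (sz κ - sz ρ.1))) * PP q l μ.1 := by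
      rw [← ENNReal.tsum_mul_left]
      refine tsum_congr fun μ => ?_
      rw [ENNReal.tsum_mul_right, eigen_inner, ENNReal.tsum_mul_right, mul_assoc]
    have h4 : ∑' μ : {μ : ℕ →₀ ℕ // True},
          ∑' ρ : {ρ : ℕ →₀ ℕ // Inter ρ κ ∧ Inter ρ μ.1},
          (q ^ (x * (sz μ.1 - sz ρ.1)) * q ^ (y * (sz κ - sz ρ.1))) * PP q l μ.1 =
        ∑' ρ : {ρ : ℕ →₀ ℕ // Inter ρ κ}, ∑' μ : {μ : ℕ →₀ ℕ // Inter ρ.1 μ},
          (q ^ (x * (sz μ.1 - sz ρ.1)) * q ^ (y * (sz κ - sz ρ.1))) * PP q l μ.1 :=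
      eigen_swap (fun _ => True) (fun ρ => Inter ρ κ) (fun μ ρ => Inter ρ κ ∧ Inter ρ μ)
        (fun ρ μ => Inter ρ μ)
        (fun μ ρ => (q ^ (x * (sz μ - sz ρ)) * q ^ (y * (sz κ - sz ρ))) * PP q l μ)
        (fun a b => by simp)
    rw [h1, h2, h3, h4]
    have h5 : ∀ ρ : {ρ : ℕ →₀ ℕ // Inter ρ κ}, ∑' μ : {μ : ℕ →₀ ℕ // Inter ρ.1 μ},
          (q ^ (x * (sz μ.1 - sz ρ.1)) * q ^ (y * (sz κ - sz ρ.1))) * PP q l μ.1 =
        (l.map fun y => G q (x + y)).prod * (q ^ (y * (sz κ - sz ρ.1)) * PP q l ρ.1) := by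
      intro ρ
      have h6 := ih ρ.1
      rw [mul_left_comm, ← h6, ← ENNReal.tsum_mul_left]
      refine tsum_congr fun μ => ?_
      ring
    rw [tsum_congr h5, ENNReal.tsum_mul_left]
    simp only [List.map_cons, List.prod_cons, PP]
    ring

end Pool.Agent.MP7629b0.Mac
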