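import Pool.Agent.Lib.MP_7629b0_nt.MacDefs
import Pool.Agent.Lib.MP_7629b0_nt.MacB

/-!
# MacMahon's theorem: the Cauchy identity
-/

namespace Pool.Agent.MP7629b0.Mac

open scoped ENNReal

theorem macC_inter_zero {κ : ℕ →₀ ℕ} : Inter κ 0 ↔ κ = 0 := by
  constructor
  · intro h
    ext i
    have := (h i).2
    simpa using this
  · rintro rfl i
    simp

theorem macC_PP_zero (q : ℝ≥0∞) (l : List ℕ) : PP q l 0 = 1 := by
  induction l with
  | nil => simp [PP]
  | cons x l ih =>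
    unfold PP
    rw [tsum_eq_single (⟨0, macC_inter_zero.2 rfl⟩ : {κ : ℕ →₀ ℕ // Inter κ 0})]
    · simp [ih]
    · intro κ hκ
      exact absurd (Subtype.ext (macC_inter_zero.1 κ.2)) hκ

theorem macC_swap {A B : Type*} (R : B → A → Prop) (F : A → B → ℝ≥0∞) :
    ∑' a, ∑' b : {b // R b a}, F a b.1 = ∑' b, ∑' a : {a // R b a}, F a.1 b := by
  classical
  have h1 : ∀ a, ∑' b : {b // R b a}, F a b.1 = ∑' b, if R b a then F a b else 0 := by
    intro a
    have h := tsum_subtype {b | R b a} (F a)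
    refine h.trans (tsum_congr fun b => ?_)
    simp only [Set.indicator_apply, Set.mem_ofPred_eq]
  have h2 : ∀ b, ∑' a : {a // R b a}, F a.1 b = ∑' a, if R b a then F a b else 0 := by
    intro b
    have h := tsum_subtype {a | R b a} (fun a => F a b)
    refine h.trans (tsum_congr fun a => ?_)
    simp only [Set.indicator_apply, Set.mem_ofPred_eq]
  simp_rw [h1, h2]
  exact ENNReal.tsum_comm

theorem cauchy (q : ℝ≥0∞) (l l' : List ℕ) :
    ∑' μ : ℕ →₀ ℕ, PP q l μ * PP q l' μ =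
      (l'.map fun x => (l.map fun y => G q (x + y)).prod).prod := by
  induction l' with
  | nil =>
    rw [tsum_eq_single (0 : ℕ →₀ ℕ)]
    · rw [macC_PP_zero]
      simp [PP]
    · intro μ hμ
      simp [PP, hμ]
  | cons x l' ih =>
    rw [List.map_cons, List.prod_cons, ← ih]
    have h1 : ∀ μ : ℕ →₀ ℕ, PP q l μ * PP q (x :: l') μ =
        ∑' κ : {κ : ℕ →₀ ℕ // Inter κ μ},
          PP q l μ * (q ^ (x * (sz μ - sz κ.1)) * PP q l' κ.1) := by
      intro μ
      rw [ENNReal.tsum_mul_left]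
      rfl
    simp_rw [h1]
    rw [macC_swap Inter (fun μ κ => PP q l μ * (q ^ (x * (sz μ - sz κ)) * PP q l' κ)),
      ← ENNReal.tsum_mul_left]
    refine tsum_congr fun κ => ?_
    have h2 : ∀ μ : {μ : ℕ →₀ ℕ // Inter κ μ},
        PP q l μ.1 * (q ^ (x * (sz μ.1 - sz κ)) * PP q l' κ) =
          (q ^ (x * (sz μ.1 - sz κ)) * PP q l μ.1) * PP q l' κ := fun μ => by ring
    simp_rw [h2]
    rw [ENNReal.tsum_mul_right, eigen]
    ring

end Pool.Agent.MP7629b0.Mac
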