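import Pool.Agent.Lib.MP_7629b0_nt.MacDefs

/-!
# MacMahon's theorem, module MD: chains and shift
-/

namespace Pool.Agent.MP7629b0.Mac

open scoped ENNReal

lemma MD_sz_le {κ μ : ℕ →₀ ℕ} (h : Inter κ μ) : sz κ ≤ sz μ := by
  classical
  have h1 : sz κ = ∑ i ∈ κ.support ∪ μ.support, κ i :=
    Finsupp.sum_of_support_subset κ Finset.subset_union_left _ (fun _ _ => rfl)
  have h2 : sz μ = ∑ i ∈ κ.support ∪ μ.support, μ i :=
    Finsupp.sum_of_support_subset μ Finset.subset_union_right _ (fun _ _ => rfl)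
  rw [h1, h2]
  exact Finset.sum_le_sum fun i _ => (h i).2

lemma MD_inter_zero {κ : ℕ →₀ ℕ} (h : Inter κ 0) : κ = 0 := by
  ext i
  have := (h i).2
  simpa using this

lemma MD_zero_inter : Inter 0 0 := fun i => ⟨le_rfl, le_rfl⟩

theorem pp_shift (q : ℝ≥0∞) (l : List ℕ) (μ : ℕ →₀ ℕ) :
    PP q (l.map (· + 1)) μ = q ^ sz μ * PP q l μ := by
  induction l generalizing μ with
  | nil =>
    simp only [List.map_nil, PP]
    split_ifs with h
    · subst h
      simp [sz]
    · simp
  | cons x l ih =>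
    simp only [List.map_cons, PP]
    rw [← ENNReal.tsum_mul_left]
    refine tsum_congr fun κ => ?_
    rw [ih, ← mul_assoc, ← mul_assoc, ← pow_add, ← pow_add]
    congr 2
    have h := MD_sz_le κ.2
    obtain ⟨d, hd⟩ := Nat.exists_eq_add_of_le h
    rw [hd]
    simp only [Nat.add_sub_cancel_left]
    ring

/-- the first step of a chain -/
noncomputable def MD_equiv (n : ℕ) (μ : ℕ →₀ ℕ) :
    Ch (n + 1) μ ≃ Σ κ : {κ : ℕ →₀ ℕ // Inter κ μ}, Ch n κ.1 where
  toFun g := ⟨⟨g.1 1, by
      have h := g.2.2.1 0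
      rwa [g.2.1] at h⟩, ⟨fun c => g.1 (c + 1), rfl, fun c => g.2.2.1 (c + 1), g.2.2.2⟩⟩
  invFun p := ⟨fun c => Nat.casesOn c μ fun c => p.2.1 c, rfl, fun c => by
      cases c with
      | zero =>
        change Inter (p.2.1 0) μ
        rw [p.2.2.1]
        exact p.1.2
      | succ c => exact p.2.2.2.1 c, p.2.2.2.2⟩
  left_inv g := by
    apply Subtype.ext
    funext c
    cases c with
    | zero => exact g.2.1.symm
    | succ c => rfl
  right_inv p := by
    obtain ⟨⟨κ, hκ⟩, ⟨g, h0, h1, h2⟩⟩ := p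
    cases h0
    rfl

theorem pp_chain (q : ℝ≥0∞) (n : ℕ) (μ : ℕ →₀ ℕ) :
    PP q (List.range n) μ = ∑' g : Ch n μ, q ^ (∑ c ∈ Finset.range n, sz (g.1 (c + 1))) := by
  induction n generalizing μ with
  | zero =>
    simp only [List.range_zero, PP, Finset.range_zero, Finset.sum_empty, pow_zero]
    split_ifs with h
    · subst h
      have hu : ∀ g : Ch 0 0, g.1 = fun _ => 0 := by
        intro g
        funext c
        induction c with
        | zero => exact g.2.1
        | succ c ih =>
          have h1 := g.2.2.1 c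
          rw [ih] at h1
          exact MD_inter_zero h1
      have : Unique (Ch 0 0) :=
        { default := ⟨fun _ => 0, rfl, fun _ => MD_zero_inter, rfl⟩
          uniq := fun g => Subtype.ext (hu g) }
      rw [tsum_fintype]
      simp
    · have : IsEmpty (Ch 0 μ) := ⟨fun g => h (g.2.1.symm.trans g.2.2.2)⟩
      rw [tsum_empty]
  | succ n ih =>
    rw [List.range_succ_eq_map]
    simp only [PP]
    rw [← (MD_equiv n μ).symm.tsum_eq, ENNReal.tsum_sigma']
    refine tsum_congr fun κ => ?_
    have h1 : PP q (List.map Nat.succ (List.range n)) κ.1 =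
        q ^ sz κ.1 * PP q (List.range n) κ.1 := pp_shift q (List.range n) κ.1
    rw [h1, ih, zero_mul, pow_zero, one_mul, ← ENNReal.tsum_mul_left]
    refine tsum_congr fun g => ?_
    rw [Finset.sum_range_succ', ← pow_add]
    congr 1
    rw [add_comm]
    congr 1
    change sz κ.1 = sz (g.1 0)
    rw [g.2.1]

end Pool.Agent.MP7629b0.Mac
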