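import Pool.Agent.Lib.MP_7629b0_nt.Defs

/-!
# MacMahon's theorem: definitions
-/

namespace Pool.Agent.MP7629b0.Mac

open scoped ENNReal

/-- `κ ≺ μ`: interlacing, `μ₀ ≥ κ₀ ≥ μ₁ ≥ κ₁ ≥ …` -/
def Inter (κ μ : ℕ →₀ ℕ) : Prop := ∀ i, μ (i + 1) ≤ κ i ∧ κ i ≤ μ i

/-- the sum of the parts -/
noncomputable def sz (μ : ℕ →₀ ℕ) : ℕ := μ.sum fun _ x => x

/-- `1 / (1 - q^k)` as a sum -/
noncomputable def G (q : ℝ≥0∞) (k : ℕ) : ℝ≥0∞ := ∑' m : ℕ, q ^ (k * m)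

/-- weighted chains `0 = μ_r ≺ … ≺ μ_1 ≺ μ`, where the step `κ ≺ ν` with label `x` has the
weight `q^{x (|ν| - |κ|)}` -/
noncomputable def PP (q : ℝ≥0∞) : List ℕ → (ℕ →₀ ℕ) → ℝ≥0∞
  | [], μ => if μ = 0 then 1 else 0
  | x :: l, μ => ∑' κ : {κ : ℕ →₀ ℕ // Inter κ μ}, q ^ (x * (sz μ - sz κ.1)) * PP q l κ.1

/-- chains `g 0 = μ ≻ g 1 ≻ … ≻ g n = 0` -/
def Ch (n : ℕ) (μ : ℕ →₀ ℕ) : Type :=
  {g : ℕ → (ℕ →₀ ℕ) // g 0 = μ ∧ (∀ c, Inter (g (c + 1)) (g c)) ∧ g n = 0}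

/-- plane partitions in the `n × n` box, as functions on `ℕ × ℕ` -/
def Box (n : ℕ) : Type :=
  {f : ℕ → ℕ → ℕ // (∀ i j, f (i + 1) j ≤ f i j) ∧ (∀ i j, f i (j + 1) ≤ f i j) ∧
    ∀ i j, n ≤ i ∨ n ≤ j → f i j = 0}

/-- evaluation of a power series with natural coefficients -/
noncomputable def ev (q : ℝ≥0∞) (φ : PowerSeries ℕ) : ℝ≥0∞ :=
  ∑' m : ℕ, ((PowerSeries.coeff m φ : ℕ) : ℝ≥0∞) * q ^ m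

end Pool.Agent.MP7629b0.Mac
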