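import Pool.Agent.Lib.MP_7629b0_nt.MacDefs

/-!
# MacMahon's theorem, module ME: diagonal decomposition of plane partitions
-/

set_option autoImplicit false

namespace Pool.Agent.MP7629b0.Mac

open scoped ENNReal

/-- the transpose -/
def MEt {n : ℕ} (f : Box n) : Box n :=
  ⟨fun i j => f.1 j i, fun i j => f.2.2.1 j i, fun i j => f.2.1 j i,
    fun i j h => f.2.2.2 j i h.symm⟩

/-- the upper diagonals -/
noncomputable def MEu {n : ℕ} (f : Box n) (c : ℕ) : ℕ →₀ ℕ :=
  Finsupp.onFinset (Finset.range n) (fun k => f.1 k (k + c)) (by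
    intro k hk
    rw [Finset.mem_range]
    by_contra h
    exact hk (f.2.2.2 k (k + c) (Or.inl (not_lt.1 h))))

theorem MEu_apply {n : ℕ} (f : Box n) (c k : ℕ) : MEu f c k = f.1 k (k + c) := rfl

theorem MEu_inter {n : ℕ} (f : Box n) (c : ℕ) : Inter (MEu f (c + 1)) (MEu f c) := by
  intro i
  rw [MEu_apply, MEu_apply, MEu_apply]
  constructor
  · have h := f.2.1 i (i + (c + 1))
    have e : i + 1 + c = i + (c + 1) := by omega
    rw [e]
    exact h
  · have h := f.2.2.1 i (i + c)
    exact h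

theorem MEu_last {n : ℕ} (f : Box n) : MEu f n = 0 := by
  ext k
  rw [MEu_apply]
  exact f.2.2.2 k (k + n) (Or.inr (by omega))

theorem MEeq {n : ℕ} {μ μ' : ℕ →₀ ℕ} (a b : Ch n μ) (a' b' : Ch n μ') (h1 : a.1 = a'.1)
    (h2 : b.1 = b'.1) :
    (⟨μ, (a, b)⟩ : Σ μ : ℕ →₀ ℕ, Ch n μ × Ch n μ) = ⟨μ', (a', b')⟩ := by
  have h : μ = μ' := by rw [← a.2.1, ← a'.2.1, h1]
  subst h
  have e1 : a = a' := Subtype.ext h1
  have e2 : b = b' := Subtype.ext h2
  rw [e1, e2]

/-- the decomposition into diagonals -/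
noncomputable def MEf {n : ℕ} (f : Box n) : Σ μ : ℕ →₀ ℕ, Ch n μ × Ch n μ :=
  ⟨MEu f 0, (⟨MEu f, rfl, MEu_inter f, MEu_last f⟩,
    ⟨MEu (MEt f), rfl, MEu_inter (MEt f), MEu_last (MEt f)⟩)⟩

theorem ME_anti {g : ℕ → (ℕ →₀ ℕ)} (hg : ∀ c, Inter (g (c + 1)) (g c)) (c k : ℕ) :
    g (c + k) 0 ≥ g c k := by
  induction k generalizing c with
  | zero => simp
  | succ k ih =>
    have h1 : g c (k + 1) ≤ g (c + 1) k := (hg c k).1
    have h2 := ih (c + 1)
    have e : c + 1 + k = c + (k + 1) := by omega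
    rw [e] at h2
    omega

theorem ME_zero {n : ℕ} {g : ℕ → (ℕ →₀ ℕ)} (hg : ∀ c, Inter (g (c + 1)) (g c)) (h0 : g n = 0)
    (c : ℕ) (hc : n ≤ c) : g c = 0 := by
  induction c, hc using Nat.le_induction with
  | base => exact h0
  | succ c _ ih =>
    ext i
    have h1 := (hg c i).2
    rw [ih] at h1
    simpa using h1

theorem ME_zero' {n : ℕ} {g : ℕ → (ℕ →₀ ℕ)} (hg : ∀ c, Inter (g (c + 1)) (g c)) (h0 : g n = 0)
    (c k : ℕ) (h : n ≤ c + k) : g c k = 0 := by
  have h1 := ME_anti hg c k
  have h2 := ME_zero hg h0 (c + k) h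
  rw [h2] at h1
  simpa using h1

/-- the inverse -/
noncomputable def MEg {n : ℕ} (g g' : ℕ → (ℕ →₀ ℕ)) (h00 : g' 0 = g 0)
    (hg : ∀ c, Inter (g (c + 1)) (g c)) (hg' : ∀ c, Inter (g' (c + 1)) (g' c))
    (hn : g n = 0) (hn' : g' n = 0) : Box n :=
  ⟨fun i j => if i ≤ j then g (j - i) i else g' (i - j) j, by
    intro i j
    show (if i + 1 ≤ j then g (j - (i + 1)) (i + 1) else g' (i + 1 - j) j) ≤
      (if i ≤ j then g (j - i) i else g' (i - j) j)
    rcases lt_trichotomy i j with h | h | h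
    · obtain ⟨d, rfl⟩ := Nat.exists_eq_add_of_lt h
      rw [if_pos (by omega), if_pos (by omega)]
      have e1 : i + d + 1 - (i + 1) = d := by omega
      have e2 : i + d + 1 - i = d + 1 := by omega
      rw [e1, e2]
      exact (hg d i).1
    · subst h
      rw [if_neg (by omega), if_pos le_rfl]
      have e1 : i + 1 - i = 0 + 1 := by omega
      have e2 : i - i = 0 := by omega
      rw [e1, e2, ← h00]
      exact (hg' 0 i).2
    · obtain ⟨d, rfl⟩ := Nat.exists_eq_add_of_lt h
      rw [if_neg (by omega), if_neg (by omega)]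
      have e1 : j + d + 1 + 1 - j = d + 1 + 1 := by omega
      have e2 : j + d + 1 - j = d + 1 := by omega
      rw [e1, e2]
      exact (hg' (d + 1) j).2, by
    intro i j
    show (if i ≤ j + 1 then g (j + 1 - i) i else g' (i - (j + 1)) (j + 1)) ≤
      (if i ≤ j then g (j - i) i else g' (i - j) j)
    rcases lt_trichotomy i j with h | h | h
    · obtain ⟨d, rfl⟩ := Nat.exists_eq_add_of_lt h
      rw [if_pos (by omega), if_pos (by omega)]
      have e1 : i + d + 1 + 1 - i = d + 1 + 1 := by omega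
      have e2 : i + d + 1 - i = d + 1 := by omega
      rw [e1, e2]
      exact (hg (d + 1) i).2
    · subst h
      rw [if_pos (by omega), if_pos le_rfl]
      have e1 : i + 1 - i = 0 + 1 := by omega
      have e2 : i - i = 0 := by omega
      rw [e1, e2]
      exact (hg 0 i).2
    · obtain ⟨d, rfl⟩ := Nat.exists_eq_add_of_lt h
      rw [if_neg (by omega : ¬ j + d + 1 ≤ j)]
      have e2 : j + d + 1 - j = d + 1 := by omega
      rw [e2]
      rcases Nat.eq_zero_or_pos d with hd | hd
      · subst hd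
        rw [if_pos (by omega)]
        have e1 : j + 1 - (j + 0 + 1) = 0 := by omega
        rw [e1, ← h00]
        exact (hg' 0 j).1
      · rw [if_neg (by omega)]
        have e1 : j + d + 1 - (j + 1) = d := by omega
        rw [e1]
        exact (hg' d j).1, by
    intro i j h
    show (if i ≤ j then g (j - i) i else g' (i - j) j) = 0
    split_ifs with h1
    · exact ME_zero' hg hn _ _ (by omega)
    · exact ME_zero' hg' hn' _ _ (by omega)⟩

theorem MEf_bij (n : ℕ) : Function.Bijective (MEf (n := n)) := by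
  constructor
  · intro f f' h
    have h1 : MEu f = MEu f' :=
      congrArg (fun s : (Σ μ : ℕ →₀ ℕ, Ch n μ × Ch n μ) => s.2.1.1) h
    have h2 : MEu (MEt f) = MEu (MEt f') :=
      congrArg (fun s : (Σ μ : ℕ →₀ ℕ, Ch n μ × Ch n μ) => s.2.2.1) h
    apply Subtype.ext
    funext i j
    rcases le_total i j with hij | hij
    · obtain ⟨d, rfl⟩ := Nat.exists_eq_add_of_le hij
      have h3 := congrFun h1 d
      have h4 := DFunLike.congr_fun h3 i
      exact h4
    · obtain ⟨d, rfl⟩ := Nat.exists_eq_add_of_le hij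
      have h3 := congrFun h2 d
      have h4 := DFunLike.congr_fun h3 j
      exact h4
  · rintro ⟨μ, ⟨⟨g, h0, hg, hn⟩, ⟨g', h0', hg', hn'⟩⟩⟩
    have h00 : g' 0 = g 0 := h0'.trans h0.symm
    refine ⟨MEg g g' h00 hg hg' hn hn', ?_⟩
    apply MEeq
    · funext c
      ext k
      show (if k ≤ k + c then g (k + c - k) k else g' (k - (k + c)) (k + c)) = g c k
      rw [if_pos (by omega)]
      have e : k + c - k = c := by omega
      rw [e]
    · funext c
      ext k
      show (if k + c ≤ k then g (k - (k + c)) (k + c) else g' (k + c - k) k) = g' c k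
      have e : k + c - k = c := by omega
      rcases Nat.eq_zero_or_pos c with hc | hc
      · subst hc
        rw [if_pos (by omega)]
        have e1 : k - (k + 0) = 0 := by omega
        rw [e1, h00]
        rfl
      · rw [if_neg (by omega), e]

theorem MEsz {n : ℕ} (f : Box n) (c : ℕ) :
    sz (MEu f c) = ∑ k ∈ Finset.range n, f.1 k (k + c) := by
  unfold sz
  rw [Finsupp.sum_of_support_subset (s := Finset.range n)]
  · rfl
  · exact Finsupp.support_onFinset_subset
  · intro i _
    rfl

theorem MEsum_row (n : ℕ) (F : ℕ → ℕ) (hF : ∀ j, n ≤ j → F j = 0) (i : ℕ) :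
    ∑ j ∈ Finset.range n, (if i < j then F j else 0) =
      ∑ c ∈ Finset.range n, F (i + (c + 1)) := by
  have h1 : ∑ j ∈ Finset.range n, (if i < j then F j else 0) =
      ∑ j ∈ Finset.range (i + 1 + n), (if i < j then F j else 0) := by
    apply Finset.sum_subset
    · intro x hx
      rw [Finset.mem_range] at hx ⊢
      omega
    · intro x _ hx
      rw [Finset.mem_range, not_lt] at hx
      rw [hF x hx, ite_self]
  rw [h1, Finset.sum_range_add]
  have h2 : ∑ x ∈ Finset.range (i + 1), (if i < x then F x else 0) = 0 := by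
    apply Finset.sum_eq_zero
    intro x hx
    rw [Finset.mem_range] at hx
    rw [if_neg (by omega)]
  rw [h2, zero_add]
  apply Finset.sum_congr rfl
  intro x _
  rw [if_pos (by omega)]
  congr 1
  omega

theorem MEsum (n : ℕ) (F : ℕ → ℕ → ℕ) (hF : ∀ i j, n ≤ i ∨ n ≤ j → F i j = 0) :
    ∑ i ∈ Finset.range n, ∑ j ∈ Finset.range n, F i j =
      ∑ k ∈ Finset.range n, F k (k + 0) +
        ∑ c ∈ Finset.range n, ∑ k ∈ Finset.range n, F k (k + (c + 1)) +
        ∑ c ∈ Finset.range n, ∑ k ∈ Finset.range n, F (k + (c + 1)) k := by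
  have h1 : ∑ i ∈ Finset.range n, ∑ j ∈ Finset.range n, F i j =
      ∑ i ∈ Finset.range n, ∑ j ∈ Finset.range n, (if j = i then F i j else 0) +
        ∑ i ∈ Finset.range n, ∑ j ∈ Finset.range n, (if i < j then F i j else 0) +
        ∑ i ∈ Finset.range n, ∑ j ∈ Finset.range n, (if j < i then F i j else 0) := by
    rw [← Finset.sum_add_distrib, ← Finset.sum_add_distrib]
    apply Finset.sum_congr rfl
    intro i _
    rw [← Finset.sum_add_distrib, ← Finset.sum_add_distrib]
    apply Finset.sum_congr rfl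
    intro j _
    rcases lt_trichotomy i j with h | h | h
    · rw [if_neg (by omega), if_pos h, if_neg (by omega)]
      omega
    · rw [if_pos h.symm, if_neg (by omega), if_neg (by omega)]
      omega
    · rw [if_neg (by omega), if_neg (by omega), if_pos h]
      omega
  rw [h1]
  congr 1
  · congr 1
    · apply Finset.sum_congr rfl
      intro i hi
      rw [Finset.sum_ite_eq', if_pos hi]
      rfl
    · rw [Finset.sum_comm (s := Finset.range n) (t := Finset.range n)
        (f := fun c k => F k (k + (c + 1)))]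
      apply Finset.sum_congr rfl
      intro i _
      exact MEsum_row n (F i) (fun j hj => hF i j (Or.inr hj)) i
  · rw [Finset.sum_comm, Finset.sum_comm (s := Finset.range n) (t := Finset.range n)
        (f := fun c k => F (k + (c + 1)) k)]
    apply Finset.sum_congr rfl
    intro j _
    exact MEsum_row n (fun i => F i j) (fun i hi => hF i j (Or.inl hi)) j

theorem box_equiv (n : ℕ) : ∃ e : Box n ≃ (Σ μ : ℕ →₀ ℕ, Ch n μ × Ch n μ), ∀ f : Box n,
    ∑ i ∈ Finset.range n, ∑ j ∈ Finset.range n, f.1 i j =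
      sz (e f).1 + ∑ c ∈ Finset.range n, sz ((e f).2.1.1 (c + 1)) +
        ∑ c ∈ Finset.range n, sz ((e f).2.2.1 (c + 1)) := by
  refine ⟨Equiv.ofBijective MEf (MEf_bij n), fun f => ?_⟩
  rw [MEsum n f.1 f.2.2.2]
  show _ = sz (MEu f 0) + ∑ c ∈ Finset.range n, sz (MEu f (c + 1)) +
        ∑ c ∈ Finset.range n, sz (MEu (MEt f) (c + 1))
  simp only [MEsz]
  rfl

end Pool.Agent.MP7629b0.Mac
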