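import Pool.Agent.Lib.MP_7629b0_nt.MacC
import Pool.Agent.Lib.MP_7629b0_nt.MacD
import Pool.Agent.Lib.MP_7629b0_nt.MacE

/-!
# MacMahon's theorem, module MF: the generating function of the box
-/

namespace Pool.Agent.MP7629b0.Mac

open scoped ENNReal

theorem mf_list (f : ℕ → ℝ≥0∞) (n : ℕ) :
    ((List.range n).map f).prod = ∏ i ∈ Finset.range n, f i := by
  induction n with
  | zero => simp
  | succ n ih =>
    rw [List.range_succ, List.map_append, List.prod_append, ih, Finset.prod_range_succ]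
    simp

theorem box_gf (q : ℝ≥0∞) (n : ℕ) :
    ∑' f : Box n, q ^ (∑ i ∈ Finset.range n, ∑ j ∈ Finset.range n, f.1 i j) =
      ∏ i ∈ Finset.range n, ∏ j ∈ Finset.range n, G q (i + j + 1) := by
  obtain ⟨e, he⟩ := box_equiv n
  let A : ∀ μ : ℕ →₀ ℕ, Ch n μ → ℕ := fun μ g => ∑ c ∈ Finset.range n, sz (g.1 (c + 1))
  have h1 : ∑' f : Box n, q ^ (∑ i ∈ Finset.range n, ∑ j ∈ Finset.range n, f.1 i j) =
      ∑' p : (Σ μ : ℕ →₀ ℕ, Ch n μ × Ch n μ), q ^ (sz p.1 + A p.1 p.2.1 + A p.1 p.2.2) := by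
    rw [← e.tsum_eq]
    exact tsum_congr fun f => by rw [he f]
  have h2 : ∀ μ : ℕ →₀ ℕ, ∑' p : Ch n μ × Ch n μ, q ^ (sz μ + A μ p.1 + A μ p.2) =
      PP q ((List.range n).map (· + 1)) μ * PP q (List.range n) μ := by
    intro μ
    rw [pp_shift, pp_chain]
    change _ = q ^ sz μ * (∑' g : Ch n μ, q ^ A μ g) * ∑' g : Ch n μ, q ^ A μ g
    rw [ENNReal.tsum_prod (f := fun a b => q ^ (sz μ + A μ a + A μ b))]
    simp only [pow_add, ENNReal.tsum_mul_left, ENNReal.tsum_mul_right]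
  rw [h1, ENNReal.tsum_sigma (f := fun (μ : ℕ →₀ ℕ) (p : Ch n μ × Ch n μ) =>
    q ^ (sz μ + A μ p.1 + A μ p.2)), tsum_congr h2, cauchy, mf_list]
  refine Finset.prod_congr rfl fun i _ => ?_
  rw [List.map_map, mf_list]
  rfl

end Pool.Agent.MP7629b0.Mac
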