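import Pool.Agent.Lib.MP_7629b0_nt.MacDefs

/-!
# MacMahon's theorem: evaluation of power series
-/

namespace Pool.Agent.MP7629b0.Mac

open scoped ENNReal

theorem ev_mul (q : ℝ≥0∞) (φ ψ : PowerSeries ℕ) : ev q (φ * ψ) = ev q φ * ev q ψ := by
  have h1 : ev q φ * ev q ψ = ∑' p : ℕ × ℕ,
      (((PowerSeries.coeff p.1 φ : ℕ) : ℝ≥0∞) * q ^ p.1) *
        (((PowerSeries.coeff p.2 ψ : ℕ) : ℝ≥0∞) * q ^ p.2) := by
    rw [ENNReal.tsum_prod (f := fun i j => (((PowerSeries.coeff i φ : ℕ) : ℝ≥0∞) * q ^ i) *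
        (((PowerSeries.coeff j ψ : ℕ) : ℝ≥0∞) * q ^ j))]
    unfold ev
    rw [← ENNReal.tsum_mul_right]
    refine tsum_congr fun i => ?_
    rw [ENNReal.tsum_mul_left]
  have h2 : (∑' p : ℕ × ℕ, (((PowerSeries.coeff p.1 φ : ℕ) : ℝ≥0∞) * q ^ p.1) *
        (((PowerSeries.coeff p.2 ψ : ℕ) : ℝ≥0∞) * q ^ p.2)) =
      ∑' p : (Σ n : ℕ, Finset.HasAntidiagonal.antidiagonal n),
        (((PowerSeries.coeff p.2.1.1 φ : ℕ) : ℝ≥0∞) * q ^ p.2.1.1) *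
        (((PowerSeries.coeff p.2.1.2 ψ : ℕ) : ℝ≥0∞) * q ^ p.2.1.2) :=
    ((Finset.HasAntidiagonal.sigmaAntidiagonalEquivProd (A := ℕ)).tsum_eq _).symm
  rw [h1, h2, ENNReal.tsum_sigma (fun (n : ℕ) (p : Finset.HasAntidiagonal.antidiagonal n) =>
    (((PowerSeries.coeff p.1.1 φ : ℕ) : ℝ≥0∞) * q ^ p.1.1) *
        (((PowerSeries.coeff p.1.2 ψ : ℕ) : ℝ≥0∞) * q ^ p.1.2))]
  unfold ev
  refine tsum_congr fun n => ?_
  rw [PowerSeries.coeff_mul, Nat.cast_sum, Finset.sum_mul, tsum_fintype,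
    ← Finset.sum_coe_sort]
  refine Finset.sum_congr rfl fun p _ => ?_
  have hp : p.1.1 + p.1.2 = n := Finset.HasAntidiagonal.mem_antidiagonal.1 p.2
  have hq : q ^ n = q ^ p.1.1 * q ^ p.1.2 := by rw [← pow_add, hp]
  rw [hq]
  push_cast
  ring

theorem ev_geo (q : ℝ≥0∞) (k : ℕ) (hk : 1 ≤ k) : ev q (geo k) = G q k := by
  have hinj : Function.Injective fun j : ℕ => k * j := fun a b h =>
    Nat.eq_of_mul_eq_mul_left hk h
  unfold ev G
  rw [← hinj.tsum_eq]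
  · refine tsum_congr fun j => ?_
    rw [geo, PowerSeries.coeff_mk, if_pos (Dvd.intro j rfl)]
    simp
  · intro m hm
    rw [Function.mem_support] at hm
    by_contra h
    apply hm
    rw [geo, PowerSeries.coeff_mk, if_neg]
    · simp
    · rintro ⟨j, rfl⟩
      exact h ⟨j, rfl⟩

end Pool.Agent.MP7629b0.Mac
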