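import Pool.Agent.Lib.MP_7629b0_nt.MacDefs

/-!
# MacMahon's theorem, module MH: a power series with natural coefficients is determined by its
values near `0`
-/

namespace Pool.Agent.MP7629b0.Mac

open scoped ENNReal

/-- `Σ_m coeff (N + m) φ q^m` -/
noncomputable def macHTail (q : ℝ≥0∞) (N : ℕ) (φ : PowerSeries ℕ) : ℝ≥0∞ :=
  ∑' m : ℕ, ((PowerSeries.coeff (m + N) φ : ℕ) : ℝ≥0∞) * q ^ m

theorem macH_split (q : ℝ≥0∞) (N : ℕ) (φ : PowerSeries ℕ) :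
    ev q φ = ∑ m ∈ Finset.range N, ((PowerSeries.coeff m φ : ℕ) : ℝ≥0∞) * q ^ m +
      q ^ N * macHTail q N φ := by
  unfold ev macHTail
  rw [← Summable.sum_add_tsum_nat_add' (k := N) ENNReal.summable, ← ENNReal.tsum_mul_left]
  congr 1
  refine tsum_congr fun m => ?_
  rw [pow_add]
  ring

theorem macH_succ (q : ℝ≥0∞) (N : ℕ) (φ : PowerSeries ℕ) :
    macHTail q N φ = ((PowerSeries.coeff N φ : ℕ) : ℝ≥0∞) + q * macHTail q (N + 1) φ := by
  unfold macHTail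
  rw [← Summable.sum_add_tsum_nat_add' (k := 1) ENNReal.summable, ← ENNReal.tsum_mul_left]
  congr 1
  · simp
  · refine tsum_congr fun m => ?_
    rw [pow_add, show m + 1 + N = m + (N + 1) by ring]
    ring

theorem macH_mono {q q' : ℝ≥0∞} (h : q ≤ q') (N : ℕ) (φ : PowerSeries ℕ) :
    macHTail q N φ ≤ macHTail q' N φ :=
  ENNReal.tsum_le_tsum fun m => by gcongr

theorem macH_not_lt (φ ψ : PowerSeries ℕ) (hf : ev (1 / 2) φ ≠ ⊤)
    (h : ∀ q : ℝ≥0∞, q ≤ 1 / 2 → ev q φ = ev q ψ) (N : ℕ)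
    (hN : ∀ m < N, PowerSeries.coeff m φ = PowerSeries.coeff m ψ) :
    ¬ PowerSeries.coeff N φ < PowerSeries.coeff N ψ := by
  intro hlt
  set K : ℝ≥0∞ := macHTail (1 / 2) (N + 1) φ with hK
  have hhalf : (1 / 2 : ℝ≥0∞) ≠ 0 := by simp
  have hKt : K ≠ ⊤ := by
    intro hT
    apply hf
    rw [macH_split (1 / 2) (N + 1) φ, ← hK, hT, ENNReal.mul_top (pow_ne_zero _ hhalf)]
    simp
  set q : ℝ≥0∞ := (2 * (K + 1))⁻¹ with hq
  have hK1 : 2 * (K + 1) ≠ ⊤ := by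
    apply ENNReal.mul_ne_top (by simp)
    simp [hKt]
  have hK0 : 2 * (K + 1) ≠ 0 := by simp
  have hq0 : q ≠ 0 := by
    rw [hq]
    exact ENNReal.inv_ne_zero.2 hK1
  have hqt : q ≠ ⊤ := by
    rw [hq]
    exact ENNReal.inv_ne_top.2 hK0
  have hq2 : q ≤ 1 / 2 := by
    rw [hq, one_div]
    apply ENNReal.inv_le_inv.2
    calc (2 : ℝ≥0∞) = 2 * 1 := by ring
      _ ≤ 2 * (K + 1) := by gcongr; exact le_add_self
  have h1 := h q hq2
  rw [macH_split q N φ, macH_split q N ψ] at h1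
  have h2 : ∑ m ∈ Finset.range N, ((PowerSeries.coeff m φ : ℕ) : ℝ≥0∞) * q ^ m =
      ∑ m ∈ Finset.range N, ((PowerSeries.coeff m ψ : ℕ) : ℝ≥0∞) * q ^ m :=
    Finset.sum_congr rfl fun m hm => by rw [hN m (Finset.mem_range.1 hm)]
  rw [h2] at h1
  have h3 : ∑ m ∈ Finset.range N, ((PowerSeries.coeff m ψ : ℕ) : ℝ≥0∞) * q ^ m ≠ ⊤ := by
    apply ENNReal.sum_ne_top.2
    intro m _
    exact ENNReal.mul_ne_top (by simp) (ENNReal.pow_ne_top hqt)
  have h4 := (ENNReal.add_right_inj h3).1 h1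
  have h5 := (ENNReal.mul_right_inj (pow_ne_zero N hq0) (ENNReal.pow_ne_top hqt)).1 h4
  rw [macH_succ q N φ, macH_succ q N ψ] at h5
  have h6 : ((PowerSeries.coeff N φ : ℕ) : ℝ≥0∞) + 1 ≤
      ((PowerSeries.coeff N φ : ℕ) : ℝ≥0∞) + q * macHTail q (N + 1) φ := by
    rw [h5]
    calc ((PowerSeries.coeff N φ : ℕ) : ℝ≥0∞) + 1
        = ((PowerSeries.coeff N φ + 1 : ℕ) : ℝ≥0∞) := by push_cast; rfl
      _ ≤ ((PowerSeries.coeff N ψ : ℕ) : ℝ≥0∞) := by exact_mod_cast hlt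
      _ ≤ _ := le_self_add
  have h7 : 1 ≤ q * macHTail q (N + 1) φ :=
    (ENNReal.add_le_add_iff_left (ENNReal.natCast_ne_top _)).1 h6
  have h8 : q * macHTail q (N + 1) φ ≤ 2⁻¹ := by
    calc q * macHTail q (N + 1) φ ≤ q * (K + 1) := by
          gcongr
          exact (macH_mono hq2 _ _).trans le_self_add
      _ = 2⁻¹ := by
          rw [hq, ENNReal.mul_inv (by simp) (by simp), mul_assoc,
            ENNReal.inv_mul_cancel (by simp) (by simp [hKt]), mul_one]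
  have h9 := h7.trans h8
  have h10 : (2⁻¹ : ℝ≥0∞) < 1 := ENNReal.inv_lt_one.2 (by norm_num)
  exact absurd h9 (not_le.2 h10)

theorem ev_inj (φ ψ : PowerSeries ℕ) (hf : ev (1 / 2) φ ≠ ⊤)
    (h : ∀ q : ℝ≥0∞, q ≤ 1 / 2 → ev q φ = ev q ψ) : φ = ψ := by
  ext n
  induction n using Nat.strong_induction_on with
  | _ n ih =>
    have h1 := macH_not_lt φ ψ hf h n ih
    have h2 := macH_not_lt ψ φ (by rw [← h (1 / 2) le_rfl]; exact hf) (fun q hq => (h q hq).symm) n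
      (fun m hm => (ih m hm).symm)
    omega

end Pool.Agent.MP7629b0.Mac
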