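import Pool.Agent.Lib.MP_7629b0_nt.MacDefs
import Pool.Agent.Lib.MP_7629b0_nt.MacF
import Pool.Agent.Lib.MP_7629b0_nt.MacG
import Pool.Agent.Lib.MP_7629b0_nt.MacH

/-!
# MacMahon's theorem: counting plane partitions in the box
-/

namespace Pool.Agent.MP7629b0.Mac

open scoped ENNReal

/-- the sum of the entries -/
def macI_sum (n : ℕ) (f : Box n) : ℕ :=
  ∑ i ∈ Finset.range n, ∑ j ∈ Finset.range n, f.1 i j

theorem macI_le (n : ℕ) (f : Box n) (i j : ℕ) : f.1 i j ≤ macI_sum n f := by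
  by_cases h : n ≤ i ∨ n ≤ j
  · rw [f.2.2.2 i j h]
    exact Nat.zero_le _
  · push Not at h
    calc f.1 i j ≤ ∑ j' ∈ Finset.range n, f.1 i j' :=
          Finset.single_le_sum (f := fun j' => f.1 i j') (fun _ _ => Nat.zero_le _)
            (Finset.mem_range.2 h.2)
      _ ≤ macI_sum n f :=
          Finset.single_le_sum (f := fun i' => ∑ j' ∈ Finset.range n, f.1 i' j')
            (fun _ _ => Nat.zero_le _) (Finset.mem_range.2 h.1)

theorem macI_finite (n N : ℕ) : Finite {f : Box n // macI_sum n f = N} := by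
  let e : {f : Box n // macI_sum n f = N} → (Fin n → Fin n → Fin (N + 1)) := fun f i j =>
    ⟨f.1.1 i j, Nat.lt_succ_of_le ((macI_le n f.1 i j).trans f.2.le)⟩
  refine Finite.of_injective e fun f g h => ?_
  refine Subtype.ext (Subtype.ext ?_)
  funext i j
  by_cases hij : n ≤ i ∨ n ≤ j
  · rw [f.1.2.2.2 i j hij, g.1.2.2.2 i j hij]
  · push Not at hij
    have h1 := congrFun (congrFun h ⟨i, hij.1⟩) ⟨j, hij.2⟩
    exact congrArg Fin.val h1

theorem macI_ev_one (q : ℝ≥0∞) : ev q 1 = 1 := by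
  unfold ev
  rw [tsum_eq_single 0]
  · simp
  · intro m hm
    rw [PowerSeries.coeff_one, if_neg hm]
    simp

theorem macI_ev_prod {ι : Type} (q : ℝ≥0∞) (s : Finset ι) (φ : ι → PowerSeries ℕ) :
    ev q (∏ i ∈ s, φ i) = ∏ i ∈ s, ev q (φ i) := by
  classical
  induction s using Finset.induction_on with
  | empty => rw [Finset.prod_empty, Finset.prod_empty, macI_ev_one]
  | insert a s ha ih => rw [Finset.prod_insert ha, Finset.prod_insert ha, ev_mul, ih]

theorem macI_G_ne_top (k : ℕ) (hk : 1 ≤ k) : G (1 / 2) k ≠ ⊤ := by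
  unfold G
  have h1 : ∀ m : ℕ, (1 / 2 : ℝ≥0∞) ^ (k * m) = ((1 / 2) ^ k) ^ m := fun m => pow_mul _ _ _
  rw [tsum_congr h1, ENNReal.tsum_geometric]
  have h2 : (1 / 2 : ℝ≥0∞) < 1 := by
    rw [one_div]
    exact ENNReal.inv_lt_one.2 (by norm_num)
  have h3 : (1 / 2 : ℝ≥0∞) ^ k < 1 := pow_lt_one₀ bot_le h2 (by omega)
  rw [Ne, ENNReal.inv_eq_top, tsub_eq_zero_iff_le, not_le]
  exact h3

theorem macI_ev (q : ℝ≥0∞) (n : ℕ) :
    ev q (PowerSeries.mk fun N => Nat.card {f : Box n // macI_sum n f = N}) =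
      ∑' f : Box n, q ^ macI_sum n f := by
  unfold ev
  rw [← ENNReal.tsum_fiberwise (fun f : Box n => q ^ macI_sum n f) (macI_sum n)]
  refine tsum_congr fun N => ?_
  rw [PowerSeries.coeff_mk]
  have hfin : Finite {f : Box n // macI_sum n f = N} := macI_finite n N
  have h1 : ∀ b : (macI_sum n ⁻¹' {N} : Set (Box n)), q ^ macI_sum n b.1 = q ^ N := by
    intro b
    have hb : macI_sum n b.1 = N := b.2
    rw [hb]
  rw [tsum_congr h1, ENNReal.tsum_const]
  have h2 : ENat.card (macI_sum n ⁻¹' {N} : Set (Box n)) =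
      (Nat.card {f : Box n // macI_sum n f = N} : ℕ∞) := by
    change ENat.card {f : Box n // macI_sum n f = N} = _
    exact ENat.card_eq_coe_natCard _
  rw [h2]
  simp

theorem box_count (n N : ℕ) :
    Nat.card {f : Box n // ∑ i ∈ Finset.range n, ∑ j ∈ Finset.range n, f.1 i j = N} =
      PowerSeries.coeff N (∏ i ∈ Finset.range n, ∏ j ∈ Finset.range n, geo (i + j + 1)) := by
  have h1 : ∀ q : ℝ≥0∞,
      ev q (PowerSeries.mk fun N => Nat.card {f : Box n // macI_sum n f = N}) =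
        ∏ i ∈ Finset.range n, ∏ j ∈ Finset.range n, G q (i + j + 1) := by
    intro q
    rw [macI_ev]
    exact box_gf q n
  have h2 : ∀ q : ℝ≥0∞,
      ev q (∏ i ∈ Finset.range n, ∏ j ∈ Finset.range n, geo (i + j + 1)) =
        ∏ i ∈ Finset.range n, ∏ j ∈ Finset.range n, G q (i + j + 1) := by
    intro q
    rw [macI_ev_prod]
    refine Finset.prod_congr rfl fun i _ => ?_
    rw [macI_ev_prod]
    exact Finset.prod_congr rfl fun j _ => ev_geo q _ (by omega)
  have h3 := ev_inj (PowerSeries.mk fun N => Nat.card {f : Box n // macI_sum n f = N})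
    (∏ i ∈ Finset.range n, ∏ j ∈ Finset.range n, geo (i + j + 1))
    (by
      rw [h1]
      exact ENNReal.prod_ne_top fun i _ => ENNReal.prod_ne_top fun j _ =>
        macI_G_ne_top _ (by omega))
    (fun q _ => by rw [h1, h2])
  rw [← h3, PowerSeries.coeff_mk]
  rfl

end Pool.Agent.MP7629b0.Mac
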