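import Pool.Agent.Lib.MP_7629b0_nt.MacDefs

/-!
# MacMahon's theorem: comparison of the products
-/

namespace Pool.Agent.MP7629b0.Mac

open scoped ENNReal
open Finset

theorem MJ_coeff_mul_geo (φ : PowerSeries ℕ) {k n i : ℕ} (hi : i ≤ n) (hk : n < k) :
    PowerSeries.coeff i (φ * geo k) = PowerSeries.coeff i φ := by
  rw [PowerSeries.coeff_mul, Finset.sum_eq_single (i, 0)]
  · simp [geo]
  · rintro ⟨a, b⟩ hab hne
    rw [Finset.HasAntidiagonal.mem_antidiagonal] at hab
    simp only at hab ⊢
    have hb : b ≠ 0 := by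
      rintro rfl
      apply hne
      simp at hab
      simp [hab]
    have hnd : ¬ k ∣ b := by
      intro hd
      have := Nat.le_of_dvd (Nat.pos_of_ne_zero hb) hd
      omega
    simp [geo, hnd]
  · intro h
    exact absurd (Finset.HasAntidiagonal.mem_antidiagonal.2 (by simp)) h

theorem MJ_coeff_mul_geo_pow (φ : PowerSeries ℕ) {k n : ℕ} (hk : n < k) (e : ℕ) :
    ∀ i ≤ n, PowerSeries.coeff i (φ * geo k ^ e) = PowerSeries.coeff i φ := by
  induction e with
  | zero => intro i _; simp
  | succ e ih =>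
    intro i hi
    rw [pow_succ, ← mul_assoc, MJ_coeff_mul_geo _ hi hk]
    exact ih i hi

theorem MJ_coeff_mul_prod (φ : PowerSeries ℕ) {n : ℕ} (e : ℕ → ℕ) (s : Finset ℕ)
    (hs : ∀ k ∈ s, n < k) :
    ∀ i ≤ n, PowerSeries.coeff i (φ * ∏ k ∈ s, geo k ^ e k) = PowerSeries.coeff i φ := by
  classical
  induction s using Finset.induction_on with
  | empty => intro i _; simp
  | insert a s ha ih =>
    intro i hi
    have hs' : ∀ k ∈ s, n < k := fun k hk => hs k (Finset.mem_insert_of_mem hk)
    rw [Finset.prod_insert ha, mul_comm (geo a ^ e a), ← mul_assoc,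
      MJ_coeff_mul_geo_pow _ (hs a (Finset.mem_insert_self a s)) _ i hi]
    exact ih hs' i hi

theorem coeff_box (n : ℕ) :
    PowerSeries.coeff n (∏ i ∈ Finset.range n, ∏ j ∈ Finset.range n, geo (i + j + 1)) = pl n := by
  classical
  rw [← Finset.prod_product']
  have hmaps : ∀ x ∈ Finset.range n ×ˢ Finset.range n, x.1 + x.2 + 1 ∈ Finset.Icc 1 (2 * n) := by
    rintro ⟨a, b⟩ h
    simp only [Finset.mem_product, Finset.mem_range, Finset.mem_Icc] at h ⊢
    omega
  rw [← Finset.prod_fiberwise_of_maps_to hmaps]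
  have hfib : ∀ k ∈ Finset.Icc 1 (2 * n),
      (∏ x ∈ (Finset.range n ×ˢ Finset.range n) with x.1 + x.2 + 1 = k, geo (x.1 + x.2 + 1)) =
      geo k ^ ((Finset.range n ×ˢ Finset.range n).filter fun x => x.1 + x.2 + 1 = k).card := by
    intro k _
    rw [← Finset.prod_const]
    apply Finset.prod_congr rfl
    intro x hx
    rw [(Finset.mem_filter.1 hx).2]
  rw [Finset.prod_congr rfl hfib]
  have hsplit : Finset.Icc 1 (2 * n) = Finset.Icc 1 n ∪ Finset.Icc (n + 1) (2 * n) := by
    ext k
    simp only [Finset.mem_union, Finset.mem_Icc]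
    omega
  have hdisj : Disjoint (Finset.Icc 1 n) (Finset.Icc (n + 1) (2 * n)) := by
    rw [Finset.disjoint_left]
    intro k h1 h2
    simp only [Finset.mem_Icc] at h1 h2
    omega
  rw [hsplit, Finset.prod_union hdisj,
    MJ_coeff_mul_prod _ (fun k => ((Finset.range n ×ˢ Finset.range n).filter
      fun x => x.1 + x.2 + 1 = k).card) _
      (fun k hk => by simp only [Finset.mem_Icc] at hk; omega) n le_rfl]
  unfold pl
  congr 1
  apply Finset.prod_congr rfl
  intro k hk
  congr 1
  rw [Finset.mem_Icc] at hk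
  have himg : ((Finset.range n ×ˢ Finset.range n).filter fun x => x.1 + x.2 + 1 = k) =
      (Finset.range k).image fun i => (i, k - 1 - i) := by
    ext ⟨a, b⟩
    simp only [Finset.mem_filter, Finset.mem_product, Finset.mem_range, Finset.mem_image,
      Prod.mk.injEq]
    constructor
    · rintro ⟨⟨ha, hb⟩, hab⟩
      exact ⟨a, by omega, rfl, by omega⟩
    · rintro ⟨i, hi, rfl, rfl⟩
      exact ⟨⟨by omega, by omega⟩, by omega⟩
  rw [himg, Finset.card_image_of_injective, Finset.card_range]
  intro x y hxy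
  simp only [Prod.mk.injEq] at hxy
  exact hxy.1

end Pool.Agent.MP7629b0.Mac
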