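import Pool.Agent.Lib.MP_7629b0_nt.MacDefs

/-!
# MacMahon's theorem: the arrays of the frozen statement (module MK)
-/

namespace Pool.Agent.MP7629b0.Mac

open scoped ENNReal

/-- extension of an array by zero -/
def mkExt {n : ℕ} (f : Fin n → Fin n → Fin (n + 1)) (i j : ℕ) : ℕ :=
  if h : i < n ∧ j < n then (f ⟨i, h.1⟩ ⟨j, h.2⟩ : ℕ) else 0

theorem mk_ext_pos {n : ℕ} (f : Fin n → Fin n → Fin (n + 1)) {i j : ℕ} (hi : i < n) (hj : j < n) :
    mkExt f i j = (f ⟨i, hi⟩ ⟨j, hj⟩ : ℕ) := dif_pos ⟨hi, hj⟩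

theorem mk_ext_neg {n : ℕ} (f : Fin n → Fin n → Fin (n + 1)) {i j : ℕ} (h : ¬ (i < n ∧ j < n)) :
    mkExt f i j = 0 := dif_neg h

theorem mk_box {n : ℕ} (f : Fin n → Fin n → Fin (n + 1))
    (hf : ∀ i i' j j' : Fin n, i ≤ i' → j ≤ j' → f i' j' ≤ f i j) :
    (∀ i j, mkExt f (i + 1) j ≤ mkExt f i j) ∧ (∀ i j, mkExt f i (j + 1) ≤ mkExt f i j) ∧
      ∀ i j, n ≤ i ∨ n ≤ j → mkExt f i j = 0 := by
  refine ⟨fun i j => ?_, fun i j => ?_, fun i j h => mk_ext_neg f (by omega)⟩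
  · by_cases h : i + 1 < n ∧ j < n
    · rw [mk_ext_pos f h.1 h.2, mk_ext_pos f (by omega : i < n) h.2]
      exact hf _ _ _ _ (Fin.mk_le_mk.2 (Nat.le_succ i)) le_rfl
    · rw [mk_ext_neg f h]
      exact Nat.zero_le _
  · by_cases h : i < n ∧ j + 1 < n
    · rw [mk_ext_pos f h.1 h.2, mk_ext_pos f h.1 (by omega : j < n)]
      exact hf _ _ _ _ le_rfl (Fin.mk_le_mk.2 (Nat.le_succ j))
    · rw [mk_ext_neg f h]
      exact Nat.zero_le _

theorem mk_sum {n : ℕ} (F : ℕ → ℕ → ℕ) :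
    ∑ i ∈ Finset.range n, ∑ j ∈ Finset.range n, F i j = ∑ i : Fin n, ∑ j : Fin n, F i j := by
  rw [Finset.sum_range]
  exact Finset.sum_congr rfl fun i _ => Finset.sum_range _

theorem mk_le {n : ℕ} (F : Box n)
    (h : ∑ i ∈ Finset.range n, ∑ j ∈ Finset.range n, F.1 i j = n) (i j : Fin n) :
    F.1 i j < n + 1 := by
  have h1 : F.1 i j ≤ ∑ j ∈ Finset.range n, F.1 i j :=
    Finset.single_le_sum (f := fun j => F.1 i j) (fun _ _ => Nat.zero_le _)
      (Finset.mem_range.2 j.2)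
  have h2 : ∑ j ∈ Finset.range n, F.1 i j ≤
      ∑ i ∈ Finset.range n, ∑ j ∈ Finset.range n, F.1 i j :=
    Finset.single_le_sum (f := fun i => ∑ j ∈ Finset.range n, F.1 i j)
      (fun _ _ => Nat.zero_le _) (Finset.mem_range.2 i.2)
  omega

theorem arrays (n : ℕ) :
    Nat.card {f : Fin n → Fin n → Fin (n + 1) //
        (∀ i i' j j' : Fin n, i ≤ i' → j ≤ j' → f i' j' ≤ f i j) ∧
        ∑ i, ∑ j, (f i j).val = n} =
      Nat.card {f : Box n // ∑ i ∈ Finset.range n, ∑ j ∈ Finset.range n, f.1 i j = n} := by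
  refine Nat.card_congr
    { toFun := fun f => ⟨⟨mkExt f.1, mk_box f.1 f.2.1⟩, ?_⟩
      invFun := fun F => ⟨fun i j => ⟨F.1.1 i j, mk_le F.1 F.2 i j⟩, ?_, ?_⟩
      left_inv := ?_
      right_inv := ?_ }
  · rw [mk_sum]
    refine Eq.trans ?_ f.2.2
    refine Finset.sum_congr rfl fun i _ => Finset.sum_congr rfl fun j _ => ?_
    exact mk_ext_pos f.1 i.2 j.2
  · intro i i' j j' hi hj
    show F.1.1 i' j' ≤ F.1.1 i j
    have h1 : Antitone fun i => F.1.1 i (j' : ℕ) := antitone_nat_of_succ_le fun i => F.1.2.1 i j'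
    have h2 : Antitone fun j => F.1.1 (i : ℕ) j := antitone_nat_of_succ_le fun j => F.1.2.2.1 i j
    exact (h1 (show (i : ℕ) ≤ i' from hi)).trans (h2 (show (j : ℕ) ≤ j' from hj))
  · have h := F.2
    rw [mk_sum] at h
    exact h
  · intro f
    apply Subtype.ext
    funext i j
    apply Fin.ext
    exact mk_ext_pos f.1 i.2 j.2
  · intro F
    apply Subtype.ext
    apply Subtype.ext
    funext i j
    show mkExt _ i j = F.1.1 i j
    by_cases h : i < n ∧ j < n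
    · rw [mk_ext_pos _ h.1 h.2]
    · rw [mk_ext_neg _ h, F.1.2.2.2 i j (by omega)]

end Pool.Agent.MP7629b0.Mac
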