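import Pool.Agent.Lib.MP_7629b0_nt.MacI
import Pool.Agent.Lib.MP_7629b0_nt.MacJ
import Pool.Agent.Lib.MP_7629b0_nt.MacK

/-!
# MacMahon's theorem

The number of plane partitions of `n` is the coefficient of `q^n` in `∏_{k ≥ 1} (1 - q^k)^{-k}`.
-/

namespace Pool.Agent.MP7629b0.Mac

theorem macmahon (n : ℕ) :
    Nat.card {f : Fin n → Fin n → Fin (n + 1) //
        (∀ i i' j j' : Fin n, i ≤ i' → j ≤ j' → f i' j' ≤ f i j) ∧
        ∑ i, ∑ j, (f i j).val = n} = pl n := by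
  rw [arrays, box_count, coeff_box]

end Pool.Agent.MP7629b0.Mac
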