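import Pool.Agent.Lib.MP_7629b0_nt.Defs

/-!
# PPP (MP_7629b0_nt): from windows to all intervals
-/

namespace Pool.Agent.MP7629b0

/-- number of elements of `P` in `[N, N + Y]` -/
noncomputable def RES_f (P : ℕ → Prop) (N Y : ℕ) : ℕ :=
  Set.ncard {n : ℕ | N ≤ n ∧ n ≤ N + Y ∧ P n}

theorem RES_fin (P : ℕ → Prop) (N Y : ℕ) : {n : ℕ | N ≤ n ∧ n ≤ N + Y ∧ P n}.Finite :=
  (Set.finite_Iic (N + Y)).subset fun _ hx => hx.2.1

theorem RES_f_shift (P : ℕ → Prop) (N Y : ℕ) :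
    RES_f P N Y = Set.ncard {x : ℕ | x ≤ Y ∧ P (N + x)} := by
  unfold RES_f
  have h : {n : ℕ | N ≤ n ∧ n ≤ N + Y ∧ P n} = (fun x => N + x) '' {x : ℕ | x ≤ Y ∧ P (N + x)} := by
    ext n
    constructor
    · rintro ⟨h1, h2, h3⟩
      exact ⟨n - N, ⟨by omega, by rwa [Nat.add_sub_cancel' h1]⟩, by simp; omega⟩
    · rintro ⟨x, ⟨h1, h2⟩, rfl⟩
      exact ⟨by simp, by simpa using h1, h2⟩
  rw [h, Set.ncard_image_of_injective _ (add_right_injective N)]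

theorem RES_f_split (P : ℕ → Prop) (N Y Z : ℕ) (h : Z < Y) :
    RES_f P N Y ≤ RES_f P N Z + RES_f P (N + Z + 1) (Y - Z - 1) := by
  unfold RES_f
  refine le_trans (Set.ncard_le_ncard ?_ ((RES_fin P N Z).union (RES_fin P (N + Z + 1) (Y - Z - 1))))
    (Set.ncard_union_le _ _)
  rintro n ⟨h1, h2, h3⟩
  by_cases hn : n ≤ N + Z
  · exact Or.inl ⟨h1, hn, h3⟩
  · exact Or.inr ⟨by omega, by omega, h3⟩

theorem RES_f_le (P : ℕ → Prop) (N Y : ℕ) : RES_f P N Y ≤ Y + 1 := by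
  rw [RES_f_shift]
  calc Set.ncard {x : ℕ | x ≤ Y ∧ P (N + x)} ≤ Set.ncard (Set.Iic Y) :=
        Set.ncard_le_ncard (fun x hx => hx.1) (Set.finite_Iic Y)
    _ = Y + 1 := by
        rw [← Nat.card_coe_set_eq]
        simp

theorem RES_main (P : ℕ → Prop) (C : ℝ) (N0 : ℕ)
    (hw : ∀ N : ℕ, N0 ≤ N → (Set.ncard {x : ℕ | x ≤ Hn N ∧ P (N + x)} : ℝ) ≤
      C * (N : ℝ) ^ ((2 : ℝ) / 3)) :
    ∃ C' : ℝ, ∀ X Y : ℕ, 1 ≤ X → Y ≤ X →
      (Set.ncard {n : ℕ | X ≤ n ∧ n ≤ X + Y ∧ P n} : ℝ) ≤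
        C' * ((X : ℝ) ^ ((2 : ℝ) / 3) + Y * (X : ℝ) ^ (-(1 : ℝ) / 10 ^ 10)) := by
  set C1 : ℝ := max C 0 with hC1
  have hC10 : 0 ≤ C1 := le_max_right _ _
  refine ⟨2 * C1 + (2 * N0 + 1), ?_⟩
  intro X Y hX hY
  have hXr : (1 : ℝ) ≤ X := by exact_mod_cast hX
  have hX0 : (0 : ℝ) < X := by linarith
  have hA1 : 1 ≤ (X : ℝ) ^ ((2 : ℝ) / 3) := Real.one_le_rpow hXr (by norm_num)
  have hB0 : 0 ≤ (Y : ℝ) * (X : ℝ) ^ (-(1 : ℝ) / 10 ^ 10) := by positivity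
  rcases lt_or_ge X N0 with hsmall | hlarge
  · have h1 : (Set.ncard {n : ℕ | X ≤ n ∧ n ≤ X + Y ∧ P n} : ℝ) ≤ Y + 1 := by
      exact_mod_cast RES_f_le P X Y
    have h2 : (Y : ℝ) ≤ N0 := by exact_mod_cast hY.trans hsmall.le
    calc (Set.ncard {n : ℕ | X ≤ n ∧ n ≤ X + Y ∧ P n} : ℝ) ≤ (2 * N0 + 1) * 1 := by
          have : (0 : ℝ) ≤ N0 := Nat.cast_nonneg _
          linarith
      _ ≤ (2 * C1 + (2 * N0 + 1)) *
          ((X : ℝ) ^ ((2 : ℝ) / 3) + Y * (X : ℝ) ^ (-(1 : ℝ) / 10 ^ 10)) := by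
          apply mul_le_mul (by linarith) (by linarith) (by norm_num) (by positivity)
  · -- the covering argument
    set h : ℝ := (X : ℝ) ^ ((2 : ℝ) / 3 + 1 / 10 ^ 10) with hh
    have hh0 : 0 < h := by positivity
    have key : ∀ Y N : ℕ, X ≤ N → N + Y ≤ 2 * X →
        (RES_f P N Y : ℝ) ≤ C1 * ((2 * X : ℝ) ^ ((2 : ℝ) / 3)) * (1 + Y / h) := by
      intro Y
      induction Y using Nat.strong_induction_on with
      | _ Y ih =>
        intro N hN hNY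
        have hNr : (X : ℝ) ≤ N := by exact_mod_cast hN
        have hN2 : (N : ℝ) ≤ 2 * X := by
          have : N ≤ 2 * X := by omega
          exact_mod_cast this
        have hwin : (RES_f P N (Hn N) : ℝ) ≤ C1 * ((2 * X : ℝ) ^ ((2 : ℝ) / 3)) := by
          rw [RES_f_shift]
          refine (hw N (hlarge.trans hN)).trans ?_
          have h1 : (N : ℝ) ^ ((2 : ℝ) / 3) ≤ (2 * X : ℝ) ^ ((2 : ℝ) / 3) :=
            Real.rpow_le_rpow (by positivity) hN2 (by norm_num)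
          exact mul_le_mul (le_max_left _ _) h1 (by positivity) hC10
        rcases le_or_gt Y (Hn N) with hle | hgt
        · have h1 : RES_f P N Y ≤ RES_f P N (Hn N) := by
            unfold RES_f
            exact Set.ncard_le_ncard (fun n hn => ⟨hn.1, by have := hn.2.1; omega, hn.2.2⟩)
              (RES_fin P N (Hn N))
          have h2 : (RES_f P N Y : ℝ) ≤ RES_f P N (Hn N) := by exact_mod_cast h1
          have h3 : (1 : ℝ) ≤ 1 + Y / h := by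
            have : 0 ≤ (Y : ℝ) / h := by positivity
            linarith
          calc (RES_f P N Y : ℝ) ≤ C1 * ((2 * X : ℝ) ^ ((2 : ℝ) / 3)) := h2.trans hwin
            _ ≤ _ := le_mul_of_one_le_right (by positivity) h3
        · have h1 := RES_f_split P N Y (Hn N) hgt
          have h2 := ih (Y - Hn N - 1) (by omega) (N + Hn N + 1) (by omega) (by omega)
          have h3 : (RES_f P N Y : ℝ) ≤
              RES_f P N (Hn N) + RES_f P (N + Hn N + 1) (Y - Hn N - 1) := by exact_mod_cast h1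
          have h4 : h ≤ (Hn N : ℝ) + 1 := by
            have h5 : (N : ℝ) ^ ((2 : ℝ) / 3 + 1 / 10 ^ 10) < (Hn N : ℝ) + 1 :=
              Nat.lt_floor_add_one _
            have h6 : h ≤ (N : ℝ) ^ ((2 : ℝ) / 3 + 1 / 10 ^ 10) :=
              Real.rpow_le_rpow hX0.le hNr (by norm_num)
            linarith
          have h7 : ((Y - Hn N - 1 : ℕ) : ℝ) = Y - (Hn N + 1) := by
            rw [Nat.sub_sub, Nat.cast_sub (by omega)]
            push_cast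
            ring
          have h8 : 1 + ((Y - Hn N - 1 : ℕ) : ℝ) / h ≤ Y / h := by
            rw [h7, sub_div]
            have : 1 ≤ ((Hn N : ℝ) + 1) / h := by rwa [one_le_div hh0]
            linarith
          have h9 : 0 ≤ C1 * ((2 * X : ℝ) ^ ((2 : ℝ) / 3)) := by positivity
          calc (RES_f P N Y : ℝ) ≤ C1 * ((2 * X : ℝ) ^ ((2 : ℝ) / 3)) +
                C1 * ((2 * X : ℝ) ^ ((2 : ℝ) / 3)) * (1 + ((Y - Hn N - 1 : ℕ) : ℝ) / h) := by
                linarith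
            _ ≤ C1 * ((2 * X : ℝ) ^ ((2 : ℝ) / 3)) +
                C1 * ((2 * X : ℝ) ^ ((2 : ℝ) / 3)) * (Y / h) := by gcongr
            _ = _ := by ring
    have h1 := key Y X le_rfl (by omega)
    have h2 : (2 * X : ℝ) ^ ((2 : ℝ) / 3) ≤ 2 * (X : ℝ) ^ ((2 : ℝ) / 3) := by
      rw [Real.mul_rpow (by norm_num) hX0.le]
      have : (2 : ℝ) ^ ((2 : ℝ) / 3) ≤ 2 := by
        calc (2 : ℝ) ^ ((2 : ℝ) / 3) ≤ 2 ^ (1 : ℝ) :=
              Real.rpow_le_rpow_of_exponent_le (by norm_num) (by norm_num)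
          _ = 2 := by norm_num
      gcongr
    have h3 : (X : ℝ) ^ ((2 : ℝ) / 3) * (1 + Y / h) =
        (X : ℝ) ^ ((2 : ℝ) / 3) + Y * (X : ℝ) ^ (-(1 : ℝ) / 10 ^ 10) := by
      have h4 : (X : ℝ) ^ (-(1 : ℝ) / 10 ^ 10) = (X : ℝ) ^ ((2 : ℝ) / 3) / h := by
        rw [hh, ← Real.rpow_sub hX0]
        congr 1
        norm_num
      rw [h4]
      ring
    calc (Set.ncard {n : ℕ | X ≤ n ∧ n ≤ X + Y ∧ P n} : ℝ)
        ≤ C1 * ((2 * X : ℝ) ^ ((2 : ℝ) / 3)) * (1 + Y / h) := h1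
      _ ≤ C1 * (2 * (X : ℝ) ^ ((2 : ℝ) / 3)) * (1 + Y / h) := by gcongr
      _ = 2 * C1 * ((X : ℝ) ^ ((2 : ℝ) / 3) * (1 + Y / h)) := by ring
      _ = 2 * C1 * ((X : ℝ) ^ ((2 : ℝ) / 3) + Y * (X : ℝ) ^ (-(1 : ℝ) / 10 ^ 10)) := by rw [h3]
      _ ≤ _ := by
          apply mul_le_mul_of_nonneg_right _ (by positivity)
          have : (0 : ℝ) ≤ N0 := Nat.cast_nonneg _
          linarith

end Pool.Agent.MP7629b0
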